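import Pool.Agent.EFX.Targets

set_option autoImplicit false

/-!
# AVG: merging inequality for the product of densities
-/

namespace Pool.Agent.EFX

open Finset

open scoped Classical

noncomputable section

namespace AVG_

/-- the pointwise inequality -/
lemma pw {p q : ℝ} (hp : 0 ≤ p) (hq : 0 ≤ q) :
    (p + q) / 2 - (√p - 1) ^ 2 - (√q - 1) ^ 2 ≤ √(p * q) := by
  rw [Real.sqrt_mul hp]
  have h1 := Real.sq_sqrt hp
  have h2 := Real.sq_sqrt hq
  nlinarith [sq_nonneg (√p - 1 + (√q - 1))]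

end AVG_

open AVG_ in
theorem p_AVG : T_HELB → T_CUT → T_AVG := by
  intro hH hC V _ x y hxy F1 F2 h1 h2
  obtain ⟨hc1, -, hc3⟩ := hC V x y hxy
  have hT : (0 : ℝ) < (Fintype.card ({z : V // z ≠ x} → ZMod 2) : ℝ) := by
    exact_mod_cast Fintype.card_pos
  have hq : ∀ (F : Finset (Gr V)) (g : {z : V // z ≠ x} → ZMod 2), F.Nonempty →
      0 ≤ qd F (cs x y) g := fun F g hF => by
    unfold qd
    exact mul_nonneg (by positivity) ((hH _ _ F (cs x y) hF).1 g)
  have hs1 : ∑ g, qd F1 (cs x y) g = _ := (hH _ _ F1 (cs x y) h1).2.2.1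
  have hs2 : ∑ g, qd F2 (cs x y) g = _ := (hH _ _ F2 (cs x y) h2).2.2.1
  have hinv : Function.Involutive (flip x y) := hc3
  have hfl : ∀ f : ({z : V // z ≠ x} → ZMod 2) → ℝ, ∑ g, f (flip x y g) = ∑ g, f g := fun f =>
    Equiv.sum_comp (hinv.toPerm (flip x y)) f
  have hterm : ∀ g, √(den F1 * den F2) * ((qd F1 (cs x y) g + qd F2 (cs x y) (flip x y g)) / 2 -
      (√(qd F1 (cs x y) g) - 1) ^ 2 - (√(qd F2 (cs x y) (flip x y g)) - 1) ^ 2) ≤
      √(den (cut x y F1 g) * den (cut x y F2 (flip x y g))) := fun g => by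
    rw [hc1, hc1]
    have e : qd F1 (cs x y) g * den F1 * (qd F2 (cs x y) (flip x y g) * den F2) =
        (den F1 * den F2) * (qd F1 (cs x y) g * qd F2 (cs x y) (flip x y g)) := by ring
    have hd : 0 ≤ den F1 * den F2 := by unfold den; positivity
    rw [e, Real.sqrt_mul hd]
    exact mul_le_mul_of_nonneg_left (pw (hq _ _ h1) (hq _ _ h2)) (Real.sqrt_nonneg _)
  rw [le_div_iff₀ hT]
  refine le_trans (le_of_eq ?_) (sum_le_sum fun g _ => hterm g)
  rw [← mul_sum, sum_sub_distrib, sum_sub_distrib, ← sum_div, sum_add_distrib, hs1,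
    hfl (fun g => qd F2 (cs x y) g), hs2, hfl (fun g => (√(qd F2 (cs x y) g) - 1) ^ 2)]
  unfold hel
  field_simp
  ring

end

end Pool.Agent.EFX
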