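import Pool.Agent.EFX.Targets

set_option autoImplicit false
set_option linter.unusedVariables false

namespace Pool.Agent.EFX

open Finset

open scoped Classical

namespace BASE_

theorem close {x : ℝ} {e m : ℕ} (h : x * 2 ^ m ≤ 2 ^ e) (he : e + 2 ≤ m) : x < 1 / 2 := by
  by_contra hx
  push Not at hx
  have h1 : (1 / 2 : ℝ) * 2 ^ m ≤ 2 ^ e := le_trans (mul_le_mul_of_nonneg_right hx (by positivity)) h
  have h2 : (2 : ℝ) ^ (e + 2) ≤ 2 ^ m := pow_le_pow_right₀ (by norm_num) he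
  have h3 : (2 : ℝ) ^ (e + 2) = 4 * 2 ^ e := by ring
  have h4 : (0 : ℝ) < 2 ^ e := by positivity
  linarith

theorem two_choose (n : ℕ) : 2 * n.choose 2 + n = n * n := by
  induction n with
  | zero => rfl
  | succ n ih =>
    rw [Nat.choose_succ_succ' n 1, Nat.choose_one_right]
    nlinarith

theorem two_phi {r j : ℕ} (h : j ≤ r) : 2 * phi r j + j * (j + 1) = 2 * j * r := by
  obtain ⟨s, rfl⟩ : ∃ s, r = j + s := ⟨r - j, by omega⟩
  unfold phi
  have h1 := two_choose (j + s)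
  have h2 := two_choose s
  have h3 : s.choose 2 ≤ (j + s).choose 2 := Nat.choose_le_choose 2 (by omega)
  rw [show j + s - j = s by omega]
  zify [h3] at *
  nlinarith

theorem caseA {l r : ℕ} {a1 a2 M1 M2 : ℝ} (hl : 1 ≤ l) (hr : 40 * l ^ 2 ≤ r) (hM1 : 0 ≤ M1)
    (hM2 : 0 ≤ M2) (hM2' : M2 ≤ 1) (h1 : a1 ≤ 2 ^ (l * r) * M1) (ha2 : 0 ≤ a2)
    (h2 : a2 ≤ 2 ^ (l * r) * M2)
    (h3 : M1 ≤ 2 * 2 ^ (2 * l * (2 * l + 2)) / 2 ^ phi r (2 * l + 2)) : a1 * a2 < 1 / 2 := by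
  have hq : l ≤ l * l := Nat.le_mul_self l
  have hr' : 40 * (l * l) ≤ r := by rw [pow_two] at hr; exact hr
  have hphi := two_phi (r := r) (j := 2 * l + 2) (by omega)
  have e1 : M1 * 2 ^ phi r (2 * l + 2) ≤ 2 * 2 ^ (2 * l * (2 * l + 2)) := by
    rwa [le_div_iff₀ (by positivity)] at h3
  apply close (m := phi r (2 * l + 2)) (e := l * r + l * r + (1 + 2 * l * (2 * l + 2)))
  · have e2 : a1 * a2 ≤ (2 ^ (l * r) * M1) * (2 ^ (l * r) * 1) := by
      apply mul_le_mul h1 _ ha2 (by positivity)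
      exact h2.trans (by gcongr)
    calc a1 * a2 * 2 ^ phi r (2 * l + 2)
        ≤ (2 ^ (l * r) * M1) * (2 ^ (l * r) * 1) * 2 ^ phi r (2 * l + 2) := by gcongr
      _ = 2 ^ (l * r) * 2 ^ (l * r) * (M1 * 2 ^ phi r (2 * l + 2)) := by ring
      _ ≤ 2 ^ (l * r) * 2 ^ (l * r) * (2 * 2 ^ (2 * l * (2 * l + 2))) := by gcongr
      _ = 2 ^ (l * r + l * r + (1 + 2 * l * (2 * l + 2))) := by
        rw [pow_add, pow_add, pow_add, pow_one]
  · have e3 : (2 * l + 2) * (2 * l + 2 + 1) = 4 * (l * l) + 10 * l + 6 := by ring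
    have e4 : 2 * (2 * l + 2) * r = 4 * (l * r) + 4 * r := by ring
    have e5 : 2 * l * (2 * l + 2) = 4 * (l * l) + 4 * l := by ring
    rw [e3, e4] at hphi
    rw [e5]
    omega

theorem caseii {l r k k' : ℕ} {a1 a2 M1 M2 P P' : ℝ} (hl : 1 ≤ l) (hr : 40 * l ^ 2 ≤ r)
    (hk : k ≤ 2 * l + 1) (hk' : k' ≤ 2 * l + 1) (hM1 : 0 ≤ M1) (hM2 : 0 ≤ M2)
    (hP : 0 < P) (hP' : 0 < P') (ha2 : 0 ≤ a2)
    (c1 : a1 ≤ 2 ^ (l * k') * M1 * P') (c2 : a2 ≤ 2 ^ (l * k) * M2 * P)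
    (x2 : M2 * P' ≤ 2 ^ (2 * l * k' + 1))
    (h : M1 * P * 2 ^ (r - 1 - k) ≤ 2 ^ (3 * l * k + 2 * l + 3)) : a1 * a2 < 1 / 2 := by
  have hq : l ≤ l * l := Nat.le_mul_self l
  have hr' : 40 * (l * l) ≤ r := by rw [pow_two] at hr; exact hr
  apply close (m := r - 1 - k) (e := (l * k' + l * k) + (3 * l * k + 2 * l + 3) + (2 * l * k' + 1))
  · have e2 : a1 * a2 ≤ (2 ^ (l * k') * M1 * P') * (2 ^ (l * k) * M2 * P) :=
      mul_le_mul c1 c2 ha2 (by positivity)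
    calc a1 * a2 * 2 ^ (r - 1 - k)
        ≤ (2 ^ (l * k') * M1 * P') * (2 ^ (l * k) * M2 * P) * 2 ^ (r - 1 - k) := by gcongr
      _ = 2 ^ (l * k') * 2 ^ (l * k) * (M1 * P * 2 ^ (r - 1 - k)) * (M2 * P') := by ring
      _ ≤ 2 ^ (l * k') * 2 ^ (l * k) * 2 ^ (3 * l * k + 2 * l + 3) * 2 ^ (2 * l * k' + 1) := by
        gcongr
      _ = 2 ^ ((l * k' + l * k) + (3 * l * k + 2 * l + 3) + (2 * l * k' + 1)) := by
        rw [← pow_add, ← pow_add, ← pow_add]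
  · have e1 : l * k ≤ l * (2 * l + 1) := Nat.mul_le_mul_left l hk
    have e2 : l * k' ≤ l * (2 * l + 1) := Nat.mul_le_mul_left l hk'
    have e3 : l * (2 * l + 1) = 2 * (l * l) + l := by ring
    have e4 : 3 * l * k = 3 * (l * k) := by ring
    have e5 : 2 * l * k' = 2 * (l * k') := by ring
    rw [e4, e5]
    omega

theorem caseiii {l r k k' : ℕ} {a1 a2 M1 M2 P P' : ℝ} (hl : 1 ≤ l) (hr : 40 * l ^ 2 ≤ r)
    (hk : k ≤ 2 * l + 1) (hk' : k' ≤ 2 * l + 1) (hM1 : 0 ≤ M1) (hM2 : 0 ≤ M2)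
    (hP : 0 < P) (hP' : 0 < P') (ha2 : 0 ≤ a2)
    (c1 : a1 ≤ 2 ^ (l * k') * M1 * P')
    (x1 : M1 * P ≤ 2 ^ (2 * l * k + 1)) (x2 : M2 * P' ≤ 2 ^ (2 * l * k' + 1))
    (h : a2 * 2 ^ (r - 1 - k) ≤ 2 ^ (2 * l * k + 1) * M2 * P) : a1 * a2 < 1 / 2 := by
  have hq : l ≤ l * l := Nat.le_mul_self l
  have hr' : 40 * (l * l) ≤ r := by rw [pow_two] at hr; exact hr
  apply close (m := r - 1 - k)
    (e := (l * k' + (2 * l * k + 1)) + (2 * l * k + 1) + (2 * l * k' + 1))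
  · calc a1 * a2 * 2 ^ (r - 1 - k) = a1 * (a2 * 2 ^ (r - 1 - k)) := by ring
      _ ≤ (2 ^ (l * k') * M1 * P') * (2 ^ (2 * l * k + 1) * M2 * P) :=
        mul_le_mul c1 h (by positivity) (by positivity)
      _ = 2 ^ (l * k') * 2 ^ (2 * l * k + 1) * (M1 * P) * (M2 * P') := by ring
      _ ≤ 2 ^ (l * k') * 2 ^ (2 * l * k + 1) * 2 ^ (2 * l * k + 1) * 2 ^ (2 * l * k' + 1) := by
        gcongr
      _ = 2 ^ ((l * k' + (2 * l * k + 1)) + (2 * l * k + 1) + (2 * l * k' + 1)) := by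
        rw [← pow_add, ← pow_add, ← pow_add]
  · have e1 : l * k ≤ l * (2 * l + 1) := Nat.mul_le_mul_left l hk
    have e2 : l * k' ≤ l * (2 * l + 1) := Nat.mul_le_mul_left l hk'
    have e3 : l * (2 * l + 1) = 2 * (l * l) + l := by ring
    have e4 : 2 * l * k = 2 * (l * k) := by ring
    have e5 : 2 * l * k' = 2 * (l * k') := by ring
    rw [e4, e5]
    omega

theorem phi_lower {l r k : ℕ} (hl : 1 ≤ l) (hr : 40 * l ^ 2 ≤ r) (hk : k ≤ 2 * l + 1) :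
    k * r ≤ phi r k + k * (l + 1) := by
  have hq : l ≤ l * l := Nat.le_mul_self l
  have hr' : 40 * (l * l) ≤ r := by rw [pow_two] at hr; exact hr
  have h := two_phi (r := r) (j := k) (by omega)
  have e1 : k * (k + 1) ≤ k * (2 * (l + 1)) := Nat.mul_le_mul_left k (by omega)
  have e2 : k * (2 * (l + 1)) = 2 * (k * (l + 1)) := by ring
  have e3 : 2 * k * r = 2 * (k * r) := by ring
  omega

theorem casei {l r k k' : ℕ} {a1 a2 M1 M2 : ℝ} (hl : 1 ≤ l) (hr : 40 * l ^ 2 ≤ r)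
    (hk : k ≤ 2 * l + 1) (hk' : k' ≤ 2 * l + 1) (hM1 : 0 ≤ M1) (hM2 : 0 ≤ M2) (ha2 : 0 ≤ a2)
    (c1 : a1 ≤ 2 ^ (l * k' + 1) * M1) (c2 : a2 ≤ 2 ^ (l * k + 1) * M2)
    (x1 : M1 * 2 ^ phi r k ≤ 2 ^ (2 * l * k + 1))
    (x2 : M2 * 2 ^ phi r k' ≤ 2 ^ (2 * l * k' + 1)) (hkk : 1 ≤ k + k') : a1 * a2 < 1 / 2 := by
  have hq : l ≤ l * l := Nat.le_mul_self l
  have hr' : 40 * (l * l) ≤ r := by rw [pow_two] at hr; exact hr
  apply close (m := phi r k + phi r k')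
    (e := (l * k' + 1 + (l * k + 1)) + (2 * l * k + 1) + (2 * l * k' + 1))
  · have e2 : a1 * a2 ≤ (2 ^ (l * k' + 1) * M1) * (2 ^ (l * k + 1) * M2) :=
      mul_le_mul c1 c2 ha2 (by positivity)
    calc a1 * a2 * 2 ^ (phi r k + phi r k')
        ≤ (2 ^ (l * k' + 1) * M1) * (2 ^ (l * k + 1) * M2) * 2 ^ (phi r k + phi r k') := by gcongr
      _ = 2 ^ (l * k' + 1) * 2 ^ (l * k + 1) * (M1 * 2 ^ phi r k) * (M2 * 2 ^ phi r k') := by
        rw [pow_add 2 (phi r k)]; ring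
      _ ≤ 2 ^ (l * k' + 1) * 2 ^ (l * k + 1) * 2 ^ (2 * l * k + 1) * 2 ^ (2 * l * k' + 1) := by
        gcongr
      _ = 2 ^ ((l * k' + 1 + (l * k + 1)) + (2 * l * k + 1) + (2 * l * k' + 1)) := by
        rw [← pow_add, ← pow_add, ← pow_add]
  · have f1 := phi_lower hl hr hk
    have f2 := phi_lower hl hr hk'
    have f3 : (k + k') * (4 * l + 1 + (5 + 4 * l + 1)) ≤ (k + k') * r :=
      Nat.mul_le_mul_left _ (by omega)
    have f4 : 1 * (5 + 4 * l + 1) ≤ (k + k') * (5 + 4 * l + 1) := Nat.mul_le_mul_right _ hkk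
    have g1 : (k + k') * (4 * l + 1 + (5 + 4 * l + 1)) =
      4 * (l * k) + 4 * (l * k') + k + k' + (k + k') * (5 + 4 * l + 1) := by ring
    have g2 : (k + k') * r = k * r + k' * r := by ring
    have g3 : k * (l + 1) = l * k + k := by ring
    have g4 : k' * (l + 1) = l * k' + k' := by ring
    have e4 : 2 * l * k = 2 * (l * k) := by ring
    have e5 : 2 * l * k' = 2 * (l * k') := by ring
    rw [e4, e5]
    rw [g3] at f1
    rw [g4] at f2
    rw [g1, g2] at f3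
    omega

theorem exists_max {V : Type} [Fintype V] (r : ℕ) (F : Finset (Gr V)) (S : Finset V)
    (hS : S.card = r) : ∃ (I : Finset V) (K : Gr V), I.card = r ∧
      ∀ (J : Finset V) (K' : Gr V), J.card = r → rel r F J K' ≤ rel r F I K := by
  obtain ⟨p, hp, hmax⟩ := Finset.exists_max_image
    ((univ : Finset (Finset V × Gr V)).filter (fun p => p.1.card = r))
    (fun p => rel r F p.1 p.2) ⟨(S, fun _ => 0), by simp [hS]⟩
  refine ⟨p.1, p.2, (Finset.mem_filter.1 hp).2, fun J K' hJ => ?_⟩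
  exact hmax (J, K') (Finset.mem_filter.2 ⟨Finset.mem_univ _, hJ⟩)

theorem exists_cov {V : Type} (r : ℕ) (F2 : Finset (Gr V)) (I : Finset V) (K : Gr V) :
    ∃ k, Cov F2 I K k := by
  have hex : ∃ k, ∀ G ∈ F2, ∃ T ⊆ I, T.card = k ∧ Ag (I \ T) G K := by
    refine ⟨I.card, fun G _ => ⟨I, Finset.Subset.refl I, rfl, ?_⟩⟩
    intro x hx
    rw [Finset.sdiff_self] at hx
    exact absurd hx (Finset.notMem_empty x)
  refine ⟨Nat.find hex, Nat.find_spec hex, fun k' hk' => Nat.find_min hex hk'⟩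

theorem XA_symm {V : Type} {r : ℕ} {F1 F2 : Finset (Gr V)} (h : XA r F1 F2) : XA r F2 F1 := by
  intro G hG H hH
  obtain ⟨S, hS, hA⟩ := h H hH G hG
  exact ⟨S, hS, fun x hx y hy => (hA x hx y hy).symm⟩

end BASE_

open BASE_ in
theorem p_BASE (h1 : T_CARD) (h2 : T_COVM) (h3 : T_COVB) (h4 : T_DIR) : T_BASE := by
  intro V _ l r F1 F2 hl hr hV hXA hden
  have hdl : 0 < dl r := by unfold dl; positivity
  have hpos : 0 < den F1 * den F2 := lt_of_lt_of_le (by positivity) hden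
  have hF1 : F1.Nonempty := by
    rw [Finset.nonempty_iff_ne_empty]
    rintro rfl
    simp [den] at hpos
  have hF2 : F2.Nonempty := by
    rw [Finset.nonempty_iff_ne_empty]
    rintro rfl
    simp [den] at hpos
  obtain ⟨G1, hG1⟩ := hF1
  obtain ⟨G2, hG2⟩ := hF2
  have hF1 : F1.Nonempty := ⟨G1, hG1⟩
  have hF2 : F2.Nonempty := ⟨G2, hG2⟩
  obtain ⟨S, hS, -⟩ := hXA G1 hG1 G2 hG2
  obtain ⟨I1, K1, hI1, hm1⟩ := exists_max r F1 S hS
  obtain ⟨I2, K2, hI2, hm2⟩ := exists_max r F2 S hS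
  obtain ⟨k, hk⟩ := exists_cov r F2 I1 K1
  obtain ⟨k', hk'⟩ := exists_cov r F1 I2 K2
  have hXA' := XA_symm hXA
  obtain ⟨-, -, -, -, hrel⟩ := h1 V
  have hM1 := hrel r F1 I1 K1 hI1
  have hM2 := hrel r F2 I2 K2 hI2
  set M1 := rel r F1 I1 K1 with hM1def
  set M2 := rel r F2 I2 K2 with hM2def
  have ha1 : 0 ≤ den F1 / dl r := by unfold den; positivity
  have ha2 : 0 ≤ den F2 / dl r := by unfold den; positivity
  have hprod : 1 / 2 ≤ den F1 / dl r * (den F2 / dl r) := by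
    rw [div_mul_div_comm, le_div_iff₀ (by positivity)]
    calc 1 / 2 * (dl r * dl r) = dl r ^ 2 / 2 := by ring
      _ ≤ _ := hden
  obtain ⟨b1, b2⟩ := h3 V l r k F1 F2 I1 K1 M2 hl hr hV hXA hF1 hF2 hI1 hk hm2
  obtain ⟨b1', b2'⟩ := h3 V l r k' F2 F1 I2 K2 M1 hl hr hV hXA' hF2 hF1 hI2 hk' hm1
  have hkle : k ≤ 2 * l + 1 := by
    by_contra hcon
    have e := h2 V l r k (2 * l + 2) F1 F2 I1 K1 hl hr hV hXA hF2 hI1 hk (by omega) le_rfl
    have := caseA hl hr hM1.1 hM2.1 hM2.2 b1' ha2 b1 e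
    linarith
  have hk'le : k' ≤ 2 * l + 1 := by
    by_contra hcon
    have e := h2 V l r k' (2 * l + 2) F2 F1 I2 K2 hl hr hV hXA' hF1 hI2 hk' (by omega) le_rfl
    have := caseA hl hr hM2.1 hM1.1 hM1.2 b1 ha1 b1' e
    rw [mul_comm] at hprod
    linarith
  have x1 : M1 * 2 ^ phi r k ≤ 2 ^ (2 * l * k + 1) := by
    have e := h2 V l r k k F1 F2 I1 K1 hl hr hV hXA hF2 hI1 hk le_rfl (by omega)
    rw [← hM1def, le_div_iff₀ (by positivity)] at e
    calc _ ≤ _ := e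
      _ = _ := by rw [pow_succ]; ring
  have x2 : M2 * 2 ^ phi r k' ≤ 2 ^ (2 * l * k' + 1) := by
    have e := h2 V l r k' k' F2 F1 I2 K2 hl hr hV hXA' hF1 hI2 hk' le_rfl (by omega)
    rw [← hM2def, le_div_iff₀ (by positivity)] at e
    calc _ ≤ _ := e
      _ = _ := by rw [pow_succ]; ring
  have hP : (0 : ℝ) < 2 ^ phi r k := by positivity
  have hP' : (0 : ℝ) < 2 ^ phi r k' := by positivity
  have d1 : den F2 / dl r ≤ (2 : ℝ) ^ (l * k + 1) * M2 := by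
    rcases h4 V l r k F1 F2 I1 K1 M2 hl hr hV hXA hF1 hF2 hI1 hk hkle hm2 with h | h | h
    · exact h
    · exfalso
      have := caseii hl hr hkle hk'le hM1.1 hM2.1 hP hP' ha2 b2' b2 x2 (by
        rw [← hM1def, le_div_iff₀ (by positivity), pow_add 2 (phi r k)] at h
        calc _ = _ := by ring
          _ ≤ _ := h)
      linarith
    · exfalso
      have := caseiii hl hr hkle hk'le hM1.1 hM2.1 hP hP' ha2 b2' x1 x2 (by
        rwa [le_div_iff₀ (by positivity)] at h)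
      linarith
  have d2 : den F1 / dl r ≤ (2 : ℝ) ^ (l * k' + 1) * M1 := by
    rcases h4 V l r k' F2 F1 I2 K2 M1 hl hr hV hXA' hF2 hF1 hI2 hk' hk'le hm1 with h | h | h
    · exact h
    · exfalso
      have := caseii hl hr hk'le hkle hM2.1 hM1.1 hP' hP ha1 b2 b2' x1 (by
        rw [← hM2def, le_div_iff₀ (by positivity), pow_add 2 (phi r k')] at h
        calc _ = _ := by ring
          _ ≤ _ := h)
      rw [mul_comm] at hprod
      linarith
    · exfalso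
      have := caseiii hl hr hk'le hkle hM2.1 hM1.1 hP' hP ha1 b2 x2 x1 (by
        rwa [le_div_iff₀ (by positivity)] at h)
      rw [mul_comm] at hprod
      linarith
  have hkk : k = 0 ∧ k' = 0 := by
    by_contra hcon
    have := casei hl hr hkle hk'le hM1.1 hM2.1 ha2 d2 d1 x1 x2 (by omega)
    linarith
  obtain ⟨rfl, rfl⟩ := hkk
  have hc2 : ∀ G ∈ F2, Ag I1 G K1 := by
    intro G hG
    obtain ⟨T, hT, hT0, hA⟩ := hk.1 G hG
    rw [Finset.card_eq_zero] at hT0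
    rw [hT0, Finset.sdiff_empty] at hA
    exact hA
  have hc1 : ∀ G ∈ F1, Ag I2 G K2 := by
    intro G hG
    obtain ⟨T, hT, hT0, hA⟩ := hk'.1 G hG
    rw [Finset.card_eq_zero] at hT0
    rw [hT0, Finset.sdiff_empty] at hA
    exact hA
  refine ⟨I2, K2, hI2, hc1, ?_⟩
  have e1 : rel r F2 I1 K1 = den F2 / dl r := by
    unfold rel
    rw [Finset.filter_true_of_mem hc2]
  have e2 := hm2 I1 K1 hI1
  rw [e1] at e2
  have hcG : (0 : ℝ) < (Fintype.card (Gr V) : ℝ) := by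
    have : 0 < Fintype.card (Gr V) := Fintype.card_pos_iff.2 ⟨G1⟩
    exact_mod_cast this
  have e3 : (F2.card : ℝ) ≤ ((F2.filter (fun G => Ag I2 G K2)).card : ℝ) := by
    have e4 : den F2 / dl r ≤ den (F2.filter (fun G => Ag I2 G K2)) / dl r := e2
    rw [div_le_div_iff_of_pos_right hdl] at e4
    unfold den at e4
    rwa [div_le_div_iff_of_pos_right hcG] at e4
  have e5 : F2.filter (fun G => Ag I2 G K2) = F2 :=
    Finset.eq_of_subset_of_card_le (Finset.filter_subset _ _) (by exact_mod_cast e3)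
  intro G hG
  rw [← e5] at hG
  exact (Finset.mem_filter.1 hG).2

end Pool.Agent.EFX
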