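import Pool.Agent.EFX.Targets

/-!
# The base of the gap induction
-/

namespace Pool.Agent.EFX

open Finset

open scoped Classical

noncomputable section

namespace BDB_

theorem dl_pos (r : ℕ) : 0 < dl r := by
  unfold dl
  positivity

theorem sqrt_le_mul {P d s : ℝ} (hd : 0 < d) (hs : 0 ≤ s) (h : P ≤ s ^ 2 * d ^ 2) :
    √P ≤ s * d := by
  rw [← Real.sqrt_sq (mul_nonneg hs hd.le), mul_pow]
  exact Real.sqrt_le_sqrt h

theorem den_eq {V : Type} [Fintype V] (r : ℕ) (F : Finset (Gr V)) (R : Finset V) (K : Gr V)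
    (h : ∀ G ∈ F, Ag R G K) : den F = rel r F R K * dl r := by
  have : F.filter (fun G => Ag R G K) = F := Finset.filter_true_of_mem h
  unfold rel
  rw [this, div_mul_cancel₀ _ (dl_pos r).ne']

end BDB_

open BDB_ in
/-- BDB -/
theorem p_BDB : T_CARD → T_BASE → T_BDB := by
  intro hC hB l r hN V _ F1 F2 hV hX
  obtain ⟨hl, hlr, -, -⟩ := hN
  have hd := dl_pos r
  by_cases hP : dl r ^ 2 / 2 ≤ den F1 * den F2
  · obtain ⟨R, K, hR, h1, h2⟩ := hB V l r F1 F2 (by omega) hlr hV.le hX hP
    obtain ⟨a0, a1⟩ := (hC V).2.2.2.2 r F1 R K hR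
    obtain ⟨b0, b1⟩ := (hC V).2.2.2.2 r F2 R K hR
    rw [den_eq r F1 R K h1, den_eq r F2 R K h2]
    refine ⟨?_, fun hD => ?_⟩
    · have := sqrt_le_mul (P := rel r F1 R K * dl r * (rel r F2 R K * dl r)) (s := 1) hd
        zero_le_one (by
          have h3 : rel r F1 R K * rel r F2 R K ≤ 1 := mul_le_one₀ a1 b0 b1
          nlinarith [sq_nonneg (dl r), mul_le_mul_of_nonneg_right h3 (sq_nonneg (dl r))])
      rwa [one_mul] at this
    · apply sqrt_le_mul hd (by norm_num)
      have h3 : rel r F1 R K * rel r F2 R K ≤ 31 / 32 := by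
        have h4 := hD R K
        unfold Dom at h4
        push Not at h4
        have h5 := h4 hR
        by_cases h6 : 31 / 32 ≤ rel r F1 R K
        · have h7 := h5 h6
          nlinarith
        · push Not at h6
          nlinarith
      nlinarith [sq_nonneg (dl r), mul_le_mul_of_nonneg_right h3 (sq_nonneg (dl r))]
  · push Not at hP
    have h2 : 0 < dl r ^ 2 := by positivity
    refine ⟨?_, fun _ => ?_⟩
    · have := sqrt_le_mul (P := den F1 * den F2) (s := 1) hd zero_le_one (by linarith)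
      rwa [one_mul] at this
    · exact sqrt_le_mul hd (by norm_num) (by nlinarith)

end

end Pool.Agent.EFX
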