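import Pool.Agent.EFX.Targets

set_option autoImplicit false

namespace Pool.Agent.EFX

open Finset

open scoped Classical

namespace BDS_

lemma dl_pos (r : ℕ) : 0 < dl r := by unfold dl; positivity

lemma log_dl (r : ℕ) : Real.log (dl r) = - ((r.choose 2 : ℕ) : ℝ) * Real.log 2 := by
  unfold dl
  rw [Real.log_div one_ne_zero (by positivity), Real.log_one, Real.log_pow]
  ring

lemma choose_real (r : ℕ) : ((r.choose 2 : ℕ) : ℝ) = (r : ℝ) * (r - 1) / 2 := by
  exact Nat.cast_choose_two ℝ r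

lemma den_nonneg {β : Type} [Fintype β] (A : Finset β) : 0 ≤ den A := by
  unfold den; positivity

lemma den_le_one {β : Type} [Fintype β] (A : Finset β) : den A ≤ 1 := by
  unfold den
  apply div_le_one_of_le₀ _ (by positivity)
  exact_mod_cast card_le_univ A

lemma den_pos {β : Type} [Fintype β] {A : Finset β} (h : A.Nonempty) : 0 < den A := by
  unfold den
  have h1 : 0 < A.card := h.card_pos
  have h2 : 0 < Fintype.card β := lt_of_lt_of_le h1 (card_le_univ A)
  positivity

/-- `f (ld B + 1)^2 ≤ (r^2+1)^2` -/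
lemma aux {V : Type} [Fintype V] {r : ℕ} (hr : 4 ≤ r) {B : Finset (Gr V)} (hB : B.Nonempty)
    {f : ℝ} (hf : f = den B / dl r) (hf1 : f ≤ 1) :
    f * (ld B + 1) ^ 2 ≤ ((r : ℝ) ^ 2 + 1) ^ 2 := by
  have hd := dl_pos r
  have hdB := den_pos hB
  have hf0 : 0 < f := by rw [hf]; positivity
  have hlog : ld B = - Real.log f + ((r.choose 2 : ℕ) : ℝ) * Real.log 2 := by
    unfold ld
    have : den B = f * dl r := by rw [hf]; field_simp
    rw [this, Real.log_mul hf0.ne' hd.ne', log_dl]
    ring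
  set u := - Real.log f with hu
  have hu0 : 0 ≤ u := by
    rw [hu]; have := Real.log_nonpos hf0.le hf1; linarith
  set c := ((r.choose 2 : ℕ) : ℝ) * Real.log 2 + 1 with hc
  have hr' : (4 : ℝ) ≤ r := by exact_mod_cast hr
  have hlog2 : (0.69 : ℝ) < Real.log 2 := by have := Real.log_two_gt_d9; linarith
  have hlog2' : Real.log 2 < 0.7 := by have := Real.log_two_lt_d9; linarith
  have hc2 : 2 ≤ c := by
    rw [hc, choose_real]
    have : (6 : ℝ) ≤ (r : ℝ) * (r - 1) / 2 := by nlinarith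
    nlinarith
  have hc3 : c ≤ (r : ℝ) ^ 2 + 1 := by
    rw [hc, choose_real]
    have : (0 : ℝ) ≤ (r : ℝ) * (r - 1) / 2 := by nlinarith
    nlinarith
  have hexp : f = Real.exp (-u) := by
    rw [hu, neg_neg, Real.exp_log hf0]
  have h1 : u + c ≤ c * Real.exp (u / 2) := by
    have := Real.add_one_le_exp (u / 2)
    nlinarith
  have h2 : (u + c) ^ 2 ≤ c ^ 2 * Real.exp u := by
    have h3 : (u + c) ^ 2 ≤ (c * Real.exp (u / 2)) ^ 2 := by
      apply pow_le_pow_left₀ (by linarith) h1
    have h4 : (c * Real.exp (u / 2)) ^ 2 = c ^ 2 * Real.exp u := by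
      rw [mul_pow, ← Real.exp_nat_mul]
      congr 2
      push_cast
      ring
    linarith
  have h5 : ld B + 1 = u + c := by rw [hlog, hc]; ring
  rw [h5, hexp]
  have h6 : Real.exp (-u) * (u + c) ^ 2 ≤ Real.exp (-u) * (c ^ 2 * Real.exp u) :=
    mul_le_mul_of_nonneg_left h2 (Real.exp_pos _).le
  have h7 : Real.exp (-u) * (c ^ 2 * Real.exp u) = c ^ 2 := by
    have : Real.exp (-u) * Real.exp u = 1 := by rw [← Real.exp_add]; simp
    calc Real.exp (-u) * (c ^ 2 * Real.exp u) = (Real.exp (-u) * Real.exp u) * c ^ 2 := by ring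
      _ = c ^ 2 := by rw [this, one_mul]
  have h8 : c ^ 2 ≤ ((r : ℝ) ^ 2 + 1) ^ 2 := pow_le_pow_left₀ (by linarith) hc3 2
  linarith

/-- the final arithmetic -/
lemma finish {p h s θ d : ℝ} (hd : 0 < d) (hh0 : 0 ≤ h) (hh1 : 2 * h ≤ 1)
    (hs : s + θ ≤ 1) (hle : p * (1 - h) ≤ (s + θ) * d) : p ≤ (s + θ + 2 * h) * d := by
  by_contra hcon
  push Not at hcon
  have h1 : (s + θ + 2 * h) * d * (1 - h) < p * (1 - h) := by
    apply mul_lt_mul_of_pos_right hcon
    linarith
  have h2 : (s + θ) * d ≤ (s + θ + 2 * h) * d * (1 - h) := by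
    have : (s + θ) ≤ (s + θ + 2 * h) * (1 - h) := by nlinarith
    nlinarith
  linarith

lemma den_inst {β : Type} (i1 i2 : Fintype β) (A : Finset β) : @den β i1 A = @den β i2 A := by
  rw [Subsingleton.elim i1 i2]

lemma bd_one {V' : Type} [Fintype V'] {r n : ℕ} {s : ℝ} (h : Bd r n s)
    (hc : Fintype.card V' = n) (i : Fintype (Gr V')) (A B : Finset (Gr V')) (hx : XA r A B) :
    √(@den _ i A * @den _ i B) ≤ dl r := by
  have h1 := (h V' A B hc hx).1
  rw [den_inst i _ A, den_inst i _ B]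
  exact h1

lemma bd_two {V' : Type} [Fintype V'] {r n : ℕ} {s : ℝ} (h : Bd r n s)
    (hc : Fintype.card V' = n) (i : Fintype (Gr V')) (A B : Finset (Gr V')) (hx : XA r A B)
    (hno : ∀ R' K', ¬ Dom r A B R' K') :
    √(@den _ i A * @den _ i B) ≤ s * dl r := by
  have h1 := (h V' A B hc hx).2 hno
  rw [den_inst i _ A, den_inst i _ B]
  exact h1

end BDS_

open BDS_

set_option maxHeartbeats 400000 in
theorem p_BDS : T_HELB → T_CARD → T_CUT → T_CYL → T_GP → T_AVG → T_DL → T_STEPA → T_FRAC →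
    T_BDS := by
  intro hHELB hCARD hCUT hCYL hGP hAVG hDL hSTEPA hFRAC l r n s hNum hn hs1 hs2 hBd hlt
  intro V _ F1 F2 hV hXA
  obtain ⟨m, hm⟩ : ∃ m : ℝ, m = ((n + 1 : ℕ) : ℝ) ^ (-(4 / 3) : ℝ) := ⟨_, rfl⟩
  rw [← hm] at hlt ⊢
  have hm0 : 0 ≤ m := by rw [hm]; positivity
  obtain ⟨Q, hQ⟩ : ∃ Q : ℝ, Q = ((r : ℝ) ^ 2 + 1) ^ 2 * m := ⟨_, rfl⟩
  have hQ0 : 0 ≤ Q := by rw [hQ]; positivity
  have hQe : 2000000000 * ((r : ℝ) ^ 2 + 1) ^ 2 * m = 2000000000 * Q := by rw [hQ]; ring
  rw [hQe] at hlt ⊢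
  obtain ⟨hl4, hlr, hrl, hnum⟩ := hNum
  have hr640 : 640 ≤ r := by nlinarith
  have hd := dl_pos r
  have hnV : 2 ^ l ≤ Fintype.card V := by rw [hV]; omega
  by_cases hD : ∃ R K, Dom r F1 F2 R K
  · obtain ⟨R, K, hR, h1, h2⟩ := hD
    have h3 := (hDL V l r F1 F2 R K ⟨hl4, hlr, hrl, hnum⟩ hnV hR hXA (by linarith)
      (by linarith)).1
    refine ⟨?_, fun h => absurd ⟨hR, h1, h2⟩ (h R K)⟩
    rw [Real.sqrt_le_left hd.le]
    exact h3
  push Not at hD
  suffices hmain : √(den F1 * den F2) ≤ (s + 2000000000 * Q) * dl r by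
    refine ⟨?_, fun _ => hmain⟩
    refine hmain.trans ?_
    nlinarith
  by_contra hcon
  push Not at hcon
  -- lower bounds
  have hs'0 : 127 / 128 ≤ s + 2000000000 * Q := by linarith
  have hsq : √(den F1 * den F2) ^ 2 = den F1 * den F2 :=
    Real.sq_sqrt (mul_nonneg (den_nonneg _) (den_nonneg _))
  have hP : dl r ^ 2 / 4 ≤ den F1 * den F2 := by
    have h1 : dl r / 2 ≤ √(den F1 * den F2) := by nlinarith
    rw [← hsq]
    nlinarith
  have hF1 : F1.Nonempty := by
    rw [nonempty_iff_ne_empty]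
    rintro rfl
    have : den (∅ : Finset (Gr V)) = 0 := by simp [den]
    rw [this, zero_mul] at hP
    nlinarith
  have hF2 : F2.Nonempty := by
    rw [nonempty_iff_ne_empty]
    rintro rfl
    have : den (∅ : Finset (Gr V)) = 0 := by simp [den]
    rw [this, mul_zero] at hP
    nlinarith
  have hld : ∀ F : Finset (Gr V), dl r ^ 2 / 4 ≤ den F → (ld F + 1) ^ 2 ≤ ((r : ℝ) ^ 2 + 1) ^ 2 := by
    intro F hF
    have h0 : 0 < dl r ^ 2 / 4 := by positivity
    have h1 : ld F ≤ (r : ℝ) ^ 2 := by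
      unfold ld
      have h2 := Real.log_le_log h0 hF
      rw [Real.log_div (by positivity) (by norm_num), Real.log_pow, log_dl, choose_real] at h2
      have h3 : Real.log 4 = 2 * Real.log 2 := by
        rw [show (4 : ℝ) = 2 ^ 2 by norm_num, Real.log_pow]; push_cast; ring
      have hlog2' : Real.log 2 < 0.7 := by have := Real.log_two_lt_d9; linarith
      have hlog20 : 0 < Real.log 2 := Real.log_pos (by norm_num)
      have hr' : (640 : ℝ) ≤ r := by exact_mod_cast hr640
      push_cast at h2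
      nlinarith
    have h4 : 0 ≤ ld F := by
      unfold ld
      have := Real.log_nonpos (den_nonneg F) (den_le_one F)
      linarith
    exact pow_le_pow_left₀ (by linarith) (by linarith) 2
  have hld1 := hld F1 (by
    have := mul_le_mul_of_nonneg_left (den_le_one F2) (den_nonneg F1)
    linarith)
  have hld2 := hld F2 (by
    have := mul_le_mul_of_nonneg_right (den_le_one F1) (den_nonneg F2)
    linarith)
  obtain ⟨h, hh⟩ : ∃ h : ℝ, h = 800000 * Q := ⟨_, rfl⟩
  have hh0 : 0 ≤ h := by rw [hh]; positivity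
  have hh1 : 2 * h ≤ 1 := by rw [hh]; linarith
  -- good pairs
  have hgood : ∀ (B : Finset (Gr V)) (T : Finset V), B.Nonempty → T.card ≤ r + 1 →
      ∃ x y : V, x ≠ y ∧ x ∉ T ∧ y ∉ T ∧ hel F1 (cs x y) + hel F2 (cs x y) ≤ h ∧
        hel B (cs x y) ≤ 400000 * (ld B + 1) ^ 2 * m := by
    intro B T hB hT
    obtain ⟨x, y, hxy, hx, hy, hi⟩ := hGP V ![F1, F2, B] T (by
      intro i
      fin_cases i
      · exact hF1
      · exact hF2
      · exact hB) (by omega) (by omega)
    refine ⟨x, y, hxy, hx, hy, ?_, ?_⟩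
    · have i1 := hi 0
      have i2 := hi 1
      rw [hV, ← hm] at i1 i2
      simp only [Matrix.cons_val_zero, Matrix.cons_val_one] at i1 i2
      have j1 : 400000 * (ld F1 + 1) ^ 2 * m ≤ 400000 * ((r : ℝ) ^ 2 + 1) ^ 2 * m := by gcongr
      have j2 : 400000 * (ld F2 + 1) ^ 2 * m ≤ 400000 * ((r : ℝ) ^ 2 + 1) ^ 2 * m := by gcongr
      rw [hh, hQ]
      linarith
    · have i3 := hi 2
      rw [hV, ← hm] at i3
      exact i3
  -- the conclusion from the average over the cosets
  have hconc : ∀ (x y : V) (θ : ℝ), x ≠ y → hel F1 (cs x y) + hel F2 (cs x y) ≤ h → 0 ≤ θ →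
      θ + 2 * h ≤ 2000000000 * Q →
      (∑ g, √(den (cut x y F1 g) * den (cut x y F2 (flip x y g)))) ≤
        (s + θ) * dl r * (Fintype.card ({z : V // z ≠ x} → ZMod 2) : ℝ) → False := by
    intro x y θ hxy hel12 hθ hθh hsum
    have h1 := hAVG V x y hxy F1 F2 hF1 hF2
    have hcard : (0 : ℝ) < (Fintype.card ({z : V // z ≠ x} → ZMod 2) : ℝ) := by
      have : 0 < Fintype.card ({z : V // z ≠ x} → ZMod 2) := Fintype.card_pos
      exact_mod_cast this
    have h2 : √(den F1 * den F2) * (1 - h) ≤ (s + θ) * dl r := by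
      calc √(den F1 * den F2) * (1 - h)
          ≤ √(den F1 * den F2) * (1 - hel F1 (cs x y) - hel F2 (cs x y)) := by
            apply mul_le_mul_of_nonneg_left _ (Real.sqrt_nonneg _)
            linarith
        _ ≤ _ := h1
        _ ≤ (s + θ) * dl r := by
            rw [div_le_iff₀ hcard]
            exact hsum
    have h3 := finish hd hh0 hh1 (by linarith) h2
    have h4 : (s + θ + 2 * h) * dl r ≤ (s + 2000000000 * Q) * dl r := by
      apply mul_le_mul_of_nonneg_right _ hd.le
      linarith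
    linarith
  have hcardV' : ∀ x : V, Fintype.card {z : V // z ≠ x} = n := by
    intro x
    have h1 : Fintype.card {z : V // z ≠ x} = Fintype.card V - 1 := by
      rw [Fintype.card_subtype_compl]
      simp
    rw [h1, hV]
    simp
  have hbd1 : ∀ (x y : V) (g : {z : V // z ≠ x} → ZMod 2), x ≠ y →
      √(den (cut x y F1 g) * den (cut x y F2 (flip x y g))) ≤ dl r := by
    intro x y g hxy
    exact bd_one hBd (hcardV' x) _ _ _ ((hCUT V x y hxy).2.1 r F1 F2 g hXA)
  have hbd2 : ∀ (x y : V) (g : {z : V // z ≠ x} → ZMod 2), x ≠ y →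
      (∀ R' K', ¬ Dom r (cut x y F1 g) (cut x y F2 (flip x y g)) R' K') →
      √(den (cut x y F1 g) * den (cut x y F2 (flip x y g))) ≤ s * dl r := by
    intro x y g hxy hno
    exact bd_two hBd (hcardV' x) _ _ _ ((hCUT V x y hxy).2.1 r F1 F2 g hXA) hno
  -- case 1
  by_cases hall : ∀ x y : V, x ≠ y ∧ hel F1 (cs x y) + hel F2 (cs x y) ≤ h →
      ∃ g R' K', Dom r (cut x y F1 g) (cut x y F2 (flip x y g)) R' K'
  swap
  · push Not at hall
    obtain ⟨x, y, ⟨hxy, hel12⟩, hno⟩ := hall
    apply hconc x y 0 hxy hel12 le_rfl (by rw [hh]; linarith)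
    calc (∑ g, √(den (cut x y F1 g) * den (cut x y F2 (flip x y g))))
        ≤ ∑ g : {z : V // z ≠ x} → ZMod 2, s * dl r :=
          sum_le_sum (fun g _ => hbd2 x y g hxy (hno g))
      _ = _ := by
          rw [sum_const, card_univ, nsmul_eq_mul]
          ring
  -- case 2
  obtain ⟨R, K, hR, hRK⟩ := hSTEPA V r F1 F2
    (fun x y => x ≠ y ∧ hel F1 (cs x y) + hel F2 (cs x y) ≤ h) (by omega) hXA
    (fun x y hxy => hxy.1)
    (fun T hT => by
      obtain ⟨x, y, h1, h2, h3, h4, _⟩ := hgood F1 T hF1 hT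
      exact ⟨x, y, h2, h3, h1, h4⟩) hall
  have hf1 := hCARD V |>.2.2.2.2 r F1 R K hR
  have hf2 := hCARD V |>.2.2.2.2 r F2 R K hR
  by_cases hbig : 15 / 16 ≤ rel r F1 R K ∧ 15 / 16 ≤ rel r F2 R K
  · obtain ⟨hb1, hb2⟩ := hbig
    obtain ⟨-, h1, h2⟩ := hDL V l r F1 F2 R K ⟨hl4, hlr, hrl, hnum⟩ hnV hR hXA (by linarith)
      (by linarith)
    have hpow : (1 : ℝ) / 2 ^ r ≤ 1 / 1024 := by
      apply one_div_le_one_div_of_le (by norm_num)
      calc (1024 : ℝ) = 2 ^ 10 := by norm_num
        _ ≤ 2 ^ r := pow_le_pow_right₀ (by norm_num) (by omega)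
    have hpow0 : (0 : ℝ) < 1 / 2 ^ r := by positivity
    have hND := hD R K
    unfold Dom at hND
    have hlt2 : rel r F1 R K < 31 / 32 ∨ rel r F2 R K < 31 / 32 := by
      by_contra hno
      push Not at hno
      exact hND ⟨hR, hno.1, hno.2⟩
    have h3 : den F1 * den F2 ≤ ((31 / 32 + 1 / 1024) * (1 + 1 / 1024)) * dl r ^ 2 := by
      have e1 : den F1 * den F2 ≤ ((rel r F1 R K + 1 / 2 ^ r) * dl r) *
          ((rel r F2 R K + 1 / 2 ^ r) * dl r) := by
        apply mul_le_mul h1 h2 (den_nonneg _)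
        have : 0 ≤ rel r F1 R K + 1 / 2 ^ r := by linarith [hf1.1]
        positivity
      have e2 : (rel r F1 R K + 1 / 2 ^ r) * (rel r F2 R K + 1 / 2 ^ r) ≤
          (31 / 32 + 1 / 1024) * (1 + 1 / 1024) := by
        rcases hlt2 with h4 | h4
        · apply mul_le_mul (by linarith) (by linarith [hf2.2]) (by linarith [hf2.1]) (by norm_num)
        · have : (31 / 32 + 1 / 1024 : ℝ) * (1 + 1 / 1024) = (1 + 1 / 1024) * (31 / 32 + 1 / 1024) :=
            mul_comm _ _
          rw [this]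
          apply mul_le_mul (by linarith [hf1.2]) (by linarith) (by linarith [hf2.1]) (by norm_num)
      calc den F1 * den F2 ≤ _ := e1
        _ = ((rel r F1 R K + 1 / 2 ^ r) * (rel r F2 R K + 1 / 2 ^ r)) * dl r ^ 2 := by ring
        _ ≤ _ := mul_le_mul_of_nonneg_right e2 (by positivity)
    have h5 : (127 / 128 * dl r) ^ 2 < den F1 * den F2 := by
      rw [← hsq]
      apply pow_lt_pow_left₀ _ (by positivity) (by norm_num)
      have : 127 / 128 * dl r ≤ (s + 2000000000 * Q) * dl r :=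
        mul_le_mul_of_nonneg_right hs'0 hd.le
      linarith
    have h6 : 0 < dl r ^ 2 := by positivity
    nlinarith
  -- one of the relative densities is smaller than 15/16
  have key : ∀ (F : Finset (Gr V)) (φ : ∀ (x y : V), ({z : V // z ≠ x} → ZMod 2) →
      ({z : V // z ≠ x} → ZMod 2)), (∀ x y g, φ x y (φ x y g) = g) →
      rel r F R K < 15 / 16 → (∀ x y, (x ≠ y ∧ hel F1 (cs x y) + hel F2 (cs x y) ≤ h) →
        x ∉ R → y ∉ R → ∀ g R' K',
        Dom r (cut x y F1 g) (cut x y F2 (flip x y g)) R' K' →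
        31 / 32 ≤ rel r (cut x y F (φ x y g)) (R.subtype (fun z => z ≠ x)) (rst x K)) → False := by
    intro F φ hφ hrel hdense
    by_cases hB : (F.filter (fun G => Ag R G K)).Nonempty
    swap
    · -- empty
      rw [not_nonempty_iff_eq_empty] at hB
      obtain ⟨x, y, hxy, hx, hy, hel12, _⟩ := hgood F1 R hF1 (by omega)
      obtain ⟨g, R', K', hdom⟩ := hall x y ⟨hxy, hel12⟩
      have h1 := hdense x y ⟨hxy, hel12⟩ hx hy g R' K' hdom
      have h2 := (hCYL V x y R hxy hx hy).2.2 F K (φ x y g)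
      unfold rel at h1
      rw [h2, hB] at h1
      have h3 : cut x y (∅ : Finset (Gr V)) (φ x y g) = ∅ := by simp [cut]
      rw [h3] at h1
      simp [den] at h1
      norm_num at h1
    · obtain ⟨B, hBdef⟩ : ∃ B, B = F.filter (fun G => Ag R G K) := ⟨_, rfl⟩
      rw [← hBdef] at hB
      obtain ⟨x, y, hxy, hx, hy, hel12, helB⟩ := hgood B R hB (by omega)
      have hfr := hFRAC V r F R K x y _ hxy hx hy hR (hBdef ▸ hB) hrel (hBdef ▸ helB)
      obtain ⟨N, hN⟩ : ∃ N : ℝ, N = (Fintype.card ({z : V // z ≠ x} → ZMod 2) : ℝ) := ⟨_, rfl⟩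
      have hN0 : 0 ≤ N := by rw [hN]; positivity
      have haux : rel r F R K * (ld B + 1) ^ 2 ≤ ((r : ℝ) ^ 2 + 1) ^ 2 :=
        aux (by omega) hB (by rw [hBdef]; rfl) ((hCARD V).2.2.2.2 r F R K hR).2
      rw [← hBdef, ← hN] at hfr
      obtain ⟨DD, hDD⟩ : ∃ DD : Finset ({z : V // z ≠ x} → ZMod 2), DD = univ.filter (fun g =>
        31 / 32 ≤ rel r (cut x y F g) (R.subtype (fun z => z ≠ x)) (rst x K)) := ⟨_, rfl⟩
      rw [← hDD] at hfr
      have hfr2 : (DD.card : ℝ) ≤ 1638400000 * Q * N := by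
        refine hfr.trans ?_
        have e1 : 4096 * rel r F R K * (400000 * (ld B + 1) ^ 2 * m) =
            1638400000 * (rel r F R K * (ld B + 1) ^ 2) * m := by ring
        rw [e1, hQ]
        have e2 : 1638400000 * (rel r F R K * (ld B + 1) ^ 2) * m ≤
            1638400000 * (((r : ℝ) ^ 2 + 1) ^ 2) * m := by gcongr
        have e3 : 1638400000 * (((r : ℝ) ^ 2 + 1) ^ 2 * m) =
            1638400000 * (((r : ℝ) ^ 2 + 1) ^ 2) * m := by ring
        rw [e3]
        exact mul_le_mul_of_nonneg_right e2 hN0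
      have hDDφ : ((univ.filter (fun g => φ x y g ∈ DD)).card : ℝ) = DD.card := by
        norm_cast
        apply card_bij (fun g _ => φ x y g)
        · intro g hg
          exact (mem_filter.1 hg).2
        · intro g1 _ g2 _ h12
          rw [← hφ x y g1, h12, hφ]
        · intro g hg
          exact ⟨φ x y g, mem_filter.2 ⟨mem_univ _, by rw [hφ]; exact hg⟩, hφ x y g⟩
      apply hconc x y (1638400000 * Q) hxy hel12 (by positivity) (by rw [hh]; linarith)
      rw [← hN]
      calc (∑ g, √(den (cut x y F1 g) * den (cut x y F2 (flip x y g))))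
          ≤ ∑ g : {z : V // z ≠ x} → ZMod 2, (s * dl r + if φ x y g ∈ DD then dl r else 0) := by
            apply sum_le_sum
            intro g _
            by_cases hg : φ x y g ∈ DD
            · rw [if_pos hg]
              have h1 := hbd1 x y g hxy
              have h2 : 0 ≤ s * dl r := mul_nonneg (by linarith) hd.le
              linarith
            · rw [if_neg hg, add_zero]
              apply hbd2 x y g hxy
              intro R' K' hdom
              apply hg
              rw [hDD, mem_filter]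
              exact ⟨mem_univ _, hdense x y ⟨hxy, hel12⟩ hx hy g R' K' hdom⟩
        _ = s * dl r * N + DD.card * dl r := by
            rw [sum_add_distrib, sum_const, card_univ, nsmul_eq_mul, ← sum_filter, sum_const,
              nsmul_eq_mul, hDDφ, hN]
            ring
        _ ≤ s * dl r * N + 1638400000 * Q * N * dl r := by
            have := mul_le_mul_of_nonneg_right hfr2 hd.le
            linarith
        _ = _ := by ring
  have hor : rel r F1 R K < 15 / 16 ∨ rel r F2 R K < 15 / 16 := by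
    by_contra hno
    push Not at hno
    exact hbig ⟨hno.1, hno.2⟩
  rcases hor with hor | hor
  · exact key F1 (fun x y g => g) (fun _ _ _ => rfl) hor
      (fun x y hxy hx hy g R' K' hdom => (hRK x y hxy hx hy g R' K' hdom).1)
  · refine key F2 (fun x y g => flip x y g) ?_ hor
      (fun x y hxy hx hy g R' K' hdom => (hRK x y hxy hx hy g R' K' hdom).2)
    intro x y g
    funext z
    unfold flip
    split_ifs
    · have : (1 : ZMod 2) + 1 = 0 := by decide
      rw [add_assoc, this, add_zero]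
    · rfl

end Pool.Agent.EFX
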