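import Pool.Agent.EFX.Targets

set_option autoImplicit false

/-!
# Cardinalities and densities of cylinders
-/

namespace Pool.Agent.EFX

open Finset

open scoped Classical

noncomputable section

namespace CARD_

variable {V : Type}

theorem ag_iff [Fintype V] (R : Finset V) (G K : Gr V) :
    Ag R G K ↔ ∀ e ∈ ins R, G e = K e := by
  constructor
  · rintro h ⟨e, he⟩ hR
    have he2 := he
    rw [card_eq_two] at he2
    obtain ⟨x, y, hxy, rfl⟩ := he2
    have hsub : ({x, y} : Finset V) ⊆ R := by simpa [ins] using hR
    have h1 := h x (hsub (by simp)) y (hsub (by simp))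
    unfold val at h1
    rw [dif_pos hxy, dif_pos hxy] at h1
    exact h1
  · intro h x hx y hy
    unfold val
    split_ifs with hxy
    · apply h
      simp only [ins, mem_filter, mem_univ, true_and]
      intro z hz
      rw [mem_insert, mem_singleton] at hz
      rcases hz with rfl | rfl
      · exact hx
      · exact hy
    · rfl

theorem card_ins [Fintype V] (P : Finset V) : (ins P).card = P.card.choose 2 := by
  rw [← card_powersetCard, ← card_map (Function.Embedding.subtype _)]
  congr 1
  ext e
  rw [mem_map, mem_powersetCard]
  constructor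
  · rintro ⟨⟨e', he'⟩, h1, rfl⟩
    exact ⟨by simpa [ins] using h1, he'⟩
  · rintro ⟨h1, h2⟩
    exact ⟨⟨e, h2⟩, by simpa [ins] using h1, rfl⟩

theorem card_cyl [Fintype V] (R : Finset V) (K : Gr V) :
    (univ.filter (fun G : Gr V => Ag R G K)).card * 2 ^ (R.card.choose 2) =
      Fintype.card (Gr V) := by
  have h1 : univ.filter (fun G : Gr V => Ag R G K) =
      Fintype.piFinset (fun e : Ed V => if e ∈ ins R then ({K e} : Finset (ZMod 2)) else univ) := by
    ext G
    rw [mem_filter, Fintype.mem_piFinset, ag_iff]
    constructor
    · rintro ⟨-, h⟩ e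
      split_ifs with he
      · rw [mem_singleton]
        exact h e he
      · exact mem_univ _
    · intro h
      refine ⟨mem_univ _, fun e he => ?_⟩
      have h2 := h e
      rwa [if_pos he, mem_singleton] at h2
  rw [h1, Fintype.card_piFinset, Fintype.card_pi, ← card_ins, ← prod_const]
  have h2 : ∏ _e ∈ ins R, 2 = ∏ e : Ed V, if e ∈ ins R then 2 else 1 := by
    rw [prod_ite_mem, univ_inter]
  rw [h2, ← prod_mul_distrib]
  apply prod_congr rfl
  intro e _
  split_ifs with he
  · rw [card_singleton, ZMod.card, one_mul]
  · rw [card_univ, ZMod.card, mul_one]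

end CARD_

theorem p_CARD (_h : T_VAL) : T_CARD := by
  intro V _
  have hpos : 0 < (Fintype.card (Gr V) : ℝ) := by
    exact_mod_cast Fintype.card_pos
  have hcyl : ∀ (R : Finset V) (K : Gr V),
      den (univ.filter (fun G => Ag R G K)) = dl R.card := by
    intro R K
    unfold den dl
    have h1 := CARD_.card_cyl R K
    rw [div_eq_div_iff hpos.ne' (by positivity), one_mul]
    exact_mod_cast h1
  refine ⟨?_, CARD_.card_ins, ?_, hcyl, ?_⟩
  · rw [Fintype.card_fun, ZMod.card]
    congr 1
    convert Fintype.card_finset_len (α := V) 2
  · intro x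
    rw [Fintype.card_fun, ZMod.card]
    congr 1
    have h1 := Fintype.card_subtype_compl (fun z : V => z = x)
    rw [Fintype.card_subtype_eq] at h1
    convert h1
  · intro r F R K hR
    have hd : 0 < dl r := by unfold dl; positivity
    have h1 : den (F.filter (fun G => Ag R G K)) ≤ dl r := by
      rw [← hR, ← hcyl R K]
      unfold den
      apply div_le_div_of_nonneg_right _ hpos.le
      exact_mod_cast card_le_card (filter_subset_filter _ (subset_univ F))
    have h0 : 0 ≤ den (F.filter (fun G => Ag R G K)) := by
      unfold den
      positivity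
    refine ⟨?_, ?_⟩
    · unfold rel
      positivity
    · unfold rel
      rw [div_le_one hd]
      exact h1

end

end Pool.Agent.EFX
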