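import Pool.Agent.EFX.Targets

/-!
# The mean of `q (l - log q)^2`
-/

namespace Pool.Agent.EFX

open Finset

noncomputable section

namespace CC_

/-- an elementary inequality -/
theorem G_nonneg {u : ℝ} (hu : 0 ≤ u) : 0 ≤ u ^ 2 - 2 + 2 * (u + 1) * Real.exp (-u) := by
  have hd : ∀ x : ℝ, HasDerivAt (fun u : ℝ => u ^ 2 - 2 + 2 * (u + 1) * Real.exp (-u))
      (2 * x * (1 - Real.exp (-x))) x := by
    intro x
    have h1 : HasDerivAt (fun u : ℝ => u ^ 2 - 2) (2 * x) x := by
      have := (hasDerivAt_pow 2 x).sub_const 2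
      simpa using this
    have h2 : HasDerivAt (fun u : ℝ => 2 * (u + 1)) 2 x := by
      have := ((hasDerivAt_id x).add_const 1).const_mul 2
      simpa using this
    have h3 : HasDerivAt (fun u : ℝ => Real.exp (-u)) (-Real.exp (-x)) x := by
      have := (hasDerivAt_neg x).exp
      simpa using this
    have h4 := h1.add (h2.mul h3)
    refine h4.congr_deriv ?_
    ring
  have hm : MonotoneOn (fun u : ℝ => u ^ 2 - 2 + 2 * (u + 1) * Real.exp (-u)) (Set.Ici 0) := by
    refine monotoneOn_of_deriv_nonneg (convex_Ici 0) ?_ ?_ ?_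
    · exact fun x _ => (hd x).continuousAt.continuousWithinAt
    · exact fun x _ => (hd x).differentiableAt.differentiableWithinAt
    · intro x hx
      rw [interior_Ici, Set.mem_Ioi] at hx
      rw [(hd x).deriv]
      have h1 : Real.exp (-x) ≤ 1 := Real.exp_le_one_iff.2 (by linarith)
      have h2 : 0 ≤ 1 - Real.exp (-x) := by linarith
      positivity
  have h := hm (Set.mem_Ici.2 le_rfl) (Set.mem_Ici.2 hu) hu
  simp only at h
  have h0 : (0 : ℝ) ^ 2 - 2 + 2 * (0 + 1) * Real.exp (-0) = 0 := by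
    rw [neg_zero, Real.exp_zero]
    norm_num
  rw [h0] at h
  exact h

theorem pointwise {q l : ℝ} (hl : 1 ≤ l) (hq : 0 ≤ q) (hq2 : q ≤ Real.exp (l - 1)) :
    q * (l - Real.log q) ^ 2 ≤ l ^ 2 + (l ^ 2 - 2 * l) * (q - 1) := by
  rcases eq_or_lt_of_le hq with h0 | h0
  · rw [← h0]
    nlinarith
  set u := Real.log q with hu
  have hqu : q = Real.exp u := (Real.exp_log h0).symm
  have hul : u ≤ l - 1 := (Real.log_le_iff_le_exp h0).2 hq2
  have hinv : q * Real.exp (-u) = 1 := by
    rw [hqu, ← Real.exp_add, add_neg_cancel, Real.exp_zero]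
  have hpos : 0 ≤ u - 1 + Real.exp (-u) := by
    have := Real.add_one_le_exp (-u)
    linarith
  have key : u ^ 2 ≤ 2 * l * (u - 1 + Real.exp (-u)) := by
    rcases le_total u 0 with hu0 | hu0
    · have h1 := Real.quadratic_le_exp_of_nonneg (x := -u) (by linarith)
      nlinarith
    · have h1 := G_nonneg hu0
      nlinarith
  have h2 : q * u ^ 2 ≤ 2 * l * (q * u - q + 1) := by
    calc q * u ^ 2 ≤ q * (2 * l * (u - 1 + Real.exp (-u))) := by gcongr
      _ = 2 * l * (q * u - q + q * Real.exp (-u)) := by ring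
      _ = _ := by rw [hinv]
  nlinarith

end CC_

open CC_ in
theorem p_CC : T_CC := by
  intro T _ q l hl hq hq2 hsum
  calc ∑ t, q t * (l - Real.log (q t)) ^ 2 ≤ ∑ t, (l ^ 2 + (l ^ 2 - 2 * l) * (q t - 1)) :=
        sum_le_sum fun t _ => pointwise hl (hq t) (hq2 t)
    _ = (Fintype.card T : ℝ) * l ^ 2 := by
        rw [sum_add_distrib, ← mul_sum, sum_sub_distrib, hsum]
        simp

end

end Pool.Agent.EFX
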