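import Pool.Agent.EFX.Targets

set_option autoImplicit false

/-!
# CCE: the form of CC that is used
-/

namespace Pool.Agent.EFX

open Finset

open scoped Classical

noncomputable section

namespace CCE_

lemma sum_at {α T : Type} [Fintype T] (A : Finset α) (Y : α → T) :
    ∑ t, ((at' A Y t).card : ℝ) = (A.card : ℝ) := by
  have h := card_eq_sum_card_fiberwise (s := A) (t := (univ : Finset T)) (f := Y)
    (fun x _ => by simp)
  rw [h]
  push_cast
  rfl

end CCE_

open CCE_ in
theorem p_CCE : T_CC → T_CCE := by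
  intro hCC α T _ A Y N c hA hc hN
  have hAc : (0 : ℝ) < A.card := by exact_mod_cast hA.card_pos
  obtain ⟨w0, hw0⟩ := hA
  have : Nonempty T := ⟨Y w0⟩
  have hTc : (0 : ℝ) < Fintype.card T := by exact_mod_cast Fintype.card_pos
  have hN0 : 0 < N := by
    have h1 : 0 < (at' A Y (Y w0)).card := card_pos.mpr ⟨w0, by simp [at', hw0]⟩
    have h2 : (0 : ℝ) < ((at' A Y (Y w0)).card : ℝ) := by exact_mod_cast h1
    exact h2.trans_le (hN _)
  have hAN : (A.card : ℝ) ≤ N * Fintype.card T := by
    rw [← sum_at A Y]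
    calc ∑ t, ((at' A Y t).card : ℝ) ≤ ∑ _t : T, N := sum_le_sum fun t _ => hN t
      _ = N * Fintype.card T := by rw [sum_const, card_univ, nsmul_eq_mul, mul_comm]
  have hL : 0 ≤ Real.log (N * (Fintype.card T : ℝ) / (A.card : ℝ)) :=
    Real.log_nonneg (by rw [le_div_iff₀ hAc, one_mul]; exact hAN)
  set l : ℝ := Real.log (N * (Fintype.card T : ℝ) / (A.card : ℝ)) + c with hl
  have hpr : ∀ t, pr A Y t = ((at' A Y t).card : ℝ) / (A.card : ℝ) := fun t => rfl
  have hq0 : ∀ t, 0 ≤ qd A Y t := fun t => by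
    unfold qd
    rw [hpr]
    positivity
  have hmain := hCC T (fun t => qd A Y t) l (by linarith) hq0 ?_ ?_
  · have h2 : ∑ t, pr A Y t * (Real.log (N / ((at' A Y t).card : ℝ)) + c) ^ 2 =
        (∑ t, qd A Y t * (l - Real.log (qd A Y t)) ^ 2) / (Fintype.card T : ℝ) := by
      rw [sum_div]
      refine sum_congr rfl fun t _ => ?_
      unfold qd
      rw [hpr]
      rcases Nat.eq_zero_or_pos (at' A Y t).card with h0 | h0
      · rw [h0]; simp
      · have h3 : (0 : ℝ) < ((at' A Y t).card : ℝ) := by exact_mod_cast h0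
        have h4 : l - Real.log ((Fintype.card T : ℝ) * (((at' A Y t).card : ℝ) / (A.card : ℝ))) =
            Real.log (N / ((at' A Y t).card : ℝ)) + c := by
          rw [hl, Real.log_div (by positivity) hAc.ne', Real.log_mul hN0.ne' hTc.ne',
            Real.log_mul hTc.ne' (by positivity), Real.log_div h3.ne' hAc.ne',
            Real.log_div hN0.ne' h3.ne']
          ring
        rw [h4]
        field_simp
    rw [h2, div_le_iff₀ hTc]
    linarith
  · intro t
    show qd A Y t ≤ _
    have h5 : qd A Y t ≤ N * (Fintype.card T : ℝ) / (A.card : ℝ) := by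
      unfold qd
      rw [hpr, mul_div_assoc', mul_comm]
      exact div_le_div_of_nonneg_right (mul_le_mul_of_nonneg_right (hN t) hTc.le) hAc.le
    refine h5.trans ?_
    have h6 : 0 < N * (Fintype.card T : ℝ) / (A.card : ℝ) := by positivity
    rw [← Real.exp_log h6]
    exact Real.exp_le_exp.mpr (by rw [hl]; linarith)
  · show ∑ t, qd A Y t = _
    unfold qd
    simp_rw [hpr]
    rw [← mul_sum, ← sum_div, sum_at, div_self hAc.ne', mul_one]

end

end Pool.Agent.EFX
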