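import Pool.Agent.EFX.CONV

set_option autoImplicit false

/-!
# CHD: chain rule for the entropy deficit
-/

namespace Pool.Agent.EFX

open Finset

open scoped Classical

namespace CHD_

open CONV_

theorem qd_pair {α S T : Type} [Fintype S] [Fintype T] (A : Finset α) (Y : α → T) (X : α → S)
    (t : T) (s : S) : qd A (fun w => (Y w, X w)) (t, s) = qd A Y t * qd (at' A Y t) X s := by
  unfold qd
  rw [pr_pair, Fintype.card_prod]
  push_cast
  ring

theorem pr_sum_one {α S : Type} [Fintype S] (A : Finset α) (X : α → S) (hA : A.Nonempty) :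
    ∑ s, pr A X s = 1 := by
  unfold pr
  rw [← Finset.sum_div, ← Nat.cast_sum, ← Finset.card_eq_sum_card_fiberwise (f := X) (s := A)
    (t := (Finset.univ : Finset S)) (fun w _ => Finset.mem_coe.mpr (Finset.mem_univ _))]
  exact div_self (Nat.cast_ne_zero.mpr (Finset.card_ne_zero.mpr hA))

theorem qd_pos {α S : Type} [Fintype S] (A : Finset α) (X : α → S) (s : S)
    (h : pr A X s ≠ 0) : 0 < qd A X s := by
  unfold qd
  have h1 : 0 < pr A X s := lt_of_le_of_ne (pr_nonneg A X s) (Ne.symm h)
  have h2 : 0 < (Fintype.card S : ℝ) := Nat.cast_pos.mpr (Fintype.card_pos_iff.mpr ⟨s⟩)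
  exact mul_pos h2 h1

end CHD_

open CONV_ CHD_ in
theorem p_CHD : T_CHD := by
  intro α S T _ _ A Y X hA
  unfold df
  rw [Fintype.sum_prod_type, ← Finset.sum_add_distrib]
  apply Finset.sum_congr rfl
  intro t _
  by_cases ht : (at' A Y t).Nonempty
  · have h1 : ∀ s, pr A (fun w => (Y w, X w)) (t, s) *
        Real.log (qd A (fun w => (Y w, X w)) (t, s)) =
        pr A Y t * (pr (at' A Y t) X s * Real.log (qd A Y t)) +
          pr A Y t * (pr (at' A Y t) X s * Real.log (qd (at' A Y t) X s)) := by
      intro s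
      rw [pr_pair, qd_pair]
      by_cases h0 : pr A Y t * pr (at' A Y t) X s = 0
      · have h2 : pr A Y t * (pr (at' A Y t) X s * Real.log (qd A Y t)) +
            pr A Y t * (pr (at' A Y t) X s * Real.log (qd (at' A Y t) X s)) =
            (pr A Y t * pr (at' A Y t) X s) *
              (Real.log (qd A Y t) + Real.log (qd (at' A Y t) X s)) := by ring
        rw [h2, h0, zero_mul, zero_mul]
      · have h3 : pr A Y t ≠ 0 := left_ne_zero_of_mul h0
        have h4 : pr (at' A Y t) X s ≠ 0 := right_ne_zero_of_mul h0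
        rw [Real.log_mul (ne_of_gt (qd_pos A Y t h3)) (ne_of_gt (qd_pos _ X s h4))]
        ring
    rw [Finset.sum_congr rfl fun s _ => h1 s, Finset.sum_add_distrib, ← Finset.mul_sum,
      ← Finset.sum_mul, pr_sum_one _ X ht, one_mul, ← Finset.mul_sum]
  · have h0 : pr A Y t = 0 := pr_zero A Y t ht
    rw [h0, zero_mul, zero_mul, add_zero]
    apply Finset.sum_eq_zero
    intro s _
    rw [pr_pair, h0, zero_mul, zero_mul]

end Pool.Agent.EFX
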