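import Pool.Agent.EFX.CHD

set_option autoImplicit false

/-!
# CHH: chain inequality for the Hellinger distance
-/

namespace Pool.Agent.EFX

open Finset

open scoped Classical

namespace CHH_

open CONV_ CHD_

theorem elem (p h : ℝ) (hp : 0 ≤ p) (h0 : 0 ≤ h) (h2 : h ≤ 2) :
    √p * h ≤ 2 * (p * h) + 4 * (√p - 1) ^ 2 := by
  have hs : 0 ≤ √p := Real.sqrt_nonneg p
  have hss : √p * √p = p := Real.mul_self_sqrt hp
  by_cases hc : 1 / 2 ≤ √p
  · have h3 : √p ≤ 2 * p := by nlinarith
    have h4 : √p * h ≤ 2 * p * h := mul_le_mul_of_nonneg_right h3 h0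
    nlinarith [sq_nonneg (√p - 1)]
  · push Not at hc
    have h5 : √p * h ≤ 1 := by nlinarith
    have h6 : 1 ≤ 4 * (√p - 1) ^ 2 := by nlinarith
    have h7 : 0 ≤ p * h := mul_nonneg hp h0
    linarith

theorem sum_sqrt {α S T : Type} [Fintype S] [Fintype T] (hB : T_HELB) (A : Finset α)
    (U : α → T) (W : α → S) (hS : (Fintype.card S : ℝ) ≠ 0) (u : T) :
    ∑ w, √(qd A (fun a => (U a, W a)) (u, w)) =
      (Fintype.card S : ℝ) * (√(qd A U u) * (1 - hel (at' A U u) W / 2)) := by
  have h1 : ∀ w, √(qd A (fun a => (U a, W a)) (u, w)) =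
      √(qd A U u) * √(qd (at' A U u) W w) := by
    intro w
    rw [qd_pair, Real.sqrt_mul (qd_nonneg A U u)]
  rw [Finset.sum_congr rfl fun w _ => h1 w, ← Finset.mul_sum]
  by_cases h : (at' A U u).Nonempty
  · rw [(hB α S (at' A U u) W h).2.2.2.2.1]
    field_simp
    ring
  · have h0 : qd A U u = 0 := by
      unfold qd
      rw [pr_zero A U u h, mul_zero]
    rw [h0, Real.sqrt_zero]
    ring

theorem step1 {α S T : Type} [Fintype S] [Fintype T] (hB : T_HELB) (A : Finset α)
    (U : α → T) (W : α → S) (hA : A.Nonempty) :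
    hel A (fun a => (U a, W a)) ≤ 5 * hel A U + 2 * ∑ u, pr A U u * hel (at' A U u) W := by
  obtain ⟨a0, ha0⟩ := hA
  have hA : A.Nonempty := ⟨a0, ha0⟩
  have hS : (Fintype.card S : ℝ) ≠ 0 := by
    have : 0 < Fintype.card S := Fintype.card_pos_iff.mpr ⟨W a0⟩
    positivity
  have hT : (Fintype.card T : ℝ) ≠ 0 := by
    have : 0 < Fintype.card T := Fintype.card_pos_iff.mpr ⟨U a0⟩
    positivity
  have hTp : 0 < (Fintype.card T : ℝ) := lt_of_le_of_ne (Nat.cast_nonneg _) (Ne.symm hT)
  have e1 : hel A (fun a => (U a, W a)) =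
      hel A U + (∑ u, √(qd A U u) * hel (at' A U u) W) / (Fintype.card T : ℝ) := by
    rw [(hB α (T × S) A (fun a => (U a, W a)) hA).2.2.2.2.1, (hB α T A U hA).2.2.2.2.1,
      Fintype.sum_prod_type, Finset.sum_congr rfl fun u _ => sum_sqrt hB A U W hS u,
      ← Finset.mul_sum, Fintype.card_prod]
    have e2 : ∑ u, √(qd A U u) * (1 - hel (at' A U u) W / 2) =
        ∑ u, √(qd A U u) - (∑ u, √(qd A U u) * hel (at' A U u) W) / 2 := by
      rw [Finset.sum_div, ← Finset.sum_sub_distrib]
      apply Finset.sum_congr rfl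
      intro u _
      ring
    rw [e2]
    push_cast
    field_simp
    ring
  have e3 : ∀ u, √(qd A U u) * hel (at' A U u) W ≤
      2 * (qd A U u * hel (at' A U u) W) + 4 * (√(qd A U u) - 1) ^ 2 := by
    intro u
    by_cases h : (at' A U u).Nonempty
    · have h1 := hB α S (at' A U u) W h
      exact elem _ _ (qd_nonneg A U u) h1.2.2.2.1 h1.2.2.2.2.2.1
    · have h0 : qd A U u = 0 := by
        unfold qd
        rw [pr_zero A U u h, mul_zero]
      rw [h0, Real.sqrt_zero]
      norm_num
  have e4 : (∑ u, √(qd A U u) * hel (at' A U u) W) / (Fintype.card T : ℝ) ≤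
      2 * ∑ u, pr A U u * hel (at' A U u) W + 4 * hel A U := by
    rw [div_le_iff₀ hTp]
    refine le_trans (Finset.sum_le_sum fun u _ => e3 u) (le_of_eq ?_)
    rw [Finset.sum_add_distrib, ← Finset.mul_sum, ← Finset.mul_sum]
    have e5 : ∑ u, qd A U u * hel (at' A U u) W =
        (∑ u, pr A U u * hel (at' A U u) W) * (Fintype.card T : ℝ) := by
      rw [Finset.sum_mul]
      apply Finset.sum_congr rfl
      intro u _
      unfold qd
      ring
    rw [e5]
    unfold hel
    field_simp
  rw [e1]
  linarith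

end CHH_

open CONV_ CHD_ CHH_ in
theorem p_CHH (hB : T_HELB) (hC : T_CONV) : T_CHH := by
  intro α S1 S2 T _ _ _ A U W Y hA hφ
  obtain ⟨φ, hφ⟩ := hφ
  refine le_trans (step1 hB A U W hA) ?_
  have key : ∑ u, pr A U u * hel (at' A U u) W ≤ ∑ t, pr A Y t * hel (at' A Y t) W := by
    have h1 : ∀ u, pr A U u * hel (at' A U u) W ≤
        ∑ t, (if φ t = u then pr A Y t * hel (at' A Y t) W else 0) := by
      intro u
      have h2 : ∀ t, pr A U u * (pr (at' A U u) Y t * hel (at' (at' A U u) Y t) W) =
          if φ t = u then pr A Y t * hel (at' A Y t) W else 0 := by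
        intro t
        rw [← mul_assoc, ← pr_pair]
        split_ifs with h
        · have h3 : at' (at' A U u) Y t = at' A Y t := by
            unfold at'
            ext w
            simp only [Finset.mem_filter]
            constructor
            · rintro ⟨⟨h4, _⟩, h5⟩
              exact ⟨h4, h5⟩
            · rintro ⟨h4, h5⟩
              exact ⟨⟨h4, by rw [hφ w h4, h5, h]⟩, h5⟩
          rw [h3]
          congr 1
          unfold pr
          congr 3
          ext w
          simp only [Finset.mem_filter, Prod.mk.injEq]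
          constructor
          · rintro ⟨h4, _, h5⟩
            exact ⟨h4, h5⟩
          · rintro ⟨h4, h5⟩
            exact ⟨h4, by rw [hφ w h4, h5, h], h5⟩
        · have h3 : pr A (fun w => (U w, Y w)) (u, t) = 0 := by
            apply pr_zero
            rintro ⟨w, hw⟩
            unfold at' at hw
            simp only [Finset.mem_filter, Prod.mk.injEq] at hw
            obtain ⟨h4, h5, h6⟩ := hw
            apply h
            rw [← h5, hφ w h4, h6]
          rw [h3, zero_mul]
      rw [← Finset.sum_congr rfl fun t _ => h2 t, ← Finset.mul_sum]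
      by_cases h : (at' A U u).Nonempty
      · exact mul_le_mul_of_nonneg_left (hC α S2 T (at' A U u) W Y h) (pr_nonneg A U u)
      · rw [pr_zero A U u h, zero_mul, zero_mul]
    refine le_trans (Finset.sum_le_sum fun u _ => h1 u) ?_
    rw [Finset.sum_comm]
    apply le_of_eq
    apply Finset.sum_congr rfl
    intro t _
    rw [Finset.sum_ite_eq]
    simp
  linarith

end Pool.Agent.EFX
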