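import Mathlib

set_option autoImplicit false

/-!
# MP_64e56f_co: exact value of `A_r(n)` for all large `r` and all `n`: targets

Proofs: `Blueprint.lean.txt`. All decidability is classical (`open scoped Classical`).
-/

namespace Pool.Agent.EFX

open Finset

open scoped Classical

noncomputable section

/-! ## Random variables on a finite sample space `A` (uniform distribution) -/

section Info

variable {α S : Type}

/-- probability of `X = s` under the uniform distribution on `A` -/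
def pr (A : Finset α) (X : α → S) (s : S) : ℝ :=
  ((A.filter (fun w => X w = s)).card : ℝ) / (A.card : ℝ)

/-- density of the law of `X` with respect to the uniform distribution on `S` -/
def qd [Fintype S] (A : Finset α) (X : α → S) (s : S) : ℝ :=
  (Fintype.card S : ℝ) * pr A X s

/-- squared Hellinger distance (times two) of the law of `X` to the uniform distribution -/
def hel [Fintype S] (A : Finset α) (X : α → S) : ℝ :=
  (∑ s, (√(qd A X s) - 1) ^ 2) / (Fintype.card S : ℝ)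

/-- entropy deficit `log |S| - H(X)` (natural logarithm) -/
def df [Fintype S] (A : Finset α) (X : α → S) : ℝ :=
  ∑ s, pr A X s * Real.log (qd A X s)

/-- the part of the sample space where `Y = t` -/
def at' {T : Type} (A : Finset α) (Y : α → T) (t : T) : Finset α := A.filter (fun w => Y w = t)

/-- the deficit of the coordinates in `J` -/
def gd {ι : Type} [Fintype S] (A : Finset α) (X : α → ι → S) (J : Finset ι) : ℝ :=
  df A (fun w => fun i : {i // i ∈ J} => X w i)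

end Info

/-- HELB: basic facts. -/
def T_HELB : Prop := ∀ (α S : Type) [Fintype S] (A : Finset α) (X : α → S), A.Nonempty →
  (∀ s, 0 ≤ pr A X s) ∧ (∑ s, pr A X s = 1) ∧ (∑ s, qd A X s = (Fintype.card S : ℝ)) ∧
  0 ≤ hel A X ∧ hel A X = 2 - 2 * (∑ s, √(qd A X s)) / (Fintype.card S : ℝ) ∧
  hel A X ≤ 2 ∧ 0 ≤ df A X ∧ hel A X ≤ df A X

/-- EQUIV: bijections of the value space do not change anything. -/
def T_EQUIV : Prop := ∀ (α S S' : Type) [Fintype S] [Fintype S'] (A : Finset α) (X : α → S)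
  (φ : S → S'), Function.Bijective φ →
  hel A (fun w => φ (X w)) = hel A X ∧ df A (fun w => φ (X w)) = df A X

/-- CONV: convexity of `hel`. -/
def T_CONV : Prop := ∀ (α S T : Type) [Fintype S] [Fintype T] (A : Finset α) (X : α → S)
  (Y : α → T), A.Nonempty → hel A X ≤ ∑ t, pr A Y t * hel (at' A Y t) X

/-- CHH: chain inequality for `hel`; `U` is a function of `Y`. -/
def T_CHH : Prop := ∀ (α S1 S2 T : Type) [Fintype S1] [Fintype S2] [Fintype T] (A : Finset α)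
  (U : α → S1) (W : α → S2) (Y : α → T), A.Nonempty → (∃ φ : T → S1, ∀ w ∈ A, U w = φ (Y w)) →
  hel A (fun w => (U w, W w)) ≤ 5 * hel A U + 2 * ∑ t, pr A Y t * hel (at' A Y t) W

/-- CHD: chain rule for the deficit. -/
def T_CHD : Prop := ∀ (α S T : Type) [Fintype S] [Fintype T] (A : Finset α) (Y : α → T)
  (X : α → S), A.Nonempty →
  df A (fun w => (Y w, X w)) = df A Y + ∑ t, pr A Y t * df (at' A Y t) X

/-- SSA: strong subadditivity. -/
def T_SSA : Prop := ∀ (α S T R : Type) [Fintype S] [Fintype T] [Fintype R] (A : Finset α)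
  (X : α → S) (Y : α → T) (Z : α → R), A.Nonempty →
  df A (fun w => (X w, Z w)) + df A (fun w => (Y w, Z w)) ≤
    df A (fun w => (X w, Y w, Z w)) + df A Z

/-- SUPP: deficit and multiplicities, deficit and support. -/
def T_SUPP : Prop := ∀ (α S : Type) [Fintype S] (A : Finset α) (X : α → S), A.Nonempty →
  (∀ E : ℝ, 0 < E → (∀ s, ((A.filter (fun w => X w = s)).card : ℝ) ≤ E) →
    df A X ≤ Real.log ((Fintype.card S : ℝ) * E / (A.card : ℝ))) ∧
  Real.log ((Fintype.card S : ℝ) / ((A.image X).card : ℝ)) ≤ df A X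

/-- CVL: convolution of two nearly uniform densities on a finite abelian group. -/
def T_CVL : Prop := ∀ (G : Type) [AddCommGroup G] [Fintype G] (p q : G → ℝ),
  (∀ s, 0 ≤ p s) → (∀ s, 0 ≤ q s) → ∑ s, p s = (Fintype.card G : ℝ) →
  ∑ s, q s = (Fintype.card G : ℝ) →
  (∑ s, (√((∑ t, p t * q (s - t)) / (Fintype.card G : ℝ)) - 1) ^ 2) / (Fintype.card G : ℝ) ≤
    600 * ((∑ s, (√(p s) - 1) ^ 2) / (Fintype.card G : ℝ)) *
      ((∑ s, (√(q s) - 1) ^ 2) / (Fintype.card G : ℝ))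

/-- SUMXY: law of a sum of two variables which are nearly independent. -/
def T_SUMXY : Prop := ∀ (α G : Type) [AddCommGroup G] [Fintype G] (A : Finset α)
  (X Y : α → G), A.Nonempty →
  hel A (fun w => X w + Y w) ≤ 2 * (df A (fun w => (X w, Y w)) - df A X - df A Y) +
    1200 * hel A X * hel A Y

/-! ## Abstract lemmas on supermodular functions -/

/-- supermodular, nonnegative, zero at the empty set -/
def Spm {ι : Type} (g : Finset ι → ℝ) : Prop :=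
  g ∅ = 0 ∧ (∀ J, 0 ≤ g J) ∧ ∀ J K, g J + g K ≤ g (J ∪ K) + g (J ∩ K)

/-- SH: Shearer's inequality. -/
def T_SH : Prop := ∀ (ι κ : Type) (I : Finset κ) (g : Finset ι → ℝ) (w : κ → ℝ)
  (J : κ → Finset ι) (D : Finset ι) (θ : ℝ), Spm g → (∀ k ∈ I, 0 ≤ w k) → (∀ k ∈ I, J k ⊆ D) →
  (∀ i ∈ D, ∑ k ∈ I.filter (fun k => i ∈ J k), w k ≤ θ) →
  ∑ k ∈ I, w k * g (J k) ≤ θ * g D

/-- PIN: pinning lemma. -/
def T_PIN : Prop := ∀ (ι : Type) [Fintype ι] (g : Finset ι → ℝ), Spm g →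
  2 ≤ Fintype.card ι → ∃ k : ℕ, 2 * (k + 1) ≤ Fintype.card ι ∧
  ∑ T ∈ powersetCard k (univ : Finset ι), ∑ x ∈ univ \ T, ∑ y ∈ (univ \ T).erase x,
    (g (insert x (insert y T)) - g (insert x T) - g (insert y T) + g T) ≤
  6 * g univ / (Fintype.card ι : ℝ) ^ 2 *
    ((Fintype.card ι).choose k * (Fintype.card ι - k) * (Fintype.card ι - k - 1))

/-- INST: the deficit of a family of random variables is such a function. -/
def T_INST : Prop := ∀ (α ι S : Type) [Fintype S] (A : Finset α) (X : α → ι → S), A.Nonempty →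
  Spm (gd A X)

/-- CC: `q (l - log q)^2` has mean at most `l^2`. -/
def T_CC : Prop := ∀ (T : Type) [Fintype T] (q : T → ℝ) (l : ℝ), 1 ≤ l → (∀ t, 0 ≤ q t) →
  (∀ t, q t ≤ Real.exp (l - 1)) → ∑ t, q t = (Fintype.card T : ℝ) →
  ∑ t, q t * (l - Real.log (q t)) ^ 2 ≤ (Fintype.card T : ℝ) * l ^ 2

/-- CCE: the form of CC that is used. -/
def T_CCE : Prop := ∀ (α T : Type) [Fintype T] (A : Finset α) (Y : α → T) (N c : ℝ),
  A.Nonempty → 1 ≤ c → (∀ t, ((at' A Y t).card : ℝ) ≤ N) →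
  ∑ t, pr A Y t * (Real.log (N / ((at' A Y t).card : ℝ)) + c) ^ 2 ≤
    (Real.log (N * (Fintype.card T : ℝ) / (A.card : ℝ)) + c) ^ 2

/-- ROWS: sums of two rows are nearly uniform. -/
def T_ROWS : Prop := ∀ (α P G : Type) [Fintype P] [AddCommGroup G] [Fintype G] (A : Finset α)
  (f : α → P → G) (E : ℕ), A.Nonempty → (∀ v : P → G, (A.filter (fun w => f w = v)).card ≤ E) →
  ∑ x : P, ∑ y ∈ univ.erase x, hel A (fun w => f w x + f w y) ≤
    5000 * (Real.log ((Fintype.card G : ℝ) ^ (Fintype.card P) * E / (A.card : ℝ)) + 1) ^ 2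

/-! ## Graphs -/

/-- pairs of vertices -/
abbrev Ed (V : Type) := {e : Finset V // e.card = 2}

/-- graphs on `V` -/
abbrev Gr (V : Type) := Ed V → ZMod 2

section Graphs

variable {V : Type}

/-- the value of a graph at a pair (0 on the diagonal) -/
def val (G : Gr V) (x y : V) : ZMod 2 := if h : x ≠ y then G ⟨{x, y}, card_pair h⟩ else 0

/-- `G` and `H` agree on all pairs inside `S` -/
def Ag (S : Finset V) (G H : Gr V) : Prop := ∀ x ∈ S, ∀ y ∈ S, val G x y = val H x y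

/-- cross-agreeing families -/
def XA (r : ℕ) (F1 F2 : Finset (Gr V)) : Prop :=
  ∀ G ∈ F1, ∀ H ∈ F2, ∃ S : Finset V, S.card = r ∧ Ag S G H

/-- density -/
def den {β : Type} [Fintype β] (A : Finset β) : ℝ := (A.card : ℝ) / (Fintype.card β : ℝ)

/-- log of the inverse density -/
def ld {β : Type} [Fintype β] (A : Finset β) : ℝ := - Real.log (den A)

/-- `δ = 2^(-C(r,2))` -/
def dl (r : ℕ) : ℝ := 1 / 2 ^ (r.choose 2)

/-- relative density of `F` in the cylinder `(R, K)` -/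
def rel [Fintype V] (r : ℕ) (F : Finset (Gr V)) (R : Finset V) (K : Gr V) : ℝ :=
  den (F.filter (fun G => Ag R G K)) / dl r

/-- the pairs inside `P` -/
def ins [Fintype V] (P : Finset V) : Finset (Ed V) := univ.filter (fun e => e.1 ⊆ P)

/-- coset coordinates of `G` when `x` is merged into `y`: the entry at `z ≠ y` is
`G(xz) + G(yz)`, the entry at `y` is `G(xy)` -/
def cs (x y : V) (G : Gr V) : {z : V // z ≠ x} → ZMod 2 := fun z => val G x z + val G y z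

/-- restriction of a graph to `V ∖ {x}` -/
def rst (x : V) (G : Gr V) : Gr {z : V // z ≠ x} := fun e =>
  G ⟨e.1.map (Function.Embedding.subtype _), by rw [card_map]; exact e.2⟩

/-- the part of `F` in the coset `g`, as a family on `V ∖ {x}` -/
def cut (x y : V) (F : Finset (Gr V)) (g : {z : V // z ≠ x} → ZMod 2) :
    Finset (Gr {z : V // z ≠ x}) :=
  (F.filter (fun G => cs x y G = g)).image (rst x)

/-- the partner coset -/
def flip (x y : V) (g : {z : V // z ≠ x} → ZMod 2) : {z : V // z ≠ x} → ZMod 2 :=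
  fun z => if (z : V) = y then g z + 1 else g z

/-- coset coordinates inside `P` -/
def ux (P : Finset V) (x y : V) (G : Gr V) : {z : V // z ∈ P ∧ z ≠ x} → ZMod 2 :=
  fun z => val G x z + val G y z

end Graphs

/-- VAL: elementary facts on `val`, `rst`, `cs`. -/
def T_VAL : Prop := ∀ (V : Type) [Fintype V],
  (∀ (G : Gr V) (x y : V), val G x y = val G y x) ∧ (∀ (G : Gr V) (x : V), val G x x = 0) ∧
  (∀ G H : Gr V, (∀ x y, x ≠ y → val G x y = val H x y) → G = H) ∧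
  (∀ f : V → V → ZMod 2, (∀ x y, f x y = f y x) → ∃ G : Gr V, ∀ x y, x ≠ y → val G x y = f x y) ∧
  (∀ (x : V) (G : Gr V) (z w : {z : V // z ≠ x}), val (rst x G) z w = val G z w) ∧
  (∀ (x y : V), x ≠ y → ∀ G H : Gr V, rst x G = rst x H → cs x y G = cs x y H → G = H) ∧
  (∀ (x y : V), x ≠ y → ∀ (K : Gr {z : V // z ≠ x}) (g : {z : V // z ≠ x} → ZMod 2),
    ∃ G : Gr V, rst x G = K ∧ cs x y G = g)

/-- CARD: cardinalities. -/
def T_CARD : Prop := ∀ (V : Type) [Fintype V],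
  Fintype.card (Gr V) = 2 ^ ((Fintype.card V).choose 2) ∧
  (∀ P : Finset V, (ins P).card = P.card.choose 2) ∧
  (∀ (x : V), Fintype.card ({z : V // z ≠ x} → ZMod 2) = 2 ^ (Fintype.card V - 1)) ∧
  (∀ (R : Finset V) (K : Gr V), den (univ.filter (fun G => Ag R G K)) = dl R.card) ∧
  (∀ (r : ℕ) (F : Finset (Gr V)) (R : Finset V) (K : Gr V), R.card = r →
    0 ≤ rel r F R K ∧ rel r F R K ≤ 1)

/-- CUT: the parts of a family in the cosets. -/
def T_CUT : Prop := ∀ (V : Type) [Fintype V] (x y : V), x ≠ y →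
  (∀ (F : Finset (Gr V)) (g : {z : V // z ≠ x} → ZMod 2),
    den (cut x y F g) = qd F (cs x y) g * den F) ∧
  (∀ (r : ℕ) (F1 F2 : Finset (Gr V)) (g : {z : V // z ≠ x} → ZMod 2), XA r F1 F2 →
    XA r (cut x y F1 g) (cut x y F2 (flip x y g))) ∧
  (∀ (g : {z : V // z ≠ x} → ZMod 2), flip x y (flip x y g) = g)

/-- CYL: cylinders and cosets, for `R` avoiding `x` and `y`. -/
def T_CYL : Prop := ∀ (V : Type) [Fintype V] (x y : V) (R : Finset V), x ≠ y → x ∉ R → y ∉ R →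
  (R.subtype (fun z => z ≠ x)).card = R.card ∧
  (∀ G K : Gr V, Ag (R.subtype (fun z => z ≠ x)) (rst x G) (rst x K) ↔ Ag R G K) ∧
  (∀ (F : Finset (Gr V)) (K : Gr V) (g : {z : V // z ≠ x} → ZMod 2),
    (cut x y F g).filter (fun H => Ag (R.subtype (fun z => z ≠ x)) H (rst x K)) =
      cut x y (F.filter (fun G => Ag R G K)) g)

/-! ## The merging lemma -/

/-- STAR: coset coordinates inside `P`. -/
def T_STAR : Prop := ∀ (V : Type) [Fintype V] (A : Finset (Gr V)) (P : Finset V) (x : V),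
  A.Nonempty → x ∈ P →
  ∑ y ∈ P.erase x, df A (ux P x y) ≤ 2 * gd A (fun G => G) (ins P)

/-- MLP: merging lemma for one set `P`. -/
def T_MLP : Prop := ∀ (V : Type) [Fintype V] (A : Finset (Gr V)) (P : Finset V), A.Nonempty →
  ∑ x ∈ P, ∑ y ∈ P.erase x, hel A (cs x y) ≤
    10 * (P.card : ℝ) * gd A (fun G => G) (ins P) + 12200 * (ld A + 1) ^ 2

/-- ML: merging lemma. -/
def T_ML : Prop := ∀ (V : Type) [Fintype V] (A : Finset (Gr V)) (W : Finset V) (p : ℕ),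
  A.Nonempty → 2 ≤ p → p ≤ W.card →
  ∑ x ∈ W, ∑ y ∈ W.erase x, hel A (cs x y) ≤
    10 * (p : ℝ) * ld A + 24400 * (ld A + 1) ^ 2 * ((W.card : ℝ) / p) ^ 2

/-- GP: good pairs. -/
def T_GP : Prop := ∀ (V : Type) [Fintype V] (A : Fin 3 → Finset (Gr V)) (T : Finset V),
  (∀ i, (A i).Nonempty) → 10 ≤ Fintype.card V → 2 * T.card ≤ Fintype.card V →
  ∃ x y : V, x ≠ y ∧ x ∉ T ∧ y ∉ T ∧ ∀ i, hel (A i) (cs x y) ≤
    400000 * (ld (A i) + 1) ^ 2 * (Fintype.card V : ℝ) ^ (-(4 / 3) : ℝ)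

/-! ## Real analysis for the induction -/

/-- AVG: merging inequality for the product of densities. -/
def T_AVG : Prop := ∀ (V : Type) [Fintype V] (x y : V), x ≠ y → ∀ (F1 F2 : Finset (Gr V)),
  F1.Nonempty → F2.Nonempty →
  √(den F1 * den F2) * (1 - hel F1 (cs x y) - hel F2 (cs x y)) ≤
    (∑ g, √(den (cut x y F1 g) * den (cut x y F2 (flip x y g)))) /
      (Fintype.card ({z : V // z ≠ x} → ZMod 2) : ℝ)

/-- QD: change of measure. -/
def T_QD : Prop := ∀ (T : Type) [Fintype T] (q b : T → ℝ) (β V H : ℝ), Nonempty T →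
  (∀ t, 0 ≤ q t) → ∑ t, q t = (Fintype.card T : ℝ) → (∀ t, 0 ≤ b t) → (∀ t, b t ≤ 1) →
  ∑ t, b t = β * (Fintype.card T : ℝ) →
  (∑ t, (b t - β) ^ 2) / (Fintype.card T : ℝ) ≤ V →
  (∑ t, (√(q t) - 1) ^ 2) / (Fintype.card T : ℝ) ≤ H →
  β - 4 * (H + V) ≤ (∑ t, q t * b t) / (Fintype.card T : ℝ)

/-- VARI: the variance is bounded by the Hellinger distance. -/
def T_VARI : Prop := ∀ (T : Type) [Fintype T] (q : T → ℝ) (β H : ℝ), Nonempty T →
  (∀ t, 0 ≤ q t) → 0 ≤ β → β ≤ 1 → (∀ t, β * q t ≤ 1) →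
  (∑ t, (√(q t) - 1) ^ 2) / (Fintype.card T : ℝ) ≤ H →
  (∑ t, (β * q t - β) ^ 2) / (Fintype.card T : ℝ) ≤ 4 * β * H

/-- SUMN: the sum of `j^(-4/3)`. -/
def T_SUMN : Prop := ∀ m n : ℕ, 1 ≤ m → m ≤ n →
  ∑ j ∈ Ioc m n, (j : ℝ) ^ (-(4 / 3) : ℝ) ≤ 3 * (m : ℝ) ^ (-(1 / 3) : ℝ)

/-! ## Local statements -/

/-- FAR: the base of the local lemma. -/
def T_FAR : Prop := ∀ (V : Type) [Fintype V] (l r : ℕ) (A B : Finset (Gr V)) (R : Finset V)
  (K : Gr V), Fintype.card V ≤ 2 ^ l → 6 * l + 6 ≤ r → R.card = r → XA r A B → A.Nonempty →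
  (∀ G ∈ A, ¬ Ag R G K) → rel r B R K ≤ 4 * 2 ^ (2 * l) / 2 ^ r

/-- LONE: the Shearer bound for another class. -/
def T_LONE : Prop := ∀ (V : Type) [Fintype V] (r : ℕ) (F1 F2 : Finset (Gr V)) (R : Finset V)
  (K K1 : Gr V), 3 ≤ r → R.card = r → XA r F1 F2 → ¬ Ag R K1 K →
  rel r F1 R K1 ≤ (1 - rel r F2 R K) ^ (r - 1)

/-- a pair of vertices and a vertex set in admissible position -/
def Typ {V : Type} (r : ℕ) (N : Finset V) (x y : V) : Prop :=
  x ≠ y ∧ ((N.card = r ∧ x ∉ N ∧ y ∉ N) ∨ (N.card = r + 1 ∧ x ∈ N ∧ y ∈ N))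

/-- monochromatic pairs -/
def Mono {V : Type} {k : ℕ} (χ : V → Fin k) (e : Ed V) : Prop :=
  ∀ u ∈ e.1, ∀ v ∈ e.1, χ u = χ v

/-- COLA: colouring for sets with small intersection. -/
def T_COLA : Prop := ∀ (V : Type) [Fintype V] (r : ℕ) (N N' : Finset V) (x y x' y' : V), 8 ≤ r →
  Typ r N x y → Typ r N' x' y' → (N ∩ N').card < r → ∃ χ : V → Fin (r - 1),
  χ x ≠ χ y ∧ χ x' ≠ χ y' ∧ (∀ u ∈ N ∩ N', ∀ v ∈ N ∩ N', χ u = χ v → u = v) ∧
  ((ins N).filter (Mono χ)).card ≤ 3 ∧ ((ins N').filter (Mono χ)).card ≤ 3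

/-- COLB: colouring for one set and a pair in it. -/
def T_COLB : Prop := ∀ (V : Type) [Fintype V] (r : ℕ) (N : Finset V) (x y x' y' u v : V), 8 ≤ r →
  N.card = r → x ≠ y → x' ≠ y' → x ∉ N → y ∉ N → x' ∉ N → y' ∉ N → u ∈ N → v ∈ N → u ≠ v →
  ∃ χ : V → Fin (r - 1), χ x ≠ χ y ∧ χ x' ≠ χ y' ∧
  ∀ e ∈ ins N, Mono χ e → e.1 = {u, v}

/-- the coset-cylinder -/
def cc {V : Type} [Fintype V] (N : Finset V) (κ : Gr V) (x y : V)
    (g : {z : V // z ≠ x} → ZMod 2) : Finset (Gr V) :=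
  univ.filter (fun G => Ag N G κ ∧ cs x y G = g)

/-- FIB: uniform fibres of the restriction of a coset-cylinder to the monochromatic pairs. -/
def T_FIB : Prop := ∀ (V : Type) [Fintype V] (r k : ℕ) (N : Finset V) (κ : Gr V) (x y : V)
  (χ : V → Fin k) (θ : Gr V), Typ r N x y → χ x ≠ χ y →
  (∀ e ∈ ins N, Mono χ e → θ e = κ e) →
  ((cc N κ x y (cs x y κ)).filter (fun G => ∀ e, Mono χ e → G e = θ e)).card *
    2 ^ ((univ : Finset (Ed V)).filter (fun e => Mono χ e ∧ e ∉ ins N)).card =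
  (cc N κ x y (cs x y κ)).card

/-- CONF: conflict lemma. -/
def T_CONF : Prop := ∀ (V : Type) [Fintype V] (r : ℕ) (F1 F2 : Finset (Gr V)) (N N' : Finset V)
  (x y x' y' : V) (κ κ' : Gr V), 8 ≤ r → XA r F1 F2 → Typ r N x y → Typ r N' x' y' →
  (31 / 32 : ℝ) * ((cc N κ x y (cs x y κ)).card : ℝ) ≤ ((F1 ∩ cc N κ x y (cs x y κ)).card : ℝ) →
  (31 / 32 : ℝ) * ((cc N' κ' x' y' (cs x' y' κ')).card : ℝ) ≤
    ((F2 ∩ cc N' κ' x' y' (cs x' y' κ')).card : ℝ) →
  r ≤ (N ∩ N').card ∧ (N = N' → N.card = r → Ag N κ κ')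

/-- PIECE: a dense piece in the merged graph gives a dense piece of a coset-cylinder. -/
def T_PIECE : Prop := ∀ (V : Type) [Fintype V] (r : ℕ) (F : Finset (Gr V)) (x y : V)
  (g : {z : V // z ≠ x} → ZMod 2) (R' : Finset {z : V // z ≠ x}) (K' : Gr {z : V // z ≠ x})
  (κ : Gr V), x ≠ y → R'.card = r → (31 / 32 : ℝ) ≤ rel r (cut x y F g) R' K' →
  rst x κ = K' → cs x y κ = g → ∀ N : Finset V,
  N = (if ∃ h : y ≠ x, (⟨y, h⟩ : {z : V // z ≠ x}) ∈ R' then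
    insert x (R'.map (Function.Embedding.subtype _)) else R'.map (Function.Embedding.subtype _)) →
  Typ r N x y ∧ (31 / 32 : ℝ) * ((cc N κ x y (cs x y κ)).card : ℝ) ≤
    ((F ∩ cc N κ x y (cs x y κ)).card : ℝ)

/-! ## The base: few vertices -/

/-- number of pairs of an `r`-set meeting a fixed `k`-subset -/
def phi (r k : ℕ) : ℕ := r.choose 2 - (r - k).choose 2

/-- `k` is the covering number of `F2` with respect to `(I, K)`: every member of `F2` agrees with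
`K` on `I` minus `k` points, and `k` is minimal -/
def Cov {V : Type} (F2 : Finset (Gr V)) (I : Finset V) (K : Gr V) (k : ℕ) : Prop :=
  (∀ G ∈ F2, ∃ T ⊆ I, T.card = k ∧ Ag (I \ T) G K) ∧
  ∀ k' < k, ¬ ∀ G ∈ F2, ∃ T ⊆ I, T.card = k' ∧ Ag (I \ T) G K

/-- COVM: the maximal class is small if the covering number is large. -/
def T_COVM : Prop := ∀ (V : Type) [Fintype V] (l r k j : ℕ) (F1 F2 : Finset (Gr V))
  (I : Finset V) (K : Gr V), 1 ≤ l → 40 * l ^ 2 ≤ r → Fintype.card V ≤ 2 ^ l → XA r F1 F2 →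
  F2.Nonempty → I.card = r → Cov F2 I K k → j ≤ k → j ≤ 2 * l + 2 →
  rel r F1 I K ≤ 2 * (2 : ℝ) ^ (2 * l * j) / 2 ^ phi r j

/-- COVB: bounds by a maximal class. -/
def T_COVB : Prop := ∀ (V : Type) [Fintype V] (l r k : ℕ) (F1 F2 : Finset (Gr V))
  (I : Finset V) (K : Gr V) (M2 : ℝ), 1 ≤ l → 40 * l ^ 2 ≤ r → Fintype.card V ≤ 2 ^ l →
  XA r F1 F2 → F1.Nonempty → F2.Nonempty → I.card = r → Cov F2 I K k →
  (∀ (J : Finset V) (K' : Gr V), J.card = r → rel r F2 J K' ≤ M2) →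
  den F2 / dl r ≤ (2 : ℝ) ^ (l * r) * M2 ∧
  den F2 / dl r ≤ (2 : ℝ) ^ (l * k) * M2 * 2 ^ phi r k

/-- DIR: the main step of the argument for few vertices. -/
def T_DIR : Prop := ∀ (V : Type) [Fintype V] (l r k : ℕ) (F1 F2 : Finset (Gr V))
  (I : Finset V) (K : Gr V) (M2 : ℝ), 1 ≤ l → 40 * l ^ 2 ≤ r → Fintype.card V ≤ 2 ^ l →
  XA r F1 F2 → F1.Nonempty → F2.Nonempty → I.card = r → Cov F2 I K k → k ≤ 2 * l + 1 →
  (∀ (J : Finset V) (K' : Gr V), J.card = r → rel r F2 J K' ≤ M2) →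
  den F2 / dl r ≤ (2 : ℝ) ^ (l * k + 1) * M2 ∨
  rel r F1 I K ≤ (2 : ℝ) ^ (3 * l * k + 2 * l + 3) / 2 ^ (phi r k + (r - 1 - k)) ∨
  den F2 / dl r ≤ (2 : ℝ) ^ (2 * l * k + 1) * M2 * 2 ^ phi r k / 2 ^ (r - 1 - k)

/-- BASE: few vertices, with a gap. -/
def T_BASE : Prop := ∀ (V : Type) [Fintype V] (l r : ℕ) (F1 F2 : Finset (Gr V)), 1 ≤ l →
  40 * l ^ 2 ≤ r → Fintype.card V ≤ 2 ^ l → XA r F1 F2 → dl r ^ 2 / 2 ≤ den F1 * den F2 →
  ∃ (R : Finset V) (K : Gr V), R.card = r ∧ (∀ G ∈ F1, Ag R G K) ∧ (∀ G ∈ F2, Ag R G K)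

/-! ## Many vertices -/

/-- the numerical condition; the induction starts at `2 ^ l` vertices -/
def Num (l r : ℕ) : Prop := 4 ≤ l ∧ 40 * l ^ 2 ≤ r ∧ 2 * r + 10 ≤ 2 ^ l ∧
  10 ^ 14 * ((r : ℝ) ^ 2 + 1) ^ 2 * ((2 : ℝ) ^ l) ^ (-(1 / 3) : ℝ) ≤ 1

/-- NUM: the numerical condition holds for all large `r`. -/
def T_NUM : Prop := ∃ r0 : ℕ, ∀ r ≥ r0, ∃ l : ℕ, Num l r

/-- LL: the local lemma. -/
def T_LL : Prop := ∀ (V : Type) [Fintype V] (l r : ℕ) (A B : Finset (Gr V)) (R : Finset V)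
  (K : Gr V), 6 * l + 6 ≤ r → 2 * r + 10 ≤ 2 ^ l → 2 ^ l ≤ Fintype.card V → R.card = r →
  XA r A B → A.Nonempty → (∀ G ∈ A, ¬ Ag R G K) →
  rel r B R K ≤ 4 * 2 ^ (2 * l) / 2 ^ r + 8000000 * (ld A + (r : ℝ) ^ 2 + 1) ^ 2 *
    ∑ j ∈ Ioc (2 ^ l) (Fintype.card V), (j : ℝ) ^ (-(4 / 3) : ℝ)

/-- DL: two families which are dense in the same cylinder. -/
def T_DL : Prop := ∀ (V : Type) [Fintype V] (l r : ℕ) (F1 F2 : Finset (Gr V)) (R : Finset V)
  (K : Gr V), Num l r → 2 ^ l ≤ Fintype.card V → R.card = r → XA r F1 F2 →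
  1 / 10 ≤ rel r F1 R K → 1 / 10 ≤ rel r F2 R K →
  den F1 * den F2 ≤ dl r ^ 2 ∧ den F1 ≤ (rel r F1 R K + 1 / 2 ^ r) * dl r ∧
  den F2 ≤ (rel r F2 R K + 1 / 2 ^ r) * dl r

/-- both families are dense in the cylinder `(R, K)` -/
def Dom {V : Type} [Fintype V] (r : ℕ) (F1 F2 : Finset (Gr V)) (R : Finset V) (K : Gr V) : Prop :=
  R.card = r ∧ 31 / 32 ≤ rel r F1 R K ∧ 31 / 32 ≤ rel r F2 R K

/-- STEPA: all dominated cosets of good pairs belong to one cylinder. -/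
def T_STEPA : Prop := ∀ (V : Type) [Fintype V] (r : ℕ) (F1 F2 : Finset (Gr V))
  (Gd : V → V → Prop), 8 ≤ r → XA r F1 F2 → (∀ x y, Gd x y → x ≠ y) →
  (∀ T : Finset V, T.card ≤ r + 1 → ∃ x y, x ∉ T ∧ y ∉ T ∧ Gd x y) →
  (∀ x y, Gd x y → ∃ g R' K', Dom r (cut x y F1 g) (cut x y F2 (flip x y g)) R' K') →
  ∃ (R : Finset V) (K : Gr V), R.card = r ∧ ∀ x y, Gd x y → x ∉ R → y ∉ R → ∀ g R' K',
    Dom r (cut x y F1 g) (cut x y F2 (flip x y g)) R' K' →
    31 / 32 ≤ rel r (cut x y F1 g) (R.subtype (fun z => z ≠ x)) (rst x K) ∧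
    31 / 32 ≤ rel r (cut x y F2 (flip x y g)) (R.subtype (fun z => z ≠ x)) (rst x K)

/-- FRAC: for a good pair avoiding `R` few cosets are dense in the cylinder `(R, K)`. -/
def T_FRAC : Prop := ∀ (V : Type) [Fintype V] (r : ℕ) (F : Finset (Gr V)) (R : Finset V)
  (K : Gr V) (x y : V) (H : ℝ), x ≠ y → x ∉ R → y ∉ R → R.card = r →
  (F.filter (fun G => Ag R G K)).Nonempty → rel r F R K < 15 / 16 →
  hel (F.filter (fun G => Ag R G K)) (cs x y) ≤ H →
  (((univ : Finset ({z : V // z ≠ x} → ZMod 2)).filter (fun g =>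
    31 / 32 ≤ rel r (cut x y F g) (R.subtype (fun z => z ≠ x)) (rst x K))).card : ℝ) ≤
  4096 * rel r F R K * H * (Fintype.card ({z : V // z ≠ x} → ZMod 2) : ℝ)

/-- the statement for all vertex sets with `n` vertices -/
def Bd (r n : ℕ) (s : ℝ) : Prop := ∀ (V : Type) [Fintype V] (F1 F2 : Finset (Gr V)),
  Fintype.card V = n → XA r F1 F2 →
  √(den F1 * den F2) ≤ dl r ∧
  ((∀ R K, ¬ Dom r F1 F2 R K) → √(den F1 * den F2) ≤ s * dl r)

/-- BDB: the base of the gap induction. -/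
def T_BDB : Prop := ∀ l r : ℕ, Num l r → Bd r (2 ^ l) (1 - 1 / 128)

/-- BDS: the step of the gap induction. -/
def T_BDS : Prop := ∀ (l r n : ℕ) (s : ℝ), Num l r → 2 ^ l ≤ n → 1 - 1 / 128 ≤ s → s < 1 →
  Bd r n s → s + 2000000000 * ((r : ℝ) ^ 2 + 1) ^ 2 * ((n + 1 : ℕ) : ℝ) ^ (-(4 / 3) : ℝ) < 1 →
  Bd r (n + 1) (s + 2000000000 * ((r : ℝ) ^ 2 + 1) ^ 2 * ((n + 1 : ℕ) : ℝ) ^ (-(4 / 3) : ℝ))

/-- MAIN: the bound for many vertices. -/
def T_MAIN : Prop := ∀ (V : Type) [Fintype V] (l r : ℕ) (F1 F2 : Finset (Gr V)), Num l r →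
  2 ^ l ≤ Fintype.card V → XA r F1 F2 → den F1 * den F2 ≤ dl r ^ 2

/-- FIN: the final statement. -/
def T_FIN : Prop := ∃ r0 : ℕ, ∀ r n : ℕ, r0 ≤ r → r ≤ n →
  (∀ F : Finset (SimpleGraph (Fin n)),
    (∀ G ∈ F, ∀ H ∈ F, G ≠ H → ∃ s : Finset (Fin n), (symmDiff G H).IsNIndepSet r s) →
    F.card ≤ 2 ^ (n.choose 2 - r.choose 2)) ∧
  (∃ F : Finset (SimpleGraph (Fin n)),
    (∀ G ∈ F, ∀ H ∈ F, G ≠ H → ∃ s : Finset (Fin n), (symmDiff G H).IsNIndepSet r s) ∧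
    F.card = 2 ^ (n.choose 2 - r.choose 2))

end

end Pool.Agent.EFX
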