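import Mathlib
import Pool.Agent.EFX.Targets

set_option autoImplicit false

/-!
# Colouring for two sets with small intersection
-/

namespace Pool.Agent.EFX

open Finset

open scoped Classical

private theorem COLA_ext {V : Type} [Fintype V] {k : ℕ} (hk : 5 ≤ k) (x y x' y' : V)
    (hxy : x ≠ y) (hxy' : x' ≠ y') :
    ∀ (n : ℕ) (A : Finset V) (f : V → Fin k), (univ \ A).card = n →
      (x ∈ A → y ∈ A → f x ≠ f y) → (x' ∈ A → y' ∈ A → f x' ≠ f y') →
      ∃ χ : V → Fin k, (∀ v ∈ A, χ v = f v) ∧ χ x ≠ χ y ∧ χ x' ≠ χ y' := by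
  intro n
  induction n with
  | zero =>
    intro A f hA h1 h2
    have hall : ∀ v, v ∈ A := by
      intro v
      by_contra hv
      have : v ∈ univ \ A := by simp [hv]
      rw [card_eq_zero] at hA
      rw [hA] at this
      simp at this
    exact ⟨f, fun v _ => rfl, h1 (hall x) (hall y), h2 (hall x') (hall y')⟩
  | succ n ih =>
    intro A f hA h1 h2
    have hne : (univ \ A).Nonempty := by
      rw [← card_pos, hA]; omega
    obtain ⟨v, hv⟩ := hne
    have hvA : v ∉ A := by simpa using hv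
    obtain ⟨c, hc⟩ : ∃ c : Fin k, c ∉ ({f x, f y, f x', f y'} : Finset (Fin k)) := by
      by_contra hcon
      push Not at hcon
      have h3 : (univ : Finset (Fin k)) ⊆ {f x, f y, f x', f y'} := fun c _ => hcon c
      have h4 := card_le_card h3
      have h5 : ({f x, f y, f x', f y'} : Finset (Fin k)).card ≤ 4 := card_le_four
      simp at h4
      omega
    simp only [mem_insert, mem_singleton, not_or] at hc
    obtain ⟨hc1, hc2, hc3, hc4⟩ := hc
    have hA' : (univ \ insert v A).card = n := by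
      have h3 : univ \ insert v A = (univ \ A).erase v := by
        ext w; simp [not_or]
      rw [h3, card_erase_of_mem hv, hA]
      rfl
    obtain ⟨χ, hχ, hχ1, hχ2⟩ := ih (insert v A) (Function.update f v c) hA' (by
      intro hx hy
      by_cases hxv : x = v
      · have hyv : y ≠ v := fun h => hxy (hxv.trans h.symm)
        rw [hxv, Function.update_self, Function.update_of_ne hyv]
        exact hc2
      · by_cases hyv : y = v
        · rw [hyv, Function.update_self, Function.update_of_ne hxv]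
          exact fun h => hc1 h.symm
        · rw [Function.update_of_ne hxv, Function.update_of_ne hyv]
          exact h1 ((mem_insert.1 hx).resolve_left hxv) ((mem_insert.1 hy).resolve_left hyv)) (by
      intro hx hy
      by_cases hxv : x' = v
      · have hyv : y' ≠ v := fun h => hxy' (hxv.trans h.symm)
        rw [hxv, Function.update_self, Function.update_of_ne hyv]
        exact hc4
      · by_cases hyv : y' = v
        · rw [hyv, Function.update_self, Function.update_of_ne hxv]
          exact fun h => hc3 h.symm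
        · rw [Function.update_of_ne hxv, Function.update_of_ne hyv]
          exact h2 ((mem_insert.1 hx).resolve_left hxv) ((mem_insert.1 hy).resolve_left hyv))
    refine ⟨χ, fun w hw => ?_, hχ1, hχ2⟩
    rw [hχ w (mem_insert_of_mem hw), Function.update_of_ne]
    intro h
    exact hvA (h ▸ hw)

private theorem COLA_extend {V : Type} [Fintype V] {k : ℕ} (hk : 0 < k) (I N : Finset V)
    (hIN : I ⊆ N) (hN : N.card = k) (f : V → Fin k) (hf : ∀ u ∈ I, ∀ v ∈ I, f u = f v → u = v) :
    ∃ g : V → Fin k, (∀ u ∈ I, g u = f u) ∧ ∀ u ∈ N, ∀ v ∈ N, g u = g v → u = v := by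
  have hcard : Fintype.card {v // v ∈ N} = (univ : Finset (Fin k)).card := by
    simp [hN]
  obtain ⟨e, he⟩ := Finset.exists_equiv_extend_of_card_eq hcard
    (s := univ.filter (fun v : {v // v ∈ N} => (v : V) ∈ I)) (f := fun v => f v)
    (subset_univ _) (by
      intro u hu v hv h
      have hu' : (u : V) ∈ I := by simpa using hu
      have hv' : (v : V) ∈ I := by simpa using hv
      exact Subtype.ext (hf u hu' v hv' h))
  refine ⟨fun v => if h : v ∈ N then (e ⟨v, h⟩ : Fin k) else ⟨0, hk⟩, ?_, ?_⟩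
  · intro u hu
    have huN := hIN hu
    simp only [huN, dif_pos]
    exact he ⟨u, huN⟩ (by simp [hu])
  · intro u hu v hv h
    simp only [hu, hv, dif_pos] at h
    have h1 : e ⟨u, hu⟩ = e ⟨v, hv⟩ := Subtype.ext h
    exact congrArg Subtype.val (e.injective h1)

private theorem COLA_cnt {V : Type} [Fintype V] {k : ℕ} (N N0 : Finset V) (h0 : N0 ⊆ N)
    (χ : V → Fin k) (hχ : ∀ u ∈ N0, ∀ v ∈ N0, χ u = χ v → u = v) (hD : (N \ N0).card ≤ 2) :
    ((ins N).filter (Mono χ)).card ≤ 3 := by
  set S := (ins N).filter (Mono χ) with hS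
  have hsplit := card_filter_add_card_filter_not (s := S) (fun e : Ed V => e.1 ⊆ N \ N0)
  have hc1 : (S.filter (fun e : Ed V => e.1 ⊆ N \ N0)).card ≤ 1 := by
    rw [card_le_one]
    intro e he e' he'
    have he1 := (mem_filter.1 he).2
    have he1' := (mem_filter.1 he').2
    have h1 : e.1 = N \ N0 := eq_of_subset_of_card_le he1 (by rw [e.2]; exact hD)
    have h2 : e'.1 = N \ N0 := eq_of_subset_of_card_le he1' (by rw [e'.2]; exact hD)
    exact Subtype.ext (h1.trans h2.symm)
  have key : ∀ e ∈ S.filter (fun e : Ed V => ¬ e.1 ⊆ N \ N0), ∃ u v : V, u ∈ N \ N0 ∧ v ∈ N0 ∧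
      e.1 = {u, v} ∧ χ u = χ v := by
    intro e he
    obtain ⟨he1, he2⟩ := mem_filter.1 he
    obtain ⟨he3, he4⟩ := mem_filter.1 he1
    have he5 : e.1 ⊆ N := (mem_filter.1 he3).2
    obtain ⟨v, hv, hvD⟩ := not_subset.1 he2
    have hvN0 : v ∈ N0 := by
      by_contra h
      exact hvD (mem_sdiff.2 ⟨he5 hv, h⟩)
    have hcard : (e.1.erase v).card = 1 := by rw [card_erase_of_mem hv, e.2]
    obtain ⟨u, hu⟩ := card_eq_one.1 hcard
    have hue : u ∈ e.1.erase v := by rw [hu]; simp
    have hune := (mem_erase.1 hue).1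
    have huin := (mem_erase.1 hue).2
    have hmono : χ u = χ v := he4 u huin v hv
    refine ⟨u, v, ?_, hvN0, ?_, hmono⟩
    · rw [mem_sdiff]
      refine ⟨he5 huin, fun h => hune (hχ u h v hvN0 hmono)⟩
    · rw [← insert_erase hv, hu]
      exact Finset.pair_comm v u
  have hc2 : (S.filter (fun e : Ed V => ¬ e.1 ⊆ N \ N0)).card ≤ (N \ N0).card := by
    apply card_le_card_of_forall_subsingleton (fun (e : Ed V) (u : V) => u ∈ e.1)
    · intro e he
      obtain ⟨u, v, hu, hv, he1, -⟩ := key e he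
      exact ⟨u, hu, by rw [he1]; simp⟩
    · intro u hu e he e' he'
      obtain ⟨he1, he2⟩ := he
      obtain ⟨he1', he2'⟩ := he'
      obtain ⟨a, b, ha, hb, hab, hm⟩ := key e he1
      obtain ⟨a', b', ha', hb', hab', hm'⟩ := key e' he1'
      have hu2 : u ∉ N0 := (mem_sdiff.1 hu).2
      have hua : u = a := by
        have : u ∈ e.1 := he2
        rw [hab] at this
        rcases mem_insert.1 this with h | h
        · exact h
        · exact absurd ((mem_singleton.1 h) ▸ hb) hu2
      have hua' : u = a' := by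
        have : u ∈ e'.1 := he2'
        rw [hab'] at this
        rcases mem_insert.1 this with h | h
        · exact h
        · exact absurd ((mem_singleton.1 h) ▸ hb') hu2
      have hbb : b = b' := by
        apply hχ b hb b' hb'
        rw [← hm, ← hm', ← hua, ← hua']
      apply Subtype.ext
      rw [hab, hab', ← hua, ← hua', hbb]
  omega

theorem p_COLA : T_COLA := by
  intro V _ r N N' x y x' y' hr hT hT' hI
  obtain ⟨hxy, hN⟩ := hT
  obtain ⟨hxy', hN'⟩ := hT'
  set I := N ∩ N' with hIdef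
  have hNc : r - 1 ≤ N.card := by rcases hN with h | h <;> omega
  have hNc' : r - 1 ≤ N'.card := by rcases hN' with h | h <;> omega
  obtain ⟨N0, hIN0, hN0N, hN0c⟩ := exists_subsuperset_card_eq (inter_subset_left : I ⊆ N)
    (by omega : I.card ≤ r - 1) hNc
  obtain ⟨N0', hIN0', hN0N', hN0c'⟩ := exists_subsuperset_card_eq (inter_subset_right : I ⊆ N')
    (by omega : I.card ≤ r - 1) hNc'
  obtain ⟨f0, -, hf0⟩ := COLA_extend (by omega : 0 < r - 1) ∅ N0 (empty_subset _) hN0c
    (fun _ => ⟨0, by omega⟩) (by simp)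
  obtain ⟨f1, hf1, hf1'⟩ := COLA_extend (by omega : 0 < r - 1) I N0' hIN0' hN0c' f0
    (fun u hu v hv h => hf0 u (hIN0 hu) v (hIN0 hv) h)
  set f : V → Fin (r - 1) := fun v => if v ∈ N0 then f0 v else f1 v with hf
  have hfa : ∀ v ∈ N0, f v = f0 v := by
    intro v hv; simp [hf, hv]
  have hfb : ∀ v ∈ N0', f v = f1 v := by
    intro v hv
    by_cases h : v ∈ N0
    · rw [hfa v h, hf1 v (mem_inter.2 ⟨hN0N h, hN0N' hv⟩)]
    · simp [hf, h]
  have hinj : ∀ u ∈ N0, ∀ v ∈ N0, f u = f v → u = v := by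
    intro u hu v hv h
    rw [hfa u hu, hfa v hv] at h
    exact hf0 u hu v hv h
  have hinj' : ∀ u ∈ N0', ∀ v ∈ N0', f u = f v → u = v := by
    intro u hu v hv h
    rw [hfb u hu, hfb v hv] at h
    exact hf1' u hu v hv h
  have hpre : ∀ a b : V, a ≠ b → ((N.card = r ∧ a ∉ N ∧ b ∉ N) ∨ (N.card = r + 1 ∧ a ∈ N ∧ b ∈ N)) →
      a ∈ N0 ∪ N0' → b ∈ N0 ∪ N0' → f a ≠ f b := by
    intro a b hab hcase ha hb h
    rcases hcase with ⟨-, ha1, hb1⟩ | ⟨-, ha1, hb1⟩
    · have ha2 : a ∈ N0' := (mem_union.1 ha).resolve_left (fun h => ha1 (hN0N h))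
      have hb2 : b ∈ N0' := (mem_union.1 hb).resolve_left (fun h => hb1 (hN0N h))
      exact hab (hinj' a ha2 b hb2 h)
    · have ha2 : a ∈ N0 := by
        rcases mem_union.1 ha with h | h
        · exact h
        · exact hIN0 (mem_inter.2 ⟨ha1, hN0N' h⟩)
      have hb2 : b ∈ N0 := by
        rcases mem_union.1 hb with h | h
        · exact h
        · exact hIN0 (mem_inter.2 ⟨hb1, hN0N' h⟩)
      exact hab (hinj a ha2 b hb2 h)
  have hpre' : ∀ a b : V, a ≠ b →
      ((N'.card = r ∧ a ∉ N' ∧ b ∉ N') ∨ (N'.card = r + 1 ∧ a ∈ N' ∧ b ∈ N')) →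
      a ∈ N0 ∪ N0' → b ∈ N0 ∪ N0' → f a ≠ f b := by
    intro a b hab hcase ha hb h
    rcases hcase with ⟨-, ha1, hb1⟩ | ⟨-, ha1, hb1⟩
    · have ha2 : a ∈ N0 := (mem_union.1 ha).resolve_right (fun h => ha1 (hN0N' h))
      have hb2 : b ∈ N0 := (mem_union.1 hb).resolve_right (fun h => hb1 (hN0N' h))
      exact hab (hinj a ha2 b hb2 h)
    · have ha2 : a ∈ N0' := by
        rcases mem_union.1 ha with h | h
        · exact hIN0' (mem_inter.2 ⟨hN0N h, ha1⟩)
        · exact h
      have hb2 : b ∈ N0' := by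
        rcases mem_union.1 hb with h | h
        · exact hIN0' (mem_inter.2 ⟨hN0N h, hb1⟩)
        · exact h
      exact hab (hinj' a ha2 b hb2 h)
  obtain ⟨χ, hχ, hχ1, hχ2⟩ := COLA_ext (by omega : 5 ≤ r - 1) x y x' y' hxy hxy' _ (N0 ∪ N0') f rfl
    (hpre x y hxy hN) (hpre' x' y' hxy' hN')
  refine ⟨χ, hχ1, hχ2, ?_, ?_, ?_⟩
  · intro u hu v hv h
    rw [hχ u (mem_union_left _ (hIN0 hu)), hχ v (mem_union_left _ (hIN0 hv))] at h
    exact hinj u (hIN0 hu) v (hIN0 hv) h
  · apply COLA_cnt N N0 hN0N χ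
    · intro u hu v hv h
      rw [hχ u (mem_union_left _ hu), hχ v (mem_union_left _ hv)] at h
      exact hinj u hu v hv h
    · rw [card_sdiff_of_subset hN0N, hN0c]
      rcases hN with h | h <;> omega
  · apply COLA_cnt N' N0' hN0N' χ
    · intro u hu v hv h
      rw [hχ u (mem_union_right _ hu), hχ v (mem_union_right _ hv)] at h
      exact hinj' u hu v hv h
    · rw [card_sdiff_of_subset hN0N', hN0c']
      rcases hN' with h | h <;> omega

end Pool.Agent.EFX
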