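import Mathlib
import Pool.Agent.EFX.Targets

set_option autoImplicit false

/-!
# Colouring for one set and a pair in it
-/

namespace Pool.Agent.EFX

open Finset

open scoped Classical

noncomputable section

namespace COLB_

/-- the colours of the vertices outside -/
def oc {V : Type} (k : ℕ) (hk : 7 ≤ k) (x y x' : V) (z : V) : Fin k :=
  if z = x then ⟨0, by omega⟩ else if z = y then ⟨1, by omega⟩ else
    if z = x' then ⟨3, by omega⟩ else ⟨2, by omega⟩

theorem oc_xy {V : Type} (k : ℕ) (hk : 7 ≤ k) (x y x' : V) (h : x ≠ y) :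
    oc k hk x y x' x ≠ oc k hk x y x' y := by
  have h' : y ≠ x := fun e => h e.symm
  simp [oc, h']

theorem oc_xy' {V : Type} (k : ℕ) (hk : 7 ≤ k) (x y x' y' : V) (h : x ≠ y) (h2 : x' ≠ y') :
    oc k hk x y x' x' ≠ oc k hk x y x' y' := by
  have h' : y ≠ x := fun e => h e.symm
  have h2' : y' ≠ x' := fun e => h2 e.symm
  unfold oc
  by_cases a1 : x' = x
  · subst a1
    by_cases b2 : y' = y
    · subst b2
      simp [h']
    · simp [h2', b2]
  · by_cases a2 : x' = y
    · subst a2
      by_cases b1 : y' = x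
      · subst b1
        simp [a1]
      · simp [a1, b1, h2']
    · by_cases b1 : y' = x
      · simp [a1, a2, b1]
      · by_cases b2 : y' = y
        · simp [a1, a2, b2, h']
        · simp [a1, a2, b1, b2, h2']

end COLB_

theorem p_COLB : T_COLB := by
  intro V _ r N x y x' y' u v hr hN hxy hxy' hx hy hx' hy' hu hv huv
  have hcard : (N.erase v).card = r - 1 := by
    rw [Finset.card_erase_of_mem hv, hN]
  let φ : {z // z ∈ N.erase v} ≃ Fin (r - 1) := Finset.equivFinOfCardEq hcard
  have hue : u ∈ N.erase v := Finset.mem_erase.mpr ⟨huv, hu⟩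
  have hk : 7 ≤ r - 1 := by omega
  let χ : V → Fin (r - 1) := fun z =>
    if h : z ∈ N.erase v then φ ⟨z, h⟩ else if z = v then φ ⟨u, hue⟩ else COLB_.oc (r - 1) hk x y x' z
  have hout : ∀ z, z ∉ N → χ z = COLB_.oc (r - 1) hk x y x' z := by
    intro z hz
    have h1 : z ∉ N.erase v := fun h => hz (Finset.mem_of_mem_erase h)
    have h2 : z ≠ v := fun h => hz (h ▸ hv)
    simp only [χ]
    rw [dif_neg h1, if_neg h2]
  have hin : ∀ (z : V) (h : z ∈ N.erase v), χ z = φ ⟨z, h⟩ := by
    intro z h
    simp only [χ]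
    rw [dif_pos h]
  have hv' : χ v = φ ⟨u, hue⟩ := by
    simp only [χ]
    rw [dif_neg (by simp)]; simp
  refine ⟨χ, ?_, ?_, ?_⟩
  · rw [hout x hx, hout y hy]
    exact COLB_.oc_xy _ hk x y x' hxy
  · rw [hout x' hx', hout y' hy']
    exact COLB_.oc_xy' _ hk x y x' y' hxy hxy'
  · rintro ⟨e, he⟩ heN hM
    obtain ⟨a, b, hab, rfl⟩ := Finset.card_eq_two.mp he
    have hsub : ({a, b} : Finset V) ⊆ N := by
      simpa [ins] using heN
    have haN : a ∈ N := hsub (by simp)
    have hbN : b ∈ N := hsub (by simp)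
    have hχ : χ a = χ b := hM a (by simp) b (by simp)
    simp only
    by_cases ha : a = v
    · have hbe : b ∈ N.erase v := Finset.mem_erase.mpr ⟨fun h => hab (ha.trans h.symm), hbN⟩
      rw [ha, hv', hin b hbe] at hχ
      have := φ.injective hχ
      have hub : u = b := congrArg Subtype.val this
      rw [ha, ← hub, Finset.pair_comm]
    · have hae : a ∈ N.erase v := Finset.mem_erase.mpr ⟨ha, haN⟩
      by_cases hb : b = v
      · rw [hb, hv', hin a hae] at hχ
        have := φ.injective hχ
        have hua : a = u := congrArg Subtype.val this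
        rw [hb, hua]
      · have hbe : b ∈ N.erase v := Finset.mem_erase.mpr ⟨hb, hbN⟩
        rw [hin a hae, hin b hbe] at hχ
        have := φ.injective hχ
        exact absurd (congrArg Subtype.val this) hab

end

end Pool.Agent.EFX
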