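import Pool.Agent.EFX.Targets

set_option autoImplicit false

/-!
# CONF: the conflict lemma
-/

namespace Pool.Agent.EFX

open Finset

open scoped Classical

noncomputable section

namespace CONF_

variable {V : Type} [Fintype V]

/-- few restrictions to the monochromatic pairs are missed by a dense part of a coset-cylinder -/
lemma bad_le (hFIB : T_FIB) {ι : Type} (r k : ℕ) (N : Finset V) (κ : Gr V) (x y : V)
    (χ : V → Fin k) (F : Finset (Gr V)) (hT : Typ r N x y) (hχ : χ x ≠ χ y)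
    (hF : (31 / 32 : ℝ) * ((cc N κ x y (cs x y κ)).card : ℝ) ≤
      ((F ∩ cc N κ x y (cs x y κ)).card : ℝ))
    (Ω : Finset ι) (t : ι → Gr V)
    (hΩ : ∀ i ∈ Ω, ∀ e ∈ ins N, Mono χ e → t i e = κ e)
    (hinj : ∀ i ∈ Ω, ∀ j ∈ Ω, (∀ e, Mono χ e → t i e = t j e) → i = j) :
    32 * (Ω.filter (fun i => ∀ G ∈ F ∩ cc N κ x y (cs x y κ),
      ¬ ∀ e, Mono χ e → G e = t i e)).card ≤
    2 ^ ((univ : Finset (Ed V)).filter (fun e => Mono χ e ∧ e ∉ ins N)).card := by
  set C := cc N κ x y (cs x y κ) with hC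
  set B := Ω.filter (fun i => ∀ G ∈ F ∩ C, ¬ ∀ e, Mono χ e → G e = t i e) with hB
  set m := ((univ : Finset (Ed V)).filter (fun e => Mono χ e ∧ e ∉ ins N)).card with hm
  have hκ : κ ∈ C := by
    rw [hC, cc, mem_filter]
    exact ⟨mem_univ _, fun _ _ _ _ => rfl, rfl⟩
  have hpos : 0 < C.card := card_pos.mpr ⟨κ, hκ⟩
  have hsub : B.biUnion (fun i => C.filter (fun G => ∀ e, Mono χ e → G e = t i e)) ⊆ C \ F := by
    intro G hG
    rw [mem_biUnion] at hG
    obtain ⟨i, hi, hG⟩ := hG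
    rw [mem_filter] at hG
    rw [mem_sdiff]
    refine ⟨hG.1, fun hGF => ?_⟩
    rw [hB, mem_filter] at hi
    exact hi.2 G (mem_inter.mpr ⟨hGF, hG.1⟩) hG.2
  have hdisj : ∀ i ∈ B, ∀ j ∈ B, i ≠ j →
      Disjoint (C.filter (fun G => ∀ e, Mono χ e → G e = t i e))
        (C.filter (fun G => ∀ e, Mono χ e → G e = t j e)) := by
    intro i hi j hj hij
    rw [disjoint_left]
    intro G hG1 hG2
    rw [mem_filter] at hG1 hG2
    apply hij
    apply hinj i (mem_filter.mp hi).1 j (mem_filter.mp hj).1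
    intro e he
    rw [← hG1.2 e he, hG2.2 e he]
  have hcard := card_biUnion hdisj
  have hfib : ∀ i ∈ B, (C.filter (fun G => ∀ e, Mono χ e → G e = t i e)).card * 2 ^ m = C.card :=
    fun i hi => hFIB V r k N κ x y χ (t i) hT hχ (hΩ i (mem_filter.mp hi).1)
  have h1 : B.card * C.card ≤ (C \ F).card * 2 ^ m := by
    calc B.card * C.card
        = ∑ i ∈ B, (C.filter (fun G => ∀ e, Mono χ e → G e = t i e)).card * 2 ^ m := by
          rw [sum_congr rfl hfib, sum_const, smul_eq_mul]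
      _ = (∑ i ∈ B, (C.filter (fun G => ∀ e, Mono χ e → G e = t i e)).card) * 2 ^ m := by
          rw [sum_mul]
      _ ≤ _ := by
          apply Nat.mul_le_mul_right
          rw [← hcard]
          exact card_le_card hsub
  have h2 : 32 * (C \ F).card ≤ C.card := by
    have h3 : (C \ F).card + (F ∩ C).card = C.card := by
      rw [inter_comm]
      exact card_sdiff_add_card_inter C F
    have h4 : ((C \ F).card : ℝ) + ((F ∩ C).card : ℝ) = (C.card : ℝ) := by exact_mod_cast h3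
    have h5 : (32 : ℝ) * ((C \ F).card : ℝ) ≤ (C.card : ℝ) := by linarith
    exact_mod_cast h5
  have h5 : 32 * B.card * C.card ≤ 2 ^ m * C.card := by
    calc 32 * B.card * C.card = 32 * (B.card * C.card) := by ring
      _ ≤ 32 * ((C \ F).card * 2 ^ m) := Nat.mul_le_mul_left _ h1
      _ = (32 * (C \ F).card) * 2 ^ m := by ring
      _ ≤ C.card * 2 ^ m := Nat.mul_le_mul_right _ h2
      _ = 2 ^ m * C.card := by ring
  exact Nat.le_of_mul_le_mul_right h5 hpos

lemma zmod2_add_add (a : ZMod 2) : a + 1 + 1 = a := by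
  revert a; decide

lemma zmod2_ne (a : ZMod 2) : a ≠ a + 1 := by
  revert a; decide

lemma zmod2_eq_add (a b : ZMod 2) (h : a ≠ b) : a = b + 1 := by
  revert a b; decide

lemma core (hFIB : T_FIB) (r : ℕ) (F1 F2 : Finset (Gr V)) (N N' : Finset V)
    (x y x' y' : V) (κ κ' : Gr V) (χ : V → Fin (r - 1)) (hr : 8 ≤ r) (hXA : XA r F1 F2)
    (hT : Typ r N x y) (hT' : Typ r N' x' y')
    (h1 : (31 / 32 : ℝ) * ((cc N κ x y (cs x y κ)).card : ℝ) ≤
      ((F1 ∩ cc N κ x y (cs x y κ)).card : ℝ))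
    (h2 : (31 / 32 : ℝ) * ((cc N' κ' x' y' (cs x' y' κ')).card : ℝ) ≤
      ((F2 ∩ cc N' κ' x' y' (cs x' y' κ')).card : ℝ))
    (hχ : χ x ≠ χ y) (hχ' : χ x' ≠ χ y')
    (hN : ((ins N).filter (Mono χ)).card ≤ 3) (hN' : ((ins N').filter (Mono χ)).card ≤ 3)
    (hc : ∀ e : Ed V, Mono χ e → e ∈ ins N → e ∈ ins N' → κ e = κ' e + 1) : False := by
  set p : Gr V := fun e => if e ∈ ins N then κ e else if e ∈ ins N' then κ' e + 1 else 0 with hp
  set Q : Finset (Ed V) := univ.filter (fun e => Mono χ e ∧ e ∉ ins N ∧ e ∉ ins N') with hQ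
  set Ω : Finset (Gr V) := Fintype.piFinset (fun e => if e ∈ Q then univ else {p e}) with hΩ
  have hmem : ∀ θ, θ ∈ Ω ↔ ∀ e, e ∉ Q → θ e = p e := by
    intro θ
    rw [hΩ, Fintype.mem_piFinset]
    constructor
    · intro h e he
      have h3 := h e
      rw [if_neg he, mem_singleton] at h3
      exact h3
    · intro h e
      by_cases he : e ∈ Q
      · rw [if_pos he]
        exact mem_univ _
      · rw [if_neg he, mem_singleton]
        exact h e he
  have hcard : Ω.card = 2 ^ Q.card := by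
    rw [hΩ, Fintype.card_piFinset]
    have h3 : ∀ e : Ed V, (if e ∈ Q then (univ : Finset (ZMod 2)) else {p e}).card =
        if e ∈ Q then 2 else 1 := by
      intro e
      split_ifs
      · rw [card_univ, ZMod.card]
      · exact card_singleton _
    rw [prod_congr rfl (fun e _ => h3 e), prod_ite, prod_const, prod_const_one, mul_one]
    congr 2
    ext e
    rw [mem_filter]
    exact ⟨fun h => h.2, fun h => ⟨mem_univ _, h⟩⟩
  -- values on the prescribed pairs
  have hv1 : ∀ θ ∈ Ω, ∀ e ∈ ins N, Mono χ e → θ e = κ e := by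
    intro θ hθ e he _
    rw [(hmem θ).1 hθ e (by rw [hQ, mem_filter]; exact fun h => h.2.2.1 he), hp]
    simp only [if_pos he]
  have hv2 : ∀ θ ∈ Ω, ∀ e ∈ ins N', Mono χ e → θ e + 1 = κ' e := by
    intro θ hθ e he hm
    rw [(hmem θ).1 hθ e (by rw [hQ, mem_filter]; exact fun h => h.2.2.2 he), hp]
    by_cases he' : e ∈ ins N
    · simp only [if_pos he']
      rw [hc e hm he' he, zmod2_add_add]
    · simp only [if_neg he', if_pos he]
      rw [zmod2_add_add]
  have hinj : ∀ θ ∈ Ω, ∀ θ' ∈ Ω, (∀ e, Mono χ e → θ e = θ' e) → θ = θ' := by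
    intro θ hθ θ' hθ' h
    funext e
    by_cases he : Mono χ e
    · exact h e he
    · have he' : e ∉ Q := by
        rw [hQ, mem_filter]
        exact fun h => he h.2.1
      rw [(hmem θ).1 hθ e he', (hmem θ').1 hθ' e he']
  -- the numbers of bad restrictions
  have b1 := bad_le hFIB r (r - 1) N κ x y χ F1 hT hχ h1 Ω (fun θ => θ) hv1 hinj
  have b2 := bad_le hFIB r (r - 1) N' κ' x' y' χ F2 hT' hχ' h2 Ω (fun θ e => θ e + 1) hv2
    (fun θ hθ θ' hθ' h => hinj θ hθ θ' hθ' (fun e he => add_right_cancel (h e he)))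
  have c1 : ((univ : Finset (Ed V)).filter (fun e => Mono χ e ∧ e ∉ ins N)).card ≤ Q.card + 3 := by
    refine le_trans (card_le_card ?_) (le_trans (card_union_le Q ((ins N').filter (Mono χ)))
      (Nat.add_le_add_left hN' _))
    intro e he
    rw [mem_filter] at he
    rw [mem_union, hQ, mem_filter, mem_filter]
    by_cases h : e ∈ ins N'
    · exact Or.inr ⟨h, he.2.1⟩
    · exact Or.inl ⟨mem_univ _, he.2.1, he.2.2, h⟩
  have c2 : ((univ : Finset (Ed V)).filter (fun e => Mono χ e ∧ e ∉ ins N')).card ≤ Q.card + 3 := by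
    refine le_trans (card_le_card ?_) (le_trans (card_union_le Q ((ins N).filter (Mono χ)))
      (Nat.add_le_add_left hN _))
    intro e he
    rw [mem_filter] at he
    rw [mem_union, hQ, mem_filter, mem_filter]
    by_cases h : e ∈ ins N
    · exact Or.inr ⟨h, he.2.1⟩
    · exact Or.inl ⟨mem_univ _, he.2.1, h, he.2.2⟩
  have d1 := le_trans b1 (Nat.pow_le_pow_right (by norm_num) c1)
  have d2 := le_trans b2 (Nat.pow_le_pow_right (by norm_num) c2)
  -- a good one
  obtain ⟨θ, hθ, g1, g2⟩ : ∃ θ ∈ Ω, (∃ G ∈ F1 ∩ cc N κ x y (cs x y κ),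
      ∀ e, Mono χ e → G e = θ e) ∧ (∃ G ∈ F2 ∩ cc N' κ' x' y' (cs x' y' κ'),
      ∀ e, Mono χ e → G e = θ e + 1) := by
    by_contra hcon
    have hsub : Ω ⊆ (Ω.filter (fun θ => ∀ G ∈ F1 ∩ cc N κ x y (cs x y κ),
        ¬ ∀ e, Mono χ e → G e = θ e)) ∪ (Ω.filter (fun θ => ∀ G ∈
        F2 ∩ cc N' κ' x' y' (cs x' y' κ'), ¬ ∀ e, Mono χ e → G e = θ e + 1)) := by
      intro θ hθ
      rw [mem_union, mem_filter, mem_filter]
      by_contra h
      rw [not_or] at h
      apply hcon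
      refine ⟨θ, hθ, ?_, ?_⟩
      · by_contra h3
        exact h.1 ⟨hθ, fun G hG h4 => h3 ⟨G, hG, h4⟩⟩
      · by_contra h3
        exact h.2 ⟨hθ, fun G hG h4 => h3 ⟨G, hG, h4⟩⟩
    have h3 := le_trans (card_le_card hsub) (card_union_le _ _)
    rw [hcard] at h3
    have h4 : 2 ^ (Q.card + 3) = 8 * 2 ^ Q.card := by ring
    have h5 : 0 < 2 ^ Q.card := by positivity
    omega
  obtain ⟨G, hG, g1⟩ := g1
  obtain ⟨G', hG', g2⟩ := g2
  obtain ⟨S, hS, hA⟩ := hXA G (mem_inter.mp hG).1 G' (mem_inter.mp hG').1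
  obtain ⟨u, hu, v, hv, huv, hχuv⟩ : ∃ u ∈ S, ∃ v ∈ S, u ≠ v ∧ χ u = χ v := by
    apply exists_ne_map_eq_of_card_lt_of_maps_to (t := (univ : Finset (Fin (r - 1))))
    · rw [card_univ, Fintype.card_fin, hS]
      omega
    · intro a _
      exact mem_coe.mpr (mem_univ _)
  have hm : Mono χ (⟨{u, v}, card_pair huv⟩ : Ed V) := by
    intro a ha b hb
    simp only [mem_insert, mem_singleton] at ha hb
    rcases ha with rfl | rfl <;> rcases hb with rfl | rfl <;> simp [hχuv]
  have h3 := hA u hu v hv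
  rw [val, dif_pos huv, val, dif_pos huv, g1 _ hm, g2 _ hm] at h3
  exact zmod2_ne _ h3

end CONF_

open CONF_ in
/-- CONF: conflict lemma. -/
theorem p_CONF : T_VAL → T_COLA → T_COLB → T_FIB → T_CONF := by
  intro _ hA hB hFIB V _ r F1 F2 N N' x y x' y' κ κ' hr hXA hT hT' h1 h2
  refine ⟨?_, ?_⟩
  · by_contra hlt
    rw [not_le] at hlt
    obtain ⟨χ, hχ, hχ', hI, hN, hN'⟩ := hA V r N N' x y x' y' hr hT hT' hlt
    refine core hFIB r F1 F2 N N' x y x' y' κ κ' χ hr hXA hT hT' h1 h2 hχ hχ' hN hN' ?_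
    intro e he he1 he2
    exfalso
    rw [ins, mem_filter] at he1 he2
    obtain ⟨u, v, huv, huv2⟩ := card_eq_two.mp e.2
    have hu : u ∈ e.1 := by rw [huv2]; simp
    have hv : v ∈ e.1 := by rw [huv2]; simp
    exact huv (hI u (mem_inter.mpr ⟨he1.2 hu, he2.2 hu⟩) v (mem_inter.mpr ⟨he1.2 hv, he2.2 hv⟩)
      (he u hu v hv))
  · intro hNN hcard
    subst hNN
    by_contra hAg
    have h3 : ∃ u ∈ N, ∃ v ∈ N, val κ u v ≠ val κ' u v := by
      by_contra h
      apply hAg
      intro u hu v hv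
      by_contra h4
      exact h ⟨u, hu, v, hv, h4⟩
    obtain ⟨u, hu, v, hv, hne⟩ := h3
    have huv : u ≠ v := by
      intro h
      apply hne
      rw [val, val, dif_neg (not_not.mpr h), dif_neg (not_not.mpr h)]
    have hxN : x ∉ N ∧ y ∉ N := by
      rcases hT.2 with h | h
      · exact h.2
      · omega
    have hxN' : x' ∉ N ∧ y' ∉ N := by
      rcases hT'.2 with h | h
      · exact h.2
      · omega
    obtain ⟨χ, hχ, hχ', hI⟩ := hB V r N x y x' y' u v hr hcard hT.1 hT'.1 hxN.1 hxN.2 hxN'.1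
      hxN'.2 hu hv huv
    have hsmall : ((ins N).filter (Mono χ)).card ≤ 3 := by
      refine le_trans (card_le_one.mpr ?_) (by norm_num)
      intro a ha b hb
      rw [mem_filter] at ha hb
      exact Subtype.ext ((hI a ha.1 ha.2).trans (hI b hb.1 hb.2).symm)
    refine core hFIB r F1 F2 N N x y x' y' κ κ' χ hr hXA hT hT' h1 h2 hχ hχ' hsmall hsmall ?_
    intro e he he1 _
    have h4 := hI e he1 he
    have h5 : e = ⟨{u, v}, card_pair huv⟩ := Subtype.ext h4
    rw [val, val, dif_pos huv, dif_pos huv, ← h5] at hne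
    exact zmod2_eq_add _ _ hne

end

end Pool.Agent.EFX
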