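import Pool.Agent.EFX.Targets

set_option autoImplicit false

/-!
# CONV: convexity of the Hellinger distance
-/

namespace Pool.Agent.EFX

open Finset

open scoped Classical

namespace CONV_

theorem pr_pair {α S T : Type} (A : Finset α) (Y : α → T) (X : α → S) (t : T) (s : S) :
    pr A (fun w => (Y w, X w)) (t, s) = pr A Y t * pr (at' A Y t) X s := by
  have h1 : pr A (fun w => (Y w, X w)) (t, s) =
      ((A.filter (fun w => Y w = t ∧ X w = s)).card : ℝ) / (A.card : ℝ) := by
    unfold pr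
    congr 3
    ext w
    simp only [Finset.mem_filter, Prod.mk.injEq]
  rw [h1]
  unfold pr at'
  rw [Finset.filter_filter]
  by_cases h0 : ((A.filter (fun w => Y w = t)).card : ℝ) = 0
  · have h2 : A.filter (fun w => Y w = t) = ∅ := by
      rw [← Finset.card_eq_zero]
      exact_mod_cast h0
    have h3 : A.filter (fun w => Y w = t ∧ X w = s) = ∅ := by
      rw [Finset.filter_eq_empty_iff] at h2 ⊢
      intro w hw h
      exact h2 hw h.1
    rw [h3, h0]
    simp
  · rw [div_mul_div_comm, mul_comm ((A.card : ℝ)), mul_div_mul_left _ _ h0]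

theorem pr_sum {α S T : Type} [Fintype T] (A : Finset α) (Y : α → T) (X : α → S) (s : S) :
    ∑ t, pr A (fun w => (Y w, X w)) (t, s) = pr A X s := by
  unfold pr
  rw [← Finset.sum_div]
  congr 1
  rw [Finset.card_eq_sum_card_fiberwise (f := Y) (s := A.filter (fun w => X w = s))
    (t := (Finset.univ : Finset T)) (fun w _ => Finset.mem_coe.mpr (Finset.mem_univ _))]
  rw [Nat.cast_sum]
  apply Finset.sum_congr rfl
  intro t _
  rw [Finset.filter_filter]
  congr 2
  ext w
  simp only [Finset.mem_filter, Prod.mk.injEq]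
  tauto

theorem pr_tot {α S T : Type} [Fintype T] (A : Finset α) (Y : α → T) (X : α → S) (s : S) :
    pr A X s = ∑ t, pr A Y t * pr (at' A Y t) X s := by
  rw [← pr_sum A Y X s]
  exact Finset.sum_congr rfl fun t _ => pr_pair A Y X t s

theorem qd_tot {α S T : Type} [Fintype S] [Fintype T] (A : Finset α) (Y : α → T) (X : α → S)
    (s : S) : qd A X s = ∑ t, pr A Y t * qd (at' A Y t) X s := by
  unfold qd
  rw [pr_tot A Y X s, Finset.mul_sum]
  apply Finset.sum_congr rfl
  intro t _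
  ring

theorem pr_zero {α T : Type} (A : Finset α) (Y : α → T) (t : T) (h : ¬ (at' A Y t).Nonempty) :
    pr A Y t = 0 := by
  rw [Finset.not_nonempty_iff_eq_empty] at h
  unfold pr
  unfold at' at h
  rw [h]
  simp

theorem pr_nonneg {α S : Type} (A : Finset α) (X : α → S) (s : S) : 0 ≤ pr A X s := by
  unfold pr
  positivity

theorem qd_nonneg {α S : Type} [Fintype S] (A : Finset α) (X : α → S) (s : S) :
    0 ≤ qd A X s := by
  unfold qd
  exact mul_nonneg (Nat.cast_nonneg _) (pr_nonneg A X s)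

end CONV_

open CONV_ in
theorem p_CONV (hB : T_HELB) : T_CONV := by
  intro α S T _ _ A X Y hA
  obtain ⟨_, _, _, _, h5, _⟩ := hB α S A X hA
  have hpr1 : ∑ t, pr A Y t = 1 := (hB α T A Y hA).2.1
  have hterm : ∀ t, pr A Y t * hel (at' A Y t) X =
      pr A Y t * (2 - 2 * (∑ s, √(qd (at' A Y t) X s)) / (Fintype.card S : ℝ)) := by
    intro t
    by_cases h : (at' A Y t).Nonempty
    · rw [(hB α S (at' A Y t) X h).2.2.2.2.1]
    · rw [pr_zero A Y t h, zero_mul, zero_mul]
  rw [Finset.sum_congr rfl fun t _ => hterm t, h5]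
  have hkey : ∀ s, ∑ t, pr A Y t * √(qd (at' A Y t) X s) ≤ √(qd A X s) := by
    intro s
    have h1 : ∑ t, √(pr A Y t) * √(pr A Y t * qd (at' A Y t) X s) ≤
        √(∑ t, pr A Y t) * √(∑ t, pr A Y t * qd (at' A Y t) X s) :=
      Real.sum_sqrt_mul_sqrt_le _ (fun t => pr_nonneg A Y t)
        (fun t => mul_nonneg (pr_nonneg A Y t) (qd_nonneg _ X s))
    rw [hpr1, Real.sqrt_one, one_mul, ← qd_tot A Y X s] at h1
    refine le_trans (le_of_eq ?_) h1
    apply Finset.sum_congr rfl
    intro t _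
    rw [Real.sqrt_mul (pr_nonneg A Y t), ← mul_assoc, Real.mul_self_sqrt (pr_nonneg A Y t)]
  have h2 : ∑ t, pr A Y t * (2 - 2 * (∑ s, √(qd (at' A Y t) X s)) / (Fintype.card S : ℝ)) =
      2 - 2 * (∑ s, ∑ t, pr A Y t * √(qd (at' A Y t) X s)) / (Fintype.card S : ℝ) := by
    have h3 : ∀ t, pr A Y t * (2 - 2 * (∑ s, √(qd (at' A Y t) X s)) / (Fintype.card S : ℝ)) =
        2 * pr A Y t - (2 / (Fintype.card S : ℝ)) * ∑ s, pr A Y t * √(qd (at' A Y t) X s) := by
      intro t
      rw [← Finset.mul_sum]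
      ring
    rw [Finset.sum_congr rfl fun t _ => h3 t, Finset.sum_sub_distrib, ← Finset.mul_sum,
      ← Finset.mul_sum, hpr1, Finset.sum_comm]
    ring
  rw [h2]
  have h4 : ∑ s, ∑ t, pr A Y t * √(qd (at' A Y t) X s) ≤ ∑ s, √(qd A X s) :=
    Finset.sum_le_sum fun s _ => hkey s
  have h6 : 2 * (∑ s, ∑ t, pr A Y t * √(qd (at' A Y t) X s)) / (Fintype.card S : ℝ) ≤
      2 * (∑ s, √(qd A X s)) / (Fintype.card S : ℝ) :=
    div_le_div_of_nonneg_right (by linarith) (Nat.cast_nonneg _)
  linarith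

end Pool.Agent.EFX
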