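import Pool.Agent.EFX.Targets

set_option autoImplicit false

/-!
# MP_64e56f_co, job COVB: bounds by a maximal class
-/

namespace Pool.Agent.EFX

open Finset

open scoped Classical

noncomputable section

namespace COVB_

variable {V : Type}

theorem ag_comm {S : Finset V} {G H : Gr V} (h : Ag S G H) : Ag S H G :=
  fun x hx y hy => (h x hx y hy).symm

theorem val_pair (G : Gr V) {x y : V} (h : x ≠ y) : val G x y = G ⟨{x, y}, card_pair h⟩ := by
  unfold val
  rw [dif_pos h]

/-- agreement in terms of the pairs inside the set -/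
theorem ag_iff [Fintype V] {S : Finset V} {G H : Gr V} :
    Ag S G H ↔ ∀ e ∈ ins S, G e = H e := by
  constructor
  · intro h e he
    obtain ⟨x, y, hxy, hexy⟩ := Finset.card_eq_two.1 e.2
    have he' : e = ⟨{x, y}, card_pair hxy⟩ := Subtype.ext hexy
    have hsub : e.1 ⊆ S := by
      unfold ins at he
      exact (Finset.mem_filter.1 he).2
    rw [hexy] at hsub
    have h1 := h x (hsub (by simp)) y (hsub (by simp))
    rw [val_pair G hxy, val_pair H hxy] at h1
    rw [he']
    exact h1
  · intro h x hx y hy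
    by_cases hxy : x ≠ y
    · rw [val_pair G hxy, val_pair H hxy]
      apply h
      unfold ins
      rw [Finset.mem_filter]
      refine ⟨Finset.mem_univ _, ?_⟩
      intro z hz
      rw [Finset.mem_insert, Finset.mem_singleton] at hz
      rcases hz with rfl | rfl
      · exact hx
      · exact hy
    · unfold val
      rw [dif_neg hxy, dif_neg hxy]

theorem dl_pos (r : ℕ) : 0 < dl r := by
  unfold dl
  positivity

theorem den_nonneg {β : Type} [Fintype β] (A : Finset β) : 0 ≤ den A := by
  unfold den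
  positivity

/-- the union bound for densities -/
theorem den_le {β ι : Type} [Fintype β] (s : Finset ι) (F : ι → Finset β) (S : Finset β)
    (h : ∀ G ∈ S, ∃ i ∈ s, G ∈ F i) (c : ℝ) (hc : ∀ i ∈ s, den (F i) ≤ c) :
    den S ≤ (s.card : ℝ) * c := by
  have h1 : S ⊆ s.biUnion F := by
    intro G hG
    rw [Finset.mem_biUnion]
    exact h G hG
  have h2 : (S.card : ℝ) ≤ ∑ i ∈ s, ((F i).card : ℝ) := by
    exact_mod_cast (Finset.card_le_card h1).trans Finset.card_biUnion_le
  calc den S = (S.card : ℝ) / (Fintype.card β : ℝ) := rfl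
    _ ≤ (∑ i ∈ s, ((F i).card : ℝ)) / (Fintype.card β : ℝ) :=
        div_le_div_of_nonneg_right h2 (Nat.cast_nonneg _)
    _ = ∑ i ∈ s, den (F i) := Finset.sum_div _ _ _
    _ ≤ ∑ _i ∈ s, c := Finset.sum_le_sum hc
    _ = (s.card : ℝ) * c := by rw [Finset.sum_const, nsmul_eq_mul]

/-- fibre bound: the graphs of `F` which agree with `K` on `T ⊆ J` -/
theorem fibre [Fintype V] (F : Finset (Gr V)) (J T : Finset V) (hT : T ⊆ J) (K : Gr V) (c : ℝ)
    (hc0 : 0 ≤ c) (hc : ∀ K' : Gr V, den (F.filter (fun G => Ag J G K')) ≤ c) :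
    den (F.filter (fun G => Ag T G K)) ≤ 2 ^ ((ins J).card - (ins T).card) * c := by
  set S := F.filter (fun G => Ag T G K) with hS
  set ρ : Gr V → ({e // e ∈ ins J \ ins T} → ZMod 2) := fun G e => G e.1 with hρ
  have hsub : ins T ⊆ ins J := by
    intro e he
    unfold ins at he ⊢
    rw [Finset.mem_filter] at he ⊢
    exact ⟨he.1, he.2.trans hT⟩
  have h1 : den S ≤ ((S.image ρ).card : ℝ) * c := by
    refine den_le (S.image ρ) (fun b => S.filter (fun G => ρ G = b)) S ?_ c ?_
    · intro G hG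
      exact ⟨ρ G, Finset.mem_image_of_mem ρ hG, Finset.mem_filter.2 ⟨hG, rfl⟩⟩
    · intro b hb
      obtain ⟨G', hG', rfl⟩ := Finset.mem_image.1 hb
      refine le_trans ?_ (hc G')
      unfold den
      refine div_le_div_of_nonneg_right (Nat.cast_le.2 (Finset.card_le_card fun G hG => ?_))
        (Nat.cast_nonneg _)
      rw [Finset.mem_filter, hS, Finset.mem_filter] at hG
      rw [hS, Finset.mem_filter] at hG'
      rw [Finset.mem_filter]
      refine ⟨hG.1.1, ?_⟩
      rw [ag_iff]
      intro e he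
      by_cases heT : e ∈ ins T
      · rw [ag_iff.1 hG.1.2 e heT, ag_iff.1 hG'.2 e heT]
      · exact congrFun hG.2 ⟨e, Finset.mem_sdiff.2 ⟨he, heT⟩⟩
  refine h1.trans (mul_le_mul_of_nonneg_right ?_ hc0)
  have h2 : (S.image ρ).card ≤ 2 ^ ((ins J).card - (ins T).card) := by
    refine (Finset.card_le_univ _).trans ?_
    rw [Fintype.card_fun, ZMod.card, Fintype.card_coe, Finset.card_sdiff_of_subset hsub]
  exact_mod_cast h2

end COVB_

open COVB_ in
theorem p_COVB : T_CARD → T_COVB := by
  intro hcard V _ l r k F1 F2 I K M2 hl hr hV hXA hF1 hF2 hI hCov hM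
  obtain ⟨-, hins, -, -, -⟩ := hcard V
  have hdl := dl_pos r
  have hM' : ∀ (J : Finset V) (K' : Gr V), J.card = r →
      den (F2.filter (fun G => Ag J G K')) ≤ M2 * dl r := by
    intro J K' hJ
    have := hM J K' hJ
    unfold rel at this
    rwa [div_le_iff₀ hdl] at this
  have hM0 : 0 ≤ M2 := by
    refine le_trans ?_ (hM I K hI)
    unfold rel
    exact div_nonneg (den_nonneg _) hdl.le
  have hrV : r ≤ 2 ^ l := by
    rw [← hI]
    exact (Finset.card_le_univ I).trans hV
  constructor
  · obtain ⟨G0, hG0⟩ := hF1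
    have h1 : den F2 ≤ ((powersetCard r (univ : Finset V)).card : ℝ) * (M2 * dl r) := by
      refine den_le (powersetCard r (univ : Finset V)) (fun J => F2.filter (fun G => Ag J G G0)) F2
        ?_ _ ?_
      · intro G hG
        obtain ⟨S, hS, hag⟩ := hXA G0 hG0 G hG
        exact ⟨S, Finset.mem_powersetCard.2 ⟨Finset.subset_univ _, hS⟩,
          Finset.mem_filter.2 ⟨hG, ag_comm hag⟩⟩
      · intro J hJ
        exact hM' J G0 (Finset.mem_powersetCard.1 hJ).2
    have h2 : ((powersetCard r (univ : Finset V)).card : ℝ) ≤ 2 ^ (l * r) := by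
      rw [Finset.card_powersetCard, Finset.card_univ, pow_mul]
      exact_mod_cast (Nat.choose_le_pow _ r).trans (Nat.pow_le_pow_left hV r)
    rw [div_le_iff₀ hdl]
    calc den F2 ≤ ((powersetCard r (univ : Finset V)).card : ℝ) * (M2 * dl r) := h1
      _ ≤ 2 ^ (l * r) * (M2 * dl r) := mul_le_mul_of_nonneg_right h2 (mul_nonneg hM0 hdl.le)
      _ = 2 ^ (l * r) * M2 * dl r := by ring
  · have h1 : den F2 ≤ ((powersetCard k I).card : ℝ) * (2 ^ phi r k * (M2 * dl r)) := by
      refine den_le (powersetCard k I) (fun T => F2.filter (fun G => Ag (I \ T) G K)) F2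
        ?_ _ ?_
      · intro G hG
        obtain ⟨T, hTI, hT, hag⟩ := hCov.1 G hG
        exact ⟨T, Finset.mem_powersetCard.2 ⟨hTI, hT⟩, Finset.mem_filter.2 ⟨hG, hag⟩⟩
      · intro T hT
        rw [Finset.mem_powersetCard] at hT
        have h2 := fibre F2 I (I \ T) Finset.sdiff_subset K (M2 * dl r)
          (mul_nonneg hM0 hdl.le) (fun K' => hM' I K' hI)
        rw [hins, hins, Finset.card_sdiff_of_subset hT.1, hI, hT.2] at h2
        exact h2
    have h2 : ((powersetCard k I).card : ℝ) ≤ 2 ^ (l * k) := by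
      rw [Finset.card_powersetCard, hI, pow_mul]
      exact_mod_cast (Nat.choose_le_pow _ k).trans (Nat.pow_le_pow_left hrV k)
    rw [div_le_iff₀ hdl]
    calc den F2 ≤ ((powersetCard k I).card : ℝ) * (2 ^ phi r k * (M2 * dl r)) := h1
      _ ≤ 2 ^ (l * k) * (2 ^ phi r k * (M2 * dl r)) :=
          mul_le_mul_of_nonneg_right h2 (by positivity)
      _ = 2 ^ (l * k) * M2 * 2 ^ phi r k * dl r := by ring

end

end Pool.Agent.EFX
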