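import Pool.Agent.EFX.Targets

set_option autoImplicit false
set_option linter.unusedSectionVars false

/-!
# Convolution of two nearly uniform densities on a finite abelian group
-/

namespace Pool.Agent.EFX

open Finset

namespace CVL_

variable {G : Type} [AddCommGroup G] [Fintype G]

/-- averages -/
noncomputable def av (f : G → ℝ) : ℝ := (∑ s, f s) / (Fintype.card G : ℝ)

/-- convolution -/
noncomputable def cv (u v : G → ℝ) (s : G) : ℝ := av fun t => u t * v (s - t)

theorem cardpos : (0 : ℝ) < (Fintype.card G : ℝ) := by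
  have : 0 < Fintype.card G := Fintype.card_pos_iff.mpr ⟨0⟩
  exact_mod_cast this

theorem av_add (f g : G → ℝ) : av (fun s => f s + g s) = av f + av g := by
  unfold av
  rw [Finset.sum_add_distrib, add_div]

theorem av_sub (f g : G → ℝ) : av (fun s => f s - g s) = av f - av g := by
  unfold av
  rw [Finset.sum_sub_distrib, sub_div]

theorem av_mul_left (c : ℝ) (f : G → ℝ) : av (fun s => c * f s) = c * av f := by
  unfold av
  rw [← Finset.mul_sum, mul_div_assoc]

theorem av_mul_right (c : ℝ) (f : G → ℝ) : av (fun s => f s * c) = av f * c := by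
  unfold av
  rw [← Finset.sum_mul, mul_div_right_comm]

theorem av_const (c : ℝ) : av (fun _ : G => c) = c := by
  unfold av
  rw [Finset.sum_const, Finset.card_univ, nsmul_eq_mul]
  exact mul_div_cancel_left₀ c cardpos.ne'

theorem av_mono {f g : G → ℝ} (h : ∀ s, f s ≤ g s) : av f ≤ av g := by
  unfold av
  exact div_le_div_of_nonneg_right (Finset.sum_le_sum fun s _ => h s) cardpos.le

theorem av_nonneg {f : G → ℝ} (h : ∀ s, 0 ≤ f s) : 0 ≤ av f := by
  unfold av
  exact div_nonneg (Finset.sum_nonneg fun s _ => h s) cardpos.le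

theorem av_refl (f : G → ℝ) (s : G) : av (fun t => f (s - t)) = av f := by
  unfold av
  congr 1
  exact Fintype.sum_equiv (Equiv.subLeft s) _ _ fun t => rfl

theorem av_shift (f : G → ℝ) (t : G) : av (fun s => f (s - t)) = av f := by
  unfold av
  congr 1
  exact Fintype.sum_equiv (Equiv.subRight t) _ _ fun s => rfl

theorem av_comm (f : G → G → ℝ) : av (fun s => av fun t => f s t) = av fun t => av fun s => f s t := by
  unfold av
  rw [← Finset.sum_div, ← Finset.sum_div, Finset.sum_comm]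

theorem cv_comm (u v : G → ℝ) (s : G) : cv u v s = cv v u s := by
  unfold cv
  rw [← av_refl (fun t => u t * v (s - t)) s]
  congr 1
  funext t
  rw [sub_sub_cancel, mul_comm]

theorem av_abs (f : G → ℝ) : |av f| ≤ av fun s => |f s| := by
  unfold av
  rw [abs_div, abs_of_pos (cardpos (G := G))]
  exact div_le_div_of_nonneg_right (Finset.abs_sum_le_sum_abs _ _) cardpos.le

/-- Cauchy-Schwarz for averages -/
theorem av_cs (f g : G → ℝ) : av (fun s => f s * g s) ^ 2 ≤
    av (fun s => f s ^ 2) * av (fun s => g s ^ 2) := by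
  unfold av
  have h := Finset.sum_mul_sq_le_sq_mul_sq (Finset.univ : Finset G) f g
  have h0 := cardpos (G := G)
  rw [div_pow, div_mul_div_comm, ← sq]
  exact div_le_div_of_nonneg_right h (by positivity)

theorem cv_cs (u v : G → ℝ) (s : G) :
    cv u v s ^ 2 ≤ av (fun s => u s ^ 2) * av (fun s => v s ^ 2) := by
  have h := av_cs u (fun t => v (s - t))
  rw [av_refl (fun t => v t ^ 2) s] at h
  exact h

/-- Young's inequality -/
theorem cv_young (u v : G → ℝ) : av (fun s => cv u v s ^ 2) ≤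
    av (fun s => u s ^ 2) * av (fun s => |v s|) ^ 2 := by
  have h1 : ∀ s, cv u v s ^ 2 ≤ av (fun s => |v s|) * av (fun t => u t ^ 2 * |v (s - t)|) := by
    intro s
    have h2 : |cv u v s| ≤ av fun t => (√|v (s - t)|) * (|u t| * √|v (s - t)|) := by
      refine (av_abs _).trans (le_of_eq ?_)
      congr 1
      funext t
      rw [abs_mul]
      have h3 := Real.mul_self_sqrt (abs_nonneg (v (s - t)))
      linear_combination -|u t| * h3
    have h3 := av_cs (fun t => √|v (s - t)|) (fun t => |u t| * √|v (s - t)|)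
    have h4 : (fun t => (√|v (s - t)|) ^ 2) = fun t => |v (s - t)| := by
      funext t
      exact Real.sq_sqrt (abs_nonneg _)
    have h5 : (fun t => (|u t| * √|v (s - t)|) ^ 2) = fun t => u t ^ 2 * |v (s - t)| := by
      funext t
      rw [mul_pow, Real.sq_sqrt (abs_nonneg _), sq_abs]
    rw [h4, h5, av_refl (fun t => |v t|) s] at h3
    refine le_trans ?_ h3
    rw [← sq_abs (cv u v s)]
    exact pow_le_pow_left₀ (abs_nonneg _) h2 2
  refine (av_mono h1).trans (le_of_eq ?_)
  rw [av_mul_left, av_comm]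
  have h6 : (fun t => av fun s => u t ^ 2 * |v (s - t)|) = fun t => u t ^ 2 * av (fun s => |v s|) := by
    funext t
    rw [av_mul_left, av_shift (fun s => |v s|) t]
  rw [h6, av_mul_right]
  ring

theorem cv_one (u v : G → ℝ) : av (fun s => |cv u v s|) ≤ av (fun s => |u s|) * av (fun s => |v s|) := by
  have h1 : ∀ s, |cv u v s| ≤ av (fun t => |u t| * |v (s - t)|) := by
    intro s
    refine (av_abs _).trans (le_of_eq ?_)
    congr 1
    funext t
    rw [abs_mul]
  refine (av_mono h1).trans (le_of_eq ?_)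
  rw [av_comm]
  have h6 : (fun t => av fun s => |u t| * |v (s - t)|) = fun t => |u t| * av (fun s => |v s|) := by
    funext t
    rw [av_mul_left, av_shift (fun s => |v s|) t]
  rw [h6, av_mul_right]

theorem three (x y z : ℝ) : (x + y + z) ^ 2 ≤ 3 * (x ^ 2 + y ^ 2 + z ^ 2) := by
  have h1 := sq_nonneg (x - y)
  have h2 := sq_nonneg (x - z)
  have h3 := sq_nonneg (y - z)
  have h4 : 3 * (x ^ 2 + y ^ 2 + z ^ 2) - (x + y + z) ^ 2 =
      (x - y) ^ 2 + (x - z) ^ 2 + (y - z) ^ 2 := by ring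
  linarith

theorem sqle (a c : ℝ) (h0 : 0 ≤ a) (h1 : a ≤ 1) : (2 * a * c) ^ 2 ≤ 4 * c ^ 2 := by
  have h5 : 0 ≤ c ^ 2 := sq_nonneg _
  have h6 : (2 * a * c) ^ 2 = 4 * (a ^ 2 * c ^ 2) := by ring
  have h7 : a ^ 2 ≤ 1 := by nlinarith
  have h8 : a ^ 2 * c ^ 2 ≤ 1 * c ^ 2 := mul_le_mul_of_nonneg_right h7 h5
  rw [h6]
  linarith

/-- the scalar inequality -/
theorem scalar (t1 t2 : ℝ) (h : -1 ≤ t1 + t2) :
    (√(1 + (t1 + t2)) - 1) ^ 2 ≤ 4 * t1 ^ 2 + 2 * |t2| := by
  set t := t1 + t2 with ht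
  set r := √(1 + t) with hr
  have hr0 : 0 ≤ r := Real.sqrt_nonneg _
  have hr2 : r ^ 2 = 1 + t := Real.sq_sqrt (by linarith)
  have h1 : (r - 1) ^ 2 ≤ t ^ 2 := by
    have h2 : t = (r - 1) * (r + 1) := by linear_combination -hr2
    rw [h2, mul_pow]
    nlinarith [sq_nonneg (r - 1), mul_nonneg (sq_nonneg (r - 1)) hr0,
      mul_nonneg (sq_nonneg (r - 1)) (mul_nonneg hr0 hr0)]
  have h3 : (r - 1) ^ 2 ≤ |t| := by
    have h2 : t = (r - 1) * (r + 1) := by linear_combination -hr2
    rw [h2, abs_mul, abs_of_nonneg (by linarith : 0 ≤ r + 1), ← sq_abs (r - 1), sq]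
    apply mul_le_mul_of_nonneg_left _ (abs_nonneg _)
    rw [abs_le]
    constructor <;> linarith
  rcases le_total |t2| |t1| with h4 | h4
  · have h5 : t ^ 2 ≤ 4 * t1 ^ 2 := by
      have h6 : |t| ≤ 2 * |t1| := by
        have := abs_add_le t1 t2
        rw [ht]
        linarith
      calc t ^ 2 = |t| ^ 2 := (sq_abs t).symm
        _ ≤ (2 * |t1|) ^ 2 := pow_le_pow_left₀ (abs_nonneg _) h6 2
        _ = 4 * t1 ^ 2 := by rw [mul_pow, sq_abs]; ring
    have := abs_nonneg t2
    linarith
  · have h6 : |t| ≤ 2 * |t2| := by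
      have := abs_add_le t1 t2
      rw [ht]
      linarith
    have := sq_nonneg t1
    linarith

end CVL_

open CVL_ in
theorem p_CVL : T_CVL := by
  intro G _ _ p q hp hq hps hqs
  have hN := cardpos (G := G)
  -- data for one density
  have data : ∀ r : G → ℝ, (∀ s, 0 ≤ r s) → ∑ s, r s = (Fintype.card G : ℝ) →
      ∃ (a : ℝ) (w W : G → ℝ), 0 ≤ a ∧ a ≤ 1 ∧ av w = 0 ∧ av W = 0 ∧
        (∀ s, r s = 1 + (2 * a * w s + W s)) ∧ av (fun s => |W s|) ≤ 2 * av (fun s => w s ^ 2) ∧
        av (fun s => w s ^ 2) ≤ 1 ∧ 0 ≤ av (fun s => w s ^ 2) ∧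
        av (fun s => w s ^ 2) ≤ (∑ s, (√(r s) - 1) ^ 2) / (Fintype.card G : ℝ) := by
    intro r hr hrs
    set a : ℝ := av fun s => √(r s) with ha
    have hr1 : av (fun s => √(r s) ^ 2) = 1 := by
      have h1 : (fun s => √(r s) ^ 2) = r := by
        funext s
        exact Real.sq_sqrt (hr s)
      rw [h1]
      unfold av
      rw [hrs, div_self hN.ne']
    have ha0 : 0 ≤ a := av_nonneg fun s => Real.sqrt_nonneg _
    have ha1 : a ≤ 1 := by
      have h1 := av_cs (fun s => √(r s)) (fun _ => 1)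
      simp only [mul_one, one_pow] at h1
      rw [hr1, av_const, mul_one, ← ha] at h1
      nlinarith
    set w : G → ℝ := fun s => √(r s) - a with hw
    have hw0 : av w = 0 := by
      rw [hw, av_sub, av_const, ← ha, sub_self]
    have hw2 : av (fun s => w s ^ 2) = 1 - a ^ 2 := by
      have h1 : (fun s => w s ^ 2) = fun s => (√(r s) ^ 2 - 2 * a * √(r s)) + a ^ 2 := by
        funext s
        rw [hw]
        ring
      rw [h1, av_add, av_sub, av_mul_left, av_const, hr1, ← ha]
      ring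
    refine ⟨a, w, fun s => w s ^ 2 - av (fun s => w s ^ 2), ha0, ha1, hw0, ?_, ?_, ?_, ?_, ?_, ?_⟩
    · rw [av_sub, av_const, sub_self]
    · intro s
      rw [hw2]
      have h1 := Real.sq_sqrt (hr s)
      rw [hw]
      linear_combination -h1
    · have h1 : ∀ s, |w s ^ 2 - av (fun s => w s ^ 2)| ≤ w s ^ 2 + av (fun s => w s ^ 2) := by
        intro s
        have h2 := sq_nonneg (w s)
        have h3 : 0 ≤ av (fun s => w s ^ 2) := av_nonneg fun s => sq_nonneg _
        rw [abs_le]
        constructor <;> linarith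
      refine (av_mono h1).trans (le_of_eq ?_)
      rw [av_add, av_const]
      ring
    · rw [hw2]
      nlinarith
    · exact av_nonneg fun s => sq_nonneg _
    · have h1 : (∑ s, (√(r s) - 1) ^ 2) / (Fintype.card G : ℝ) = 2 - 2 * a := by
        have h2 : (∑ s, (√(r s) - 1) ^ 2) / (Fintype.card G : ℝ) = av fun s => (√(r s) - 1) ^ 2 := rfl
        have h3 : (fun s => (√(r s) - 1) ^ 2) = fun s => (√(r s) ^ 2 - 2 * √(r s)) + 1 := by
          funext s
          ring
        rw [h2, h3, av_add, av_sub, av_mul_left, av_const, hr1, ← ha]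
        ring
      rw [h1, hw2]
      nlinarith
  obtain ⟨a, w, W, ha0, ha1, hw0, hW0, hpw, hW1, hw1, hwn, hwh⟩ := data p hp hps
  obtain ⟨b, z, Z, hb0, hb1, hz0, hZ0, hqz, hZ1, hz1, hzn, hzh⟩ := data q hq hqs
  set A := av (fun s => w s ^ 2) with hA
  set B := av (fun s => z s ^ 2) with hB
  -- the convolution
  have hconv : ∀ s, (∑ t, p t * q (s - t)) / (Fintype.card G : ℝ) =
      1 + ((4 * a * b * cv w z s + 2 * a * cv w Z s + 2 * b * cv W z s) + cv W Z s) := by
    intro s
    have h1 : (∑ t, p t * q (s - t)) / (Fintype.card G : ℝ) = av fun t => p t * q (s - t) := rfl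
    have h2 : (fun t => p t * q (s - t)) = fun t => (((((((1 + 2 * b * z (s - t)) + Z (s - t)) +
        2 * a * w t) + W t) + 4 * a * b * (w t * z (s - t))) + 2 * a * (w t * Z (s - t))) +
        2 * b * (W t * z (s - t))) + W t * Z (s - t) := by
      funext t
      rw [hpw t, hqz (s - t)]
      ring
    rw [h1, h2]
    simp only [av_add, av_mul_left, av_const]
    rw [av_refl z s, av_refl Z s, hz0, hZ0, hw0, hW0]
    unfold cv
    ring
  have hnn : ∀ s, 0 ≤ (∑ t, p t * q (s - t)) / (Fintype.card G : ℝ) := fun s =>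
    div_nonneg (Finset.sum_nonneg fun t _ => mul_nonneg (hp t) (hq _)) hN.le
  have hL : (∑ s, (√((∑ t, p t * q (s - t)) / (Fintype.card G : ℝ)) - 1) ^ 2) /
      (Fintype.card G : ℝ) ≤ av fun s => 4 * (4 * a * b * cv w z s + 2 * a * cv w Z s +
        2 * b * cv W z s) ^ 2 + 2 * |cv W Z s| := by
    change av _ ≤ _
    apply av_mono
    intro s
    have h1 := hnn s
    rw [hconv s] at h1 ⊢
    exact scalar _ _ (by linarith)
  refine hL.trans ?_
  -- pointwise bound of the square
  have hsq : ∀ s, (4 * a * b * cv w z s + 2 * a * cv w Z s + 2 * b * cv W z s) ^ 2 ≤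
      3 * (16 * (A * B) + 4 * cv w Z s ^ 2 + 4 * cv W z s ^ 2) := by
    intro s
    have h1 := cv_cs w z s
    have h2 : (4 * a * b * cv w z s) ^ 2 ≤ 16 * (A * B) := by
      have h7 : a * b ≤ 1 := mul_le_one₀ ha1 hb0 hb1
      have h3 := sqle (a * b) (2 * cv w z s) (mul_nonneg ha0 hb0) h7
      have h6 : (4 * a * b * cv w z s) ^ 2 = (2 * (a * b) * (2 * cv w z s)) ^ 2 := by ring
      rw [h6]
      have h8 : 4 * (2 * cv w z s) ^ 2 = 16 * cv w z s ^ 2 := by ring
      rw [h8] at h3
      linarith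
    have h3 : (2 * a * cv w Z s) ^ 2 ≤ 4 * cv w Z s ^ 2 := sqle a _ ha0 ha1
    have h4 : (2 * b * cv W z s) ^ 2 ≤ 4 * cv W z s ^ 2 := sqle b _ hb0 hb1
    have h5 := three (4 * a * b * cv w z s) (2 * a * cv w Z s) (2 * b * cv W z s)
    linarith
  have hyo1 : av (fun s => cv w Z s ^ 2) ≤ 4 * (A * B) := by
    have h1 := cv_young w Z
    have h2 : av (fun s => |Z s|) ^ 2 ≤ 4 * B := by
      have h3 : 0 ≤ av (fun s => |Z s|) := av_nonneg fun s => abs_nonneg _
      nlinarith
    have h3 : A * av (fun s => |Z s|) ^ 2 ≤ A * (4 * B) := mul_le_mul_of_nonneg_left h2 hwn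
    linarith
  have hyo2 : av (fun s => cv W z s ^ 2) ≤ 4 * (A * B) := by
    have h0 : (fun s => cv W z s ^ 2) = fun s => cv z W s ^ 2 := by
      funext s
      rw [cv_comm]
    have h1 := cv_young z W
    have h2 : av (fun s => |W s|) ^ 2 ≤ 4 * A := by
      have h3 : 0 ≤ av (fun s => |W s|) := av_nonneg fun s => abs_nonneg _
      nlinarith
    have h3 : B * av (fun s => |W s|) ^ 2 ≤ B * (4 * A) := mul_le_mul_of_nonneg_left h2 hzn
    rw [h0]
    linarith
  have hyo3 : av (fun s => |cv W Z s|) ≤ 4 * (A * B) := by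
    have h1 := cv_one W Z
    have h3 : 0 ≤ av (fun s => |Z s|) := av_nonneg fun s => abs_nonneg _
    have h4 : av (fun s => |W s|) * av (fun s => |Z s|) ≤ (2 * A) * (2 * B) :=
      mul_le_mul hW1 hZ1 h3 (by linarith)
    linarith
  have hfin : av (fun s => 4 * (4 * a * b * cv w z s + 2 * a * cv w Z s +
        2 * b * cv W z s) ^ 2 + 2 * |cv W Z s|) ≤ 584 * (A * B) := by
    have h1 : ∀ s, 4 * (4 * a * b * cv w z s + 2 * a * cv w Z s +
        2 * b * cv W z s) ^ 2 + 2 * |cv W Z s| ≤ ((192 * (A * B) + 48 * cv w Z s ^ 2) +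
          48 * cv W z s ^ 2) + 2 * |cv W Z s| := by
      intro s
      have := hsq s
      linarith
    refine (av_mono h1).trans ?_
    rw [av_add, av_add, av_add, av_const, av_mul_left, av_mul_left, av_mul_left]
    linarith
  refine hfin.trans ?_
  have h1 : 0 ≤ (∑ s, (√(p s) - 1) ^ 2) / (Fintype.card G : ℝ) := hwn.trans hwh
  have h2 : A * B ≤ ((∑ s, (√(p s) - 1) ^ 2) / (Fintype.card G : ℝ)) *
      ((∑ s, (√(q s) - 1) ^ 2) / (Fintype.card G : ℝ)) := mul_le_mul hwh hzh hzn h1
  have h3 : 0 ≤ A * B := mul_nonneg hwn hzn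
  linarith

end Pool.Agent.EFX
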