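import Pool.Agent.EFX.Targets

/-!
# Cylinders and cosets
-/

namespace Pool.Agent.EFX

open Finset

open scoped Classical

theorem p_CYL : T_VAL → T_CYL := by
  intro hV V _ x y R _ hxR _
  obtain ⟨_, _, _, _, hval, _, _⟩ := hV V
  have h1 : (R.subtype (fun z => z ≠ x)).card = R.card := by
    rw [card_subtype]
    congr 1
    rw [filter_eq_self]
    intro z hz he
    exact hxR (he ▸ hz)
  have h2 : ∀ G K : Gr V, Ag (R.subtype (fun z => z ≠ x)) (rst x G) (rst x K) ↔ Ag R G K := by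
    intro G K
    constructor
    · intro h u hu v hv
      have hux : u ≠ x := fun he => hxR (he ▸ hu)
      have hvx : v ≠ x := fun he => hxR (he ▸ hv)
      have h3 := h ⟨u, hux⟩ (mem_subtype.2 hu) ⟨v, hvx⟩ (mem_subtype.2 hv)
      rwa [hval, hval] at h3
    · intro h u hu v hv
      rw [hval, hval]
      exact h u (mem_subtype.1 hu) v (mem_subtype.1 hv)
  refine ⟨h1, h2, fun F K g => ?_⟩
  ext H
  unfold cut
  simp only [mem_filter, mem_image]
  constructor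
  · rintro ⟨⟨G, ⟨hG, hc⟩, rfl⟩, hA⟩
    exact ⟨G, ⟨⟨hG, (h2 G K).1 hA⟩, hc⟩, rfl⟩
  · rintro ⟨G, ⟨⟨hG, hA⟩, hc⟩, rfl⟩
    exact ⟨⟨G, ⟨hG, hc⟩, rfl⟩, (h2 G K).2 hA⟩

end Pool.Agent.EFX
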