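import Pool.Agent.EFX.Targets

set_option autoImplicit false

/-!
# MP_64e56f_co: DIR, the main step of the argument for few vertices
-/

namespace Pool.Agent.EFX

open Finset

open scoped Classical

noncomputable section

namespace DIR_

variable {V : Type} [Fintype V]

theorem mem_ins {I : Finset V} {e : Ed V} : e ∈ ins I ↔ e.1 ⊆ I := by simp [ins]

theorem card_ins (I : Finset V) : (ins I).card = I.card.choose 2 := by
  rw [← card_powersetCard]
  apply card_bij (fun e _ => e.1)
  · intro e he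
    rw [mem_powersetCard]
    exact ⟨mem_ins.1 he, e.2⟩
  · intro a _ b _ h
    exact Subtype.ext h
  · intro s hs
    rw [mem_powersetCard] at hs
    exact ⟨⟨s, hs.2⟩, mem_ins.2 hs.1, rfl⟩

theorem ins_inter (I J : Finset V) : ins I ∩ ins J = ins (I ∩ J) := by
  ext e
  simp [mem_ins, subset_inter_iff]

theorem ins_mono {I J : Finset V} (h : I ⊆ J) : ins I ⊆ ins J := by
  intro e he
  rw [mem_ins] at he ⊢
  exact he.trans h

/-- functions agreeing with `x` on `T` -/
noncomputable def cyl (T : Finset (Ed V)) (x : Gr V) : Finset (Gr V) :=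
  univ.filter (fun f => ∀ e ∈ T, f e = x e)

theorem mem_cyl {T : Finset (Ed V)} {x f : Gr V} : f ∈ cyl T x ↔ ∀ e ∈ T, f e = x e := by
  simp [cyl]

theorem card_cyl (T : Finset (Ed V)) (x : Gr V) :
    (cyl T x).card = 2 ^ (Fintype.card (Ed V) - T.card) := by
  have h : cyl T x = Fintype.piFinset (fun e => if e ∈ T then ({x e} : Finset (ZMod 2)) else univ) := by
    ext f
    rw [mem_cyl, Fintype.mem_piFinset]
    constructor
    · intro hf e
      by_cases he : e ∈ T
      · simp [he, hf e he]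
      · simp [he]
    · intro hf e he
      have := hf e
      simpa [he] using this
  rw [h, Fintype.card_piFinset]
  have h2 : ∀ e : Ed V, (if e ∈ T then ({x e} : Finset (ZMod 2)) else univ).card
      = if e ∈ T then 1 else 2 := by
    intro e
    split_ifs
    · simp
    · rw [card_univ, ZMod.card]
  simp only [h2]
  rw [prod_ite]
  simp only [prod_const_one, one_mul, prod_const]
  congr 1
  rw [filter_not, card_sdiff_of_subset (filter_subset _ _), card_univ]
  simp

/-- real version of the cardinality of a cylinder -/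
theorem card_cyl_real (T : Finset (Ed V)) (x : Gr V) :
    ((cyl T x).card : ℝ) = 2 ^ (Fintype.card (Ed V)) / 2 ^ T.card := by
  rw [card_cyl]
  have hT : T.card ≤ Fintype.card (Ed V) := card_le_univ T
  push_cast
  rw [eq_div_iff (by positivity), ← pow_add]
  congr 1
  omega

theorem card_inter_cyl_le (T U : Finset (Ed V)) (x y : Gr V) :
    ((cyl T x ∩ cyl U y).card : ℝ) ≤ 2 ^ (Fintype.card (Ed V)) / 2 ^ (T ∪ U).card := by
  rcases (cyl T x ∩ cyl U y).eq_empty_or_nonempty with h | ⟨f, hf⟩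
  · rw [h]; simp; positivity
  · rw [mem_inter, mem_cyl, mem_cyl] at hf
    rw [← card_cyl_real (T ∪ U) f]
    norm_cast
    apply card_le_card
    intro g hg
    rw [mem_inter, mem_cyl, mem_cyl] at hg
    rw [mem_cyl]
    intro e he
    rcases mem_union.1 he with he | he
    · rw [hg.1 e he, hf.1 e he]
    · rw [hg.2 e he, hf.2 e he]

theorem card_inter3_cyl_le (T U W : Finset (Ed V)) (x y w : Gr V) :
    (((cyl T x ∩ cyl U y) ∩ cyl W w).card : ℝ)
      ≤ 2 ^ (Fintype.card (Ed V)) / 2 ^ (T ∪ U ∪ W).card := by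
  rcases ((cyl T x ∩ cyl U y) ∩ cyl W w).eq_empty_or_nonempty with h | ⟨f, hf⟩
  · rw [h]; simp; positivity
  · rw [mem_inter, mem_inter, mem_cyl, mem_cyl, mem_cyl] at hf
    rw [← card_cyl_real (T ∪ U ∪ W) f]
    norm_cast
    apply card_le_card
    intro g hg
    rw [mem_inter, mem_inter, mem_cyl, mem_cyl, mem_cyl] at hg
    rw [mem_cyl]
    intro e he
    rcases mem_union.1 he with he | he
    · rcases mem_union.1 he with he | he
      · rw [hg.1.1 e he, hf.1.1 e he]
      · rw [hg.1.2 e he, hf.1.2 e he]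
    · rw [hg.2 e he, hf.2 e he]

theorem phi_add (r i : ℕ) : phi r i + (r - i).choose 2 = r.choose 2 := by
  unfold phi
  have := Nat.choose_le_choose 2 (Nat.sub_le r i)
  omega

theorem two_choose (a : ℕ) : 2 * a.choose 2 + a = a * a := by
  induction a with
  | zero => simp
  | succ a ih =>
    rw [Nat.choose_succ_succ' a 1]
    simp only [Nat.choose_one_right]
    nlinarith

theorem phi_succ {r k : ℕ} (h : k + 1 ≤ r) : phi r (k + 1) = phi r k + (r - 1 - k) := by
  have h1 := phi_add r k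
  have h2 := phi_add r (k + 1)
  have h3 : (r - k).choose 2 = (r - (k + 1)).choose 2 + (r - 1 - k) := by
    have : r - k = (r - (k + 1)) + 1 := by omega
    rw [this]
    have h4 : (r - (k + 1) + 1).choose 2 = (r - (k + 1)).choose 1 + (r - (k + 1)).choose 2 :=
      Nat.choose_succ_succ' _ 1
    rw [h4, Nat.choose_one_right]
    omega
  omega

/-- closed form -/
theorem two_phi {r i : ℕ} (h : i ≤ r) : 2 * phi r i + i * i + i = 2 * r * i := by
  have h1 := phi_add r i
  have h2 := two_choose r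
  have h3 := two_choose (r - i)
  obtain ⟨d, rfl⟩ := Nat.exists_eq_add_of_le h
  have : i + d - i = d := by omega
  rw [this] at h1 h3
  nlinarith

theorem phi_step {r i j m : ℕ} (hj : j ≤ 2 * m + 2) (hij : j ≤ i) (hi : i ≤ r) (hr : 6 * m + 5 ≤ r) :
    phi r j + (2 * m + 1) * (i - j) ≤ phi r i := by
  have h1 := two_phi hi
  have h2 := two_phi (hij.trans hi)
  obtain ⟨d, rfl⟩ := Nat.exists_eq_add_of_le hij
  have : j + d - j = d := by omega
  rw [this]
  have h3 : d * (j + d + j + 1 + 2 * (2 * m + 1)) ≤ d * (2 * r) := by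
    apply Nat.mul_le_mul_left
    omega
  nlinarith

/-- number of `J` with a given difference is at most `(2^(2m))^i` -/
theorem card_J_le {r m : ℕ} (I : Finset V) (hI : I.card = r) (hn : Fintype.card V ≤ 2 ^ m) (i : ℕ) :
    (((powersetCard r (univ : Finset V)).filter (fun J => (I \ J).card = i)).card)
      ≤ (2 ^ (2 * m)) ^ i := by
  have h1 : (((powersetCard r (univ : Finset V)).filter (fun J => (I \ J).card = i)).card)
      ≤ ((powersetCard i (univ : Finset V)) ×ˢ (powersetCard i (univ : Finset V))).card := by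
    apply card_le_card_of_injOn (fun J => (I \ J, J \ I))
    · intro J hJ
      have hJ' := mem_filter.1 (mem_coe.1 hJ)
      have hJr := (mem_powersetCard.1 hJ'.1).2
      have h3 : (J \ I).card = i := by
        have e1 := card_sdiff_add_card_inter I J
        have e2 := card_sdiff_add_card_inter J I
        rw [inter_comm] at e2
        omega
      simp only [coe_product, Set.mem_prod, mem_coe, mem_powersetCard]
      exact ⟨⟨subset_univ _, hJ'.2⟩, ⟨subset_univ _, h3⟩⟩
    · intro J hJ K hK h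
      simp only [Prod.mk.injEq] at h
      obtain ⟨ha, hb⟩ := h
      ext v
      by_cases hv : v ∈ I
      · have h1 : v ∈ I \ J ↔ v ∈ I \ K := by rw [ha]
        simp only [mem_sdiff, hv, true_and] at h1
        exact not_iff_not.1 h1
      · have h1 : v ∈ J \ I ↔ v ∈ K \ I := by rw [hb]
        simpa [mem_sdiff, hv] using h1
  refine h1.trans ?_
  rw [card_product, card_powersetCard, card_univ]
  have h2 : (Fintype.card V).choose i ≤ (2 ^ m) ^ i :=
    (Nat.choose_le_pow _ i).trans (Nat.pow_le_pow_left hn i)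
  calc (Fintype.card V).choose i * (Fintype.card V).choose i ≤ (2 ^ m) ^ i * (2 ^ m) ^ i := Nat.mul_le_mul h2 h2
    _ = (2 ^ (2 * m)) ^ i := by rw [← mul_pow, ← pow_add]; congr 2; ring

theorem card_union_ins {r : ℕ} {I J : Finset V} (hI : I.card = r) (hJ : J.card = r) :
    (ins I ∪ ins J).card = r.choose 2 + phi r (I \ J).card := by
  have h1 := card_union_add_card_inter (ins I) (ins J)
  rw [ins_inter, card_ins, card_ins, card_ins, hI, hJ] at h1
  have h2 := card_sdiff_add_card_inter I J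
  have h3 := phi_add r (I \ J).card
  have h4 : r - (I \ J).card = (I ∩ J).card := by omega
  rw [h4] at h3
  omega

/-- tail sum -/
theorem tail_sum {r m j : ℕ} (I : Finset V) (hI : I.card = r) (hn : Fintype.card V ≤ 2 ^ m)
    (hj : j ≤ 2 * m + 2) (hr : 6 * m + 5 ≤ r) :
    ∑ J ∈ (powersetCard r (univ : Finset V)).filter (fun J => j ≤ (I \ J).card),
      (1 : ℝ) / 2 ^ phi r (I \ J).card ≤ 2 * (2 ^ (2 * m)) ^ j / 2 ^ phi r j := by
  have h1 : ∑ J ∈ (powersetCard r (univ : Finset V)).filter (fun J => j ≤ (I \ J).card),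
      (1 : ℝ) / 2 ^ phi r (I \ J).card
      = ∑ i ∈ Finset.Ico j (r + 1), ∑ J ∈ ((powersetCard r (univ : Finset V)).filter
          (fun J => j ≤ (I \ J).card)).filter (fun J => (I \ J).card = i),
          (1 : ℝ) / 2 ^ phi r (I \ J).card := by
    rw [sum_fiberwise_of_maps_to]
    intro J hJ
    rw [mem_filter] at hJ
    rw [Finset.mem_Ico]
    refine ⟨hJ.2, ?_⟩
    have : (I \ J).card ≤ I.card := card_le_card sdiff_subset
    omega
  rw [h1]
  have h2 : ∀ i ∈ Finset.Ico j (r + 1), ∑ J ∈ ((powersetCard r (univ : Finset V)).filter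
          (fun J => j ≤ (I \ J).card)).filter (fun J => (I \ J).card = i),
          (1 : ℝ) / 2 ^ phi r (I \ J).card ≤
          (2 ^ (2 * m)) ^ j / 2 ^ phi r j * (1 / 2) ^ (i - j) := by
    intro i hi
    rw [Finset.mem_Ico] at hi
    have e1 : ∑ J ∈ ((powersetCard r (univ : Finset V)).filter
          (fun J => j ≤ (I \ J).card)).filter (fun J => (I \ J).card = i),
          (1 : ℝ) / 2 ^ phi r (I \ J).card = ∑ J ∈ ((powersetCard r (univ : Finset V)).filter
          (fun J => j ≤ (I \ J).card)).filter (fun J => (I \ J).card = i),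
          (1 : ℝ) / 2 ^ phi r i := by
      apply sum_congr rfl
      intro J hJ
      rw [(mem_filter.1 hJ).2]
    rw [e1, sum_const, nsmul_eq_mul]
    have e2 : (((powersetCard r (univ : Finset V)).filter
          (fun J => j ≤ (I \ J).card)).filter (fun J => (I \ J).card = i)).card
          ≤ (2 ^ (2 * m)) ^ i := by
      refine le_trans (card_le_card ?_) (card_J_le I hI hn i)
      intro J hJ
      rw [mem_filter, mem_filter] at hJ
      rw [mem_filter]
      exact ⟨hJ.1.1, hJ.2⟩
    have e3 : ((((powersetCard r (univ : Finset V)).filter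
          (fun J => j ≤ (I \ J).card)).filter (fun J => (I \ J).card = i)).card : ℝ)
          ≤ (2 ^ (2 * m)) ^ i := by exact_mod_cast e2
    have e4 := phi_step hj hi.1 (by omega : i ≤ r) hr
    calc ((((powersetCard r (univ : Finset V)).filter
          (fun J => j ≤ (I \ J).card)).filter (fun J => (I \ J).card = i)).card : ℝ)
            * (1 / 2 ^ phi r i)
        ≤ (2 ^ (2 * m)) ^ i * (1 / 2 ^ (phi r j + (2 * m + 1) * (i - j))) := by
          apply mul_le_mul e3 _ (by positivity) (by positivity)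
          apply one_div_le_one_div_of_le (by positivity)
          exact pow_le_pow_right₀ (by norm_num) e4
      _ = (2 ^ (2 * m)) ^ j / 2 ^ phi r j * (1 / 2) ^ (i - j) := by
          have e5 : i = j + (i - j) := by omega
          conv_lhs => rw [e5]
          have e6 : j + (i - j) - j = i - j := by omega
          rw [e6]
          rw [pow_add (2 ^ (2 * m) : ℝ), pow_add (2 : ℝ) (phi r j), pow_mul (2 : ℝ) (2 * m + 1),
            pow_succ (2 : ℝ) (2 * m), mul_pow, one_div_pow]
          field_simp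
  refine (sum_le_sum h2).trans ?_
  rw [← mul_sum, sum_Ico_eq_sum_range]
  have h3 : ∑ k ∈ range (r + 1 - j), ((1 : ℝ) / 2) ^ (j + k - j) ≤ 2 := by
    have : ∀ k ∈ range (r + 1 - j), ((1 : ℝ) / 2) ^ (j + k - j) = (1 / 2) ^ k := by
      intro k _
      congr 1
      omega
    rw [sum_congr rfl this]
    exact sum_geometric_two_le _
  calc (2 ^ (2 * m)) ^ j / 2 ^ phi r j * ∑ k ∈ range (r + 1 - j), ((1 : ℝ) / 2) ^ (j + k - j)
      ≤ (2 ^ (2 * m)) ^ j / 2 ^ phi r j * 2 := by
        apply mul_le_mul_of_nonneg_left h3 (by positivity)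
    _ = 2 * (2 ^ (2 * m)) ^ j / 2 ^ phi r j := by ring

/-- counting lemma: few functions in the cylinder of `G0` on `I` agree with `G` on an `r`-set
which misses at least `j` elements of `I` -/
theorem count_far {r m j : ℕ} (I : Finset V) (hI : I.card = r) (hn : Fintype.card V ≤ 2 ^ m)
    (hj : j ≤ 2 * m + 2) (hr : 6 * m + 5 ≤ r) (G0 G : Gr V) (X : Finset (Gr V))
    (hX : ∀ f ∈ X, f ∈ cyl (ins I) G0 ∧
      ∃ J : Finset V, J.card = r ∧ j ≤ (I \ J).card ∧ f ∈ cyl (ins J) G) :
    (X.card : ℝ) ≤ 2 ^ (Fintype.card (Ed V)) / 2 ^ (r.choose 2)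
      * (2 * (2 ^ (2 * m)) ^ j / 2 ^ phi r j) := by
  have h1 : X ⊆ ((powersetCard r (univ : Finset V)).filter
      (fun J => j ≤ (I \ J).card)).biUnion (fun J => cyl (ins I) G0 ∩ cyl (ins J) G) := by
    intro f hf
    obtain ⟨h2, J, hJ, hJ2, hJ3⟩ := hX f hf
    rw [mem_biUnion]
    exact ⟨J, mem_filter.2 ⟨mem_powersetCard.2 ⟨subset_univ _, hJ⟩, hJ2⟩, mem_inter.2 ⟨h2, hJ3⟩⟩
  have h2 : (X.card : ℝ) ≤ ∑ J ∈ (powersetCard r (univ : Finset V)).filter
      (fun J => j ≤ (I \ J).card), ((cyl (ins I) G0 ∩ cyl (ins J) G).card : ℝ) := by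
    exact_mod_cast (card_le_card h1).trans card_biUnion_le
  have h3 : ∑ J ∈ (powersetCard r (univ : Finset V)).filter
      (fun J => j ≤ (I \ J).card), ((cyl (ins I) G0 ∩ cyl (ins J) G).card : ℝ)
      ≤ ∑ J ∈ (powersetCard r (univ : Finset V)).filter (fun J => j ≤ (I \ J).card),
      2 ^ (Fintype.card (Ed V)) / 2 ^ (r.choose 2) * ((1 : ℝ) / 2 ^ phi r (I \ J).card) := by
    apply sum_le_sum
    intro J hJ
    rw [mem_filter, mem_powersetCard] at hJ
    refine (card_inter_cyl_le _ _ _ _).trans (le_of_eq ?_)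
    rw [card_union_ins hI hJ.1.2, pow_add]
    field_simp
  rw [← mul_sum] at h3
  refine h2.trans (h3.trans ?_)
  apply mul_le_mul_of_nonneg_left (tail_sum I hI hn hj hr) (by positivity)


/-- the members of `F` agreeing with `X` on `T` -/
noncomputable def sec (F : Finset (Gr V)) (T : Finset (Ed V)) (X : Gr V) :
    Finset (Gr V) := F.filter (fun f => f ∈ cyl T X)

theorem mem_sec {F : Finset (Gr V)} {T : Finset (Ed V)} {X f : Gr V} :
    f ∈ sec F T X ↔ f ∈ F ∧ ∀ e ∈ T, f e = X e := by
  rw [sec, mem_filter, mem_cyl]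

/-- fibre bound: if every class on `ins J` has at most `M` members, then the members agreeing
with `X` on `T ⊆ ins J` number at most `M 2^(R - |T|)`. -/
theorem fibre_bound {F : Finset (Gr V)} {M : ℕ} {U T : Finset (Ed V)}
    (hM : ∀ f ∈ F, (sec F U f).card ≤ M) (hT : T ⊆ U) (X : Gr V) :
    (sec F T X).card ≤ M * 2 ^ (U.card - T.card) := by
  have h1 : (sec F T X).card ≤ M * ((sec F T X).image
      (fun f => fun e : {e // e ∈ U \ T} => f e.1)).card := by
    apply card_le_mul_card_image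
    intro g hg
    rw [mem_image] at hg
    obtain ⟨f, hf, rfl⟩ := hg
    refine le_trans (card_le_card ?_) (hM f (mem_sec.1 hf).1)
    intro f' hf'
    rw [mem_filter, mem_sec] at hf'
    rw [mem_sec]
    refine ⟨hf'.1.1, ?_⟩
    intro e he
    by_cases heT : e ∈ T
    · rw [hf'.1.2 e heT, (mem_sec.1 hf).2 e heT]
    · exact congrFun hf'.2 ⟨e, mem_sdiff.2 ⟨he, heT⟩⟩
  refine h1.trans (Nat.mul_le_mul_left _ ?_)
  refine (card_le_univ _).trans ?_
  rw [Fintype.card_fun, ZMod.card, Fintype.card_coe, card_sdiff_of_subset hT]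


theorem ag_iff {S : Finset V} {G H : Gr V} : Ag S G H ↔ ∀ e ∈ ins S, G e = H e := by
  constructor
  · intro h
    rintro ⟨e, he⟩ hes
    rw [mem_ins] at hes
    obtain ⟨x, y, hxy, rfl⟩ := card_eq_two.1 he
    have h1 := h x (hes (by simp)) y (hes (by simp))
    unfold val at h1
    rw [dif_pos hxy, dif_pos hxy] at h1
    exact h1
  · intro h x hx y hy
    unfold val
    by_cases hxy : x ≠ y
    · rw [dif_pos hxy, dif_pos hxy]
      apply h
      rw [mem_ins]
      intro w hw
      rcases mem_insert.1 hw with h1 | h1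
      · rw [h1]; exact hx
      · rw [mem_singleton.1 h1]; exact hy
    · rw [dif_neg hxy, dif_neg hxy]

theorem core {l r k : ℕ} {F1 F2 : Finset (Gr V)} {I : Finset V} {K : Gr V} {m2 z : ℝ}
    (hl : 1 ≤ l) (hr : 40 * l ^ 2 ≤ r) (hn : Fintype.card V ≤ 2 ^ l)
    (hXA : ∀ f ∈ F1, ∀ G ∈ F2, ∃ J : Finset V, J.card = r ∧ ∀ e ∈ ins J, f e = G e)
    (hF2 : F2.Nonempty) (hI : I.card = r) (hk1 : 1 ≤ k) (hkl : k ≤ 2 * l + 1)
    (hcov : ∀ G ∈ F2, ∃ T ⊆ I, T.card = k ∧ ∀ e ∈ ins (I \ T), G e = K e)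
    (hz : z = 2 ^ (Fintype.card (Ed V)) / 2 ^ (r.choose 2))
    (hM : ∀ (J : Finset V) (X : Gr V), J.card = r → ((sec F2 (ins J) X).card : ℝ) ≤ m2) :
    (F2.card : ℝ) ≤ 2 ^ (l * k + 1) * m2 ∨
    ((sec F1 (ins I) K).card : ℝ) ≤
      z * (2 ^ (3 * l * k + 2 * l + 3) / 2 ^ (phi r k + (r - 1 - k))) ∨
    (F2.card : ℝ) ≤ 2 ^ (2 * l * k + 1) * m2 * 2 ^ phi r k / 2 ^ (r - 1 - k) := by
  have hzpos : 0 < z := by rw [hz]; positivity
  have hl2 : l ≤ l ^ 2 := by nlinarith
  have hr5 : 6 * l + 5 ≤ r := by omega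
  have hkr1 : k + 1 ≤ r := by omega
  have hkr : k ≤ r := by omega
  have hrn : r ≤ Fintype.card V := by rw [← hI]; exact card_le_univ I
  have hm20 : 0 ≤ m2 := le_trans (by positivity) (hM I K hI)
  -- the maximal class on `I`
  obtain ⟨M, hM1, hM2⟩ : ∃ M : ℕ, (∀ f ∈ F2, (sec F2 (ins I) f).card ≤ M) ∧ (M : ℝ) ≤ m2 := by
    obtain ⟨f, hf, hmax⟩ := exists_max_image F2 (fun f => (sec F2 (ins I) f).card) hF2
    exact ⟨(sec F2 (ins I) f).card, hmax, hM I f hI⟩
  have hcardIA : ∀ A ⊆ I, A.card = k → (I \ A).card = r - k := by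
    intro A hA hAk
    rw [card_sdiff_of_subset hA, hI, hAk]
  have hFcov : F2 ⊆ (powersetCard k I).biUnion (fun A => sec F2 (ins (I \ A)) K) := by
    intro G hG
    obtain ⟨A, hA, hAk, hAe⟩ := hcov G hG
    rw [mem_biUnion]
    exact ⟨A, mem_powersetCard.2 ⟨hA, hAk⟩, mem_sec.2 ⟨hG, hAe⟩⟩
  have hFsum : F2.card ≤ ∑ A ∈ powersetCard k I, ((sec F2 (ins (I \ A)) K)).card :=
    (card_le_card hFcov).trans card_biUnion_le
  obtain ⟨A, hA0, hAmax⟩ : ∃ A ∈ powersetCard k I,
      F2.card ≤ r.choose k * ((sec F2 (ins (I \ A)) K)).card := by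
    have hne : (powersetCard k I).Nonempty := by
      rw [powersetCard_nonempty, hI]; exact hkr
    obtain ⟨A, hA, hAm⟩ := exists_max_image (powersetCard k I)
      (fun A => ((sec F2 (ins (I \ A)) K)).card) hne
    refine ⟨A, hA, ?_⟩
    refine hFsum.trans ((sum_le_card_nsmul _ _ _ (fun B hB => hAm B hB)).trans ?_)
    rw [card_powersetCard, hI, smul_eq_mul]
  have hA := mem_powersetCard.1 hA0
  -- Bad and Good
  obtain ⟨Bad, hBad⟩ : ∃ Bad, Bad = ((sec F2 (ins (I \ A)) K)).filter
    (fun f => ∃ A' ∈ powersetCard k I, A' ≠ A ∧ f ∈ sec F2 (ins (I \ A')) K) := ⟨_, rfl⟩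
  obtain ⟨Good, hGood⟩ : ∃ Good, Good = ((sec F2 (ins (I \ A)) K)) \ Bad := ⟨_, rfl⟩
  have hBadle : (Bad.card : ℝ) ≤ r.choose k * (M * (2 ^ phi r k / 2 ^ (r - 1 - k))) := by
    have h1 : Bad ⊆ ((powersetCard k I).erase A).biUnion
        (fun A' => sec F2 (ins (I \ A) ∪ ins (I \ A')) K) := by
      intro f hf
      rw [hBad, mem_filter] at hf
      obtain ⟨hfA, A', hA', hne, hfA'⟩ := hf
      rw [mem_biUnion]
      refine ⟨A', mem_erase.2 ⟨hne, hA'⟩, mem_sec.2 ⟨(mem_sec.1 hfA).1, ?_⟩⟩
      intro e he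
      rcases mem_union.1 he with he | he
      · exact (mem_sec.1 hfA).2 e he
      · exact (mem_sec.1 hfA').2 e he
    have h2 : ∀ A' ∈ (powersetCard k I).erase A,
        ((sec F2 (ins (I \ A) ∪ ins (I \ A')) K).card : ℝ)
          ≤ M * (2 ^ phi r k / 2 ^ (r - 1 - k)) := by
      intro A' hA'
      rw [mem_erase] at hA'
      have hA'2 := mem_powersetCard.1 hA'.2
      have h3 := fibre_bound (M := M) (U := ins I) (T := ins (I \ A) ∪ ins (I \ A'))
        (F := F2) hM1
        (union_subset (ins_mono sdiff_subset) (ins_mono sdiff_subset)) K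
      have h4 := card_union_add_card_inter (ins (I \ A)) (ins (I \ A'))
      rw [ins_inter, card_ins, card_ins, card_ins, hcardIA A hA.1 hA.2,
        hcardIA A' hA'2.1 hA'2.2] at h4
      have h5 : ((I \ A) ∩ (I \ A')).card ≤ r - 1 - k := by
        have h6 : ((I \ A) ∩ (I \ A')).card < (I \ A).card := by
          apply card_lt_card
          refine ⟨inter_subset_left, ?_⟩
          intro hsub
          apply hA'.1
          have h7 : I \ A ⊆ I \ A' := fun v hv => (mem_inter.1 (hsub hv)).2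
          have h8 : I \ A = I \ A' := eq_of_subset_of_card_le h7 (by
            rw [hcardIA A hA.1 hA.2, hcardIA A' hA'2.1 hA'2.2])
          have h9 : I \ (I \ A) = I \ (I \ A') := by rw [h8]
          rw [Finset.sdiff_sdiff_eq_self hA.1, Finset.sdiff_sdiff_eq_self hA'2.1] at h9
          exact h9.symm
        rw [hcardIA A hA.1 hA.2] at h6
        omega
      have h6 := Nat.choose_le_choose 2 h5
      have h7 : (r - k).choose 2 = (r - 1 - k).choose 2 + (r - 1 - k) := by
        have e1 : (r - 1 - k + 1).choose 2 = (r - 1 - k).choose 1 + (r - 1 - k).choose 2 :=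
          Nat.choose_succ_succ' _ 1
        rw [Nat.choose_one_right] at e1
        have e2 : r - 1 - k + 1 = r - k := by omega
        rw [e2] at e1
        omega
      have h8 := phi_add r k
      rw [card_ins, hI] at h3
      have hTU : (ins (I \ A) ∪ ins (I \ A')).card ≤ r.choose 2 := by
        rw [← hI, ← card_ins I]
        exact card_le_card (union_subset (ins_mono sdiff_subset) (ins_mono sdiff_subset))
      have h10 : r.choose 2 - (ins (I \ A) ∪ ins (I \ A')).card + (r - 1 - k) ≤ phi r k := by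
        omega
      have h11 : ((sec F2 (ins (I \ A) ∪ ins (I \ A')) K).card : ℝ)
          ≤ M * 2 ^ (r.choose 2 - (ins (I \ A) ∪ ins (I \ A')).card) := by
        exact_mod_cast h3
      refine h11.trans ?_
      apply mul_le_mul_of_nonneg_left _ (by positivity)
      rw [le_div_iff₀ (by positivity), ← pow_add]
      exact pow_le_pow_right₀ (by norm_num) h10
    have h3 : (Bad.card : ℝ) ≤ ∑ A' ∈ (powersetCard k I).erase A,
        ((sec F2 (ins (I \ A) ∪ ins (I \ A')) K).card : ℝ) := by
      exact_mod_cast (card_le_card h1).trans card_biUnion_le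
    refine h3.trans ((sum_le_card_nsmul _ _ _ h2).trans ?_)
    rw [nsmul_eq_mul]
    apply mul_le_mul_of_nonneg_right _ (by positivity)
    have h4 : ((powersetCard k I).erase A).card ≤ r.choose k := by
      refine (card_le_card (erase_subset _ _)).trans ?_
      rw [card_powersetCard, hI]
    exact_mod_cast h4
  have hGoodF : ∀ G ∈ Good, G ∈ F2 := by
    intro G hG
    rw [hGood, mem_sdiff] at hG
    exact (mem_sec.1 hG.1).1
  have hGood1 : ∀ G ∈ Good, ∀ A' ⊆ I, (∀ e ∈ ins (I \ A'), G e = K e) →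
      A' = A ∨ k + 1 ≤ A'.card := by
    intro G hG A' hA' hAe
    rw [hGood, mem_sdiff] at hG
    have huniq : ∀ A'' ⊆ I, A' ⊆ A'' → A''.card = k → A'' = A := by
      intro A'' hI'' hsub hc
      by_contra hne
      apply hG.2
      rw [hBad, mem_filter]
      refine ⟨hG.1, A'', mem_powersetCard.2 ⟨hI'', hc⟩, hne, mem_sec.2 ⟨(mem_sec.1 hG.1).1, ?_⟩⟩
      intro e he
      exact hAe e (ins_mono (sdiff_subset_sdiff Subset.rfl hsub) he)
    by_contra hcon2
    push Not at hcon2
    obtain ⟨hne, hlt⟩ := hcon2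
    have hlt2 : A'.card < k := by
      rcases Nat.lt_or_ge A'.card k with h | h
      · exact h
      · exact absurd (huniq A' hA' Subset.rfl (by omega)) hne
    obtain ⟨v, hvI, hvA⟩ : ∃ v ∈ I, v ∉ A := by
      by_contra hno
      push Not at hno
      have : I.card ≤ A.card := card_le_card hno
      omega
    obtain ⟨A'', h1, h2, h3⟩ := exists_subsuperset_card_eq
      (s := insert v A') (t := I) (n := k) (insert_subset hvI hA')
      ((card_insert_le _ _).trans (by omega)) (by omega)
    have h4 := huniq A'' h2 ((subset_insert _ _).trans h1) h3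
    exact hvA (h4 ▸ h1 (mem_insert_self _ _))
  -- the key dichotomy
  have hdich : ∀ G ∈ Good, ∀ f ∈ sec F1 (ins I) K,
      (∃ B ∈ powersetCard k (univ \ I), f ∈ cyl (ins ((I \ A) ∪ B)) G) ∨
      (∃ J : Finset V, J.card = r ∧ k + 1 ≤ (I \ J).card ∧ f ∈ cyl (ins J) G) := by
    intro G hG f hf
    have hf2 := mem_sec.1 hf
    obtain ⟨J, hJ, hJe⟩ := hXA f hf2.1 G (hGoodF G hG)
    have h1 : ∀ e ∈ ins (I \ (I \ J)), G e = K e := by
      intro e he
      rw [sdiff_sdiff_right_self] at he
      rw [← hJe e (ins_mono inter_subset_right he)]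
      exact hf2.2 e (ins_mono inter_subset_left he)
    rcases hGood1 G hG (I \ J) sdiff_subset h1 with h | h
    · left
      refine ⟨J \ I, ?_, ?_⟩
      · rw [mem_powersetCard]
        refine ⟨fun v hv => mem_sdiff.2 ⟨mem_univ _, (mem_sdiff.1 hv).2⟩, ?_⟩
        have e1 := card_sdiff_add_card_inter I J
        have e2 := card_sdiff_add_card_inter J I
        rw [inter_comm] at e2
        rw [h] at e1
        have := hA.2
        omega
      · have h2 : (I \ A) ∪ (J \ I) = J := by
          rw [← h, sdiff_sdiff_right_self]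
          ext v
          simp only [inf_eq_inter, mem_union, mem_inter, mem_sdiff]
          tauto
        rw [h2]
        exact mem_cyl.2 hJe
    · right
      exact ⟨J, hJ, h, mem_cyl.2 hJe⟩
  have hJB : ∀ B ∈ powersetCard k (univ \ I), ((I \ A) ∪ B).card = r := by
    intro B hB
    rw [mem_powersetCard] at hB
    rw [card_union_of_disjoint, hcardIA A hA.1 hA.2, hB.2]
    · omega
    · rw [disjoint_left]
      intro v hv hvB
      exact (mem_sdiff.1 (hB.1 hvB)).2 (mem_sdiff.1 hv).1
  have hIJB : ∀ B ∈ powersetCard k (univ \ I), I \ ((I \ A) ∪ B) = A := by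
    intro B hB
    rw [mem_powersetCard] at hB
    ext v
    simp only [mem_sdiff, mem_union]
    constructor
    · rintro ⟨h1, h2⟩
      by_contra h3
      exact h2 (Or.inl ⟨h1, h3⟩)
    · intro h
      refine ⟨hA.1 h, ?_⟩
      rintro (h1 | h1)
      · exact h1.2 h
      · exact (mem_sdiff.1 (hB.1 h1)).2 (hA.1 h)
  -- constants
  obtain ⟨δ, hδ⟩ : ∃ δ : ℝ, δ = 2 * (2 ^ (2 * l)) ^ (k + 1) / 2 ^ phi r (k + 1) := ⟨_, rfl⟩
  obtain ⟨c, hc⟩ : ∃ c : ℝ, c = (r.choose k : ℝ) := ⟨_, rfl⟩
  obtain ⟨d, hd⟩ : ∃ d : ℝ, d = ((powersetCard k ((univ : Finset V) \ I)).card : ℝ) := ⟨_, rfl⟩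
  have hcle : c ≤ 2 ^ (l * k) := by
    have : r.choose k ≤ 2 ^ (l * k) := by
      refine (Nat.choose_le_pow r k).trans ?_
      rw [pow_mul]
      exact Nat.pow_le_pow_left (hrn.trans hn) k
    rw [hc]
    exact_mod_cast this
  have hdle : d ≤ 2 ^ (l * k) := by
    have : (powersetCard k ((univ : Finset V) \ I)).card ≤ 2 ^ (l * k) := by
      rw [card_powersetCard]
      refine (Nat.choose_le_pow _ k).trans ?_
      rw [pow_mul]
      apply Nat.pow_le_pow_left
      exact (card_le_univ _).trans hn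
    rw [hd]
    exact_mod_cast this
  have hc0 : 0 ≤ c := by rw [hc]; positivity
  have hd0 : 0 ≤ d := by rw [hd]; positivity
  have hδ0 : 0 < δ := by rw [hδ]; positivity
  obtain ⟨β, hβ⟩ : ∃ β : ℝ, β = z * δ + d * (z / (2 ^ phi r k * 2 ^ (r - 1))) := ⟨_, rfl⟩
  -- Claim 7
  have hClaim7 : ∀ G1 ∈ Good, ∀ B ∈ powersetCard k (univ \ I),
      β < ((sec F1 (ins I) K).filter (fun f => f ∈ cyl (ins ((I \ A) ∪ B)) G1)).card →
      ∀ G2 ∈ Good, ∀ e ∈ ins ((I \ A) ∪ B), G2 e = G1 e := by
    intro G1 hG1 B hB hβlt G2 hG2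
    by_contra hnot
    have hsub : (sec F1 (ins I) K).filter (fun f => f ∈ cyl (ins ((I \ A) ∪ B)) G1) ⊆
        (sec F1 (ins I) K).filter (fun f => ∃ J : Finset V, J.card = r ∧
          k + 1 ≤ (I \ J).card ∧ f ∈ cyl (ins J) G2) ∪
        ((powersetCard k (univ \ I)).erase B).biUnion (fun B' =>
          (cyl (ins I) K ∩ cyl (ins ((I \ A) ∪ B)) G1) ∩
            cyl (ins ((I \ A) ∪ B')) G2) := by
      intro f hf
      rw [mem_filter] at hf
      rw [mem_union]
      rcases hdich G2 hG2 f hf.1 with ⟨B', hB', hfB'⟩ | h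
      · right
        rw [mem_biUnion]
        refine ⟨B', mem_erase.2 ⟨?_, hB'⟩, ?_⟩
        · rintro rfl
          apply hnot
          intro e he
          rw [← mem_cyl.1 hfB' e he, mem_cyl.1 hf.2 e he]
        · rw [mem_inter, mem_inter]
          exact ⟨⟨mem_cyl.2 (mem_sec.1 hf.1).2, hf.2⟩, hfB'⟩
      · left
        exact mem_filter.2 ⟨hf.1, h⟩
    have h1 : (((sec F1 (ins I) K).filter (fun f => f ∈ cyl (ins ((I \ A) ∪ B)) G1)).card : ℝ)
        ≤ ((sec F1 (ins I) K).filter (fun f => ∃ J : Finset V, J.card = r ∧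
          k + 1 ≤ (I \ J).card ∧ f ∈ cyl (ins J) G2)).card +
        ∑ B' ∈ (powersetCard k (univ \ I)).erase B,
          (((cyl (ins I) K ∩ cyl (ins ((I \ A) ∪ B)) G1) ∩
            cyl (ins ((I \ A) ∪ B')) G2).card : ℝ) := by
      have := (card_le_card hsub).trans ((card_union_le _ _).trans
        (Nat.add_le_add_left card_biUnion_le _))
      exact_mod_cast this
    have h2 : (((sec F1 (ins I) K).filter (fun f => ∃ J : Finset V, J.card = r ∧
          k + 1 ≤ (I \ J).card ∧ f ∈ cyl (ins J) G2)).card : ℝ) ≤ z * δ := by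
      rw [hz, hδ]
      apply count_far I hI hn (by omega) hr5 K G2
      intro f hf
      rw [mem_filter] at hf
      exact ⟨mem_cyl.2 (mem_sec.1 hf.1).2, hf.2⟩
    have h3 : ∀ B' ∈ (powersetCard k (univ \ I)).erase B,
          (((cyl (ins I) K ∩ cyl (ins ((I \ A) ∪ B)) G1) ∩
            cyl (ins ((I \ A) ∪ B')) G2).card : ℝ) ≤ z / (2 ^ phi r k * 2 ^ (r - 1)) := by
      intro B' hB'
      rw [mem_erase] at hB'
      refine (card_inter3_cyl_le _ _ _ _ _ _).trans ?_
      have e1 : (ins I ∪ ins ((I \ A) ∪ B)).card = r.choose 2 + phi r k := by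
        rw [card_union_ins hI (hJB B hB), hIJB B hB, hA.2]
      have e2 := card_union_add_card_inter (ins I ∪ ins ((I \ A) ∪ B))
        (ins ((I \ A) ∪ B'))
      have e3 : (ins I ∪ ins ((I \ A) ∪ B)) ∩ ins ((I \ A) ∪ B') ⊆
          ins (((I \ A) ∪ B) ∩ ((I \ A) ∪ B')) := by
        intro e he
        rw [mem_inter, mem_union, mem_ins, mem_ins, mem_ins] at he
        rw [mem_ins, subset_inter_iff]
        refine ⟨?_, he.2⟩
        rcases he.1 with h | h
        · intro v hv
          rcases mem_union.1 (he.2 hv) with h5 | h5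
          · exact mem_union_left _ h5
          · exact absurd (h hv) (mem_sdiff.1 ((mem_powersetCard.1 hB'.2).1 h5)).2
        · exact h
      have e4 : (((I \ A) ∪ B) ∩ ((I \ A) ∪ B')).card ≤ r - 1 := by
        have h6 : (((I \ A) ∪ B) ∩ ((I \ A) ∪ B')).card < ((I \ A) ∪ B).card := by
          apply card_lt_card
          refine ⟨inter_subset_left, ?_⟩
          intro hs
          apply hB'.1
          have h7 : B ⊆ B' := by
            intro v hv
            rcases mem_union.1 ((mem_inter.1 (hs (mem_union_right _ hv))).2) with h8 | h8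
            · exact absurd (mem_sdiff.1 h8).1 (mem_sdiff.1 ((mem_powersetCard.1 hB).1 hv)).2
            · exact h8
          exact (eq_of_subset_of_card_le h7 (by
            rw [(mem_powersetCard.1 hB).2, (mem_powersetCard.1 hB'.2).2])).symm
        rw [hJB B hB] at h6
        omega
      have e5 := (card_le_card e3).trans (le_of_eq (card_ins _))
      have e6 := Nat.choose_le_choose 2 e4
      have e7 : r.choose 2 = (r - 1).choose 2 + (r - 1) := by
        have e8 : (r - 1 + 1).choose 2 = (r - 1).choose 1 + (r - 1).choose 2 :=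
          Nat.choose_succ_succ' _ 1
        rw [Nat.choose_one_right] at e8
        have e9 : r - 1 + 1 = r := by omega
        rw [e9] at e8
        omega
      have e8 : (ins ((I \ A) ∪ B')).card = r.choose 2 := by
        rw [card_ins, hJB B' hB'.2]
      have e9 : r.choose 2 + (phi r k + (r - 1)) ≤
          (ins I ∪ ins ((I \ A) ∪ B) ∪ ins ((I \ A) ∪ B')).card := by
        omega
      rw [hz, div_div]
      apply div_le_div_of_nonneg_left (by positivity) (by positivity)
      rw [← pow_add, ← pow_add]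
      exact pow_le_pow_right₀ (by norm_num) e9
    have h4 : ∑ B' ∈ (powersetCard k (univ \ I)).erase B,
          (((cyl (ins I) K ∩ cyl (ins ((I \ A) ∪ B)) G1) ∩
            cyl (ins ((I \ A) ∪ B')) G2).card : ℝ) ≤ d * (z / (2 ^ phi r k * 2 ^ (r - 1))) := by
      refine (sum_le_card_nsmul _ _ _ h3).trans ?_
      rw [nsmul_eq_mul]
      apply mul_le_mul_of_nonneg_right _ (by positivity)
      rw [hd]
      exact_mod_cast card_le_card (erase_subset _ _)
    linarith
  -- final numerics
  have hphik : phi r (k + 1) = phi r k + (r - 1 - k) := phi_succ hkr1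
  have hGoodcard : (Good.card : ℝ) = ((sec F2 (ins (I \ A)) K)).card - Bad.card := by
    have hsub : Bad ⊆ sec F2 (ins (I \ A)) K := by
      rw [hBad]; exact filter_subset _ _
    rw [hGood, card_sdiff_of_subset hsub, Nat.cast_sub (card_le_card hsub)]
  have hcFA : (F2.card : ℝ) ≤ c * ((sec F2 (ins (I \ A)) K)).card := by
    rw [hc]
    exact_mod_cast hAmax
  have hF2pos : 0 < (F2.card : ℝ) := by
    have := card_pos.2 hF2
    exact_mod_cast this
  by_cases hbad : (F2.card : ℝ) / 2 < c * Bad.card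
  · right; right
    have h1 : c * Bad.card ≤ c * (c * (m2 * (2 ^ phi r k / 2 ^ (r - 1 - k)))) := by
      apply mul_le_mul_of_nonneg_left _ hc0
      refine hBadle.trans ?_
      rw [← hc]
      apply mul_le_mul_of_nonneg_left _ hc0
      exact mul_le_mul_of_nonneg_right hM2 (by positivity)
    have h2 : c * c ≤ 2 ^ (2 * l * k) := by
      have : (2 : ℝ) ^ (2 * l * k) = 2 ^ (l * k) * 2 ^ (l * k) := by
        rw [← pow_add]; congr 1; ring
      rw [this]
      exact mul_le_mul hcle hcle hc0 (by positivity)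
    have h3 : c * (c * (m2 * (2 ^ phi r k / 2 ^ (r - 1 - k)))) ≤
        2 ^ (2 * l * k) * (m2 * (2 ^ phi r k / 2 ^ (r - 1 - k))) := by
      rw [← mul_assoc]
      exact mul_le_mul_of_nonneg_right h2 (by positivity)
    have h4 : (2 : ℝ) ^ (2 * l * k + 1) * m2 * 2 ^ phi r k / 2 ^ (r - 1 - k) =
        2 * (2 ^ (2 * l * k) * (m2 * (2 ^ phi r k / 2 ^ (r - 1 - k)))) := by
      rw [pow_succ]; ring
    rw [h4]
    linarith
  push Not at hbad
  have hGoodbig : (F2.card : ℝ) / 2 ≤ c * Good.card := by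
    rw [hGoodcard, mul_sub]
    linarith
  have hGoodne : Good.Nonempty := by
    rw [← card_pos]
    by_contra h0
    have h1 : Good.card = 0 := by omega
    rw [h1] at hGoodbig
    simp only [Nat.cast_zero, mul_zero] at hGoodbig
    linarith
  obtain ⟨G1, hG1⟩ := hGoodne
  by_cases hcase : ∃ B ∈ powersetCard k (univ \ I),
      β < ((sec F1 (ins I) K).filter (fun f => f ∈ cyl (ins ((I \ A) ∪ B)) G1)).card
  · left
    obtain ⟨B, hB, hBβ⟩ := hcase
    have h1 := hClaim7 G1 hG1 B hB hBβ
    have h2 : Good ⊆ sec F2 (ins ((I \ A) ∪ B)) G1 := by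
      intro G2 hG2
      exact mem_sec.2 ⟨hGoodF G2 hG2, h1 G2 hG2⟩
    have h3 : (Good.card : ℝ) ≤ m2 := by
      refine le_trans ?_ (hM _ G1 (hJB B hB))
      exact_mod_cast card_le_card h2
    have h4 : c * Good.card ≤ 2 ^ (l * k) * m2 :=
      mul_le_mul hcle h3 (by positivity) (by positivity)
    have h5 : (2 : ℝ) ^ (l * k + 1) * m2 = 2 * (2 ^ (l * k) * m2) := by
      rw [pow_succ]; ring
    rw [h5]
    linarith
  · right; left
    push Not at hcase
    have hsub : sec F1 (ins I) K ⊆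
        ((powersetCard k (univ \ I)).biUnion (fun B =>
          (sec F1 (ins I) K).filter (fun f => f ∈ cyl (ins ((I \ A) ∪ B)) G1))) ∪
        (sec F1 (ins I) K).filter (fun f => ∃ J : Finset V, J.card = r ∧
          k + 1 ≤ (I \ J).card ∧ f ∈ cyl (ins J) G1) := by
      intro f hf
      rw [mem_union]
      rcases hdich G1 hG1 f hf with ⟨B, hB, hfB⟩ | h
      · left
        rw [mem_biUnion]
        exact ⟨B, hB, mem_filter.2 ⟨hf, hfB⟩⟩
      · right
        exact mem_filter.2 ⟨hf, h⟩
    have h1 : ((sec F1 (ins I) K).card : ℝ) ≤ ∑ B ∈ powersetCard k (univ \ I),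
          (((sec F1 (ins I) K).filter (fun f => f ∈ cyl (ins ((I \ A) ∪ B)) G1)).card : ℝ) +
        ((sec F1 (ins I) K).filter (fun f => ∃ J : Finset V, J.card = r ∧
          k + 1 ≤ (I \ J).card ∧ f ∈ cyl (ins J) G1)).card := by
      have := (card_le_card hsub).trans ((card_union_le _ _).trans
        (Nat.add_le_add_right card_biUnion_le _))
      exact_mod_cast this
    have h2 : (((sec F1 (ins I) K).filter (fun f => ∃ J : Finset V, J.card = r ∧
          k + 1 ≤ (I \ J).card ∧ f ∈ cyl (ins J) G1)).card : ℝ) ≤ z * δ := by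
      rw [hz, hδ]
      apply count_far I hI hn (by omega) hr5 K G1
      intro f hf
      rw [mem_filter] at hf
      exact ⟨mem_cyl.2 (mem_sec.1 hf.1).2, hf.2⟩
    have h3 : ∑ B ∈ powersetCard k (univ \ I),
          (((sec F1 (ins I) K).filter (fun f => f ∈ cyl (ins ((I \ A) ∪ B)) G1)).card : ℝ)
          ≤ d * β := by
      refine (sum_le_card_nsmul _ _ _ hcase).trans ?_
      rw [nsmul_eq_mul, hd]
    have h4 : ((sec F1 (ins I) K).card : ℝ) ≤ d * β + z * δ := by linarith
    refine h4.trans ?_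
    -- numerics
    obtain ⟨x, hx⟩ : ∃ x : ℝ, x = 2 ^ (l * k) := ⟨_, rfl⟩
    obtain ⟨w, hw⟩ : ∃ w : ℝ, w = 2 ^ (phi r k + (r - 1 - k)) := ⟨_, rfl⟩
    have hw0 : 0 < w := by rw [hw]; positivity
    have hx1 : 1 ≤ x := by rw [hx]; exact one_le_pow₀ (by norm_num)
    have hδ' : δ = 2 * (x ^ 2 * 2 ^ (2 * l)) / w := by
      rw [hδ, hphik, hx, hw]
      congr 2
      rw [← pow_mul, ← pow_mul, ← pow_add]
      congr 1
      ring
    have hq : z / (2 ^ phi r k * 2 ^ (r - 1)) ≤ z / w := by
      apply div_le_div_of_nonneg_left hzpos.le hw0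
      rw [hw, ← pow_add]
      exact pow_le_pow_right₀ (by norm_num) (by omega)
    have hy : (1 : ℝ) ≤ 2 ^ (2 * l) := one_le_pow₀ (by norm_num)
    have hfin : (2 : ℝ) ^ (3 * l * k + 2 * l + 3) = 8 * (x ^ 3 * 2 ^ (2 * l)) := by
      rw [hx, ← pow_mul, ← pow_add, show (8 : ℝ) = 2 ^ 3 by norm_num, ← pow_add]
      congr 1
      ring
    rw [hfin, ← hw]
    have hb1 : β ≤ z * (2 * (x ^ 2 * 2 ^ (2 * l)) / w) + x * (z / w) := by
      rw [hβ, hδ']
      have : d * (z / (2 ^ phi r k * 2 ^ (r - 1))) ≤ x * (z / w) :=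
        mul_le_mul (by rw [hx]; exact hdle) hq (by positivity) (by positivity)
      linarith
    have hb0 : 0 ≤ β := by rw [hβ]; positivity
    have hb2 : d * β ≤ x * (z * (2 * (x ^ 2 * 2 ^ (2 * l)) / w) + x * (z / w)) :=
      mul_le_mul (by rw [hx]; exact hdle) hb1 hb0 (by positivity)
    have hb3 : d * β + z * δ ≤ (z / w) * (x * (2 * (x ^ 2 * 2 ^ (2 * l))) + x ^ 2 +
        2 * (x ^ 2 * 2 ^ (2 * l))) := by
      rw [hδ']
      calc d * β + z * (2 * (x ^ 2 * 2 ^ (2 * l)) / w)
          ≤ x * (z * (2 * (x ^ 2 * 2 ^ (2 * l)) / w) + x * (z / w)) +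
            z * (2 * (x ^ 2 * 2 ^ (2 * l)) / w) := by linarith
        _ = _ := by ring
    refine hb3.trans ?_
    have hzw : 0 ≤ z / w := by positivity
    have : z * (8 * (x ^ 3 * 2 ^ (2 * l)) / w) = (z / w) * (8 * (x ^ 3 * 2 ^ (2 * l))) := by ring
    rw [this]
    apply mul_le_mul_of_nonneg_left _ hzw
    have hx2 : x ^ 2 ≤ x ^ 3 := pow_le_pow_right₀ hx1 (by norm_num)
    have hx20 : 0 ≤ x ^ 2 := by positivity
    have hx30 : 0 ≤ x ^ 3 := by positivity
    have t1 : x * (2 * (x ^ 2 * 2 ^ (2 * l))) = 2 * (x ^ 3 * 2 ^ (2 * l)) := by ring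
    have t2 : x ^ 2 ≤ x ^ 3 * 2 ^ (2 * l) :=
      hx2.trans (le_mul_of_one_le_right hx30 hy)
    have t3 : x ^ 2 * 2 ^ (2 * l) ≤ x ^ 3 * 2 ^ (2 * l) :=
      mul_le_mul_of_nonneg_right hx2 (by positivity)
    have t4 : 0 ≤ x ^ 3 * 2 ^ (2 * l) := by positivity
    linarith

end DIR_

open DIR_ in
theorem p_DIR : T_CARD → T_DIR := by
  intro _ V _ l r k F1 F2 I K M2 hl hr hn hXA _ hF2 hI hCov hkl hM
  have hcard : (Fintype.card (Gr V) : ℝ) = 2 ^ (Fintype.card (Ed V)) := by
    rw [Fintype.card_fun, ZMod.card]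
    push_cast
    rfl
  obtain ⟨z, hz⟩ : ∃ z : ℝ, z = 2 ^ (Fintype.card (Ed V)) / 2 ^ (r.choose 2) := ⟨_, rfl⟩
  have hz0 : 0 < z := by rw [hz]; positivity
  have hden : ∀ F : Finset (Gr V), den F / dl r = (F.card : ℝ) / z := by
    intro F
    unfold den dl
    rw [hcard, hz]
    field_simp
  have hsec : ∀ (F : Finset (Gr V)) (J : Finset V) (X : Gr V),
      F.filter (fun G => Ag J G X) = sec F (ins J) X := by
    intro F J X
    ext f
    rw [mem_filter, mem_sec, ag_iff]
  have hrel : ∀ (F : Finset (Gr V)) (J : Finset V) (X : Gr V),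
      rel r F J X = ((sec F (ins J) X).card : ℝ) / z := by
    intro F J X
    unfold rel
    rw [hden, hsec]
  have hM20 : 0 ≤ M2 := by
    have h := hM I K hI
    rw [hrel] at h
    exact le_trans (by positivity) h
  rcases Nat.eq_zero_or_pos k with hk | hk
  · left
    subst hk
    have h1 : sec F2 (ins I) K = F2 := by
      ext f
      rw [mem_sec]
      constructor
      · exact fun h => h.1
      · intro hf
        refine ⟨hf, ?_⟩
        obtain ⟨T, _, hT, hAg⟩ := hCov.1 f hf
        rw [card_eq_zero.1 hT, sdiff_empty] at hAg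
        exact ag_iff.1 hAg
    have h2 := hM I K hI
    rw [hrel, h1] at h2
    rw [hden, mul_zero, zero_add, pow_one]
    linarith
  · have hcore := core (F1 := F1) (F2 := F2) (I := I) (K := K) (m2 := M2 * z) (z := z) hl hr hn
      (fun f hf G hG => by
        obtain ⟨S, hS, hAg⟩ := hXA f hf G hG
        exact ⟨S, hS, ag_iff.1 hAg⟩) hF2 hI hk hkl
      (fun G hG => by
        obtain ⟨T, hT, hTk, hAg⟩ := hCov.1 G hG
        exact ⟨T, hT, hTk, ag_iff.1 hAg⟩) hz
      (fun J X hJ => by
        have h := hM J X hJ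
        rw [hrel, div_le_iff₀ hz0] at h
        exact h)
    rw [hden, hrel]
    rcases hcore with h | h | h
    · left
      rw [div_le_iff₀ hz0]
      calc (F2.card : ℝ) ≤ _ := h
        _ = _ := by ring
    · right; left
      rw [div_le_iff₀ hz0]
      calc ((sec F1 (ins I) K).card : ℝ) ≤ _ := h
        _ = _ := by ring
    · right; right
      rw [div_le_iff₀ hz0]
      calc (F2.card : ℝ) ≤ _ := h
        _ = _ := by ring

end

end Pool.Agent.EFX
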