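import Mathlib
import Pool.Agent.EFX.Targets

set_option autoImplicit false

/-!
# Two families which are dense in the same cylinder
-/

namespace Pool.Agent.EFX

open Finset

open scoped Classical

noncomputable section

namespace DL_

theorem dl_pos (r : ℕ) : 0 < dl r := by unfold dl; positivity

theorem den_nonneg {β : Type} [Fintype β] (A : Finset β) : 0 ≤ den A := by
  unfold den; positivity

theorem den_mono {β : Type} [Fintype β] {A B : Finset β} (h : A ⊆ B) : den A ≤ den B := by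
  unfold den
  gcongr

theorem den_le_one {β : Type} [Fintype β] [Nonempty β] (A : Finset β) : den A ≤ 1 := by
  unfold den
  have hc : (0 : ℝ) < Fintype.card β := by exact_mod_cast Fintype.card_pos
  rw [div_le_one hc]
  exact_mod_cast Finset.card_le_univ A

theorem den_split {β : Type} [Fintype β] (A : Finset β) (p : β → Prop) :
    den A = den (A.filter p) + den (A.filter (fun b => ¬ p b)) := by
  unfold den
  rw [← add_div]
  congr 1
  exact_mod_cast (Finset.card_filter_add_card_filter_not (s := A) p).symm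

variable {V : Type}

theorem XA_symm {r : ℕ} {F1 F2 : Finset (Gr V)} (h : XA r F1 F2) : XA r F2 F1 := by
  intro G hG H hH
  obtain ⟨S, hS, hA⟩ := h H hH G hG
  exact ⟨S, hS, fun x hx y hy => (hA x hx y hy).symm⟩

theorem Ag_of_eq [Fintype V] (R : Finset V) (G K : Gr V)
    (h : ∀ e : Ed V, e ∈ ins R → G e = K e) : Ag R G K := by
  intro x hx y hy
  unfold val
  by_cases hxy : x = y
  · simp [hxy]
  · rw [dif_pos hxy, dif_pos hxy]
    apply h
    simp only [ins, mem_filter, mem_univ, true_and]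
    intro z hz
    simp only [mem_insert, mem_singleton] at hz
    rcases hz with rfl | rfl
    · exact hx
    · exact hy

/-- the density outside the cylinder is tiny -/
theorem out_small (hS : T_SUMN) (hL : T_LL) [Fintype V] (l r : ℕ) (F1 F2 : Finset (Gr V))
    (R : Finset V) (K : Gr V) (hN : Num l r) (hV : 2 ^ l ≤ Fintype.card V) (hR : R.card = r)
    (hX : XA r F1 F2) (hf : 1 / 10 ≤ rel r F2 R K) :
    den (F1.filter (fun G => ¬ Ag R G K)) ≤ 1 / 2 ^ r * dl r := by
  by_contra hcon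
  push Not at hcon
  obtain ⟨h4, h40, h2r, hnum⟩ := hN
  set A := F1.filter (fun G => ¬ Ag R G K) with hA
  have hdl := dl_pos r
  have hApos : 0 < den A := lt_trans (by positivity) hcon
  have hAne : A.Nonempty := by
    rw [Finset.nonempty_iff_ne_empty]
    intro h
    rw [h] at hApos
    simp [den] at hApos
  have hXA : XA r A F2 := by
    intro G hG H hH
    exact hX G (Finset.mem_filter.mp hG).1 H hH
  have hll := hL V l r A F2 R K (by nlinarith) h2r hV hR hXA hAne
    (fun G hG => (Finset.mem_filter.mp hG).2)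
  have hsum := hS (2 ^ l) (Fintype.card V) (Nat.one_le_two_pow) hV
  have hld0 : 0 ≤ ld A := by
    unfold ld
    have := Real.log_nonpos hApos.le (den_le_one A)
    linarith
  have hld1 : ld A ≤ (r : ℝ) ^ 2 := by
    unfold ld
    have h1 : Real.log (1 / 2 ^ r * dl r) ≤ Real.log (den A) :=
      Real.log_le_log (by positivity) hcon.le
    have h2 : Real.log (1 / 2 ^ r * dl r) = - (((r + r.choose 2 : ℕ) : ℝ) * Real.log 2) := by
      unfold dl
      rw [show (1 / 2 ^ r * (1 / 2 ^ (r.choose 2)) : ℝ) = (2 ^ (r + r.choose 2))⁻¹ by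
        rw [pow_add]; field_simp]
      rw [Real.log_inv, Real.log_pow]
    have h3 : ((r + r.choose 2 : ℕ) : ℝ) ≤ (r : ℝ) ^ 2 := by
      have : r + r.choose 2 ≤ r ^ 2 := by
        have h5 := Nat.choose_two_right r
        have h6 : r.choose 2 * 2 ≤ r * (r - 1) := by
          rw [h5]; exact Nat.div_mul_le_self _ _
        rcases Nat.eq_zero_or_pos r with h0 | h0
        · subst h0; simp
        · obtain ⟨k, rfl⟩ : ∃ k, r = k + 1 := ⟨r - 1, by omega⟩
          simp only [Nat.add_sub_cancel] at h6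
          nlinarith
      exact_mod_cast this
    have h4' : Real.log 2 ≤ 1 := by
      have := Real.log_two_lt_d9
      linarith
    have h5 : ((r + r.choose 2 : ℕ) : ℝ) * Real.log 2 ≤ (r : ℝ) ^ 2 := by
      have h7 : 0 ≤ Real.log 2 := Real.log_nonneg (by norm_num)
      calc ((r + r.choose 2 : ℕ) : ℝ) * Real.log 2 ≤ (r : ℝ) ^ 2 * 1 := by gcongr
        _ = (r : ℝ) ^ 2 := mul_one _
    linarith
  set Q : ℝ := ((2 : ℝ) ^ l) ^ (-(1 / 3) : ℝ) with hQ
  have hQ0 : 0 ≤ Q := by positivity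
  have hsum' : ∑ j ∈ Ioc (2 ^ l) (Fintype.card V), (j : ℝ) ^ (-(4 / 3) : ℝ) ≤ 3 * Q := by
    have h5 : (((2 ^ l : ℕ) : ℝ)) = (2 : ℝ) ^ l := by push_cast; rfl
    rw [h5] at hsum
    exact hsum
  have hsum0 : 0 ≤ ∑ j ∈ Ioc (2 ^ l) (Fintype.card V), (j : ℝ) ^ (-(4 / 3) : ℝ) :=
    Finset.sum_nonneg (fun j _ => by positivity)
  have hsq : (ld A + (r : ℝ) ^ 2 + 1) ^ 2 ≤ 4 * ((r : ℝ) ^ 2 + 1) ^ 2 := by
    have : ld A + (r : ℝ) ^ 2 + 1 ≤ 2 * ((r : ℝ) ^ 2 + 1) := by linarith
    have h0 : 0 ≤ ld A + (r : ℝ) ^ 2 + 1 := by positivity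
    nlinarith
  have hsec : 8000000 * (ld A + (r : ℝ) ^ 2 + 1) ^ 2 *
      ∑ j ∈ Ioc (2 ^ l) (Fintype.card V), (j : ℝ) ^ (-(4 / 3) : ℝ) ≤ 1 / 100 := by
    calc 8000000 * (ld A + (r : ℝ) ^ 2 + 1) ^ 2 *
        ∑ j ∈ Ioc (2 ^ l) (Fintype.card V), (j : ℝ) ^ (-(4 / 3) : ℝ)
        ≤ 8000000 * (4 * ((r : ℝ) ^ 2 + 1) ^ 2) * (3 * Q) := by gcongr
      _ = 96000000 * (((r : ℝ) ^ 2 + 1) ^ 2 * Q) := by ring
      _ ≤ 96000000 * (1 / 10 ^ 14) := by
          have : ((r : ℝ) ^ 2 + 1) ^ 2 * Q ≤ 1 / 10 ^ 14 := by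
            rw [le_div_iff₀ (by positivity)]
            nlinarith [hnum]
          gcongr
      _ ≤ 1 / 100 := by norm_num
  have hfst : 4 * (2 : ℝ) ^ (2 * l) / 2 ^ r ≤ 1 / 100 := by
    have h5 : 2 * l + 9 ≤ r := by nlinarith
    have h6 : (2 : ℝ) ^ (2 * l + 9) ≤ 2 ^ r := pow_le_pow_right₀ (by norm_num) h5
    rw [div_le_iff₀ (by positivity)]
    rw [pow_add] at h6
    have h7 : (0 : ℝ) < 2 ^ (2 * l) := by positivity
    nlinarith
  linarith

/-- the bound for the other classes together -/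
theorem lone_sum (hC : T_CARD) (hLo : T_LONE) [Fintype V] (r : ℕ) (F1 F2 : Finset (Gr V))
    (R : Finset V) (K : Gr V) (hr : 3 ≤ r) (hR : R.card = r) (hX : XA r F1 F2) :
    den (F1.filter (fun G => ¬ Ag R G K)) ≤
      2 ^ (r.choose 2) * (1 - rel r F2 R K) ^ (r - 1) * dl r := by
  set A := F1.filter (fun G => ¬ Ag R G K) with hA
  obtain ⟨_, hins, _, _, hrel⟩ := hC V
  have hz : 0 ≤ 1 - rel r F2 R K := by
    have := (hrel r F2 R K hR).2
    linarith
  have hdl := dl_pos r
  set z := 1 - rel r F2 R K with hzdef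
  have hfib : ∀ t : ({e // e ∈ ins R} → ZMod 2),
      den (A.filter (fun G => (fun e : {e // e ∈ ins R} => G e.1) = t)) ≤ z ^ (r - 1) * dl r := by
    intro t
    rcases (A.filter (fun G => (fun e : {e // e ∈ ins R} => G e.1) = t)).eq_empty_or_nonempty
      with h | h
    · rw [h]
      have : den (∅ : Finset (Gr V)) = 0 := by simp [den]
      rw [this]
      positivity
    · obtain ⟨K1, hK1⟩ := h
      rw [Finset.mem_filter] at hK1
      obtain ⟨hK1A, hK1t⟩ := hK1
      have hnot : ¬ Ag R K1 K := (Finset.mem_filter.mp hK1A).2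
      have hl := hLo V r F1 F2 R K K1 hr hR hX hnot
      have hsub : A.filter (fun G => (fun e : {e // e ∈ ins R} => G e.1) = t) ⊆
          F1.filter (fun G => Ag R G K1) := by
        intro G hG
        rw [Finset.mem_filter] at hG
        rw [Finset.mem_filter]
        refine ⟨(Finset.mem_filter.mp hG.1).1, ?_⟩
        apply Ag_of_eq
        intro e he
        have h1 := congrFun hG.2 ⟨e, he⟩
        have h2 := congrFun hK1t ⟨e, he⟩
        simp only at h1 h2
        rw [h1, h2]
      calc den (A.filter (fun G => (fun e : {e // e ∈ ins R} => G e.1) = t))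
          ≤ den (F1.filter (fun G => Ag R G K1)) := den_mono hsub
        _ = rel r F1 R K1 * dl r := by
            unfold rel
            rw [div_mul_cancel₀ _ hdl.ne']
        _ ≤ z ^ (r - 1) * dl r := by gcongr
  have hsumden : den A = ∑ t : ({e // e ∈ ins R} → ZMod 2),
      den (A.filter (fun G => (fun e : {e // e ∈ ins R} => G e.1) = t)) := by
    unfold den
    rw [← Finset.sum_div]
    congr 1
    have := Finset.card_eq_sum_card_fiberwise (s := A) (t := (Finset.univ :
      Finset ({e // e ∈ ins R} → ZMod 2))) (f := fun G => (fun e : {e // e ∈ ins R} => G e.1))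
      (fun _ _ => Finset.mem_coe.mpr (Finset.mem_univ _))
    exact_mod_cast this
  rw [hsumden]
  calc ∑ t : ({e // e ∈ ins R} → ZMod 2),
      den (A.filter (fun G => (fun e : {e // e ∈ ins R} => G e.1) = t))
      ≤ ∑ _t : ({e // e ∈ ins R} → ZMod 2), z ^ (r - 1) * dl r :=
        Finset.sum_le_sum (fun t _ => hfib t)
    _ = 2 ^ (r.choose 2) * z ^ (r - 1) * dl r := by
        rw [Finset.sum_const, nsmul_eq_mul, Finset.card_univ, Fintype.card_fun, ZMod.card,
          Fintype.card_coe, hins R, hR]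
        push_cast
        ring

theorem claim (hC : T_CARD) (hS : T_SUMN) (hLo : T_LONE) (hL : T_LL) [Fintype V] (l r : ℕ)
    (F1 F2 : Finset (Gr V)) (R : Finset V) (K : Gr V) (hN : Num l r)
    (hV : 2 ^ l ≤ Fintype.card V) (hR : R.card = r) (hX : XA r F1 F2)
    (hf : 1 / 10 ≤ rel r F2 R K) :
    den (F1.filter (fun G => ¬ Ag R G K)) ≤ (1 - rel r F2 R K) * dl r := by
  have hdl := dl_pos r
  have h1 := out_small hS hL l r F1 F2 R K hN hV hR hX hf
  obtain ⟨h4, h40, h2r, hnum⟩ := hN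
  have hr : 3 ≤ r := by nlinarith
  have h2 := lone_sum hC hLo r F1 F2 R K hr hR hX
  have hz : 0 ≤ 1 - rel r F2 R K := by
    have := ((hC V).2.2.2.2 r F2 R K hR).2
    linarith
  set z := 1 - rel r F2 R K with hzdef
  by_cases hcase : 1 / 2 ^ r ≤ z
  · calc den (F1.filter (fun G => ¬ Ag R G K)) ≤ 1 / 2 ^ r * dl r := h1
      _ ≤ z * dl r := by gcongr
  · push Not at hcase
    refine h2.trans ?_
    have h3 : (2 : ℝ) ^ (r.choose 2) * z ^ (r - 1) ≤ z := by
      have e1 : z ^ (r - 1) = z * z ^ (r - 2) := by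
        rw [← pow_succ']
        congr 1
        omega
      have e2 : z ^ (r - 2) ≤ (1 / 2 ^ r) ^ (r - 2) := by gcongr
      have e3 : ((1 : ℝ) / 2 ^ r) ^ (r - 2) = 1 / 2 ^ (r * (r - 2)) := by
        rw [div_pow, one_pow, ← pow_mul]
      have e4 : (2 : ℝ) ^ (r.choose 2) ≤ 2 ^ (r * (r - 2)) := by
        apply pow_le_pow_right₀ (by norm_num)
        rw [Nat.choose_two_right]
        obtain ⟨k, rfl⟩ : ∃ k, r = k + 3 := ⟨r - 3, by omega⟩
        have : k + 3 - 1 = k + 2 := by omega
        rw [this, show k + 3 - 2 = k + 1 by omega]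
        apply Nat.div_le_of_le_mul
        nlinarith
      have e5 : (2 : ℝ) ^ (r.choose 2) * z ^ (r - 2) ≤ 1 := by
        calc (2 : ℝ) ^ (r.choose 2) * z ^ (r - 2)
            ≤ 2 ^ (r * (r - 2)) * (1 / 2 ^ (r * (r - 2))) := by
              rw [← e3]
              gcongr
          _ = 1 := by field_simp
      calc (2 : ℝ) ^ (r.choose 2) * z ^ (r - 1) = z * ((2 : ℝ) ^ (r.choose 2) * z ^ (r - 2)) := by
            rw [e1]; ring
        _ ≤ z * 1 := by gcongr
        _ = z := mul_one z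
    gcongr

end DL_

theorem p_DL : T_CARD → T_SUMN → T_LONE → T_LL → T_DL := by
  intro hC hS hLo hL V _ l r F1 F2 R K hN hV hR hX hf1 hf2
  have hdl := DL_.dl_pos r
  have o1 := DL_.out_small hS hL l r F1 F2 R K hN hV hR hX hf2
  have o2 := DL_.out_small hS hL l r F2 F1 R K hN hV hR (DL_.XA_symm hX) hf1
  have c1 := DL_.claim hC hS hLo hL l r F1 F2 R K hN hV hR hX hf2
  have c2 := DL_.claim hC hS hLo hL l r F2 F1 R K hN hV hR (DL_.XA_symm hX) hf1
  have i1 : den (F1.filter (fun G => Ag R G K)) = rel r F1 R K * dl r := by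
    unfold rel
    rw [div_mul_cancel₀ _ hdl.ne']
  have i2 : den (F2.filter (fun G => Ag R G K)) = rel r F2 R K * dl r := by
    unfold rel
    rw [div_mul_cancel₀ _ hdl.ne']
  have s1 := DL_.den_split F1 (fun G => Ag R G K)
  have s2 := DL_.den_split F2 (fun G => Ag R G K)
  refine ⟨?_, ?_, ?_⟩
  · have a1 : den F1 ≤ (1 + (rel r F1 R K - rel r F2 R K)) * dl r := by
      rw [s1, i1]
      linarith
    have a2 : den F2 ≤ (1 - (rel r F1 R K - rel r F2 R K)) * dl r := by
      rw [s2, i2]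
      linarith
    have n2 := DL_.den_nonneg F2
    have n1 := DL_.den_nonneg F1
    set w := rel r F1 R K - rel r F2 R K with hw
    calc den F1 * den F2 ≤ ((1 + w) * dl r) * ((1 - w) * dl r) := by
          apply mul_le_mul a1 a2 n2 (n1.trans a1)
      _ = (1 - w ^ 2) * dl r ^ 2 := by ring
      _ ≤ 1 * dl r ^ 2 := by
          have : 1 - w ^ 2 ≤ 1 := by nlinarith [sq_nonneg w]
          gcongr
      _ = dl r ^ 2 := one_mul _
  · rw [s1, i1]
    linarith
  · rw [s2, i2]
    linarith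

end

end Pool.Agent.EFX
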