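import Pool.Agent.EFX.Targets

set_option autoImplicit false

/-!
# EQUIV: invariance under bijections
-/

namespace Pool.Agent.EFX

open Finset

open scoped Classical

theorem EQUIV_.pr_map {α S S' : Type} (A : Finset α) (X : α → S) (φ : S → S')
    (h : Function.Injective φ) (s : S) : pr A (fun w => φ (X w)) (φ s) = pr A X s := by
  unfold pr
  congr 3
  apply Finset.filter_congr
  intro w _
  exact ⟨fun e => h e, fun e => congrArg φ e⟩

theorem p_EQUIV : T_EQUIV := by
  intro α S S' _ _ A X φ hφ
  have hc : Fintype.card S' = Fintype.card S := (Fintype.card_of_bijective hφ).symm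
  have hq : ∀ s, qd A (fun w => φ (X w)) (φ s) = qd A X s := by
    intro s
    unfold qd
    rw [EQUIV_.pr_map A X φ hφ.injective s, hc]
  constructor
  · unfold hel
    rw [hc, ← hφ.sum_comp]
    simp only [hq]
  · unfold df
    rw [← hφ.sum_comp]
    apply Finset.sum_congr rfl
    intro s _
    rw [hq, EQUIV_.pr_map A X φ hφ.injective s]

end Pool.Agent.EFX
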