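import Pool.Agent.EFX.Targets

set_option autoImplicit false

/-!
# FAR: the base of the local lemma

The counting lemmas are those of `Pool/Agent/Results/MP_64e56f_co/LargeR.lean`, for a general vertex
set.
-/

namespace Pool.Agent.EFX

open Finset

open scoped Classical

namespace FAR_

variable {V : Type} [Fintype V]

lemma mem_ins {I : Finset V} {e : Ed V} : e ∈ ins I ↔ e.1 ⊆ I := by simp [ins]

lemma card_ins (I : Finset V) : (ins I).card = I.card.choose 2 := by
  rw [← card_powersetCard]
  apply card_bij (fun e _ => e.1)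
  · intro e he
    rw [mem_powersetCard]
    exact ⟨mem_ins.1 he, e.2⟩
  · intro a _ b _ h
    exact Subtype.ext h
  · intro s hs
    rw [mem_powersetCard] at hs
    exact ⟨⟨s, hs.2⟩, mem_ins.2 hs.1, rfl⟩

lemma ins_inter (I J : Finset V) : ins I ∩ ins J = ins (I ∩ J) := by
  ext e
  simp [mem_ins, subset_inter_iff]

lemma ins_mono {I J : Finset V} (h : I ⊆ J) : ins I ⊆ ins J := by
  intro e he
  rw [mem_ins] at he ⊢
  exact he.trans h

/-- functions agreeing with `x` on `T` -/
noncomputable def cyl (T : Finset (Ed V)) (x : Ed V → ZMod 2) : Finset (Ed V → ZMod 2) :=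
  univ.filter (fun f => ∀ e ∈ T, f e = x e)

lemma mem_cyl {T : Finset (Ed V)} {x f : Ed V → ZMod 2} : f ∈ cyl T x ↔ ∀ e ∈ T, f e = x e := by
  simp [cyl]

lemma card_cyl (T : Finset (Ed V)) (x : Ed V → ZMod 2) :
    (cyl T x).card = 2 ^ (Fintype.card (Ed V) - T.card) := by
  have h : cyl T x = Fintype.piFinset (fun e => if e ∈ T then ({x e} : Finset (ZMod 2)) else univ) := by
    ext f
    rw [mem_cyl, Fintype.mem_piFinset]
    constructor
    · intro hf e
      by_cases he : e ∈ T
      · simp [he, hf e he]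
      · simp [he]
    · intro hf e he
      have := hf e
      simpa [he] using this
  rw [h, Fintype.card_piFinset]
  have h2 : ∀ e : Ed V, (if e ∈ T then ({x e} : Finset (ZMod 2)) else univ).card
      = if e ∈ T then 1 else 2 := by
    intro e
    split_ifs <;> simp
  simp only [h2]
  rw [prod_ite]
  simp only [prod_const_one, one_mul, prod_const]
  congr 1
  rw [filter_not, card_sdiff_of_subset (filter_subset _ _), card_univ]
  simp

/-- real version of the cardinality of a cylinder -/
lemma card_cyl_real (T : Finset (Ed V)) (x : Ed V → ZMod 2) :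
    ((cyl T x).card : ℝ) = 2 ^ (Fintype.card (Ed V)) / 2 ^ T.card := by
  rw [card_cyl]
  have hT : T.card ≤ Fintype.card (Ed V) := card_le_univ T
  push_cast
  rw [eq_div_iff (by positivity), ← pow_add]
  congr 1
  omega

lemma card_inter_cyl_le (T U : Finset (Ed V)) (x y : Ed V → ZMod 2) :
    ((cyl T x ∩ cyl U y).card : ℝ) ≤ 2 ^ (Fintype.card (Ed V)) / 2 ^ (T ∪ U).card := by
  rcases (cyl T x ∩ cyl U y).eq_empty_or_nonempty with h | ⟨f, hf⟩
  · rw [h]; simp; positivity
  · rw [mem_inter, mem_cyl, mem_cyl] at hf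
    rw [← card_cyl_real (T ∪ U) f]
    norm_cast
    apply card_le_card
    intro g hg
    rw [mem_inter, mem_cyl, mem_cyl] at hg
    rw [mem_cyl]
    intro e he
    rcases mem_union.1 he with he | he
    · rw [hg.1 e he, hf.1 e he]
    · rw [hg.2 e he, hf.2 e he]

lemma card_inter3_cyl_le (T U W : Finset (Ed V)) (x y w : Ed V → ZMod 2) :
    (((cyl T x ∩ cyl U y) ∩ cyl W w).card : ℝ)
      ≤ 2 ^ (Fintype.card (Ed V)) / 2 ^ (T ∪ U ∪ W).card := by
  rcases ((cyl T x ∩ cyl U y) ∩ cyl W w).eq_empty_or_nonempty with h | ⟨f, hf⟩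
  · rw [h]; simp; positivity
  · rw [mem_inter, mem_inter, mem_cyl, mem_cyl, mem_cyl] at hf
    rw [← card_cyl_real (T ∪ U ∪ W) f]
    norm_cast
    apply card_le_card
    intro g hg
    rw [mem_inter, mem_inter, mem_cyl, mem_cyl, mem_cyl] at hg
    rw [mem_cyl]
    intro e he
    rcases mem_union.1 he with he | he
    · rcases mem_union.1 he with he | he
      · rw [hg.1.1 e he, hf.1.1 e he]
      · rw [hg.1.2 e he, hf.1.2 e he]
    · rw [hg.2 e he, hf.2 e he]

lemma phi_add (r i : ℕ) : phi r i + (r - i).choose 2 = r.choose 2 := by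
  unfold phi
  have := Nat.choose_le_choose 2 (Nat.sub_le r i)
  omega

lemma two_choose (a : ℕ) : 2 * a.choose 2 + a = a * a := by
  induction a with
  | zero => simp
  | succ a ih =>
    rw [Nat.choose_succ_succ' a 1]
    simp only [Nat.choose_one_right]
    nlinarith

lemma phi_succ {r k : ℕ} (h : k + 1 ≤ r) : phi r (k + 1) = phi r k + (r - 1 - k) := by
  have h1 := phi_add r k
  have h2 := phi_add r (k + 1)
  have h3 : (r - k).choose 2 = (r - (k + 1)).choose 2 + (r - 1 - k) := by
    have : r - k = (r - (k + 1)) + 1 := by omega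
    rw [this]
    have h4 : (r - (k + 1) + 1).choose 2 = (r - (k + 1)).choose 1 + (r - (k + 1)).choose 2 :=
      Nat.choose_succ_succ' _ 1
    rw [h4, Nat.choose_one_right]
    omega
  omega

/-- closed form -/
lemma two_phi {r i : ℕ} (h : i ≤ r) : 2 * phi r i + i * i + i = 2 * r * i := by
  have h1 := phi_add r i
  have h2 := two_choose r
  have h3 := two_choose (r - i)
  obtain ⟨d, rfl⟩ := Nat.exists_eq_add_of_le h
  have : i + d - i = d := by omega
  rw [this] at h1 h3
  nlinarith

lemma phi_step {r i j m : ℕ} (hj : j ≤ m + 1) (hij : j ≤ i) (hi : i ≤ r) (hr : 5 * m + 4 ≤ r) :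
    phi r j + (2 * m + 1) * (i - j) ≤ phi r i := by
  have h1 := two_phi hi
  have h2 := two_phi (hij.trans hi)
  obtain ⟨d, rfl⟩ := Nat.exists_eq_add_of_le hij
  have : j + d - j = d := by omega
  rw [this]
  have h3 : d * (j + d + j + 1 + 2 * (2 * m + 1)) ≤ d * (2 * r) := by
    apply Nat.mul_le_mul_left
    omega
  nlinarith

/-- number of `J` with a given difference is at most `(2^(2m))^i` -/
lemma card_J_le {r m : ℕ} (I : Finset V) (hI : I.card = r) (hn : Fintype.card V ≤ 2 ^ m) (i : ℕ) :
    (((powersetCard r (univ : Finset V)).filter (fun J => (I \ J).card = i)).card)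
      ≤ (2 ^ (2 * m)) ^ i := by
  have h1 : (((powersetCard r (univ : Finset V)).filter (fun J => (I \ J).card = i)).card)
      ≤ ((powersetCard i (univ : Finset V)) ×ˢ (powersetCard i (univ : Finset V))).card := by
    apply card_le_card_of_injOn (fun J => (I \ J, J \ I))
    · intro J hJ
      have hJ' := mem_filter.1 (mem_coe.1 hJ)
      have hJr := (mem_powersetCard.1 hJ'.1).2
      have h3 : (J \ I).card = i := by
        have e1 := card_sdiff_add_card_inter I J
        have e2 := card_sdiff_add_card_inter J I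
        rw [inter_comm] at e2
        omega
      simp only [coe_product, Set.mem_prod, mem_coe, mem_powersetCard]
      exact ⟨⟨subset_univ _, hJ'.2⟩, ⟨subset_univ _, h3⟩⟩
    · intro J hJ K hK h
      simp only [Prod.mk.injEq] at h
      obtain ⟨ha, hb⟩ := h
      ext v
      by_cases hv : v ∈ I
      · have h1 : v ∈ I \ J ↔ v ∈ I \ K := by rw [ha]
        simp only [mem_sdiff, hv, true_and] at h1
        exact not_iff_not.1 h1
      · have h1 : v ∈ J \ I ↔ v ∈ K \ I := by rw [hb]
        simpa [mem_sdiff, hv] using h1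
  refine h1.trans ?_
  rw [card_product, card_powersetCard, card_univ]
  have h2 : (Fintype.card V).choose i ≤ (2 ^ m) ^ i :=
    (Nat.choose_le_pow (Fintype.card V) i).trans (Nat.pow_le_pow_left hn i)
  calc (Fintype.card V).choose i * (Fintype.card V).choose i ≤ (2 ^ m) ^ i * (2 ^ m) ^ i := Nat.mul_le_mul h2 h2
    _ = (2 ^ (2 * m)) ^ i := by rw [← mul_pow, ← pow_add]; congr 2; ring

lemma card_union_ins {r : ℕ} {I J : Finset V} (hI : I.card = r) (hJ : J.card = r) :
    (ins I ∪ ins J).card = r.choose 2 + phi r (I \ J).card := by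
  have h1 := card_union_add_card_inter (ins I) (ins J)
  rw [ins_inter, card_ins, card_ins, card_ins, hI, hJ] at h1
  have h2 := card_sdiff_add_card_inter I J
  have h3 := phi_add r (I \ J).card
  have h4 : r - (I \ J).card = (I ∩ J).card := by omega
  rw [h4] at h3
  omega

/-- tail sum -/
lemma tail_sum {r m j : ℕ} (I : Finset V) (hI : I.card = r) (hn : Fintype.card V ≤ 2 ^ m)
    (hj : j ≤ m + 1) (hr : 5 * m + 4 ≤ r) :
    ∑ J ∈ (powersetCard r (univ : Finset V)).filter (fun J => j ≤ (I \ J).card),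
      (1 : ℝ) / 2 ^ phi r (I \ J).card ≤ 2 * (2 ^ (2 * m)) ^ j / 2 ^ phi r j := by
  have h1 : ∑ J ∈ (powersetCard r (univ : Finset V)).filter (fun J => j ≤ (I \ J).card),
      (1 : ℝ) / 2 ^ phi r (I \ J).card
      = ∑ i ∈ Finset.Ico j (r + 1), ∑ J ∈ ((powersetCard r (univ : Finset V)).filter
          (fun J => j ≤ (I \ J).card)).filter (fun J => (I \ J).card = i),
          (1 : ℝ) / 2 ^ phi r (I \ J).card := by
    rw [sum_fiberwise_of_maps_to]
    intro J hJ
    rw [mem_filter] at hJ
    rw [Finset.mem_Ico]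
    refine ⟨hJ.2, ?_⟩
    have : (I \ J).card ≤ I.card := card_le_card sdiff_subset
    omega
  rw [h1]
  have h2 : ∀ i ∈ Finset.Ico j (r + 1), ∑ J ∈ ((powersetCard r (univ : Finset V)).filter
          (fun J => j ≤ (I \ J).card)).filter (fun J => (I \ J).card = i),
          (1 : ℝ) / 2 ^ phi r (I \ J).card ≤
          (2 ^ (2 * m)) ^ j / 2 ^ phi r j * (1 / 2) ^ (i - j) := by
    intro i hi
    rw [Finset.mem_Ico] at hi
    have e1 : ∑ J ∈ ((powersetCard r (univ : Finset V)).filter
          (fun J => j ≤ (I \ J).card)).filter (fun J => (I \ J).card = i),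
          (1 : ℝ) / 2 ^ phi r (I \ J).card = ∑ J ∈ ((powersetCard r (univ : Finset V)).filter
          (fun J => j ≤ (I \ J).card)).filter (fun J => (I \ J).card = i),
          (1 : ℝ) / 2 ^ phi r i := by
      apply sum_congr rfl
      intro J hJ
      rw [(mem_filter.1 hJ).2]
    rw [e1, sum_const, nsmul_eq_mul]
    have e2 : (((powersetCard r (univ : Finset V)).filter
          (fun J => j ≤ (I \ J).card)).filter (fun J => (I \ J).card = i)).card
          ≤ (2 ^ (2 * m)) ^ i := by
      refine le_trans (card_le_card ?_) (card_J_le I hI hn i)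
      intro J hJ
      rw [mem_filter, mem_filter] at hJ
      rw [mem_filter]
      exact ⟨hJ.1.1, hJ.2⟩
    have e3 : ((((powersetCard r (univ : Finset V)).filter
          (fun J => j ≤ (I \ J).card)).filter (fun J => (I \ J).card = i)).card : ℝ)
          ≤ (2 ^ (2 * m)) ^ i := by exact_mod_cast e2
    have e4 := phi_step hj hi.1 (by omega : i ≤ r) hr
    calc ((((powersetCard r (univ : Finset V)).filter
          (fun J => j ≤ (I \ J).card)).filter (fun J => (I \ J).card = i)).card : ℝ)
            * (1 / 2 ^ phi r i)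
        ≤ (2 ^ (2 * m)) ^ i * (1 / 2 ^ (phi r j + (2 * m + 1) * (i - j))) := by
          apply mul_le_mul e3 _ (by positivity) (by positivity)
          apply one_div_le_one_div_of_le (by positivity)
          exact pow_le_pow_right₀ (by norm_num) e4
      _ = (2 ^ (2 * m)) ^ j / 2 ^ phi r j * (1 / 2) ^ (i - j) := by
          have e5 : i = j + (i - j) := by omega
          conv_lhs => rw [e5]
          have e6 : j + (i - j) - j = i - j := by omega
          rw [e6]
          rw [pow_add (2 ^ (2 * m) : ℝ), pow_add (2 : ℝ) (phi r j), pow_mul (2 : ℝ) (2 * m + 1),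
            pow_succ (2 : ℝ) (2 * m), mul_pow, one_div_pow]
          field_simp
  refine (sum_le_sum h2).trans ?_
  rw [← mul_sum, sum_Ico_eq_sum_range]
  have h3 : ∑ k ∈ range (r + 1 - j), ((1 : ℝ) / 2) ^ (j + k - j) ≤ 2 := by
    have : ∀ k ∈ range (r + 1 - j), ((1 : ℝ) / 2) ^ (j + k - j) = (1 / 2) ^ k := by
      intro k _
      congr 1
      omega
    rw [sum_congr rfl this]
    exact sum_geometric_two_le _
  calc (2 ^ (2 * m)) ^ j / 2 ^ phi r j * ∑ k ∈ range (r + 1 - j), ((1 : ℝ) / 2) ^ (j + k - j)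
      ≤ (2 ^ (2 * m)) ^ j / 2 ^ phi r j * 2 := by
        apply mul_le_mul_of_nonneg_left h3 (by positivity)
    _ = 2 * (2 ^ (2 * m)) ^ j / 2 ^ phi r j := by ring

/-- counting lemma: few functions in the cylinder of `G0` on `I` agree with `G` on an `r`-set
which misses at least `j` elements of `I` -/
lemma count_far {r m j : ℕ} (I : Finset V) (hI : I.card = r) (hn : Fintype.card V ≤ 2 ^ m)
    (hj : j ≤ m + 1) (hr : 5 * m + 4 ≤ r) (G0 G : Ed V → ZMod 2) (X : Finset (Ed V → ZMod 2))
    (hX : ∀ f ∈ X, f ∈ cyl (ins I) G0 ∧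
      ∃ J : Finset V, J.card = r ∧ j ≤ (I \ J).card ∧ f ∈ cyl (ins J) G) :
    (X.card : ℝ) ≤ 2 ^ (Fintype.card (Ed V)) / 2 ^ (r.choose 2)
      * (2 * (2 ^ (2 * m)) ^ j / 2 ^ phi r j) := by
  have h1 : X ⊆ ((powersetCard r (univ : Finset V)).filter
      (fun J => j ≤ (I \ J).card)).biUnion (fun J => cyl (ins I) G0 ∩ cyl (ins J) G) := by
    intro f hf
    obtain ⟨h2, J, hJ, hJ2, hJ3⟩ := hX f hf
    rw [mem_biUnion]
    exact ⟨J, mem_filter.2 ⟨mem_powersetCard.2 ⟨subset_univ _, hJ⟩, hJ2⟩, mem_inter.2 ⟨h2, hJ3⟩⟩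
  have h2 : (X.card : ℝ) ≤ ∑ J ∈ (powersetCard r (univ : Finset V)).filter
      (fun J => j ≤ (I \ J).card), ((cyl (ins I) G0 ∩ cyl (ins J) G).card : ℝ) := by
    exact_mod_cast (card_le_card h1).trans card_biUnion_le
  have h3 : ∑ J ∈ (powersetCard r (univ : Finset V)).filter
      (fun J => j ≤ (I \ J).card), ((cyl (ins I) G0 ∩ cyl (ins J) G).card : ℝ)
      ≤ ∑ J ∈ (powersetCard r (univ : Finset V)).filter (fun J => j ≤ (I \ J).card),
      2 ^ (Fintype.card (Ed V)) / 2 ^ (r.choose 2) * ((1 : ℝ) / 2 ^ phi r (I \ J).card) := by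
    apply sum_le_sum
    intro J hJ
    rw [mem_filter, mem_powersetCard] at hJ
    refine (card_inter_cyl_le _ _ _ _).trans (le_of_eq ?_)
    rw [card_union_ins hI hJ.1.2, pow_add]
    field_simp
  rw [← mul_sum] at h3
  refine h2.trans (h3.trans ?_)
  apply mul_le_mul_of_nonneg_left (tail_sum I hI hn hj hr) (by positivity)

/-- agreement on `S` gives membership in the cylinder on the pairs inside `S` -/
lemma ag_ins {S : Finset V} {G H : Gr V} (h : Ag S G H) : ∀ e ∈ ins S, G e = H e := by
  intro e he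
  rw [mem_ins] at he
  obtain ⟨x, y, hxy, hexy⟩ := card_eq_two.1 e.2
  have hx : x ∈ S := he (by rw [hexy]; simp)
  have hy : y ∈ S := he (by rw [hexy]; simp)
  have h1 := h x hx y hy
  have h2 : e = ⟨{x, y}, card_pair hxy⟩ := Subtype.ext hexy
  unfold val at h1
  rw [dif_pos hxy, dif_pos hxy, ← h2] at h1
  exact h1

end FAR_

open FAR_ in
theorem p_FAR0 : T_FAR := by
  intro V _ l r A B R K hn hr hR hX hA hAK
  obtain ⟨G, hG⟩ := hA
  have hGK := hAK G hG
  have h1 : ((B.filter (fun f => Ag R f K)).card : ℝ) ≤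
      2 ^ (Fintype.card (Ed V)) / 2 ^ (r.choose 2) * (2 * (2 ^ (2 * l)) ^ 1 / 2 ^ phi r 1) := by
    apply count_far (m := l) (j := 1) R hR hn (by omega) (by omega) K G
    intro f hf
    rw [mem_filter] at hf
    obtain ⟨S, hS, hSa⟩ := hX G hG f hf.1
    have hc1 : f ∈ cyl (ins R) K := mem_cyl.2 (ag_ins hf.2)
    have hc2 : f ∈ cyl (ins S) G := mem_cyl.2 fun e he => (ag_ins hSa e he).symm
    refine ⟨hc1, S, hS, ?_, hc2⟩
    by_contra hlt
    have h0 : (R \ S).card = 0 := by omega
    have hsub : R ⊆ S := by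
      rw [card_eq_zero, sdiff_eq_empty_iff_subset] at h0
      exact h0
    have hRS : R = S := eq_of_subset_of_card_le hsub (by omega)
    apply hGK
    intro x hx y hy
    rw [hf.2 x hx y hy |>.symm]
    rw [hRS] at hx hy
    exact hSa x hx y hy
  have hphi : phi r 1 = r - 1 := by
    have h2 := phi_succ (r := r) (k := 0) (by omega)
    have h3 : phi r 0 = 0 := by unfold phi; simp
    rw [h3] at h2
    simpa using h2
  have hcard : (Fintype.card (Gr V) : ℝ) = 2 ^ (Fintype.card (Ed V)) := by
    rw [Fintype.card_fun, ZMod.card]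
    push_cast
    rfl
  unfold rel den dl
  rw [hcard]
  have hr1 : (2 : ℝ) ^ r = 2 * 2 ^ (r - 1) := by
    rw [← pow_succ']
    congr 1
    omega
  rw [hphi] at h1
  have hP : (0 : ℝ) < 2 ^ (Fintype.card (Ed V)) := by positivity
  have hQ : (0 : ℝ) < 2 ^ (r.choose 2) := by positivity
  have hS : (0 : ℝ) < 2 ^ (r - 1) := by positivity
  rw [hr1, div_le_iff₀ (by positivity), div_le_iff₀ hP]
  refine h1.trans (le_of_eq ?_)
  field_simp
  ring

theorem p_FAR : T_CARD → T_FAR := fun _ => p_FAR0

end Pool.Agent.EFX
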