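import Pool.Agent.EFX.Targets

/-!
# Uniform fibres of a coset-cylinder
-/

namespace Pool.Agent.EFX

open Finset

open scoped Classical

noncomputable section

namespace FIB_

variable {V : Type}

theorem val_eq (G : Gr V) {u v : V} (h : u ≠ v) : val G u v = G ⟨{u, v}, card_pair h⟩ :=
  dif_pos h

theorem ed_cases (e : Ed V) : ∃ (u v : V) (h : u ≠ v), e = ⟨{u, v}, card_pair h⟩ := by
  obtain ⟨u, v, h, he⟩ := card_eq_two.1 e.2
  exact ⟨u, v, h, Subtype.ext he⟩

theorem val_add (G H : Gr V) (u v : V) : val (G + H) u v = val G u v + val H u v := by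
  unfold val
  split_ifs
  · rfl
  · simp

theorem val_sub (G H : Gr V) (u v : V) : val (G - H) u v = val G u v - val H u v := by
  unfold val
  split_ifs
  · rfl
  · simp

theorem mono_pair {k : ℕ} {χ : V → Fin k} {u v : V} (h : u ≠ v) :
    Mono χ ⟨{u, v}, card_pair h⟩ ↔ χ u = χ v := by
  unfold Mono
  constructor
  · intro hm
    exact hm u (by simp) v (by simp)
  · intro he a ha b hb
    simp only [mem_insert, mem_singleton] at ha hb
    rcases ha with rfl | rfl <;> rcases hb with rfl | rfl <;> simp [he]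

theorem ins_pair [Fintype V] {N : Finset V} {u v : V} (h : u ≠ v) :
    (⟨{u, v}, card_pair h⟩ : Ed V) ∈ ins N ↔ u ∈ N ∧ v ∈ N := by
  unfold ins
  rw [mem_filter]
  simp [insert_subset_iff]

theorem ag_iff [Fintype V] {N : Finset V} {G H : Gr V} :
    Ag N G H ↔ ∀ e ∈ ins N, G e = H e := by
  constructor
  · intro h e he
    obtain ⟨u, v, hne, rfl⟩ := ed_cases e
    rw [ins_pair hne] at he
    have := h u he.1 v he.2
    rwa [val_eq G hne, val_eq H hne] at this
  · intro h u hu v hv
    by_cases hne : u = v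
    · subst hne
      unfold val
      simp
    · rw [val_eq G hne, val_eq H hne]
      exact h _ ((ins_pair hne).2 ⟨hu, hv⟩)

/-- the translation -/
theorem exists_D (hV : T_VAL) [Fintype V] {r k : ℕ} {N : Finset V} {x y : V} {χ : V → Fin k}
    (hT : Typ r N x y) (hχ : χ x ≠ χ y) (M1 : Finset (Ed V))
    (hM1 : M1 = (univ : Finset (Ed V)).filter (fun e => Mono χ e ∧ e ∉ ins N))
    (t : {e : Ed V // e ∈ M1} → ZMod 2) :
    ∃ D : Gr V, (∀ e he, D e = t ⟨e, he⟩) ∧ (∀ e ∈ ins N, D e = 0) ∧ cs x y D = 0 := by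
  obtain ⟨hsymm, hdiag, _, hex, _, _, _⟩ := hV V
  set T0 : Gr V := fun e => if h : e ∈ M1 then t ⟨e, h⟩ else 0 with hT0
  have hxy : x ≠ y := hT.1
  -- vanishing of `T0`
  have hz : ∀ u v : V, (χ u ≠ χ v ∨ (u ∈ N ∧ v ∈ N)) → val T0 u v = 0 := by
    intro u v h
    by_cases hne : u = v
    · rw [hne]
      exact hdiag _ _
    · rw [val_eq T0 hne]
      have hn : (⟨{u, v}, card_pair hne⟩ : Ed V) ∉ M1 := by
        intro hm
        rw [hM1, mem_filter] at hm
        rcases h with h | h
        · exact h ((mono_pair hne).1 hm.2.1)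
        · exact hm.2.2 ((ins_pair hne).2 h)
      rw [hT0]
      exact dif_neg hn
  set p : V → Prop := fun u => u = x ∨ u = y with hp
  set S : V → ZMod 2 := fun z => val T0 x z + val T0 y z with hS
  set f : V → V → ZMod 2 := fun u v =>
    if p u ∧ p v then 0 else if p u then S v else if p v then S u else val T0 u v with hf
  have hfs : ∀ u v, f u v = f v u := by
    intro u v
    simp only [hf]
    by_cases h1 : p u <;> by_cases h2 : p v
    · rw [if_pos ⟨h1, h2⟩, if_pos ⟨h2, h1⟩]
    · rw [if_neg (fun h => h2 h.2), if_pos h1, if_neg (fun h => h2 h.1), if_neg h2, if_pos h1]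
    · rw [if_neg (fun h => h1 h.1), if_neg h1, if_pos h2, if_neg (fun h => h1 h.2), if_pos h2]
    · rw [if_neg (fun h => h1 h.1), if_neg h1, if_neg h2, if_neg (fun h => h1 h.2), if_neg h2,
        if_neg h1]
      exact hsymm _ _ _
  obtain ⟨D, hD⟩ := hex f hfs
  refine ⟨D, ?_, ?_, ?_⟩
  · intro e he
    obtain ⟨u, v, hne, rfl⟩ := ed_cases e
    have he' := he
    rw [hM1, mem_filter] at he'
    have hm : χ u = χ v := (mono_pair hne).1 he'.2.1
    have hval : val T0 u v = t ⟨_, he⟩ := by
      rw [val_eq T0 hne, hT0]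
      exact dif_pos he
    rw [← val_eq D hne, hD u v hne, ← hval]
    simp only [hf]
    by_cases h1 : p u <;> by_cases h2 : p v
    · exfalso
      rcases h1 with h1 | h1 <;> rcases h2 with h2 | h2
      · exact hne (h1.trans h2.symm)
      · rw [h1, h2] at hm
        exact hχ hm
      · rw [h1, h2] at hm
        exact hχ hm.symm
      · exact hne (h1.trans h2.symm)
    · rw [if_neg (fun h => h2 h.2), if_pos h1]
      simp only [hS]
      rcases h1 with h1 | h1
      · rw [h1] at hm
        rw [h1, hz y v (Or.inl (fun h => hχ (hm.trans h.symm))), add_zero]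
      · rw [h1] at hm
        rw [h1, hz x v (Or.inl (fun h => hχ (h.trans hm.symm))), zero_add]
    · rw [if_neg (fun h => h1 h.1), if_neg h1, if_pos h2]
      simp only [hS]
      rcases h2 with h2 | h2
      · rw [h2] at hm
        rw [h2, hz y u (Or.inl (fun h => hχ (hm.symm.trans h.symm))), add_zero, hsymm]
      · rw [h2] at hm
        rw [h2, hz x u (Or.inl (fun h => hχ (h.trans hm))), zero_add, hsymm]
    · rw [if_neg (fun h => h1 h.1), if_neg h1, if_neg h2]
  · intro e he
    obtain ⟨u, v, hne, rfl⟩ := ed_cases e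
    rw [ins_pair hne] at he
    rw [← val_eq D hne, hD u v hne]
    simp only [hf]
    by_cases h1 : p u <;> by_cases h2 : p v
    · rw [if_pos ⟨h1, h2⟩]
    · rw [if_neg (fun h => h2 h.2), if_pos h1]
      have hxyN : x ∈ N ∧ y ∈ N := by
        rcases hT.2 with h | h
        · exfalso
          rcases h1 with h1 | h1
          · exact h.2.1 (h1 ▸ he.1)
          · exact h.2.2 (h1 ▸ he.1)
        · exact h.2
      simp only [hS]
      rw [hz x v (Or.inr ⟨hxyN.1, he.2⟩), hz y v (Or.inr ⟨hxyN.2, he.2⟩), add_zero]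
    · rw [if_neg (fun h => h1 h.1), if_neg h1, if_pos h2]
      have hxyN : x ∈ N ∧ y ∈ N := by
        rcases hT.2 with h | h
        · exfalso
          rcases h2 with h2 | h2
          · exact h.2.1 (h2 ▸ he.2)
          · exact h.2.2 (h2 ▸ he.2)
        · exact h.2
      simp only [hS]
      rw [hz x u (Or.inr ⟨hxyN.1, he.1⟩), hz y u (Or.inr ⟨hxyN.2, he.1⟩), add_zero]
    · rw [if_neg (fun h => h1 h.1), if_neg h1, if_neg h2]
      exact hz u v (Or.inr he)
  · funext z
    obtain ⟨z, hzx⟩ := z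
    show val D x z + val D y z = 0
    by_cases hzy : z = y
    · subst hzy
      rw [hdiag, add_zero, hD x z hxy]
      simp only [hf]
      rw [if_pos ⟨Or.inl rfl, Or.inr rfl⟩]
    · have h2 : ¬ p z := fun h => h.elim hzx hzy
      rw [hD x z (Ne.symm hzx), hD y z (Ne.symm hzy)]
      simp only [hf]
      rw [if_neg (fun h => h2 h.2), if_pos (Or.inl rfl : p x), if_neg (fun h => h2 h.2),
        if_pos (Or.inr rfl : p y)]
      exact CharTwo.add_self_eq_zero _

theorem cs_add (x y : V) (G H : Gr V) : cs x y (G + H) = cs x y G + cs x y H := by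
  funext z
  show val (G + H) x z + val (G + H) y z = val G x z + val G y z + (val H x z + val H y z)
  rw [val_add, val_add]
  ring

theorem cs_sub (x y : V) (G H : Gr V) : cs x y (G - H) = cs x y G - cs x y H := by
  funext z
  show val (G - H) x z + val (G - H) y z = val G x z + val G y z - (val H x z + val H y z)
  rw [val_sub, val_sub]
  ring

end FIB_

open FIB_ in
theorem p_FIB : T_VAL → T_FIB := by
  intro hV V _ r k N κ x y χ θ hT hχ hθ
  set M1 := (univ : Finset (Ed V)).filter (fun e => Mono χ e ∧ e ∉ ins N) with hM1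
  have hex := fun t => exists_D hV hT hχ M1 hM1 t
  choose D hD1 hD2 hD3 using hex
  set C := cc N κ x y (cs x y κ) with hC
  have hCmem : ∀ G : Gr V, G ∈ C ↔ (∀ e ∈ ins N, G e = κ e) ∧ cs x y G = cs x y κ := by
    intro G
    rw [hC, cc, mem_filter, ag_iff]
    simp
  have hcard : (2 : ℕ) ^ M1.card = (univ : Finset ({e : Ed V // e ∈ M1} → ZMod 2)).card := by
    rw [card_univ, Fintype.card_fun, ZMod.card, Fintype.card_coe]
  rw [hcard, ← card_product]
  refine card_nbij' (fun q => q.1 + D q.2)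
    (fun G => (G - D (fun e => G e.1 - θ e.1), fun e => G e.1 - θ e.1)) ?_ ?_ ?_ ?_
  · rintro ⟨G, t⟩ hq
    rw [mem_coe, mem_product, mem_filter] at hq
    obtain ⟨⟨hG, _⟩, _⟩ := hq
    rw [hCmem] at hG
    rw [mem_coe, hCmem]
    refine ⟨fun e he => ?_, ?_⟩
    · show G e + D t e = κ e
      rw [hD2 t e he, add_zero]
      exact hG.1 e he
    · show cs x y (G + D t) = cs x y κ
      rw [cs_add, hD3, add_zero]
      exact hG.2
  · intro G hG
    rw [mem_coe, hCmem] at hG
    rw [mem_coe, mem_product, mem_filter, hCmem]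
    refine ⟨⟨⟨fun e he => ?_, ?_⟩, fun e he => ?_⟩, mem_univ _⟩
    · show G e - D _ e = κ e
      rw [hD2 _ e he, sub_zero]
      exact hG.1 e he
    · show cs x y (G - D _) = cs x y κ
      rw [cs_sub, hD3, sub_zero]
      exact hG.2
    · show G e - D _ e = θ e
      by_cases hi : e ∈ ins N
      · rw [hD2 _ e hi, sub_zero, hG.1 e hi, hθ e hi he]
      · rw [hD1 _ e (mem_filter.2 ⟨mem_univ _, he, hi⟩)]
        ring
  · rintro ⟨G, t⟩ hq
    rw [mem_coe, mem_product, mem_filter] at hq
    obtain ⟨⟨_, hGθ'⟩, _⟩ := hq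
    have hGθ : ∀ e, Mono χ e → G e = θ e := hGθ'
    have ht : (fun e : {e : Ed V // e ∈ M1} => (G + D t) e.1 - θ e.1) = t := by
      funext e
      have he := (mem_filter.1 e.2).2.1
      show G e.1 + D t e.1 - θ e.1 = t e
      rw [hGθ e.1 he, hD1 t e.1 e.2]
      ring
    show ((G + D t) - D (fun e : {e : Ed V // e ∈ M1} => (G + D t) e.1 - θ e.1),
      fun e : {e : Ed V // e ∈ M1} => (G + D t) e.1 - θ e.1) = (G, t)
    rw [ht, add_sub_cancel_right]
  · intro G _
    show G - D _ + D _ = G
    rw [sub_add_cancel]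

end

end Pool.Agent.EFX
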