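import Pool.Agent.EFX.Targets

set_option autoImplicit false

namespace Pool.Agent.EFX

open Finset

open scoped Classical

noncomputable section

namespace FINX_

variable {V : Type} [Fintype V]

/-- the graph as an element of `Gr` -/
def toG (G : SimpleGraph V) : Gr V :=
  fun e => if ∃ u v, e.1 = {u, v} ∧ G.Adj u v then 1 else 0

lemma val_toG (G : SimpleGraph V) (u v : V) :
    val (toG G) u v = if G.Adj u v then 1 else 0 := by
  unfold val
  by_cases h : u ≠ v
  · rw [dif_pos h]
    unfold toG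
    have : (∃ a b, ({u, v} : Finset V) = {a, b} ∧ G.Adj a b) ↔ G.Adj u v := by
      constructor
      · rintro ⟨a, b, hab, hadj⟩
        have ha : a = u ∨ a = v := by
          have : a ∈ ({u, v} : Finset V) := by rw [hab]; simp
          simpa using this
        have hb : b = u ∨ b = v := by
          have : b ∈ ({u, v} : Finset V) := by rw [hab]; simp
          simpa using this
        have hne := hadj.ne
        rcases ha with rfl | rfl <;> rcases hb with rfl | rfl
        · exact absurd rfl hne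
        · exact hadj
        · exact hadj.symm
        · exact absurd rfl hne
      · intro hadj
        exact ⟨u, v, rfl, hadj⟩
    exact if_congr this rfl rfl
  · rw [dif_neg h]
    push Not at h
    subst h
    simp

lemma toG_injective : Function.Injective (toG (V := V)) := by
  intro G H h
  ext u v
  have h1 := val_toG G u v
  have h2 := val_toG H u v
  rw [h, h2] at h1
  by_cases a : G.Adj u v <;> by_cases b : H.Adj u v <;> simp_all

lemma toG_surjective (hV : T_VAL) : Function.Surjective (toG (V := V)) := by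
  intro K
  obtain ⟨hs, hd, hinj, -⟩ := hV V
  refine ⟨{ Adj := fun u v => val K u v = 1, symm := ⟨?_⟩, loopless := ⟨?_⟩ }, ?_⟩
  · intro u v h
    rw [hs] at h
    exact h
  · intro u h
    rw [hd] at h
    exact zero_ne_one h
  · apply hinj
    intro x y _
    rw [val_toG]
    simp only
    by_cases h : val K x y = 1
    · rw [if_pos h, h]
    · rw [if_neg h]
      have : ∀ z : ZMod 2, z ≠ 1 → 0 = z := by decide
      exact this _ h

lemma ag_iff (G H : SimpleGraph V) (s : Finset V) :
    Ag s (toG G) (toG H) ↔ ∀ x ∈ s, ∀ y ∈ s, (G.Adj x y ↔ H.Adj x y) := by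
  unfold Ag
  simp only [val_toG]
  constructor
  · intro h x hx y hy
    have := h x hx y hy
    by_cases a : G.Adj x y <;> by_cases b : H.Adj x y <;> simp_all
  · intro h x hx y hy
    simp only [h x hx y hy]

lemma ag_iff' (G H : SimpleGraph V) (s : Finset V) (r : ℕ) :
    (symmDiff G H).IsNIndepSet r s ↔ s.card = r ∧ Ag s (toG G) (toG H) := by
  rw [SimpleGraph.isNIndepSet_iff, ag_iff]
  constructor
  · rintro ⟨h1, h2⟩
    refine ⟨h2, ?_⟩
    intro x hx y hy
    by_cases hxy : x = y
    · subst hxy; simp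
    · have h3 := h1 (mem_coe.2 hx) (mem_coe.2 hy) hxy
      simp only [symmDiff, SimpleGraph.sup_adj, SimpleGraph.sdiff_adj, not_or, not_and,
        not_not] at h3
      exact ⟨h3.1, h3.2⟩
  · rintro ⟨h1, h2⟩
    refine ⟨?_, h1⟩
    intro x hx y hy _
    have h3 := h2 x (mem_coe.1 hx) y (mem_coe.1 hy)
    simp only [symmDiff, SimpleGraph.sup_adj, SimpleGraph.sdiff_adj, not_or, not_and, not_not]
    exact ⟨h3.1, h3.2⟩

lemma dl_pos (r : ℕ) : 0 < dl r := by unfold dl; positivity

lemma den_bound (hC : T_CARD) (hB : T_BASE) (hM : T_MAIN) {r l : ℕ} (hl : Num l r)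
    (F : Finset (Gr V)) (hF : XA r F F) : den F ≤ dl r := by
  have hd := dl_pos r
  have h0 : 0 ≤ den F := by unfold den; positivity
  rcases le_total (2 ^ l) (Fintype.card V) with h | h
  · have h1 := hM V l r F F hl h hF
    nlinarith
  · by_contra hcon
    push Not at hcon
    obtain ⟨h4, h40, -, -⟩ := hl
    obtain ⟨R, K, hR, h1, -⟩ := hB V l r F F (by omega) h40 h hF (by nlinarith)
    have h2 := (hC V).2.2.2.2 r F R K hR
    have h3 : F.filter (fun G => Ag R G K) = F := filter_true_of_mem h1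
    unfold rel at h2
    rw [h3] at h2
    have h5 := h2.2
    rw [div_le_one hd] at h5
    linarith

theorem gen (hC : T_CARD) (hV : T_VAL) (hB : T_BASE) (hM : T_MAIN)
    (hN : ∀ r : ℕ, 10000000 ≤ r → ∃ l, Num l r) (r n : ℕ) (hr : 10000000 ≤ r) (hrn : r ≤ n)
    (hn : Fintype.card V = n) :
    (∀ F : Finset (SimpleGraph V),
      (∀ G ∈ F, ∀ H ∈ F, G ≠ H → ∃ s : Finset V, (symmDiff G H).IsNIndepSet r s) →
      F.card ≤ 2 ^ (n.choose 2 - r.choose 2)) ∧
    (∃ F : Finset (SimpleGraph V),
      (∀ G ∈ F, ∀ H ∈ F, G ≠ H → ∃ s : Finset V, (symmDiff G H).IsNIndepSet r s) ∧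
      F.card = 2 ^ (n.choose 2 - r.choose 2)) := by
  obtain ⟨l, hl⟩ := hN r hr
  have hcard : Fintype.card (Gr V) = 2 ^ (n.choose 2) := by
    have := (hC V).1
    rwa [hn] at this
  have hch : r.choose 2 ≤ n.choose 2 := Nat.choose_le_choose 2 hrn
  obtain ⟨S, -, hS⟩ := exists_subset_card_eq (s := (univ : Finset V)) (n := r)
      (by rw [card_univ, hn]; exact hrn)
  refine ⟨?_, ?_⟩
  · intro F hF
    have hXA : XA r (F.image toG) (F.image toG) := by
      intro G' hG' H' hH'
      rw [mem_image] at hG' hH'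
      obtain ⟨G, hG, rfl⟩ := hG'
      obtain ⟨H, hH, rfl⟩ := hH'
      by_cases h : G = H
      · exact ⟨S, hS, by rw [h]; intro _ _ _ _; rfl⟩
      · obtain ⟨s, hs⟩ := hF G hG H hH h
        exact ⟨s, (ag_iff' G H s r).1 hs⟩
    have h1 := den_bound hC hB hM hl (F.image toG) hXA
    unfold den dl at h1
    rw [card_image_of_injective _ toG_injective, hcard, div_le_div_iff₀ (by positivity)
      (by positivity)] at h1
    have h2 : F.card * 2 ^ (r.choose 2) ≤ 2 ^ (n.choose 2) := by
      have h3 : ((F.card * 2 ^ (r.choose 2) : ℕ) : ℝ) ≤ ((2 ^ (n.choose 2) : ℕ) : ℝ) := by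
        push_cast at h1 ⊢
        linarith
      exact_mod_cast h3
    have h4 : 2 ^ (n.choose 2) = 2 ^ (n.choose 2 - r.choose 2) * 2 ^ (r.choose 2) := by
      rw [← pow_add]
      congr 1
      omega
    rw [h4] at h2
    exact Nat.le_of_mul_le_mul_right h2 (by positivity)
  · obtain ⟨C, hCdef⟩ : ∃ C : Finset (Gr V), C = univ.filter
      (fun G => Ag S G (toG ⊥)) := ⟨_, rfl⟩
    have hCc : C.card = 2 ^ (n.choose 2 - r.choose 2) := by
      have h1 := (hC V).2.2.2.1 S (toG ⊥)
      rw [← hCdef, hS] at h1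
      unfold den dl at h1
      rw [hcard, div_eq_div_iff (by positivity) (by positivity)] at h1
      have h2 : C.card * 2 ^ (r.choose 2) = 2 ^ (n.choose 2) := by
        have h3 : ((C.card * 2 ^ (r.choose 2) : ℕ) : ℝ) = ((2 ^ (n.choose 2) : ℕ) : ℝ) := by
          push_cast at h1 ⊢
          linarith
        exact_mod_cast h3
      have h4 : 2 ^ (n.choose 2) = 2 ^ (n.choose 2 - r.choose 2) * 2 ^ (r.choose 2) := by
        rw [← pow_add]
        congr 1
        omega
      rw [h4] at h2
      exact Nat.eq_of_mul_eq_mul_right (by positivity) h2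
    refine ⟨univ.filter (fun G : SimpleGraph V => toG G ∈ C), ?_, ?_⟩
    · intro G hG H hH _
      rw [mem_filter, hCdef, mem_filter] at hG hH
      refine ⟨S, (ag_iff' G H S r).2 ⟨hS, ?_⟩⟩
      intro x hx y hy
      rw [hG.2.2 x hx y hy, hH.2.2 x hx y hy]
    · rw [← hCc]
      apply card_bij (fun G _ => toG G)
      · intro G hG
        exact (mem_filter.1 hG).2
      · intro G _ H _ h
        exact toG_injective h
      · intro K hK
        obtain ⟨G, rfl⟩ := toG_surjective hV K
        exact ⟨G, mem_filter.2 ⟨mem_univ _, hK⟩, rfl⟩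

end FINX_

open FINX_

theorem p_FINX : T_CARD → T_VAL → T_BASE → T_MAIN → (∀ r : ℕ, 10000000 ≤ r → ∃ l, Num l r) →
    ∀ r n : ℕ, 10000000 ≤ r → r ≤ n →
    (∀ F : Finset (SimpleGraph (Fin n)),
      (∀ G ∈ F, ∀ H ∈ F, G ≠ H → ∃ s : Finset (Fin n), (symmDiff G H).IsNIndepSet r s) →
      F.card ≤ 2 ^ (n.choose 2 - r.choose 2)) ∧
    (∃ F : Finset (SimpleGraph (Fin n)),
      (∀ G ∈ F, ∀ H ∈ F, G ≠ H → ∃ s : Finset (Fin n), (symmDiff G H).IsNIndepSet r s) ∧
      F.card = 2 ^ (n.choose 2 - r.choose 2)) :=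
  fun hC hV hB hM hN r n hr hrn => gen hC hV hB hM hN r n hr hrn (Fintype.card_fin n)

end

end Pool.Agent.EFX
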