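import Pool.Agent.EFX.Targets

set_option autoImplicit false

namespace Pool.Agent.EFX

open Finset

open scoped Classical

noncomputable section

namespace FRAC8_

lemma den_inst {β : Type} (i1 i2 : Fintype β) (A : Finset β) : @den β i1 A = @den β i2 A := by
  rw [Subsingleton.elim i1 i2]

lemma rel_cut (hCUT : T_CUT) (hCYL : T_CYL) {V : Type} [Fintype V] (r : ℕ) (F : Finset (Gr V))
    (R : Finset V) (K : Gr V) (x y : V) (hxy : x ≠ y) (hx : x ∉ R) (hy : y ∉ R)
    (g : {z : V // z ≠ x} → ZMod 2) :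
    rel r (cut x y F g) (R.subtype (fun z => z ≠ x)) (rst x K) =
      rel r F R K * qd (F.filter (fun G => Ag R G K)) (cs x y) g := by
  unfold rel
  rw [(hCYL V x y R hxy hx hy).2.2 F K g]
  have h1 := (hCUT V x y hxy).1 (F.filter (fun G => Ag R G K)) g
  rw [den_inst _ _ (cut x y (F.filter (fun G => Ag R G K)) g)] at h1
  rw [h1]
  ring

end FRAC8_

open FRAC8_

theorem p_FRAC8 : T_HELB → T_CARD → T_CUT → T_CYL → T_VARI → T_FRAC := by
  intro hHELB hCARD hCUT hCYL hVARI V _ r F R K x y H hxy hx hy hR hne hrel hH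
  obtain ⟨f, hf⟩ : ∃ f, f = rel r F R K := ⟨_, rfl⟩
  have hkey := rel_cut hCUT hCYL r F R K x y hxy hx hy
  have hR' : (R.subtype (fun z => z ≠ x)).card = r := by
    rw [(hCYL V x y R hxy hx hy).1, hR]
  have hb := fun g => (hCARD {z : V // z ≠ x}).2.2.2.2 r (cut x y F g)
    (R.subtype (fun z => z ≠ x)) (rst x K) hR'
  obtain ⟨hf0, hf1⟩ := (hCARD V).2.2.2.2 r F R K hR
  rw [← hf] at hrel hf0 hf1 hkey ⊢
  obtain ⟨h1, -, h3, -⟩ := hHELB (Gr V) ({z : V // z ≠ x} → ZMod 2)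
    (F.filter (fun G => Ag R G K)) (cs x y) hne
  obtain ⟨N, hN⟩ : ∃ N : ℝ, N = (Fintype.card ({z : V // z ≠ x} → ZMod 2) : ℝ) := ⟨_, rfl⟩
  have hN0 : 0 < N := by
    rw [hN]
    have : 0 < Fintype.card ({z : V // z ≠ x} → ZMod 2) := Fintype.card_pos
    exact_mod_cast this
  have hv := hVARI ({z : V // z ≠ x} → ZMod 2) (qd (F.filter (fun G => Ag R G K)) (cs x y)) f H
    inferInstance (fun t => by unfold qd; exact mul_nonneg (by positivity) (h1 t)) hf0 hf1
    (fun t => by rw [← hkey]; exact (hb t).2) hH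
  rw [← hN] at hv ⊢
  rw [div_le_iff₀ hN0] at hv
  have h5 : (((univ : Finset ({z : V // z ≠ x} → ZMod 2)).filter (fun g =>
    31 / 32 ≤ rel r (cut x y F g) (R.subtype (fun z => z ≠ x)) (rst x K))).card : ℝ) * (1 / 1024) ≤
      ∑ t, (f * qd (F.filter (fun G => Ag R G K)) (cs x y) t - f) ^ 2 := by
    rw [← nsmul_eq_mul, ← sum_const]
    refine le_trans (sum_le_sum (f := fun _ => (1 / 1024 : ℝ))
      (g := fun t => (f * qd (F.filter (fun G => Ag R G K)) (cs x y) t - f) ^ 2) ?_)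
      (sum_le_univ_sum_of_nonneg (fun t => sq_nonneg _))
    intro t ht
    rw [mem_filter, hkey] at ht
    have := ht.2
    nlinarith
  linarith

end

end Pool.Agent.EFX
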