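import Pool.Agent.EFX.Targets

set_option autoImplicit false
set_option maxHeartbeats 4000000

namespace Pool.Agent.EFX

open Finset

open scoped Classical

noncomputable section

namespace GP_

theorem ld_nonneg {β : Type} [Fintype β] (A : Finset β) (hA : A.Nonempty) : 0 ≤ ld A := by
  unfold ld den
  have h1 : 0 < (A.card : ℝ) := by exact_mod_cast hA.card_pos
  have h2 : (A.card : ℝ) ≤ (Fintype.card β : ℝ) := by exact_mod_cast Finset.card_le_univ A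
  have h3 : 0 < (Fintype.card β : ℝ) := by linarith
  have h4 : (A.card : ℝ) / (Fintype.card β : ℝ) ≤ 1 := (div_le_one h3).mpr h2
  have h5 : 0 ≤ (A.card : ℝ) / (Fintype.card β : ℝ) := by positivity
  have := Real.log_nonpos h5 h4
  linarith

/-- The choice of `p`. -/
theorem choose_p (m : ℕ) (c : ℝ) (hc : 0 < c) (hc3 : c ^ 3 = m) (hm : 5 ≤ m) :
    ∃ p : ℕ, 2 ≤ p ∧ p ≤ m ∧ (p : ℝ) ≤ 2 * c ^ 2 ∧ c ^ 2 ≤ p := by
  have hm' : (5 : ℝ) ≤ m := by exact_mod_cast hm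
  have h1 : 1 < c := by
    by_contra h
    push Not at h
    have : c ^ 3 ≤ 1 := pow_le_one₀ hc.le h
    linarith
  have h2 : 1 < c ^ 2 := one_lt_pow₀ h1 (by norm_num)
  refine ⟨⌈c ^ 2⌉₊, ?_, ?_, ?_, Nat.le_ceil _⟩
  · have : 1 < ⌈c ^ 2⌉₊ := Nat.lt_ceil.mpr (by exact_mod_cast h2)
    omega
  · refine Nat.ceil_le.mpr ?_
    rw [← hc3]
    nlinarith [sq_nonneg c]
  · have := Nat.ceil_lt_add_one (sq_nonneg c)
    linarith

theorem pow_bound (n m : ℕ) (c : ℝ) (hc : 0 < c) (hc3 : c ^ 3 = m) (hn : 0 < n) (hnm : n ≤ 2 * m) :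
    1 / (4 * c ^ 4) ≤ (n : ℝ) ^ (-(4 / 3) : ℝ) := by
  have hn' : (0 : ℝ) < n := by exact_mod_cast hn
  have h1 : (n : ℝ) ≤ 2 * m := by exact_mod_cast hnm
  have h2 : (2 * (m : ℝ)) ^ (-(4 / 3) : ℝ) ≤ (n : ℝ) ^ (-(4 / 3) : ℝ) :=
    Real.rpow_le_rpow_of_nonpos hn' h1 (by norm_num)
  refine le_trans ?_ h2
  rw [← hc3, Real.mul_rpow (by norm_num) (by positivity)]
  have h3 : (c ^ 3 : ℝ) ^ (-(4 / 3) : ℝ) = 1 / c ^ 4 := by
    rw [← Real.rpow_natCast c 3, ← Real.rpow_mul hc.le]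
    have : ((3 : ℕ) : ℝ) * (-(4 / 3)) = -((4 : ℕ) : ℝ) := by norm_num
    rw [this, Real.rpow_neg hc.le, Real.rpow_natCast, one_div]
  have h4 : (1 / 4 : ℝ) ≤ (2 : ℝ) ^ (-(4 / 3) : ℝ) := by
    have h5 : (2 : ℝ) ^ (-(2 : ℝ)) ≤ (2 : ℝ) ^ (-(4 / 3) : ℝ) :=
      Real.rpow_le_rpow_of_exponent_le (by norm_num) (by norm_num)
    have h6 : (2 : ℝ) ^ (-(2 : ℝ)) = 1 / 4 := by
      rw [Real.rpow_neg (by norm_num), show (2 : ℝ) = ((2 : ℕ) : ℝ) by norm_num,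
        Real.rpow_natCast]
      norm_num
    linarith
  rw [h3]
  have h7 : 0 < 1 / c ^ 4 := by positivity
  calc 1 / (4 * c ^ 4) = 1 / 4 * (1 / c ^ 4) := by field_simp
    _ ≤ _ := mul_le_mul_of_nonneg_right h4 h7.le

end GP_

open GP_

theorem p_GP : T_HELB → T_ML → T_GP := by
  intro hH hML V _ A T hA hn hT
  by_contra hcon
  push Not at hcon
  set W : Finset V := univ \ T with hW
  have hWc : W.card = Fintype.card V - T.card := by
    rw [hW, Finset.card_sdiff_of_subset (Finset.subset_univ T), Finset.card_univ]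
  have hTle : T.card ≤ Fintype.card V := Finset.card_le_univ T
  set m : ℕ := W.card with hm
  have hm5 : 5 ≤ m := by omega
  have hnm : Fintype.card V ≤ 2 * m := by omega
  have hmR : (5 : ℝ) ≤ m := by exact_mod_cast hm5
  -- the cube root
  obtain ⟨c, hc, hc3⟩ : ∃ c : ℝ, 0 < c ∧ c ^ 3 = m := by
    refine ⟨(m : ℝ) ^ ((1 : ℝ) / 3), Real.rpow_pos_of_pos (by linarith) _, ?_⟩
    rw [← Real.rpow_natCast, ← Real.rpow_mul (by linarith)]
    norm_num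
  obtain ⟨p, hp2, hpm, hpc, hcp⟩ := choose_p m c hc hc3 hm5
  have hpR : (0 : ℝ) < p := by
    have : (2 : ℝ) ≤ p := by exact_mod_cast hp2
    linarith
  -- the bound for one family
  have hone : ∀ i, ∑ x ∈ W, ∑ y ∈ W.erase x, hel (A i) (cs x y) / (ld (A i) + 1) ^ 2 ≤
      24420 * c ^ 2 := by
    intro i
    have h1 := hML V (A i) W p (hA i) hp2 hpm
    have hl := ld_nonneg (A i) (hA i)
    have hpos : 0 < (ld (A i) + 1) ^ 2 := by positivity
    have h2 : ∑ x ∈ W, ∑ y ∈ W.erase x, hel (A i) (cs x y) / (ld (A i) + 1) ^ 2 =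
        (∑ x ∈ W, ∑ y ∈ W.erase x, hel (A i) (cs x y)) / (ld (A i) + 1) ^ 2 := by
      rw [Finset.sum_div]
      refine Finset.sum_congr rfl fun x _ => ?_
      rw [Finset.sum_div]
    rw [h2, div_le_iff₀ hpos]
    refine h1.trans ?_
    have h3 : ((W.card : ℝ) / p) ^ 2 ≤ c ^ 2 := by
      have h4 : (W.card : ℝ) / p ≤ c := by
        rw [div_le_iff₀ hpR, ← hm, ← hc3]
        nlinarith
      have h5 : 0 ≤ (W.card : ℝ) / p := by positivity
      exact pow_le_pow_left₀ h5 h4 2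
    have h6 : 10 * (p : ℝ) * ld (A i) ≤ 20 * c ^ 2 * (ld (A i) + 1) ^ 2 := by
      have h7 : ld (A i) ≤ (ld (A i) + 1) ^ 2 := by nlinarith
      have h8 : (0 : ℝ) ≤ c ^ 2 := sq_nonneg c
      calc 10 * (p : ℝ) * ld (A i) ≤ 10 * (2 * c ^ 2) * ld (A i) := by gcongr
        _ ≤ 10 * (2 * c ^ 2) * (ld (A i) + 1) ^ 2 := by gcongr
        _ = _ := by ring
    have h9 : 24400 * (ld (A i) + 1) ^ 2 * ((W.card : ℝ) / p) ^ 2 ≤
        24400 * (ld (A i) + 1) ^ 2 * c ^ 2 := by gcongr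
    calc _ ≤ 20 * c ^ 2 * (ld (A i) + 1) ^ 2 + 24400 * (ld (A i) + 1) ^ 2 * c ^ 2 :=
          add_le_add h6 h9
      _ = _ := by ring
  -- every pair is bad
  have hbad : ∀ x ∈ W, ∀ y ∈ W.erase x, 400000 * (Fintype.card V : ℝ) ^ (-(4 / 3) : ℝ) ≤
      ∑ i, hel (A i) (cs x y) / (ld (A i) + 1) ^ 2 := by
    intro x hx y hy
    have hxT : x ∉ T := (Finset.mem_sdiff.mp hx).2
    have hyT : y ∉ T := (Finset.mem_sdiff.mp (Finset.mem_of_mem_erase hy)).2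
    obtain ⟨i, hi⟩ := hcon x y (Finset.ne_of_mem_erase hy).symm hxT hyT
    have hl := ld_nonneg (A i) (hA i)
    have hpos : 0 < (ld (A i) + 1) ^ 2 := by positivity
    have h1 : 400000 * (Fintype.card V : ℝ) ^ (-(4 / 3) : ℝ) ≤
        hel (A i) (cs x y) / (ld (A i) + 1) ^ 2 := by
      rw [le_div_iff₀ hpos]
      calc _ = 400000 * (ld (A i) + 1) ^ 2 * (Fintype.card V : ℝ) ^ (-(4 / 3) : ℝ) := by ring
        _ ≤ _ := hi.le
    refine h1.trans (Finset.single_le_sum (f := fun i => hel (A i) (cs x y) /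
      (ld (A i) + 1) ^ 2) (fun j _ => ?_) (Finset.mem_univ i))
    have h2 := (hH (Gr V) ({z : V // z ≠ x} → ZMod 2) (A j) (cs x y) (hA j)).2.2.2.1
    positivity
  have hlow : (m : ℝ) * (m - 1) * (400000 * (Fintype.card V : ℝ) ^ (-(4 / 3) : ℝ)) ≤
      73260 * c ^ 2 := by
    have h1 : ∑ x ∈ W, ∑ y ∈ W.erase x, (400000 * (Fintype.card V : ℝ) ^ (-(4 / 3) : ℝ)) ≤
        ∑ x ∈ W, ∑ y ∈ W.erase x, ∑ i, hel (A i) (cs x y) / (ld (A i) + 1) ^ 2 :=
      Finset.sum_le_sum fun x hx => Finset.sum_le_sum fun y hy => hbad x hx y hy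
    have h2 : ∑ x ∈ W, ∑ y ∈ W.erase x, (400000 * (Fintype.card V : ℝ) ^ (-(4 / 3) : ℝ)) =
        (m : ℝ) * (m - 1) * (400000 * (Fintype.card V : ℝ) ^ (-(4 / 3) : ℝ)) := by
      have h3 : ∀ x ∈ W, ∑ _y ∈ W.erase x, (400000 * (Fintype.card V : ℝ) ^ (-(4 / 3) : ℝ)) =
          (m - 1 : ℝ) * (400000 * (Fintype.card V : ℝ) ^ (-(4 / 3) : ℝ)) := by
        intro x hx
        rw [Finset.sum_const, Finset.card_erase_of_mem hx, nsmul_eq_mul, ← hm,
          Nat.cast_sub (by omega)]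
        norm_num
      rw [Finset.sum_congr rfl h3, Finset.sum_const, nsmul_eq_mul, ← hm]
      ring
    have h4 : ∑ x ∈ W, ∑ y ∈ W.erase x, ∑ i, hel (A i) (cs x y) / (ld (A i) + 1) ^ 2 =
        ∑ i, ∑ x ∈ W, ∑ y ∈ W.erase x, hel (A i) (cs x y) / (ld (A i) + 1) ^ 2 := by
      rw [Finset.sum_comm]
      refine (Finset.sum_congr rfl fun x _ => Finset.sum_comm).trans ?_
      rw [Finset.sum_comm]
    rw [h2, h4] at h1
    refine h1.trans ?_
    calc ∑ i, ∑ x ∈ W, ∑ y ∈ W.erase x, hel (A i) (cs x y) / (ld (A i) + 1) ^ 2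
        ≤ ∑ _i : Fin 3, 24420 * c ^ 2 := Finset.sum_le_sum fun i _ => hone i
      _ = 73260 * c ^ 2 := by simp; ring
  have hpb := pow_bound (Fintype.card V) m c hc hc3 (by omega) hnm
  have hc6 : c ^ 6 = (m : ℝ) ^ 2 := by rw [← hc3]; ring
  have h1 : (m : ℝ) * (m - 1) * (400000 * (1 / (4 * c ^ 4))) ≤ 73260 * c ^ 2 := by
    refine le_trans ?_ hlow
    have : 0 ≤ (m : ℝ) * (m - 1) := by nlinarith
    gcongr
  have h2 : (m : ℝ) * (m - 1) * 100000 ≤ 73260 * c ^ 6 := by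
    have h3 : (m : ℝ) * (m - 1) * (400000 * (1 / (4 * c ^ 4))) * c ^ 4 ≤
        73260 * c ^ 2 * c ^ 4 := by gcongr
    have h4 : (m : ℝ) * (m - 1) * (400000 * (1 / (4 * c ^ 4))) * c ^ 4 =
        (m : ℝ) * (m - 1) * 100000 := by field_simp; ring
    rw [h4] at h3
    calc _ ≤ _ := h3
      _ = _ := by ring
  rw [hc6] at h2
  nlinarith

end

end Pool.Agent.EFX
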