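import Pool.Agent.EFX.Targets

set_option autoImplicit false

/-! # INST: the deficits of the coordinates form a supermodular function -/

namespace Pool.Agent.EFX

open Finset

open scoped Classical

noncomputable section

private lemma inst_bij2 {ι S : Type} (D P Q : Finset ι) (hP : P ⊆ D) (hQ : Q ⊆ D)
    (hc : ∀ i ∈ D, i ∈ P ∨ i ∈ Q) (hd : ∀ i ∈ P, i ∉ Q) :
    Function.Bijective (fun f : {i // i ∈ D} → S =>
      ((fun i : {i // i ∈ P} => f ⟨i.1, hP i.2⟩), (fun i : {i // i ∈ Q} => f ⟨i.1, hQ i.2⟩))) := by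
  constructor
  · intro f g h
    simp only [Prod.mk.injEq] at h
    funext i
    rcases hc i.1 i.2 with hi | hi
    · exact congrFun h.1 ⟨i.1, hi⟩
    · exact congrFun h.2 ⟨i.1, hi⟩
  · rintro ⟨a, b⟩
    refine ⟨fun i => if hi : i.1 ∈ P then a ⟨i.1, hi⟩ else
      b ⟨i.1, (hc i.1 i.2).resolve_left hi⟩, ?_⟩
    simp only [Prod.mk.injEq]
    constructor
    · funext i
      simp [i.2]
    · funext i
      have : i.1 ∉ P := fun h => hd _ h i.2
      simp [this]

private lemma inst_bij3 {ι S : Type} (D P Q R : Finset ι) (hP : P ⊆ D) (hQ : Q ⊆ D) (hR : R ⊆ D)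
    (hc : ∀ i ∈ D, i ∈ P ∨ i ∈ Q ∨ i ∈ R) (hd : ∀ i ∈ P, i ∉ Q) (hd' : ∀ i ∈ P, i ∉ R)
    (hd2 : ∀ i ∈ Q, i ∉ R) :
    Function.Bijective (fun f : {i // i ∈ D} → S =>
      ((fun i : {i // i ∈ P} => f ⟨i.1, hP i.2⟩), (fun i : {i // i ∈ Q} => f ⟨i.1, hQ i.2⟩),
        (fun i : {i // i ∈ R} => f ⟨i.1, hR i.2⟩))) := by
  constructor
  · intro f g h
    simp only [Prod.mk.injEq] at h
    funext i
    rcases hc i.1 i.2 with hi | hi | hi
    · exact congrFun h.1 ⟨i.1, hi⟩
    · exact congrFun h.2.1 ⟨i.1, hi⟩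
    · exact congrFun h.2.2 ⟨i.1, hi⟩
  · rintro ⟨a, b, c⟩
    refine ⟨fun i => if hi : i.1 ∈ P then a ⟨i.1, hi⟩ else
      if hj : i.1 ∈ Q then b ⟨i.1, hj⟩ else
      c ⟨i.1, ((hc i.1 i.2).resolve_left hi).resolve_left hj⟩, ?_⟩
    simp only [Prod.mk.injEq]
    refine ⟨?_, ?_, ?_⟩
    · funext i
      simp [i.2]
    · funext i
      have : i.1 ∉ P := fun h => hd _ h i.2
      simp [this, i.2]
    · funext i
      have h1 : i.1 ∉ P := fun h => hd' _ h i.2
      have h2 : i.1 ∉ Q := fun h => hd2 _ h i.2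
      simp [h1, h2]

theorem p_INST (hHELB : T_HELB) (hEQUIV : T_EQUIV) (hSSA : T_SSA) : T_INST := by
  intro α ι S _ A X hA
  refine ⟨?_, fun J => ?_, fun J K => ?_⟩
  · have h := hHELB α ({i // i ∈ (∅ : Finset ι)} → S) A (fun w => fun i => X w i) hA
    obtain ⟨_, h1, -⟩ := h
    have hsub : Subsingleton ({i // i ∈ (∅ : Finset ι)} → S) :=
      ⟨fun a b => funext fun i => absurd i.2 (Finset.notMem_empty _)⟩
    have hne : Nonempty ({i // i ∈ (∅ : Finset ι)} → S) :=
      ⟨fun i => absurd i.2 (Finset.notMem_empty _)⟩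
    have hcard : Fintype.card ({i // i ∈ (∅ : Finset ι)} → S) = 1 :=
      Fintype.card_eq_one_iff.mpr ⟨hne.some, fun y => Subsingleton.elim _ _⟩
    have huniv : (univ : Finset ({i // i ∈ (∅ : Finset ι)} → S)) = {hne.some} := by
      refine Finset.eq_singleton_iff_unique_mem.mpr ⟨Finset.mem_univ _, fun y _ => ?_⟩
      exact Subsingleton.elim _ _
    unfold gd df
    rw [huniv, Finset.sum_singleton] at h1 ⊢
    unfold qd
    rw [h1, hcard]
    simp
  · exact (hHELB α _ A (fun w => fun i : {i // i ∈ J} => X w i) hA).2.2.2.2.2.2.1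
  · have key := hSSA α ({i // i ∈ J \ K} → S) ({i // i ∈ K \ J} → S) ({i // i ∈ J ∩ K} → S) A
      (fun w i => X w i) (fun w i => X w i) (fun w i => X w i) hA
    have e1 := (hEQUIV α ({i // i ∈ J} → S) (({i // i ∈ J \ K} → S) × ({i // i ∈ J ∩ K} → S)) A
      (fun w i => X w i) _ (inst_bij2 J (J \ K) (J ∩ K) sdiff_subset inter_subset_left
        (fun i hi => by by_cases h : i ∈ K <;> simp [hi, h]) (fun i hi => by
          simp only [mem_sdiff] at hi; simp [hi.2]))).2
    have e2 := (hEQUIV α ({i // i ∈ K} → S) (({i // i ∈ K \ J} → S) × ({i // i ∈ J ∩ K} → S)) A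
      (fun w i => X w i) _ (inst_bij2 K (K \ J) (J ∩ K) sdiff_subset inter_subset_right
        (fun i hi => by by_cases h : i ∈ J <;> simp [hi, h]) (fun i hi => by
          simp only [mem_sdiff] at hi; simp [hi.2]))).2
    have e3 := (hEQUIV α ({i // i ∈ J ∪ K} → S)
      (({i // i ∈ J \ K} → S) × ({i // i ∈ K \ J} → S) × ({i // i ∈ J ∩ K} → S)) A
      (fun w i => X w i) _ (inst_bij3 (J ∪ K) (J \ K) (K \ J) (J ∩ K)
        (sdiff_subset.trans subset_union_left) (sdiff_subset.trans subset_union_right)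
        (inter_subset_left.trans subset_union_left)
        (fun i hi => by
          rw [mem_union] at hi
          by_cases h : i ∈ K <;> by_cases h' : i ∈ J <;> simp_all)
        (fun i hi => by simp only [mem_sdiff] at hi; simp [hi.1])
        (fun i hi => by simp only [mem_sdiff] at hi; simp [hi.2])
        (fun i hi => by simp only [mem_sdiff] at hi; simp [hi.2]))).2
    unfold gd
    rw [← e1, ← e2, ← e3]
    exact key

end

end Pool.Agent.EFX
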