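import Pool.Agent.EFX.Targets

set_option autoImplicit false

/-!
# The Shearer bound for another class
-/

namespace Pool.Agent.EFX

open Finset

open scoped Classical

noncomputable section

namespace LONE_

variable {V : Type}

lemma val_of_ne (G : Gr V) {x y : V} (h : x ≠ y) : val G x y = G ⟨{x, y}, card_pair h⟩ :=
  dif_pos h

lemma val_self (G : Gr V) (x : V) : val G x x = 0 := dif_neg (by simp)

variable [Fintype V]

lemma ag_iff (S : Finset V) (G H : Gr V) : Ag S G H ↔ ∀ e ∈ ins S, G e = H e := by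
  constructor
  · intro h e he
    obtain ⟨s, hs⟩ := e
    obtain ⟨x, y, hxy, rfl⟩ := card_eq_two.1 hs
    have hsub : ({x, y} : Finset V) ⊆ S := (mem_filter.1 he).2
    have := h x (hsub (by simp)) y (hsub (by simp))
    rwa [val_of_ne _ hxy, val_of_ne _ hxy] at this
  · intro h x hx y hy
    by_cases hxy : x = y
    · subst hxy; rw [val_self, val_self]
    · rw [val_of_ne _ hxy, val_of_ne _ hxy]
      apply h
      simp [ins, insert_subset_iff, hx, hy]

omit [Fintype V] in
/-- the colouring of `R` -/
lemma exists_col (R : Finset V) (r : ℕ) (hr : R.card = r) (u v : V) (hu : u ∈ R)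
    (hv : v ∈ R) (huv : u ≠ v) : ∃ χ : V → Fin (r - 1), ∀ a ∈ R, ∀ b ∈ R, a ≠ b → χ a = χ b →
      (a = u ∧ b = v) ∨ (a = v ∧ b = u) := by
  have hc : (R.erase v).card = r - 1 := by rw [card_erase_of_mem hv, hr]
  let e := (R.erase v).equivFinOfCardEq hc
  have hu' : u ∈ R.erase v := mem_erase.2 ⟨huv, hu⟩
  refine ⟨fun w => if h : w ∈ R.erase v then e ⟨w, h⟩ else e ⟨u, hu'⟩, ?_⟩
  intro a ha b hb hab h
  by_cases hav : a = v
  · subst hav
    have hb' : b ∈ R.erase a := mem_erase.2 ⟨Ne.symm hab, hb⟩
    have ha' : a ∉ R.erase a := by simp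
    simp only [dif_neg ha', dif_pos hb'] at h
    have := e.injective h
    right
    exact ⟨rfl, by simpa using (Subtype.ext_iff.1 this).symm⟩
  · by_cases hbv : b = v
    · subst hbv
      have ha' : a ∈ R.erase b := mem_erase.2 ⟨hab, ha⟩
      have hb' : b ∉ R.erase b := by simp
      simp only [dif_neg hb', dif_pos ha'] at h
      have := e.injective h
      left
      exact ⟨by simpa using Subtype.ext_iff.1 this, rfl⟩
    · have ha' : a ∈ R.erase v := mem_erase.2 ⟨hav, ha⟩
      have hb' : b ∈ R.erase v := mem_erase.2 ⟨hbv, hb⟩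
      simp only [dif_pos ha', dif_pos hb'] at h
      have := e.injective h
      exact absurd (Subtype.ext_iff.1 this) hab

/-- the colouring determined by the values outside `R` -/
def col {k : ℕ} (R : Finset V) (χ : V → Fin k) (c : V → Fin k) (w : V) : Fin k :=
  if w ∈ R then χ w else c w

omit [Fintype V] in
lemma col_out {k : ℕ} (R : Finset V) (χ c : V → Fin k) {w : V} (h : w ∉ R) :
    col R χ c w = c w := if_neg h

omit [Fintype V] in
lemma col_in {k : ℕ} (R : Finset V) (χ c : V → Fin k) {w : V} (h : w ∈ R) :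
    col R χ c w = χ w := if_pos h

/-- every pair outside `R` is monochromatic for a proportion at most `1 / k` -/
lemma count_aux {k : ℕ} (R : Finset V) (χ : V → Fin k) {a b : V} (hab : a ≠ b) (ha : a ∉ R) :
    k * (univ.filter fun c : V → Fin k => col R χ c a = col R χ c b).card ≤
      Fintype.card (V → Fin k) := by
  have h1 : ((univ.filter fun c : V → Fin k => col R χ c a = col R χ c b) ×ˢ
      (univ : Finset (Fin k))).card ≤ (univ : Finset (V → Fin k)).card := by
    refine card_le_card_of_injOn (fun p => Function.update p.1 a p.2) (fun _ _ => mem_univ _) ?_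
    rintro ⟨c, t⟩ hc ⟨c', t'⟩ hc' h
    simp only [coe_product, Set.mem_prod, coe_filter, Set.mem_ofPred_eq, mem_univ, true_and,
      coe_univ, Set.mem_univ, and_true] at hc hc'
    simp only at h
    have ht : t = t' := by
      have := congrFun h a
      simpa using this
    have ho : ∀ w, w ≠ a → c w = c' w := by
      intro w hw
      have := congrFun h w
      simpa [hw] using this
    refine Prod.ext (funext fun w => ?_) ht
    by_cases hw : w = a
    · subst hw
      rw [col_out R χ c ha] at hc
      rw [col_out R χ c' ha] at hc'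
      show c w = c' w
      rw [hc, hc']
      unfold col
      split_ifs
      · rfl
      · exact ho b (Ne.symm hab)
    · exact ho w hw
  rw [card_product, card_univ, card_univ, Fintype.card_fin] at h1
  rw [mul_comm]
  exact h1

lemma count {k : ℕ} (R : Finset V) (χ : V → Fin k) (e : Ed V) (he : e ∉ ins R) :
    k * (univ.filter fun c : V → Fin k => Mono (col R χ c) e).card ≤
      Fintype.card (V → Fin k) := by
  obtain ⟨s, hs⟩ := e
  obtain ⟨a, b, hab, rfl⟩ := card_eq_two.1 hs
  have h1 : ¬ (a ∈ R ∧ b ∈ R) := by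
    intro h
    apply he
    simp [ins, insert_subset_iff, h.1, h.2]
  have h2 : a ∉ R ∨ b ∉ R := by tauto
  rcases h2 with h2 | h2
  · refine le_trans (Nat.mul_le_mul_left _ (card_le_card fun c hc => ?_))
      (count_aux R χ hab h2)
    rw [mem_filter] at hc ⊢
    exact ⟨hc.1, hc.2 a (by simp) b (by simp)⟩
  · refine le_trans (Nat.mul_le_mul_left _ (card_le_card fun c hc => ?_))
      (count_aux R χ (Ne.symm hab) h2)
    rw [mem_filter] at hc ⊢
    exact ⟨hc.1, hc.2 b (by simp) a (by simp)⟩

end LONE_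

namespace LONE_

section gen

variable {ι : Type}

/-- restriction -/
def res (M : Finset ι) (G : ι → ZMod 2) : {i // i ∈ M} → ZMod 2 := fun i => G i

/-- number of restrictions -/
def nres (F : Finset (ι → ZMod 2)) (M : Finset ι) : ℕ := (F.image (res M)).card

lemma nres_pos {F : Finset (ι → ZMod 2)} (M : Finset ι) (hF : F.Nonempty) : 0 < nres F M :=
  card_pos.2 (hF.image _)

/-- the fibres of the restriction of a cylinder -/
lemma fibre [Fintype ι] (P : Finset ι) (K : ι → ZMod 2) (M : Finset ι) (hM : ∀ e ∈ M, e ∉ P)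
    (θ : {i // i ∈ M} → ZMod 2) :
    ((univ.filter fun G : ι → ZMod 2 => ∀ e ∈ P, G e = K e).filter
      fun G => res M G = θ).card * 2 ^ M.card ≤
      (univ.filter fun G : ι → ZMod 2 => ∀ e ∈ P, G e = K e).card := by
  have h1 : ((((univ.filter fun G : ι → ZMod 2 => ∀ e ∈ P, G e = K e).filter
      fun G => res M G = θ)) ×ˢ (univ : Finset ({i // i ∈ M} → ZMod 2))).card ≤
      (univ.filter fun G : ι → ZMod 2 => ∀ e ∈ P, G e = K e).card := by
    refine card_le_card_of_injOn
      (fun p => fun e => if h : e ∈ M then p.2 ⟨e, h⟩ else p.1 e) ?_ ?_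
    · rintro ⟨G, t⟩ hp
      simp only [coe_product, Set.mem_prod, coe_filter, Set.mem_ofPred_eq, mem_univ, true_and,
        coe_univ, Set.mem_univ, and_true, mem_filter] at hp ⊢
      intro e he
      have : e ∉ M := fun h => hM e h he
      simp only [dif_neg this]
      exact hp.1 e he
    · rintro ⟨G, t⟩ hp ⟨G', t'⟩ hp' h
      simp only [coe_product, Set.mem_prod, coe_filter, Set.mem_ofPred_eq, mem_univ, true_and,
        coe_univ, Set.mem_univ, and_true, mem_filter] at hp hp'
      have ht : t = t' := by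
        funext i
        have := congrFun h i.1
        simpa [i.2] using this
      refine Prod.ext (funext fun e => ?_) ht
      by_cases he : e ∈ M
      · have h1 := congrFun (hp.2.trans hp'.2.symm) ⟨e, he⟩
        exact h1
      · have := congrFun h e
        simpa [he] using this
  rw [card_product, card_univ] at h1
  simpa [ZMod.card] using h1

/-- the number of restrictions -/
lemma nres_ge [Fintype ι] (P : Finset ι) (K : ι → ZMod 2) (M : Finset ι)
    (hM : ∀ e ∈ M, e ∉ P) (F : Finset (ι → ZMod 2)) (hF : ∀ G ∈ F, ∀ e ∈ P, G e = K e) :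
    (F.card : ℝ) * 2 ^ M.card ≤
      ((univ.filter fun G : ι → ZMod 2 => ∀ e ∈ P, G e = K e).card : ℝ) * (nres F M : ℝ) := by
  set C := univ.filter fun G : ι → ZMod 2 => ∀ e ∈ P, G e = K e with hC
  have h1 : F.card ≤ (C.card / 2 ^ M.card) * (F.image (res M)).card := by
    refine card_le_mul_card_image F _ fun θ _ => ?_
    rw [Nat.le_div_iff_mul_le (by positivity)]
    refine le_trans (Nat.mul_le_mul_right _ (card_le_card ?_)) (fibre P K M hM θ)
    intro G hG
    rw [mem_filter] at hG
    rw [mem_filter, mem_filter]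
    exact ⟨⟨mem_univ _, hF G hG.1⟩, hG.2⟩
  have h2 : (C.card / 2 ^ M.card) * 2 ^ M.card ≤ C.card := Nat.div_mul_le_self _ _
  have h3 : F.card * 2 ^ M.card ≤ C.card * (F.image (res M)).card := by
    calc F.card * 2 ^ M.card ≤ (C.card / 2 ^ M.card) * (F.image (res M)).card * 2 ^ M.card :=
          Nat.mul_le_mul_right _ h1
      _ = (C.card / 2 ^ M.card) * 2 ^ M.card * (F.image (res M)).card := by ring
      _ ≤ C.card * (F.image (res M)).card := Nat.mul_le_mul_right _ h2
  exact_mod_cast h3

lemma nres_add (M : Finset ι) (F1 F2 : Finset (ι → ZMod 2))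
    (h : ∀ G ∈ F1, ∀ G' ∈ F2, ∃ e ∈ M, G' e ≠ 1 + G e) : nres F1 M + nres F2 M ≤ 2 ^ M.card := by
  have h6 : ((F1.image (res M)).image (fun θ => fun i => 1 + θ i)).card = nres F1 M := by
    apply card_image_of_injective
    intro θ θ' h
    funext i
    have := congrFun h i
    exact add_left_cancel this
  rw [← h6, nres, ← card_union_of_disjoint]
  · refine (card_le_univ _).trans (le_of_eq ?_)
    simp [ZMod.card]
  · rw [disjoint_left]
    intro θ h6 h7
    rw [mem_image] at h6 h7
    obtain ⟨θ', h6, rfl⟩ := h6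
    rw [mem_image] at h6
    obtain ⟨G, hG, rfl⟩ := h6
    obtain ⟨G', hG', h7⟩ := h7
    obtain ⟨e, he, hne⟩ := h G hG G' hG'
    exact hne (congrFun h7 ⟨e, he⟩)

lemma gd_low (hSUPP : T_SUPP) (F : Finset (ι → ZMod 2)) (M : Finset ι) (hF : F.Nonempty)
    {b : ℝ} (hb : 0 < b) (h : (nres F M : ℝ) ≤ b * 2 ^ M.card) :
    Real.log (1 / b) ≤ gd F (fun G => G) M := by
  have h1 := (hSUPP (ι → ZMod 2) ({i // i ∈ M} → ZMod 2) F (res M) hF).2
  refine le_trans (Real.log_le_log (by positivity) ?_) h1
  have h2 : (Fintype.card ({i // i ∈ M} → ZMod 2) : ℝ) = 2 ^ M.card := by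
    simp [ZMod.card]
  have h3 : 0 < ((F.image (res M)).card : ℝ) := by
    exact_mod_cast nres_pos M hF
  have h5 : (1 : ℝ) / b ≤ 2 ^ M.card / ((F.image (res M)).card : ℝ) := by
    rw [div_le_div_iff₀ hb h3]
    have : ((F.image (res M)).card : ℝ) = (nres F M : ℝ) := rfl
    rw [this]
    linarith
  rw [h2]
  refine le_trans h5 (le_of_eq ?_)
  have h6 : ∀ S T : Finset ({i // i ∈ M} → ZMod 2), (∀ x, x ∈ S ↔ x ∈ T) →
      (2 : ℝ) ^ M.card / (S.card : ℝ) = 2 ^ M.card / (T.card : ℝ) := by
    intro S T hST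
    rw [Finset.ext hST]
  exact h6 _ _ (fun x => by simp only [mem_image])

lemma gd_up (hSUPP : T_SUPP) (F : Finset (ι → ZMod 2)) (D : Finset ι) (hF : F.Nonempty)
    (h : ∀ G ∈ F, ∀ G' ∈ F, (∀ e ∈ D, G e = G' e) → G = G') :
    gd F (fun G => G) D ≤ Real.log (2 ^ D.card / F.card) := by
  have h3 := (hSUPP (ι → ZMod 2) ({i // i ∈ D} → ZMod 2) F (res D) hF).1 1 one_pos (by
    intro s
    have : (F.filter (fun w => res D w = s)).card ≤ 1 := by
      rw [card_le_one]
      intro G hG G' hG'
      rw [mem_filter] at hG hG'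
      exact h G hG.1 G' hG'.1 fun e he => congrFun (hG.2.trans hG'.2.symm) ⟨e, he⟩
    have h5 : ((F.filter (fun w => res D w = s)).card : ℝ) ≤ 1 := by exact_mod_cast this
    have h6 : ∀ S T : Finset (ι → ZMod 2), (∀ x, x ∈ S ↔ x ∈ T) → (T.card : ℝ) ≤ 1 →
        (S.card : ℝ) ≤ 1 := by
      intro S T hST hT
      rw [Finset.ext hST]
      exact hT
    exact h6 _ _ (fun x => by simp only [mem_filter]) h5)
  have h4 : (Fintype.card ({i // i ∈ D} → ZMod 2) : ℝ) = 2 ^ D.card := by
    simp [ZMod.card]
  rw [h4, mul_one] at h3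
  exact h3

end gen

end LONE_

open LONE_ in
theorem p_LONE : T_HELB → T_SUPP → T_SH → T_INST → T_VAL → T_CARD → T_LONE := by
  intro _ hSUPP hSH hINST _ hCARD V _ r F1 F2 R K K1 hr hR hXA hne
  obtain ⟨hc1, hc2, -, hc4, hc5⟩ := hCARD V
  obtain ⟨hf0, hf1⟩ := hc5 r F2 R K hR
  set f := rel r F2 R K with hf
  set z := 1 - f with hz
  set F1' := F1.filter (fun G => Ag R G K1) with hF1'
  set F2' := F2.filter (fun G => Ag R G K) with hF2'
  have hdl : 0 < dl r := by unfold dl; positivity
  rcases F1'.eq_empty_or_nonempty with hemp | hnon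
  · have : rel r F1 R K1 = 0 := by
      rw [rel, ← hF1', hemp]; simp [den]
    rw [this]
    exact pow_nonneg (by rw [hz]; linarith) _
  -- the pair `u v`
  have hne' := hne
  unfold Ag at hne'
  push Not at hne'
  obtain ⟨u, hu, v, hv, huv⟩ := hne'
  have huv' : u ≠ v := by
    rintro rfl
    exact huv (by rw [val_self, val_self])
  obtain ⟨χ, hχ⟩ := exists_col R r hR u v hu hv huv'
  set D : Finset (Ed V) := univ.filter (fun e => e ∉ ins R) with hD
  set M : (V → Fin (r - 1)) → Finset (Ed V) := fun c =>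
    univ.filter (fun e => e ∉ ins R ∧ Mono (col R χ c) e) with hM
  have hMR : ∀ c, ∀ e ∈ M c, e ∉ ins R := fun c e he => (mem_filter.1 he).2.1
  have hcardC : ∀ K' : Gr V, ((univ.filter fun G : Gr V => ∀ e ∈ ins R, G e = K' e).card : ℝ) =
      dl r * (Fintype.card (Gr V) : ℝ) := by
    intro K'
    have h1 := hc4 R K'
    rw [hR, den, div_eq_iff (by positivity)] at h1
    rw [← h1]
    congr 2
    ext G
    simp only [mem_filter, mem_univ, true_and, ag_iff]
  have hGr : (0 : ℝ) < (Fintype.card (Gr V) : ℝ) := by positivity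
  -- claim
  have hclaim : ∀ c, (nres F1' (M c) : ℝ) ≤ z * 2 ^ (M c).card := by
    intro c
    have h1 := nres_ge (ins R) K (M c) (hMR c) F2'
      (fun G hG => (ag_iff R G K).1 (mem_filter.1 hG).2)
    have h1' : (F2'.card : ℝ) * 2 ^ (M c).card ≤
        (dl r * (Fintype.card (Gr V) : ℝ)) * (nres F2' (M c) : ℝ) := by
      rw [← hcardC K]
      have h6 : ∀ S T : Finset (Gr V), (∀ x, x ∈ S ↔ x ∈ T) → ∀ a b : ℝ,
          a ≤ (T.card : ℝ) * b → a ≤ (S.card : ℝ) * b := by
        intro S T hST a b hT
        rw [Finset.ext hST]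
        exact hT
      exact h6 _ _ (fun x => by simp only [mem_filter, mem_univ, true_and]) _ _ h1
    clear h1
    have h1 := h1'
    have h2 : (F2'.card : ℝ) = f * (dl r * (Fintype.card (Gr V) : ℝ)) := by
      rw [hf, rel, ← hF2', den]; field_simp
    rw [h2] at h1
    have h3 : f * 2 ^ (M c).card ≤ (nres F2' (M c) : ℝ) := by
      have h4 : (dl r * (Fintype.card (Gr V) : ℝ)) * (f * 2 ^ (M c).card) ≤
          (dl r * (Fintype.card (Gr V) : ℝ)) * (nres F2' (M c) : ℝ) := by
        linarith
      exact le_of_mul_le_mul_left h4 (by positivity)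
    have h5 : nres F1' (M c) + nres F2' (M c) ≤ 2 ^ (M c).card := by
      apply nres_add
      intro G hG G' hG'
      by_contra hcon
      push Not at hcon
      obtain ⟨S, hS, hag⟩ := hXA G (mem_filter.1 hG).1 G' (mem_filter.1 hG').1
      have hGK := (mem_filter.1 hG).2
      have hGK' := (mem_filter.1 hG').2
      obtain ⟨a, ha, b, hb, hab, hcol⟩ := exists_ne_map_eq_of_card_lt_of_maps_to
        (s := S) (t := (univ : Finset (Fin (r - 1)))) (f := col R χ c)
        (by rw [hS, card_univ, Fintype.card_fin]; omega) (fun _ _ => mem_univ _)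
      have hval := hag a ha b hb
      by_cases hin : a ∈ R ∧ b ∈ R
      · rw [col_in R χ c hin.1, col_in R χ c hin.2] at hcol
        have h8 := hGK a hin.1 b hin.2
        have h9 := hGK' a hin.1 b hin.2
        have h10 : val K1 a b = val K a b := by rw [← h8, ← h9, hval]
        rcases hχ a hin.1 b hin.2 hab hcol with ⟨rfl, rfl⟩ | ⟨rfl, rfl⟩
        · exact huv h10
        · have h11 := hGK b hin.2 a hin.1
          have h12 := hGK' b hin.2 a hin.1
          have h13 := hag b hb a ha
          exact huv (by rw [← h11, ← h12, h13])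
      · have he : (⟨{a, b}, card_pair hab⟩ : Ed V) ∈ M c := by
          simp only [hM, mem_filter, mem_univ, true_and]
          refine ⟨fun h => hin ?_, ?_⟩
          · simp only [ins, mem_filter, mem_univ, true_and, insert_subset_iff,
              singleton_subset_iff] at h
            exact h
          · intro x hx y hy
            simp only [mem_insert, mem_singleton] at hx hy
            rcases hx with rfl | rfl <;> rcases hy with rfl | rfl
            · rfl
            · exact hcol
            · exact hcol.symm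
            · rfl
        have h8 := hcon _ he
        rw [val_of_ne _ hab, val_of_ne _ hab] at hval
        rw [hval] at h8
        have h9 : ∀ x : ZMod 2, x ≠ 1 + x := by decide
        exact h9 _ h8
    have h7 : (nres F1' (M c) : ℝ) + (nres F2' (M c) : ℝ) ≤ 2 ^ (M c).card := by
      exact_mod_cast h5
    rw [hz]
    linarith
  -- `z` is positive
  have hz0 : 0 < z := by
    have h1 := hclaim (fun _ => ⟨0, by omega⟩)
    have h2 : 0 < (nres F1' (M fun _ => ⟨0, by omega⟩) : ℝ) := by
      exact_mod_cast nres_pos _ hnon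
    by_contra h3
    push Not at h3
    have h4 : z * 2 ^ (M fun _ => ⟨0, by omega⟩).card ≤ 0 :=
      mul_nonpos_of_nonpos_of_nonneg h3 (by positivity)
    linarith
  -- lower bound for the deficits
  have hlow : ∀ c, Real.log (1 / z) ≤ gd F1' (fun G => G) (M c) :=
    fun c => gd_low hSUPP F1' (M c) hnon hz0 (hclaim c)
  -- Shearer
  set N : ℝ := (Fintype.card (V → Fin (r - 1)) : ℝ) with hN
  have hN0 : 0 < N := by
    rw [hN]
    have : Nonempty (V → Fin (r - 1)) := ⟨fun _ => ⟨0, by omega⟩⟩
    exact_mod_cast Fintype.card_pos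
  have hr1 : (0 : ℝ) < ((r - 1 : ℕ) : ℝ) := by
    have : 0 < r - 1 := by omega
    exact_mod_cast this
  have hsh := hSH (Ed V) (V → Fin (r - 1)) univ (gd F1' (fun G => G)) (fun _ => 1) M D
    (N / ((r - 1 : ℕ) : ℝ)) (hINST (Gr V) (Ed V) (ZMod 2) F1' (fun G => G) hnon)
    (fun _ _ => zero_le_one)
    (fun c _ e he => by
      rw [hD, mem_filter]
      exact ⟨mem_univ _, hMR c e he⟩)
    (fun e he => by
      rw [sum_const, nsmul_eq_mul, mul_one, le_div_iff₀ hr1]
      have h1 := count R χ e (mem_filter.1 he).2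
      have h2 : (univ.filter fun c : V → Fin (r - 1) => e ∈ M c).card ≤
          (univ.filter fun c : V → Fin (r - 1) => Mono (col R χ c) e).card := by
        refine card_le_card fun c hc => ?_
        rw [mem_filter] at hc ⊢
        exact ⟨hc.1, (mem_filter.1 hc.2).2.2⟩
      have h3 : (univ.filter fun c : V → Fin (r - 1) => e ∈ M c).card * (r - 1) ≤
          Fintype.card (V → Fin (r - 1)) :=
        le_trans (by rw [mul_comm]; exact Nat.mul_le_mul_left _ h2) h1
      rw [hN]
      have h4 : ((univ.filter fun c : V → Fin (r - 1) => e ∈ M c).card : ℝ) *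
          ((r - 1 : ℕ) : ℝ) ≤ (Fintype.card (V → Fin (r - 1)) : ℝ) := by exact_mod_cast h3
      refine le_trans (le_of_eq ?_) h4
      have h6 : ∀ S T : Finset (V → Fin (r - 1)), (∀ x, x ∈ S ↔ x ∈ T) → ∀ a : ℝ,
          (S.card : ℝ) * a = (T.card : ℝ) * a := by
        intro S T hST a
        rw [Finset.ext hST]
      exact h6 _ _ (fun x => by simp only [mem_filter]) _)
  have h1 : N * Real.log (1 / z) ≤ N / ((r - 1 : ℕ) : ℝ) * gd F1' (fun G => G) D := by
    refine le_trans ?_ hsh
    calc N * Real.log (1 / z) = ∑ _c : V → Fin (r - 1), Real.log (1 / z) := by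
          rw [sum_const, card_univ, nsmul_eq_mul]
      _ ≤ ∑ c : V → Fin (r - 1), 1 * gd F1' (fun G => G) (M c) :=
          sum_le_sum fun c _ => by rw [one_mul]; exact hlow c
  have h2 : ((r - 1 : ℕ) : ℝ) * Real.log (1 / z) ≤ gd F1' (fun G => G) D := by
    have h3 : N / ((r - 1 : ℕ) : ℝ) * (((r - 1 : ℕ) : ℝ) * Real.log (1 / z)) ≤
        N / ((r - 1 : ℕ) : ℝ) * gd F1' (fun G => G) D := by
      refine le_trans (le_of_eq ?_) h1
      field_simp
    exact le_of_mul_le_mul_left h3 (by positivity)
  -- upper bound for the deficit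
  have h3 : gd F1' (fun G => G) D ≤ Real.log (2 ^ D.card / F1'.card) := by
    refine gd_up hSUPP F1' D hnon fun G hG G' hG' h => ?_
    funext e
    by_cases he : e ∈ ins R
    · have a1 := (ag_iff R G K1).1 (mem_filter.1 hG).2 e he
      have a2 := (ag_iff R G' K1).1 (mem_filter.1 hG').2 e he
      rw [a1, a2]
    · exact h e (mem_filter.2 ⟨mem_univ _, he⟩)
  have h5 : (Fintype.card (Gr V) : ℝ) = 2 ^ (ins R).card * 2 ^ D.card := by
    have e1 : (ins R).card + D.card = Fintype.card (Ed V) := by
      rw [hD, ← card_univ, ← card_filter_add_card_filter_not (s := (univ : Finset (Ed V)))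
        (fun e => e ∈ ins R)]
      congr 2
      ext e; simp
    have e2 : Fintype.card (Gr V) = 2 ^ Fintype.card (Ed V) := by simp [Gr, ZMod.card]
    rw [e2, ← e1, pow_add]
    push_cast
    ring
  have h6 : dl r = 1 / 2 ^ (ins R).card := by rw [hc2 R, hR]; rfl
  have hF1c : (0 : ℝ) < (F1'.card : ℝ) := by exact_mod_cast card_pos.2 hnon
  have h7 : rel r F1 R K1 = (F1'.card : ℝ) / 2 ^ D.card := by
    rw [rel, ← hF1', den, h5, h6]; field_simp
  have h8 : ((r - 1 : ℕ) : ℝ) * Real.log (1 / z) ≤ Real.log (1 / rel r F1 R K1) := by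
    refine h2.trans (h3.trans (le_of_eq ?_))
    rw [h7]
    congr 1
    field_simp
  have hrel : 0 < rel r F1 R K1 := by rw [h7]; positivity
  have h9 : Real.log (rel r F1 R K1) ≤ Real.log (z ^ (r - 1)) := by
    rw [Real.log_pow]
    rw [one_div, one_div, Real.log_inv, Real.log_inv] at h8
    linarith
  exact (Real.log_le_log_iff hrel (by positivity)).1 h9

end

end Pool.Agent.EFX
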