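import Pool.Agent.EFX.Targets

set_option autoImplicit false

/-! # MAIN: the bound for many vertices -/

namespace Pool.Agent.EFX

open Finset

open scoped Classical

noncomputable section

private lemma main_small (hSUMN : T_SUMN) (l r n : ℕ) (hN : Num l r) (hn : 2 ^ l ≤ n) :
    2000000000 * ((r : ℝ) ^ 2 + 1) ^ 2 * ∑ j ∈ Ioc (2 ^ l) n, (j : ℝ) ^ (-(4 / 3) : ℝ) <
      1 / 128 := by
  obtain ⟨-, -, -, h⟩ := hN
  have h1 := hSUMN (2 ^ l) n Nat.one_le_two_pow hn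
  push_cast at h1
  set x : ℝ := ((2 : ℝ) ^ l) ^ (-(1 / 3) : ℝ) with hx
  have hx0 : 0 ≤ x := by positivity
  have hr0 : (0 : ℝ) ≤ ((r : ℝ) ^ 2 + 1) ^ 2 := by positivity
  calc 2000000000 * ((r : ℝ) ^ 2 + 1) ^ 2 * ∑ j ∈ Ioc (2 ^ l) n, (j : ℝ) ^ (-(4 / 3) : ℝ)
      ≤ 2000000000 * ((r : ℝ) ^ 2 + 1) ^ 2 * (3 * x) :=
        mul_le_mul_of_nonneg_left h1 (by positivity)
    _ = 6 / 10 ^ 5 * (10 ^ 14 * ((r : ℝ) ^ 2 + 1) ^ 2 * x) := by ring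
    _ ≤ 6 / 10 ^ 5 * 1 := mul_le_mul_of_nonneg_left h (by norm_num)
    _ < 1 / 128 := by norm_num

private lemma main_bd (hSUMN : T_SUMN) (hBDB : T_BDB) (hBDS : T_BDS) (l r n : ℕ) (hN : Num l r)
    (hn : 2 ^ l ≤ n) :
    Bd r n (1 - 1 / 128 + 2000000000 * ((r : ℝ) ^ 2 + 1) ^ 2 *
      ∑ j ∈ Ioc (2 ^ l) n, (j : ℝ) ^ (-(4 / 3) : ℝ)) := by
  induction n, hn using Nat.le_induction with
  | base => simpa using hBDB l r hN
  | succ k hk ih =>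
    have hs := main_small hSUMN l r k hN hk
    have hs' := main_small hSUMN l r (k + 1) hN (hk.trans (Nat.le_succ k))
    have hsum : ∑ j ∈ Ioc (2 ^ l) (k + 1), (j : ℝ) ^ (-(4 / 3) : ℝ) =
        ∑ j ∈ Ioc (2 ^ l) k, (j : ℝ) ^ (-(4 / 3) : ℝ) +
          ((k + 1 : ℕ) : ℝ) ^ (-(4 / 3) : ℝ) := Finset.sum_Ioc_succ_top hk _
    have hnn : 0 ≤ 2000000000 * ((r : ℝ) ^ 2 + 1) ^ 2 *
        ∑ j ∈ Ioc (2 ^ l) k, (j : ℝ) ^ (-(4 / 3) : ℝ) :=
      mul_nonneg (by positivity) (Finset.sum_nonneg fun j _ => by positivity)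
    rw [hsum, mul_add] at hs'
    have h := hBDS l r k _ hN hk (by linarith) (by linarith) ih (by linarith)
    rw [hsum, mul_add, ← add_assoc]
    exact h

theorem p_MAIN : T_SUMN → T_BDB → T_BDS → T_MAIN := by
  intro hSUMN hBDB hBDS V _ l r F1 F2 hN hV hXA
  have h := (main_bd hSUMN hBDB hBDS l r (Fintype.card V) hN hV V F1 F2 rfl hXA).1
  have h1 : 0 ≤ den F1 := by unfold den; positivity
  have h2 : 0 ≤ den F2 := by unfold den; positivity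
  calc den F1 * den F2 = √(den F1 * den F2) ^ 2 := (Real.sq_sqrt (mul_nonneg h1 h2)).symm
    _ ≤ dl r ^ 2 := pow_le_pow_left₀ (Real.sqrt_nonneg _) h 2

end

end Pool.Agent.EFX
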