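import Pool.Agent.EFX.Targets

set_option autoImplicit false
set_option maxHeartbeats 4000000

namespace Pool.Agent.EFX

open Finset

open scoped Classical

noncomputable section

namespace ML_

/-- Number of the `p`-subsets of `W` that contain `e`. -/
theorem count {V : Type} (W e : Finset V) (he : e ⊆ W) (p : ℕ) (hp : e.card ≤ p) :
    ((powersetCard p W).filter (fun P => e ⊆ P)).card =
      (W.card - e.card).choose (p - e.card) := by
  have h1 : (powersetCard p W).filter (fun P => e ⊆ P) =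
      (powersetCard (p - e.card) (W \ e)).image (fun Q => Q ∪ e) := by
    ext P
    simp only [Finset.mem_filter, Finset.mem_powersetCard, Finset.mem_image]
    constructor
    · rintro ⟨⟨hPW, hPc⟩, heP⟩
      refine ⟨P \ e, ⟨Finset.sdiff_subset_sdiff hPW (Finset.Subset.refl e), ?_⟩, ?_⟩
      · rw [Finset.card_sdiff_of_subset heP, hPc]
      · exact Finset.sdiff_union_of_subset heP
    · rintro ⟨Q, ⟨hQ, hQc⟩, rfl⟩
      have hd : Disjoint Q e := by
        rw [Finset.disjoint_left]
        intro z hz hze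
        exact (Finset.mem_sdiff.mp (hQ hz)).2 hze
      refine ⟨⟨Finset.union_subset (hQ.trans Finset.sdiff_subset) he, ?_⟩,
        Finset.subset_union_right⟩
      rw [Finset.card_union_of_disjoint hd, hQc]
      omega
  rw [h1, Finset.card_image_of_injOn, Finset.card_powersetCard,
    Finset.card_sdiff_of_subset he]
  intro Q hQ Q' hQ' h
  have hQ1 := (Finset.mem_powersetCard.mp (Finset.mem_coe.mp hQ)).1
  have hQ1' := (Finset.mem_powersetCard.mp (Finset.mem_coe.mp hQ')).1
  have hd : ∀ R : Finset V, R ⊆ W \ e → (R ∪ e) \ e = R := by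
    intro R hR
    refine Finset.union_sdiff_cancel_right ?_
    rw [Finset.disjoint_left]
    intro z hz hze
    exact (Finset.mem_sdiff.mp (hR hz)).2 hze
  rw [← hd Q hQ1, ← hd Q' hQ1']
  exact congrArg (fun R => R \ e) h

theorem inner_sum {V : Type} (W P : Finset V) (hPW : P ⊆ W) (h : V → V → ℝ) :
    ∑ x ∈ P, ∑ y ∈ P.erase x, h x y =
      ∑ x ∈ W, ∑ y ∈ W.erase x, if ({x, y} : Finset V) ⊆ P then h x y else 0 := by
  rw [← Finset.sum_subset hPW]
  · refine Finset.sum_congr rfl fun x hx => ?_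
    rw [← Finset.sum_filter]
    refine Finset.sum_congr ?_ fun _ _ => rfl
    ext y
    simp only [Finset.mem_erase, Finset.mem_filter, Finset.insert_subset_iff,
      Finset.singleton_subset_iff]
    constructor
    · rintro ⟨h1, h2⟩
      exact ⟨⟨h1, hPW h2⟩, hx, h2⟩
    · rintro ⟨⟨h1, -⟩, -, h2⟩
      exact ⟨h1, h2⟩
  · intro x _ hxP
    refine Finset.sum_eq_zero fun y _ => ?_
    rw [if_neg]
    intro hcon
    exact hxP (hcon (Finset.mem_insert_self _ _))

theorem double_count {V : Type} (W : Finset V) (p : ℕ) (hp : 2 ≤ p) (h : V → V → ℝ) :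
    ∑ P ∈ powersetCard p W, ∑ x ∈ P, ∑ y ∈ P.erase x, h x y =
      ((W.card - 2).choose (p - 2) : ℝ) * ∑ x ∈ W, ∑ y ∈ W.erase x, h x y := by
  have h1 : ∑ P ∈ powersetCard p W, ∑ x ∈ P, ∑ y ∈ P.erase x, h x y =
      ∑ P ∈ powersetCard p W, ∑ x ∈ W, ∑ y ∈ W.erase x,
        if ({x, y} : Finset V) ⊆ P then h x y else 0 :=
    Finset.sum_congr rfl fun P hP => inner_sum W P (Finset.mem_powersetCard.mp hP).1 h
  rw [h1, Finset.sum_comm, Finset.mul_sum]
  refine Finset.sum_congr rfl fun x hx => ?_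
  rw [Finset.sum_comm, Finset.mul_sum]
  refine Finset.sum_congr rfl fun y hy => ?_
  have hxy : y ≠ x := Finset.ne_of_mem_erase hy
  have hyW : y ∈ W := Finset.mem_of_mem_erase hy
  have hc : ({x, y} : Finset V).card = 2 := Finset.card_pair hxy.symm
  have hsub : ({x, y} : Finset V) ⊆ W := by
    intro z hz
    rcases Finset.mem_insert.mp hz with rfl | hz
    · exact hx
    · rw [Finset.mem_singleton.mp hz]; exact hyW
  rw [← Finset.sum_filter, Finset.sum_const, nsmul_eq_mul, count W {x, y} hsub p (by omega), hc]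

theorem spm_mono {ι : Type} [Fintype ι] (g : Finset ι → ℝ) (hg : Spm g) (J : Finset ι) :
    g J ≤ g univ := by
  obtain ⟨h0, h1, h2⟩ := hg
  have h := h2 J (univ \ J)
  rw [Finset.union_sdiff_of_subset (Finset.subset_univ J)] at h
  have h3 : J ∩ (univ \ J) = ∅ := by
    rw [← Finset.disjoint_iff_inter_eq_empty]
    exact Finset.disjoint_sdiff
  rw [h3, h0] at h
  have := h1 (univ \ J)
  linarith

theorem fib_le_one {α β : Type} (A : Finset α) (f : α → β) (hf : Function.Injective f) (s : β)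
    (D : DecidablePred (fun w => f w = s)) :
    (((@Finset.filter α (fun w => f w = s) D A).card : ℕ) : ℝ) ≤ 1 := by
  have : (@Finset.filter α (fun w => f w = s) D A).card ≤ 1 := by
    refine Finset.card_le_one.mpr fun a ha b hb => ?_
    exact hf ((Finset.mem_filter.mp ha).2.trans (Finset.mem_filter.mp hb).2.symm)
  exact_mod_cast this

theorem supp_le' (hSUPP : T_SUPP) {α S : Type} (A : Finset α) (X : α → S) (hA : A.Nonempty)
    (hX : Function.Injective X) (c : ℕ) (hc : ∀ I : Fintype S, @Fintype.card S I = c)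
    (I : Fintype S) : @df α S I A X ≤ Real.log ((c : ℝ) / (A.card : ℝ)) := by
  have h := (hSUPP α S A X hA).1 1 one_pos (fun s => fib_le_one A X hX s _)
  rw [hc, mul_one] at h
  exact h

end ML_

open ML_

theorem p_ML : T_HELB → T_EQUIV → T_SUPP → T_SH → T_INST → T_CARD → T_MLP → T_ML := by
  intro _ _ hSUPP hSH hINST _ hMLP V _ A W p hA hp hpW
  set g : Finset (Ed V) → ℝ := gd A (fun G => G) with hg
  have hSpm : Spm g := hINST (Gr V) (Ed V) (ZMod 2) A (fun G => G) hA
  -- the total deficit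
  have htot : g univ ≤ ld A := by
    have hinj : Function.Injective
        (fun (w : Gr V) => fun i : {i : Ed V // i ∈ (univ : Finset (Ed V))} => w i) := by
      intro a b hab
      funext e
      exact congrFun hab ⟨e, Finset.mem_univ e⟩
    have hcard : ∀ I : Fintype ({e : Ed V // e ∈ (univ : Finset (Ed V))} → ZMod 2),
        @Fintype.card _ I = Fintype.card (Gr V) := fun I =>
      @Fintype.card_congr _ _ I _ (Equiv.arrowCongr
        (Equiv.subtypeUnivEquiv fun e => Finset.mem_univ e) (Equiv.refl (ZMod 2)))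
    have h1 := supp_le' hSUPP A
      (fun (w : Gr V) => fun i : {i : Ed V // i ∈ (univ : Finset (Ed V))} => w i) hA hinj
      (Fintype.card (Gr V)) hcard
    unfold ld den
    rw [← Real.log_inv, inv_div]
    exact h1 _
  -- Shearer
  have hsh := hSH (Ed V) (Finset V) (powersetCard p W) g (fun _ => 1) ins (ins W)
    ((W.card - 2).choose (p - 2) : ℝ) hSpm (fun _ _ => zero_le_one)
    (fun P hP e he => by
      unfold ins at he ⊢
      rw [Finset.mem_filter] at he ⊢
      exact ⟨he.1, he.2.trans (Finset.mem_powersetCard.mp hP).1⟩)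
    (fun e he => by
      have heW : e.1 ⊆ W := by
        unfold ins at he
        exact (Finset.mem_filter.mp he).2
      refine le_of_eq ?_
      rw [Finset.sum_const, nsmul_eq_mul, mul_one]
      have h2 := count W e.1 heW p (by rw [e.2]; exact hp)
      rw [e.2] at h2
      rw [← h2]
      congr 2
      ext P
      simp only [Finset.mem_filter, ins, Finset.mem_univ, true_and])
  simp only [one_mul] at hsh
  -- sum of MLP
  have hsum : ∑ P ∈ powersetCard p W, ∑ x ∈ P, ∑ y ∈ P.erase x, hel A (cs x y) ≤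
      ∑ P ∈ powersetCard p W, (10 * (p : ℝ) * g (ins P) + 12200 * (ld A + 1) ^ 2) := by
    refine Finset.sum_le_sum fun P hP => ?_
    have h1 := hMLP V A P hA
    rw [(Finset.mem_powersetCard.mp hP).2] at h1
    exact h1
  rw [double_count W p hp, Finset.sum_add_distrib, ← Finset.mul_sum, Finset.sum_const,
    nsmul_eq_mul, Finset.card_powersetCard] at hsum
  set N : ℝ := ((W.card - 2).choose (p - 2) : ℝ) with hN
  have hNpos : 0 < N := by
    rw [hN]
    exact_mod_cast Nat.choose_pos (by omega)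
  set X : ℝ := ∑ x ∈ W, ∑ y ∈ W.erase x, hel A (cs x y) with hX
  have hchoose : (W.card.choose p : ℝ) ≤ 2 * ((W.card : ℝ) / p) ^ 2 * N := by
    have h1 := Nat.choose_mul (n := W.card) (k := p) (s := 2) hp
    have h2 : (W.card.choose p : ℝ) * ((p : ℝ) * (p - 1) / 2) =
        ((W.card : ℝ) * (W.card - 1) / 2) * N := by
      rw [← Nat.cast_choose_two, ← Nat.cast_choose_two, hN]
      exact_mod_cast h1
    have hpR : (2 : ℝ) ≤ p := by exact_mod_cast hp
    have hWR : (p : ℝ) ≤ W.card := by exact_mod_cast hpW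
    have h3 : (W.card.choose p : ℝ) * (p : ℝ) ^ 2 ≤ 2 * (W.card : ℝ) ^ 2 * N := by
      have h4 : (0 : ℝ) ≤ (W.card.choose p : ℝ) := Nat.cast_nonneg _
      have h5 : (W.card.choose p : ℝ) * (p : ℝ) ^ 2 ≤
          4 * ((W.card.choose p : ℝ) * ((p : ℝ) * (p - 1) / 2)) := by
        have : (p : ℝ) ^ 2 ≤ 2 * (p * (p - 1)) := by nlinarith
        nlinarith
      rw [h2] at h5
      have h6 : (W.card : ℝ) * (W.card - 1) ≤ (W.card : ℝ) ^ 2 := by nlinarith
      nlinarith
    have hp0 : (0 : ℝ) < (p : ℝ) ^ 2 := by positivity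
    rw [div_pow]
    have h7 : 2 * ((W.card : ℝ) ^ 2 / (p : ℝ) ^ 2) * N = (2 * (W.card : ℝ) ^ 2 * N) / (p : ℝ) ^ 2 := by
      ring
    rw [h7, le_div_iff₀ hp0]
    exact h3
  have hgW : g (ins W) ≤ ld A := (spm_mono g hSpm _).trans htot
  have hp0 : (0 : ℝ) ≤ 10 * (p : ℝ) := by positivity
  have hfin : N * X ≤ N * (10 * (p : ℝ) * ld A + 24400 * (ld A + 1) ^ 2 *
      ((W.card : ℝ) / p) ^ 2) := by
    calc N * X ≤ 10 * (p : ℝ) * ∑ P ∈ powersetCard p W, g (ins P) +
          (W.card.choose p : ℝ) * (12200 * (ld A + 1) ^ 2) := hsum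
      _ ≤ 10 * (p : ℝ) * (N * g (ins W)) +
          (2 * ((W.card : ℝ) / p) ^ 2 * N) * (12200 * (ld A + 1) ^ 2) := by
          gcongr
      _ ≤ 10 * (p : ℝ) * (N * ld A) +
          (2 * ((W.card : ℝ) / p) ^ 2 * N) * (12200 * (ld A + 1) ^ 2) := by
          gcongr
      _ = _ := by ring
  exact le_of_mul_le_mul_left hfin hNpos

end

end Pool.Agent.EFX
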