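import Pool.Agent.EFX.Targets

set_option autoImplicit false

namespace Pool.Agent.EFX

open Finset

open scoped Classical

noncomputable section

namespace MLP_

variable {V : Type}

lemma val_of_ne (G : Gr V) {a b : V} (h : a ≠ b) : val G a b = G ⟨{a, b}, card_pair h⟩ :=
  dif_pos h

lemma val_self (G : Gr V) (a : V) : val G a a = 0 := by
  unfold val
  simp

/-- rows outside `P` -/
def row (P : Finset V) (G : Gr V) (x : {x : V // x ∈ P}) : {z : V // z ∉ P} → ZMod 2 :=
  fun z => val G x z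

/-- the pairs inside `P` -/
def yy [Fintype V] (P : Finset V) (G : Gr V) : {e : Ed V // e ∈ ins P} → ZMod 2 := fun e => G e

/-- glue -/
def glue (P : Finset V) (x : V)
    (p : ({z : V // z ∈ P ∧ z ≠ x} → ZMod 2) × ({z : V // z ∉ P} → ZMod 2)) :
    {z : V // z ≠ x} → ZMod 2 :=
  fun z => if h : (z : V) ∈ P then p.1 ⟨z, h, z.2⟩ else p.2 ⟨z, h⟩

lemma glue_bij (P : Finset V) (x : V) (hx : x ∈ P) : Function.Bijective (glue P x) := by
  constructor
  · intro p q h
    apply Prod.ext
    · funext z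
      have := congrFun h ⟨z, z.2.2⟩
      simp only [glue] at this
      rw [dif_pos z.2.1, dif_pos z.2.1] at this
      exact this
    · funext z
      have hne : (z : V) ≠ x := fun e => z.2 (e ▸ hx)
      have := congrFun h ⟨z, hne⟩
      simp only [glue] at this
      rw [dif_neg z.2, dif_neg z.2] at this
      exact this
  · intro g
    refine ⟨(fun z => g ⟨z, z.2.2⟩, fun z => g ⟨z, fun e => z.2 (e ▸ hx)⟩), ?_⟩
    funext z
    simp only [glue]
    split_ifs <;> rfl

/-- sums of two rows -/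
def ww (P : Finset V) (x y : V) (G : Gr V) : {z : V // z ∉ P} → ZMod 2 :=
  fun z => val G x z + val G y z

lemma glue_eq (P : Finset V) (x y : V) (G : Gr V) :
    glue P x (ux P x y G, ww P x y G) = cs x y G := by
  funext z
  simp only [glue, ux, ww, cs]
  split_ifs <;> rfl

lemma val_eq_of_yy [Fintype V] (P : Finset V) (G H : Gr V) (h : yy P G = yy P H) (a b : V)
    (ha : a ∈ P) (hb : b ∈ P) : val G a b = val H a b := by
  by_cases hab : a = b
  · subst hab
    rw [val_self, val_self]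
  · rw [val_of_ne G hab, val_of_ne H hab]
    have hm : (⟨{a, b}, card_pair hab⟩ : Ed V) ∈ ins P := by
      simp only [ins, mem_filter, mem_univ, true_and]
      intro z hz
      simp only [mem_insert, mem_singleton] at hz
      rcases hz with rfl | rfl <;> assumption
    exact congrFun h ⟨_, hm⟩

lemma det [Fintype V] (P : Finset V) (G H : Gr V) (h1 : yy P G = yy P H)
    (h2 : row P G = row P H) (h3 : yy Pᶜ G = yy Pᶜ H) : G = H := by
  funext e
  obtain ⟨e, he⟩ := e
  obtain ⟨a, b, hab, rfl⟩ := card_eq_two.1 he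
  have key : val G a b = val H a b := by
    by_cases ha : a ∈ P
    · by_cases hb : b ∈ P
      · exact val_eq_of_yy P G H h1 a b ha hb
      · exact congrFun (congrFun h2 ⟨a, ha⟩) ⟨b, hb⟩
    · by_cases hb : b ∈ P
      · have := congrFun (congrFun h2 ⟨b, hb⟩) ⟨a, ha⟩
        simp only [row] at this
        rw [val_of_ne G hab.symm, val_of_ne H hab.symm] at this
        rw [val_of_ne G hab, val_of_ne H hab]
        have e : (⟨{a, b}, card_pair hab⟩ : Ed V) = ⟨{b, a}, card_pair hab.symm⟩ :=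
          Subtype.ext (pair_comm a b)
        rw [e]
        exact this
      · exact val_eq_of_yy Pᶜ G H h3 a b (by simpa using ha) (by simpa using hb)
  rw [val_of_ne G hab, val_of_ne H hab] at key
  exact key

lemma ux_factor [Fintype V] (P : Finset V) (x y : V) (hx : x ∈ P) (hy : y ∈ P) :
    ∃ φ : ({e : Ed V // e ∈ ins P} → ZMod 2) → ({z : V // z ∈ P ∧ z ≠ x} → ZMod 2),
      ∀ G : Gr V, ux P x y G = φ (yy P G) := by
  have hf : Function.FactorsThrough (ux P x y) (yy P : Gr V → _) := by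
    intro G H h
    funext z
    simp only [ux]
    rw [val_eq_of_yy P G H h x z hx z.2.1, val_eq_of_yy P G H h y z hy z.2.1]
  obtain ⟨φ, hφ⟩ := (Function.factorsThrough_iff _).1 hf
  exact ⟨φ, fun G => congrFun hφ G⟩

lemma fibre_card [Fintype V] (P : Finset V) (A : Finset (Gr V))
    (c : {e : Ed V // e ∈ ins P} → ZMod 2)
    (v : {x : V // x ∈ P} → {z : V // z ∉ P} → ZMod 2)
    (dec : DecidablePred fun G : Gr V => row P G = v) :
    (@Finset.filter _ (fun G => row P G = v) dec (at' A (yy P) c)).card ≤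
      2 ^ (ins (Pᶜ : Finset V)).card := by
  have h : (@Finset.filter _ (fun G => row P G = v) dec (at' A (yy P) c)).card ≤
      (univ : Finset ({e : Ed V // e ∈ ins (Pᶜ : Finset V)} → ZMod 2)).card := by
    apply card_le_card_of_injOn (yy Pᶜ) (fun _ _ => mem_coe.2 (mem_univ _))
    intro G hG H hH hGH
    simp only [at', coe_filter, mem_filter, Set.mem_ofPred_eq] at hG hH
    exact det P G H (hG.1.2.trans hH.1.2.symm) (hG.2.trans hH.2.symm) hGH
  refine h.trans (le_of_eq ?_)
  rw [card_univ, Fintype.card_fun, ZMod.card, Fintype.card_coe]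

lemma at_card [Fintype V] (P : Finset V) (A : Finset (Gr V))
    (c : {e : Ed V // e ∈ ins P} → ZMod 2) :
    (at' A (yy P) c).card ≤
      Fintype.card ({z : V // z ∉ P} → ZMod 2) ^ Fintype.card {x : V // x ∈ P} *
        2 ^ (ins (Pᶜ : Finset V)).card := by
  have h := card_le_mul_card_image_of_maps_to (s := at' A (yy P) c)
    (t := (univ : Finset ({x : V // x ∈ P} → {z : V // z ∉ P} → ZMod 2))) (f := row P)
    (fun _ _ => mem_univ _) (2 ^ (ins (Pᶜ : Finset V)).card) (fun v _ => fibre_card P A c v _)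
  rw [card_univ, Fintype.card_fun] at h
  rw [mul_comm]
  exact h

lemma choose_two_add (p q : ℕ) :
    (p + q).choose 2 = q * p + q.choose 2 + p.choose 2 := by
  have : ((p + q).choose 2 : ℚ) = ((q * p + q.choose 2 + p.choose 2 : ℕ) : ℚ) := by
    push_cast
    rw [Nat.cast_choose_two, Nat.cast_choose_two, Nat.cast_choose_two]
    push_cast
    ring
  exact_mod_cast this

lemma total [Fintype V] (h : T_CARD) (P : Finset V) :
    Fintype.card ({z : V // z ∉ P} → ZMod 2) ^ Fintype.card {x : V // x ∈ P} *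
        2 ^ (ins (Pᶜ : Finset V)).card * Fintype.card ({e : Ed V // e ∈ ins P} → ZMod 2) =
      Fintype.card (Gr V) := by
  obtain ⟨h1, h2, -⟩ := h V
  have hq : Fintype.card {z : V // z ∉ P} = (Pᶜ : Finset V).card :=
    Fintype.card_of_subtype Pᶜ (fun z => mem_compl)
  have hv : Fintype.card V = P.card + (Pᶜ : Finset V).card := (card_add_card_compl P).symm
  rw [h1, Fintype.card_fun, Fintype.card_fun, ZMod.card, Fintype.card_coe, Fintype.card_coe,
    h2, h2, hq, hv, choose_two_add, ← pow_mul, ← pow_add, ← pow_add]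

lemma sum_swap (P : Finset V) (F : V → V → ℝ) :
    ∑ x : {x : V // x ∈ P}, (∑ y : {x : V // x ∈ P}, F x y - F x x) =
      ∑ x ∈ P, ∑ y ∈ P.erase x, F x y := by
  rw [← sum_coe_sort P]
  apply sum_congr rfl
  intro x _
  rw [sum_erase_eq_sub x.2, ← sum_coe_sort P]

lemma rows [Fintype V] (h : T_ROWS) (P : Finset V) (A : Finset (Gr V))
    (c : {e : Ed V // e ∈ ins P} → ZMod 2) (hne : (at' A (yy P) c).Nonempty) :
    ∑ x ∈ P, ∑ y ∈ P.erase x, hel (at' A (yy P) c) (ww P x y) ≤
      5000 * (Real.log ((((Fintype.card ({z : V // z ∉ P} → ZMod 2) ^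
        Fintype.card {x : V // x ∈ P} * 2 ^ (ins (Pᶜ : Finset V)).card : ℕ) : ℝ)) /
          ((at' A (yy P) c).card : ℝ)) + 1) ^ 2 := by
  have h1 := h (Gr V) {x : V // x ∈ P} ({z : V // z ∉ P} → ZMod 2) (at' A (yy P) c) (row P)
    (2 ^ (ins (Pᶜ : Finset V)).card) hne (fun v => fibre_card P A c v _)
  simp only [sum_erase_eq_sub (mem_univ _)] at h1
  have e : ∑ x : {x : V // x ∈ P}, (∑ y : {x : V // x ∈ P},
      hel (at' A (yy P) c) (ww P x y) - hel (at' A (yy P) c) (ww P x x)) =
      ∑ x ∈ P, ∑ y ∈ P.erase x, hel (at' A (yy P) c) (ww P x y) :=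
    sum_swap P (fun x y => hel (at' A (yy P) c) (ww P x y))
  rw [← e]
  refine le_trans (le_of_eq ?_) (h1.trans (le_of_eq ?_))
  · rfl
  · push_cast
    rfl

end MLP_

open MLP_

theorem p_MLP : T_HELB → T_EQUIV → T_CHH → T_CCE → T_ROWS → T_STAR → T_VAL → T_CARD →
    T_MLP := by
  intro hHELB hEQ hCHH hCCE hROWS hSTAR _ hCARD V _ A P hA
  set N : ℕ := Fintype.card ({z : V // z ∉ P} → ZMod 2) ^ Fintype.card {x : V // x ∈ P} *
    2 ^ (ins (Pᶜ : Finset V)).card with hN
  -- the pointwise bound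
  have h1 : ∀ x ∈ P, ∀ y ∈ P.erase x, hel A (cs x y) ≤ 5 * df A (ux P x y) +
      2 * ∑ t, pr A (yy P) t * hel (at' A (yy P) t) (ww P x y) := by
    intro x hx y hy
    have hyP : y ∈ P := mem_of_mem_erase hy
    have e1 : hel A (cs x y) = hel A (fun G => (ux P x y G, ww P x y G)) := by
      have := (hEQ (Gr V) _ _ A (fun G => (ux P x y G, ww P x y G)) (glue P x)
        (glue_bij P x hx)).1
      rw [← this]
      congr 1
      funext G
      exact (glue_eq P x y G).symm
    obtain ⟨φ, hφ⟩ := ux_factor P x y hx hyP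
    have e2 := hCHH (Gr V) _ _ _ A (ux P x y) (ww P x y) (yy P) hA ⟨φ, fun w _ => hφ w⟩
    have e3 := (hHELB (Gr V) _ A (ux P x y) hA).2.2.2.2.2.2.2
    rw [e1]
    linarith
  -- first part
  have h2 : ∑ x ∈ P, ∑ y ∈ P.erase x, df A (ux P x y) ≤
      (P.card : ℝ) * (2 * gd A (fun G => G) (ins P)) := by
    calc ∑ x ∈ P, ∑ y ∈ P.erase x, df A (ux P x y)
        ≤ ∑ _x ∈ P, 2 * gd A (fun G => G) (ins P) :=
          sum_le_sum fun x hx => hSTAR V A P x hA hx
      _ = (P.card : ℝ) * (2 * gd A (fun G => G) (ins P)) := by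
          rw [sum_const, nsmul_eq_mul]
  -- second part
  have h3 : ∑ t, pr A (yy P) t * ∑ x ∈ P, ∑ y ∈ P.erase x, hel (at' A (yy P) t) (ww P x y) ≤
      5000 * (ld A + 1) ^ 2 := by
    have h4 : ∀ t, pr A (yy P) t *
        ∑ x ∈ P, ∑ y ∈ P.erase x, hel (at' A (yy P) t) (ww P x y) ≤
        5000 * (pr A (yy P) t *
          (Real.log ((N : ℝ) / ((at' A (yy P) t).card : ℝ)) + 1) ^ 2) := by
      intro t
      rcases (at' A (yy P) t).eq_empty_or_nonempty with h0 | h0
      · have : pr A (yy P) t = 0 := by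
          unfold pr
          unfold at' at h0
          rw [h0]
          simp
        rw [this]
        simp
      · have := mul_le_mul_of_nonneg_left (rows hROWS P A t h0)
          ((hHELB (Gr V) _ A (yy P) hA).1 t)
        calc pr A (yy P) t * ∑ x ∈ P, ∑ y ∈ P.erase x, hel (at' A (yy P) t) (ww P x y)
            ≤ pr A (yy P) t * (5000 *
              (Real.log ((N : ℝ) / ((at' A (yy P) t).card : ℝ)) + 1) ^ 2) := this
          _ = _ := by ring
    have h5 := hCCE (Gr V) _ A (yy P) (N : ℝ) 1 hA le_rfl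
      (fun t => by exact_mod_cast at_card P A t)
    have h6 : Real.log ((N : ℝ) *
        (Fintype.card ({e : Ed V // e ∈ ins P} → ZMod 2) : ℝ) / (A.card : ℝ)) = ld A := by
      have h7 : (N : ℝ) * (Fintype.card ({e : Ed V // e ∈ ins P} → ZMod 2) : ℝ) =
          (Fintype.card (Gr V) : ℝ) := by
        exact_mod_cast total hCARD P
      rw [h7, ld, den, ← Real.log_inv, inv_div]
    rw [h6] at h5
    calc ∑ t, pr A (yy P) t * ∑ x ∈ P, ∑ y ∈ P.erase x, hel (at' A (yy P) t) (ww P x y)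
        ≤ ∑ t, 5000 * (pr A (yy P) t *
          (Real.log ((N : ℝ) / ((at' A (yy P) t).card : ℝ)) + 1) ^ 2) :=
          sum_le_sum fun t _ => h4 t
      _ = 5000 * ∑ t, pr A (yy P) t *
          (Real.log ((N : ℝ) / ((at' A (yy P) t).card : ℝ)) + 1) ^ 2 := by rw [mul_sum]
      _ ≤ 5000 * (ld A + 1) ^ 2 := mul_le_mul_of_nonneg_left h5 (by norm_num)
  have h8 : ∑ x ∈ P, ∑ y ∈ P.erase x,
      ∑ t, pr A (yy P) t * hel (at' A (yy P) t) (ww P x y) =
      ∑ t, pr A (yy P) t * ∑ x ∈ P, ∑ y ∈ P.erase x, hel (at' A (yy P) t) (ww P x y) := by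
    have h9 : ∀ x ∈ P, ∑ y ∈ P.erase x,
        ∑ t, pr A (yy P) t * hel (at' A (yy P) t) (ww P x y) =
        ∑ t, ∑ y ∈ P.erase x, pr A (yy P) t * hel (at' A (yy P) t) (ww P x y) :=
      fun x _ => sum_comm
    rw [sum_congr rfl h9, sum_comm]
    apply sum_congr rfl
    intro t _
    rw [mul_sum]
    apply sum_congr rfl
    intro x _
    rw [mul_sum]
  calc ∑ x ∈ P, ∑ y ∈ P.erase x, hel A (cs x y)
      ≤ ∑ x ∈ P, ∑ y ∈ P.erase x, (5 * df A (ux P x y) +
        2 * ∑ t, pr A (yy P) t * hel (at' A (yy P) t) (ww P x y)) :=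
        sum_le_sum fun x hx => sum_le_sum fun y hy => h1 x hx y hy
    _ = 5 * ∑ x ∈ P, ∑ y ∈ P.erase x, df A (ux P x y) + 2 * ∑ x ∈ P, ∑ y ∈ P.erase x,
        ∑ t, pr A (yy P) t * hel (at' A (yy P) t) (ww P x y) := by
        simp only [sum_add_distrib, ← mul_sum]
    _ ≤ 5 * ((P.card : ℝ) * (2 * gd A (fun G => G) (ins P))) +
        2 * (5000 * (ld A + 1) ^ 2) := by
        rw [h8]
        linarith
    _ ≤ 10 * (P.card : ℝ) * gd A (fun G => G) (ins P) + 12200 * (ld A + 1) ^ 2 := by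
        nlinarith [sq_nonneg (ld A + 1)]

end

end Pool.Agent.EFX
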