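import Pool.Agent.EFX.Targets

set_option autoImplicit false

namespace Pool.Agent.EFX

open Finset

namespace NUMX_

lemma pow24 (l : ℕ) (hl : 500 ≤ l) : (l + 2 : ℕ) ^ 24 ≤ 2 * (l + 1) ^ 24 := by
  have h5 : 500 * (l + 2) ≤ 501 * (l + 1) := by omega
  have h6 : (500 * (l + 2)) ^ 24 ≤ (501 * (l + 1)) ^ 24 := Nat.pow_le_pow_left h5 24
  rw [mul_pow, mul_pow] at h6
  have h7 : (501 : ℕ) ^ 24 ≤ 500 ^ 24 * 2 := by norm_num
  have h8 : 500 ^ 24 * (l + 2) ^ 24 ≤ 500 ^ 24 * (2 * (l + 1) ^ 24) := by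
    calc 500 ^ 24 * (l + 2) ^ 24 ≤ 501 ^ 24 * (l + 1) ^ 24 := h6
      _ ≤ (500 ^ 24 * 2) * (l + 1) ^ 24 := Nat.mul_le_mul_right _ h7
      _ = 500 ^ 24 * (2 * (l + 1) ^ 24) := by ring
  exact Nat.le_of_mul_le_mul_left h8 (by norm_num)

lemma growth (l : ℕ) (hl : 500 ≤ l) : 10 ^ 42 * (1601 ^ 6 * (l + 1) ^ 24) ≤ 2 ^ l := by
  induction l, hl using Nat.le_induction with
  | base =>
    have h : (2 : ℕ) ^ 500 = (2 ^ 250) ^ 2 := by rw [← pow_mul]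
    rw [h]
    norm_num
  | succ l hl ih =>
    calc 10 ^ 42 * (1601 ^ 6 * (l + 1 + 1) ^ 24)
        ≤ 10 ^ 42 * (1601 ^ 6 * (2 * (l + 1) ^ 24)) := by
          apply Nat.mul_le_mul_left
          apply Nat.mul_le_mul_left
          exact pow24 l hl
      _ = 2 * (10 ^ 42 * (1601 ^ 6 * (l + 1) ^ 24)) := by ring
      _ ≤ 2 * 2 ^ l := Nat.mul_le_mul_left _ ih
      _ = 2 ^ (l + 1) := by ring

lemma cube_root (y : ℝ) (hy : 0 ≤ y) : y = (y ^ 3) ^ ((1 / 3 : ℝ)) := by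
  rw [← Real.rpow_natCast, ← Real.rpow_mul hy]
  norm_num

end NUMX_

open NUMX_

/-- the numerical condition holds for `r ≥ 10^7` -/
theorem p_NUMX : ∀ r : ℕ, 10000000 ≤ r → ∃ l : ℕ, Num l r := by
  intro r hr
  obtain ⟨l, hl⟩ : ∃ l, l = Nat.sqrt (r / 40) := ⟨_, rfl⟩
  have h1 : l * l ≤ r / 40 := by rw [hl]; exact Nat.sqrt_le _
  have h2 : r / 40 < (l + 1) * (l + 1) := by rw [hl]; exact Nat.lt_succ_sqrt _
  have h3 : 500 ≤ l := by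
    rw [hl, Nat.le_sqrt]
    omega
  have h4 : r ≤ 40 * ((l + 1) * (l + 1)) := by omega
  have h5 : 40 * l ^ 2 ≤ r := by
    rw [pow_two]; omega
  have hg := growth l h3
  refine ⟨l, by omega, h5, ?_, ?_⟩
  · have e1 : (l + 1) * (l + 1) ≤ (l + 1) ^ 24 := by
      rw [← pow_two]
      exact Nat.pow_le_pow_right (by omega) (by norm_num)
    have e2 : 1 ≤ (l + 1) ^ 24 := Nat.one_le_pow _ _ (by omega)
    have e3 : 2 * r + 10 ≤ 90 * (l + 1) ^ 24 := by omega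
    refine e3.trans (le_trans ?_ hg)
    rw [← mul_assoc]
    apply Nat.mul_le_mul_right
    norm_num
  · have hr' : (r : ℝ) ^ 2 + 1 ≤ 1601 * ((l : ℝ) + 1) ^ 4 := by
      have e1 : (r : ℝ) ≤ 40 * (((l : ℝ) + 1) * ((l : ℝ) + 1)) := by exact_mod_cast h4
      have e2 : (0 : ℝ) ≤ r := by positivity
      have e3 : (r : ℝ) ^ 2 ≤ (40 * (((l : ℝ) + 1) * ((l : ℝ) + 1))) ^ 2 :=
        pow_le_pow_left₀ e2 e1 2
      have e4 : (1 : ℝ) ≤ ((l : ℝ) + 1) ^ 4 := one_le_pow₀ (by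
        have : (0 : ℝ) ≤ l := by positivity
        linarith)
      nlinarith
    have hq : ((r : ℝ) ^ 2 + 1) ^ 2 ≤ (1601 * ((l : ℝ) + 1) ^ 4) ^ 2 :=
      pow_le_pow_left₀ (by positivity) hr' 2
    have hC : 10 ^ 14 * ((r : ℝ) ^ 2 + 1) ^ 2 ≤ ((2 : ℝ) ^ l) ^ ((1 / 3 : ℝ)) := by
      have e1 : (10 ^ 14 * ((r : ℝ) ^ 2 + 1) ^ 2) ^ 3 ≤ (2 : ℝ) ^ l := by
        calc (10 ^ 14 * ((r : ℝ) ^ 2 + 1) ^ 2) ^ 3
            ≤ (10 ^ 14 * (1601 * ((l : ℝ) + 1) ^ 4) ^ 2) ^ 3 := by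
              apply pow_le_pow_left₀ (by positivity)
              exact mul_le_mul_of_nonneg_left hq (by positivity)
          _ = 10 ^ 42 * (1601 ^ 6 * ((l : ℝ) + 1) ^ 24) := by ring
          _ ≤ 2 ^ l := by exact_mod_cast hg
      have e2 : (0 : ℝ) ≤ 10 ^ 14 * ((r : ℝ) ^ 2 + 1) ^ 2 := by positivity
      calc 10 ^ 14 * ((r : ℝ) ^ 2 + 1) ^ 2
          = ((10 ^ 14 * ((r : ℝ) ^ 2 + 1) ^ 2) ^ 3) ^ ((1 / 3 : ℝ)) := cube_root _ e2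
        _ ≤ _ := Real.rpow_le_rpow (by positivity) e1 (by norm_num)
    have hpos : (0 : ℝ) < ((2 : ℝ) ^ l) ^ ((1 / 3 : ℝ)) := by positivity
    have e3 : ((2 : ℝ) ^ l) ^ (-(1 / 3) : ℝ) = 1 / ((2 : ℝ) ^ l) ^ ((1 / 3 : ℝ)) := by
      rw [Real.rpow_neg (by positivity)]
      ring
    rw [e3, mul_one_div, div_le_one hpos]
    exact hC

end Pool.Agent.EFX
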