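import Pool.Agent.EFX.Targets

set_option autoImplicit false

namespace Pool.Agent.EFX

open Finset

open scoped Classical

noncomputable section

namespace PIECE8_

lemma mem_cut {V : Type} [Fintype V] (x y : V)
    (F : Finset (Gr V)) (g : {z : V // z ≠ x} → ZMod 2) (H : Gr {z : V // z ≠ x}) :
    H ∈ cut x y F g ↔ ∃ G, G ∈ F ∧ cs x y G = g ∧ rst x G = H := by
  unfold cut
  simp only [Finset.mem_image, Finset.mem_filter, and_assoc]

lemma mem_cc {V : Type} [Fintype V] (N : Finset V) (κ : Gr V) (x y : V)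
    (g : {z : V // z ≠ x} → ZMod 2) (G : Gr V) :
    G ∈ cc N κ x y g ↔ Ag N G κ ∧ cs x y G = g := by
  unfold cc
  simp only [Finset.mem_filter, Finset.mem_univ, true_and]

lemma ag_lift (hVAL : T_VAL) {V : Type} [Fintype V] {x y : V} (hxy : x ≠ y)
    (R' : Finset {z : V // z ≠ x}) (G κ : Gr V) (hcs : cs x y G = cs x y κ) (N : Finset V)
    (hN : N = (if ∃ h : y ≠ x, (⟨y, h⟩ : {z : V // z ≠ x}) ∈ R' then
      insert x (R'.map (Function.Embedding.subtype _))
      else R'.map (Function.Embedding.subtype _))) :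
    Ag N G κ ↔ Ag R' (rst x G) (rst x κ) := by
  obtain ⟨hsym, hdiag, -, -, hrst, -, -⟩ := hVAL V
  have hmem : ∀ z : {z : V // z ≠ x}, z ∈ R' → (z : V) ∈ N := by
    intro z hz
    rw [hN]
    split_ifs
    · exact mem_insert_of_mem (mem_map.2 ⟨z, hz, rfl⟩)
    · exact mem_map.2 ⟨z, hz, rfl⟩
  constructor
  · intro h z hz w hw
    rw [hrst, hrst]
    exact h z (hmem z hz) w (hmem w hw)
  · intro h
    -- agreement on the image of R'
    have h1 : ∀ u ∈ R'.map (Function.Embedding.subtype _), ∀ v ∈ R'.map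
        (Function.Embedding.subtype _), val G u v = val κ u v := by
      intro u hu v hv
      obtain ⟨z, hz, rfl⟩ := mem_map.1 hu
      obtain ⟨w, hw, rfl⟩ := mem_map.1 hv
      have h2 := h z hz w hw
      rw [hrst, hrst] at h2
      exact h2
    by_cases hy : ∃ h : y ≠ x, (⟨y, h⟩ : {z : V // z ≠ x}) ∈ R'
    · rw [if_pos hy] at hN
      obtain ⟨hyx, hyR⟩ := hy
      have hy1 : y ∈ R'.map (Function.Embedding.subtype _) := mem_map.2 ⟨_, hyR, rfl⟩
      have h3 : ∀ v ∈ R'.map (Function.Embedding.subtype _), val G x v = val κ x v := by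
        intro v hv
        obtain ⟨w, hw, rfl⟩ := mem_map.1 hv
        have h4 := congrFun hcs w
        unfold cs at h4
        have h5 := h1 y hy1 w hv
        simp only [Function.Embedding.subtype_apply] at h5 ⊢
        rw [h5] at h4
        exact add_right_cancel h4
      intro u hu v hv
      rw [hN, mem_insert] at hu hv
      rcases hu with rfl | hu <;> rcases hv with rfl | hv
      · rw [hdiag, hdiag]
      · exact h3 v hv
      · rw [hsym G, hsym κ]
        exact h3 u hu
      · exact h1 u hu v hv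
    · rw [if_neg hy] at hN
      intro u hu v hv
      rw [hN] at hu hv
      exact h1 u hu v hv

lemma h7 {β : Type} (hne : Nonempty β) (i1 i2 : Fintype β) (A B : Finset β)
    (hab : 31 / 32 * @den β i1 A ≤ @den β i2 B) : (31 / 32 : ℝ) * (A.card : ℝ) ≤ (B.card : ℝ) := by
  rw [Subsingleton.elim i2 i1] at hab
  unfold den at hab
  have hp : (0 : ℝ) < (@Fintype.card _ i1 : ℝ) := by
    have : 0 < @Fintype.card _ i1 := @Fintype.card_pos _ i1 hne
    exact_mod_cast this
  rw [← mul_div_assoc] at hab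
  exact (div_le_div_iff_of_pos_right hp).1 hab

end PIECE8_

open PIECE8_

theorem p_PIECE8 : T_VAL → T_CARD → T_PIECE := by
  intro hVAL hCARD V _ r F x y g R' K' κ hxy hR' hrel hK hg N hN
  subst hK
  subst hg
  obtain ⟨hsym, hdiag, -, -, hrst, hinj, hsurj⟩ := hVAL V
  have hxN : x ∉ R'.map (Function.Embedding.subtype _) := by
    intro h
    obtain ⟨z, _, hz⟩ := mem_map.1 h
    exact z.2 hz
  have hlift := fun G hcs => ag_lift hVAL hxy R' G κ hcs N hN
  refine ⟨⟨hxy, ?_⟩, ?_⟩
  · by_cases hy : ∃ h : y ≠ x, (⟨y, h⟩ : {z : V // z ≠ x}) ∈ R'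
    · right
      rw [if_pos hy] at hN
      rw [hN]
      obtain ⟨hyx, hyR⟩ := hy
      refine ⟨?_, mem_insert_self _ _, mem_insert_of_mem (mem_map.2 ⟨_, hyR, rfl⟩)⟩
      rw [card_insert_of_notMem hxN, card_map, hR']
    · left
      rw [if_neg hy] at hN
      rw [hN]
      refine ⟨by rw [card_map, hR'], hxN, ?_⟩
      intro h
      obtain ⟨z, hz, hzy⟩ := mem_map.1 h
      apply hy
      have : (z : V) = y := hzy
      refine ⟨hxy.symm, ?_⟩
      have h2 : (⟨y, hxy.symm⟩ : {z : V // z ≠ x}) = z := Subtype.ext this.symm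
      rw [h2]
      exact hz
  · obtain ⟨-, -, -, hcyl, -⟩ := hCARD {z : V // z ≠ x}
    have h1 := hcyl R' (rst x κ)
    rw [hR'] at h1
    have hd : 0 < dl r := by unfold dl; positivity
    unfold rel at hrel
    rw [le_div_iff₀ hd, ← h1] at hrel
    have e1 : ∀ S : Finset (Gr {z : V // z ≠ x}), (∀ H, H ∈ S ↔ Ag R' H (rst x κ)) →
        S.card = (cc N κ x y (cs x y κ)).card := by
      intro S hS
      symm
      apply card_bij (fun G _ => rst x G)
      · intro G hG
        rw [mem_cc] at hG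
        rw [hS]
        exact (hlift G hG.2).1 hG.1
      · intro G hG H hH h
        rw [mem_cc] at hG hH
        exact hinj x y hxy G H h (hG.2.trans hH.2.symm)
      · intro H hH
        rw [hS] at hH
        obtain ⟨G, hG1, hG2⟩ := hsurj x y hxy H (cs x y κ)
        refine ⟨G, ?_, hG1⟩
        rw [mem_cc]
        refine ⟨(hlift G hG2).2 ?_, hG2⟩
        rw [hG1]
        exact hH
    have e2 : ∀ S : Finset (Gr {z : V // z ≠ x}),
        (∀ H, H ∈ S ↔ H ∈ cut x y F (cs x y κ) ∧ Ag R' H (rst x κ)) →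
        S.card = (F ∩ cc N κ x y (cs x y κ)).card := by
      intro S hS
      symm
      apply card_bij (fun G _ => rst x G)
      · intro G hG
        rw [mem_inter, mem_cc] at hG
        rw [hS, mem_cut]
        exact ⟨⟨G, hG.1, hG.2.2, rfl⟩, (hlift G hG.2.2).1 hG.2.1⟩
      · intro G hG H hH h
        rw [mem_inter, mem_cc] at hG hH
        exact hinj x y hxy G H h (hG.2.2.trans hH.2.2.symm)
      · intro H hH
        rw [hS, mem_cut] at hH
        obtain ⟨⟨G, hG, hGc, rfl⟩, hA⟩ := hH
        refine ⟨G, ?_, rfl⟩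
        rw [mem_inter, mem_cc]
        exact ⟨hG, (hlift G hGc).2 hA, hGc⟩
    have h8 := h7 ⟨rst x κ⟩ _ _ _ _ hrel
    rw [e1 _ (fun H => by simp only [mem_filter, mem_univ, true_and]),
      e2 _ (fun H => by simp only [mem_filter])] at h8
    exact h8

end

end Pool.Agent.EFX
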