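import Pool.Agent.EFX.Targets

/-!
`PIN`: the abstract pinning lemma (averages over `k`-subsets).
-/

set_option autoImplicit false

namespace Pool.Agent.EFX

open Finset

open scoped Classical

namespace PIN_

variable {ι : Type} [Fintype ι]

private noncomputable def S (F : Finset ι → ℝ) (k : ℕ) : ℝ :=
  ∑ T ∈ powersetCard k (univ : Finset ι), F T

private lemma dc (F : Finset ι → ℝ) (k : ℕ) :
    ∑ T ∈ powersetCard k (univ : Finset ι), ∑ x ∈ univ \ T, F (insert x T) =
      (k + 1) * S F (k + 1) := by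
  have h1 : ((k : ℝ) + 1) * S F (k + 1) =
      ∑ T ∈ powersetCard (k + 1) (univ : Finset ι), ∑ _x ∈ T, F T := by
    unfold S
    rw [Finset.mul_sum]
    apply Finset.sum_congr rfl
    intro T hT
    rw [Finset.sum_const, (Finset.mem_powersetCard.1 hT).2, nsmul_eq_mul]
    push_cast
    ring
  rw [h1, Finset.sum_sigma', Finset.sum_sigma']
  refine Finset.sum_bij' (fun a _ => ⟨insert a.2 a.1, a.2⟩) (fun a _ => ⟨a.1.erase a.2, a.2⟩)
    ?_ ?_ ?_ ?_ ?_
  · rintro ⟨T, x⟩ ha
    simp only [Finset.mem_sigma, Finset.mem_powersetCard, Finset.mem_sdiff, Finset.mem_univ,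
      true_and] at ha ⊢
    refine ⟨⟨Finset.subset_univ _, ?_⟩, Finset.mem_insert_self _ _⟩
    rw [Finset.card_insert_of_notMem ha.2, ha.1.2]
  · rintro ⟨T, x⟩ ha
    simp only [Finset.mem_sigma, Finset.mem_powersetCard, Finset.mem_sdiff, Finset.mem_univ,
      true_and] at ha ⊢
    refine ⟨⟨Finset.subset_univ _, ?_⟩, Finset.notMem_erase _ _⟩
    rw [Finset.card_erase_of_mem ha.2, ha.1.2]
    rfl
  · rintro ⟨T, x⟩ ha
    simp only [Finset.mem_sigma, Finset.mem_powersetCard, Finset.mem_sdiff, Finset.mem_univ,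
      true_and] at ha ⊢
    simp only [Finset.erase_insert ha.2]
  · rintro ⟨T, x⟩ ha
    simp only [Finset.mem_sigma, Finset.mem_powersetCard, Finset.mem_sdiff, Finset.mem_univ,
      true_and] at ha ⊢
    simp only [Finset.insert_erase ha.2]
  · rintro ⟨T, x⟩ _
    rfl

private lemma sd (T : Finset ι) (x : ι) : (univ \ T).erase x = univ \ (insert x T) := by
  ext y
  simp only [Finset.mem_erase, Finset.mem_sdiff, Finset.mem_univ, true_and, Finset.mem_insert,
    not_or]

private lemma card_sd (T : Finset ι) (k : ℕ) (hT : T.card = k) :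
    (((univ : Finset ι) \ T).card : ℝ) = (Fintype.card ι : ℝ) - k := by
  rw [Finset.card_sdiff_of_subset (Finset.subset_univ T), Finset.card_univ,
    Nat.cast_sub (Finset.card_le_univ T), hT]

private lemma lhs_eq (g : Finset ι → ℝ) (k : ℕ) :
    ∑ T ∈ powersetCard k (univ : Finset ι), ∑ x ∈ univ \ T, ∑ y ∈ (univ \ T).erase x,
      (g (insert x (insert y T)) - g (insert x T) - g (insert y T) + g T) =
    (k + 1) * (k + 2) * S g (k + 2) - 2 * ((Fintype.card ι : ℝ) - k - 1) * (k + 1) * S g (k + 1)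
      + ((Fintype.card ι : ℝ) - k) * ((Fintype.card ι : ℝ) - k - 1) * S g k := by
  have e1 : ∑ T ∈ powersetCard k (univ : Finset ι), ∑ x ∈ univ \ T, ∑ y ∈ (univ \ T).erase x,
      g (insert x (insert y T)) = (k + 1) * (k + 2) * S g (k + 2) := by
    have h1 : ∀ T ∈ powersetCard k (univ : Finset ι), ∑ x ∈ univ \ T,
        ∑ y ∈ (univ \ T).erase x, g (insert x (insert y T)) =
        ∑ x ∈ univ \ T, (fun T' => ∑ y ∈ univ \ T', g (insert y T')) (insert x T) := by
      intro T _
      apply Finset.sum_congr rfl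
      intro x _
      simp only
      rw [sd]
      apply Finset.sum_congr rfl
      intro y _
      rw [Finset.insert_comm]
    rw [Finset.sum_congr rfl h1, dc (fun T' => ∑ y ∈ univ \ T', g (insert y T')) k]
    have h2 := dc g (k + 1)
    unfold S at h2 ⊢
    rw [h2]
    push_cast
    ring
  have e2 : ∑ T ∈ powersetCard k (univ : Finset ι), ∑ x ∈ univ \ T, ∑ _y ∈ (univ \ T).erase x,
      g (insert x T) = ((Fintype.card ι : ℝ) - k - 1) * ((k + 1) * S g (k + 1)) := by
    rw [← dc g k, Finset.mul_sum]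
    apply Finset.sum_congr rfl
    intro T hT
    rw [Finset.mul_sum]
    apply Finset.sum_congr rfl
    intro x hx
    rw [Finset.sum_const, nsmul_eq_mul, Finset.card_erase_of_mem hx,
      Nat.cast_sub (Finset.card_pos.2 ⟨x, hx⟩), card_sd T k (Finset.mem_powersetCard.1 hT).2]
    push_cast
    ring
  have e3 : ∑ T ∈ powersetCard k (univ : Finset ι), ∑ x ∈ univ \ T, ∑ y ∈ (univ \ T).erase x,
      g (insert y T) = ((Fintype.card ι : ℝ) - k - 1) * ((k + 1) * S g (k + 1)) := by
    rw [← dc g k, Finset.mul_sum]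
    apply Finset.sum_congr rfl
    intro T hT
    have h1 : ∀ x ∈ univ \ T, ∑ y ∈ (univ \ T).erase x, g (insert y T) =
        ∑ y ∈ univ \ T, g (insert y T) - g (insert x T) := by
      intro x hx
      rw [← Finset.add_sum_erase _ _ hx]
      ring
    rw [Finset.sum_congr rfl h1, Finset.sum_sub_distrib, Finset.sum_const, nsmul_eq_mul,
      card_sd T k (Finset.mem_powersetCard.1 hT).2]
    ring
  have e4 : ∑ T ∈ powersetCard k (univ : Finset ι), ∑ x ∈ univ \ T, ∑ _y ∈ (univ \ T).erase x,
      g T = ((Fintype.card ι : ℝ) - k) * ((Fintype.card ι : ℝ) - k - 1) * S g k := by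
    unfold S
    rw [Finset.mul_sum]
    apply Finset.sum_congr rfl
    intro T hT
    have h1 : ∀ x ∈ univ \ T, ∑ _y ∈ (univ \ T).erase x, g T =
        ((Fintype.card ι : ℝ) - k - 1) * g T := by
      intro x hx
      rw [Finset.sum_const, nsmul_eq_mul, Finset.card_erase_of_mem hx,
        Nat.cast_sub (Finset.card_pos.2 ⟨x, hx⟩), card_sd T k (Finset.mem_powersetCard.1 hT).2]
      push_cast
      ring
    rw [Finset.sum_congr rfl h1, Finset.sum_const, nsmul_eq_mul,
      card_sd T k (Finset.mem_powersetCard.1 hT).2]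
    ring
  have e5 : ∑ T ∈ powersetCard k (univ : Finset ι), ∑ x ∈ univ \ T, ∑ y ∈ (univ \ T).erase x,
      (g (insert x (insert y T)) - g (insert x T) - g (insert y T) + g T) =
      ∑ T ∈ powersetCard k (univ : Finset ι), ∑ x ∈ univ \ T, ∑ y ∈ (univ \ T).erase x,
        g (insert x (insert y T)) -
      ∑ T ∈ powersetCard k (univ : Finset ι), ∑ x ∈ univ \ T, ∑ _y ∈ (univ \ T).erase x,
        g (insert x T) -
      ∑ T ∈ powersetCard k (univ : Finset ι), ∑ x ∈ univ \ T, ∑ y ∈ (univ \ T).erase x,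
        g (insert y T) +
      ∑ T ∈ powersetCard k (univ : Finset ι), ∑ x ∈ univ \ T, ∑ _y ∈ (univ \ T).erase x,
        g T := by
    simp only [Finset.sum_add_distrib, Finset.sum_sub_distrib]
  rw [e5, e1, e2, e3, e4]
  ring

/-- averages -/
private noncomputable def G (g : Finset ι → ℝ) (k : ℕ) : ℝ :=
  S g k / ((Fintype.card ι).choose k : ℝ)

private lemma lhs_G (g : Finset ι → ℝ) (k : ℕ) (hk : k + 2 ≤ Fintype.card ι) :
    ∑ T ∈ powersetCard k (univ : Finset ι), ∑ x ∈ univ \ T, ∑ y ∈ (univ \ T).erase x,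
      (g (insert x (insert y T)) - g (insert x T) - g (insert y T) + g T) =
    ((Fintype.card ι).choose k * (Fintype.card ι - k) * (Fintype.card ι - k - 1)) *
      (G g (k + 2) - 2 * G g (k + 1) + G g k) := by
  rw [lhs_eq]
  set p := Fintype.card ι with hp
  have c0 : (0 : ℝ) < (p.choose k : ℝ) := by exact_mod_cast Nat.choose_pos (by omega)
  have c1 : (0 : ℝ) < (p.choose (k + 1) : ℝ) := by exact_mod_cast Nat.choose_pos (by omega)
  have c2 : (0 : ℝ) < (p.choose (k + 2) : ℝ) := by exact_mod_cast Nat.choose_pos (by omega)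
  have r1 : (p.choose (k + 1) : ℝ) * (k + 1) = (p.choose k : ℝ) * (p - k) := by
    have := Nat.choose_succ_right_eq p k
    have h2 : ((p - k : ℕ) : ℝ) = (p : ℝ) - k := Nat.cast_sub (by omega)
    rw [← h2]
    exact_mod_cast this
  have r2 : (p.choose (k + 2) : ℝ) * (k + 2) = (p.choose (k + 1) : ℝ) * (p - k - 1) := by
    have := Nat.choose_succ_right_eq p (k + 1)
    have h2 : ((p - (k + 1) : ℕ) : ℝ) = (p : ℝ) - k - 1 := by
      rw [Nat.cast_sub (by omega)]
      push_cast
      ring
    rw [← h2]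
    exact_mod_cast this
  have s0 : S g k = (p.choose k : ℝ) * G g k := by
    unfold G
    rw [← hp]
    field_simp
  have s1 : S g (k + 1) = (p.choose (k + 1) : ℝ) * G g (k + 1) := by
    unfold G
    rw [← hp]
    field_simp
  have s2 : S g (k + 2) = (p.choose (k + 2) : ℝ) * G g (k + 2) := by
    unfold G
    rw [← hp]
    field_simp
  rw [s0, s1, s2]
  linear_combination ((k : ℝ) + 1) * G g (k + 2) * r2 +
    (((p : ℝ) - k - 1) * G g (k + 2) - 2 * ((p : ℝ) - k - 1) * G g (k + 1)) * r1

private lemma second_nonneg (g : Finset ι → ℝ) (hg : Spm g) (k : ℕ)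
    (hk : k + 2 ≤ Fintype.card ι) : 0 ≤ G g (k + 2) - 2 * G g (k + 1) + G g k := by
  have h1 := lhs_G g k hk
  have h2 : 0 ≤ ∑ T ∈ powersetCard k (univ : Finset ι), ∑ x ∈ univ \ T,
      ∑ y ∈ (univ \ T).erase x,
      (g (insert x (insert y T)) - g (insert x T) - g (insert y T) + g T) := by
    apply Finset.sum_nonneg
    intro T _
    apply Finset.sum_nonneg
    intro x hx
    apply Finset.sum_nonneg
    intro y hy
    have h3 := hg.2.2 (insert x T) (insert y T)
    have e1 : insert x T ∪ insert y T = insert x (insert y T) := by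
      ext z
      simp only [Finset.mem_union, Finset.mem_insert]
      tauto
    have e2 : insert x T ∩ insert y T = T := by
      ext z
      simp only [Finset.mem_inter, Finset.mem_insert]
      constructor
      · rintro ⟨h | h, h' | h'⟩
        · exact absurd (h'.symm.trans h) (Finset.mem_erase.1 hy).1
        · exact h'
        · exact h
        · exact h
      · intro h
        exact ⟨Or.inr h, Or.inr h⟩
    rw [e1, e2] at h3
    linarith
  rw [h1] at h2
  have c0 : (0 : ℝ) < ((Fintype.card ι).choose k : ℝ) := by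
    exact_mod_cast Nat.choose_pos (by omega)
  have hk' : ((k : ℝ) + 2) ≤ (Fintype.card ι : ℝ) := by exact_mod_cast hk
  have c1 : (0 : ℝ) < (Fintype.card ι : ℝ) - k := by linarith
  have c2 : (0 : ℝ) < (Fintype.card ι : ℝ) - k - 1 := by linarith
  exact nonneg_of_mul_nonneg_right h2 (by positivity)

end PIN_

open PIN_ in
theorem p_PIN : T_PIN := by
  intro ι _ g hg hp
  set p := Fintype.card ι with hpdef
  set c : ℕ → ℝ := fun k => G g (k + 1) - G g k with hc
  have hG0 : G g 0 = 0 := by
    unfold G S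
    simp [hg.1]
  have hGp : G g p = g univ := by
    unfold G S
    rw [← hpdef, Nat.choose_self, hpdef, ← Finset.card_univ, Finset.powersetCard_self]
    simp
  have hc0 : 0 ≤ c 0 := by
    simp only [hc, hG0, sub_zero]
    unfold G S
    apply div_nonneg
    · exact Finset.sum_nonneg (fun T _ => hg.2.1 T)
    · positivity
  have hstep : ∀ k, k + 2 ≤ p → c k ≤ c (k + 1) := by
    intro k hk
    have := second_nonneg g hg k hk
    simp only [hc]
    have e : k + 1 + 1 = k + 2 := rfl
    rw [e]
    linarith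
  have hmono : ∀ k l, k ≤ l → l + 1 ≤ p → c k ≤ c l := by
    intro k l hkl
    induction l, hkl using Nat.le_induction with
    | base => intro _; exact le_refl _
    | succ l _ ih =>
      intro hl
      exact (ih (by omega)).trans (hstep l (by omega))
  set h := p / 2 with hh
  have hh1 : 1 ≤ h := by omega
  have hhp : h + 1 ≤ p := by omega
  have hsum : ∑ k ∈ Finset.range p, c k = g univ := by
    simp only [hc]
    rw [Finset.sum_range_sub, hG0, hGp, sub_zero]
  have hch : ((p : ℝ) - h) * c h ≤ g univ := by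
    rw [← hsum, ← Finset.sum_range_add_sum_Ico c (show h ≤ p by omega)]
    have h1 : 0 ≤ ∑ k ∈ Finset.range h, c k := by
      apply Finset.sum_nonneg
      intro k hk
      exact hc0.trans (hmono 0 k (Nat.zero_le _) (by have := Finset.mem_range.1 hk; omega))
    have h2 : ((p : ℝ) - h) * c h ≤ ∑ k ∈ Finset.Ico h p, c k := by
      have h3 : ∑ _k ∈ Finset.Ico h p, c h = ((p : ℝ) - h) * c h := by
        rw [Finset.sum_const, Nat.card_Ico, nsmul_eq_mul, Nat.cast_sub (by omega)]
      rw [← h3]
      apply Finset.sum_le_sum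
      intro k hk
      have := Finset.mem_Ico.1 hk
      exact hmono h k this.1 (by omega)
    linarith
  have hL : 0 ≤ g univ := hg.2.1 _
  have hph : (0 : ℝ) < (p : ℝ) - h := by
    have : ((h : ℝ) + 1) ≤ p := by exact_mod_cast hhp
    linarith
  have hch2 : c h ≤ g univ / ((p : ℝ) - h) := by
    rw [le_div_iff₀ hph]
    linarith
  have hh0 : (0 : ℝ) < h := by exact_mod_cast hh1
  have htel : ∑ k ∈ Finset.range h, (c (k + 1) - c k) ≤ g univ / ((p : ℝ) - h) := by
    rw [Finset.sum_range_sub]
    linarith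
  have hex : ∃ k ∈ Finset.range h, c (k + 1) - c k ≤ g univ / ((p : ℝ) - h) / h := by
    by_contra hcon
    push Not at hcon
    have h1 : ∑ _k ∈ Finset.range h, g univ / ((p : ℝ) - h) / h <
        ∑ k ∈ Finset.range h, (c (k + 1) - c k) := by
      apply Finset.sum_lt_sum_of_nonempty ⟨0, Finset.mem_range.2 hh1⟩
      intro k hk
      exact hcon k hk
    rw [Finset.sum_const, Finset.card_range, nsmul_eq_mul, mul_div_cancel₀ _ hh0.ne'] at h1
    linarith
  obtain ⟨k, hk, hkc⟩ := hex
  have hk' := Finset.mem_range.1 hk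
  refine ⟨k, by omega, ?_⟩
  rw [lhs_G g k (by omega), ← hpdef]
  rw [mul_comm (6 * g univ / (p : ℝ) ^ 2)]
  have hk2 : ((k : ℝ) + 2) ≤ (p : ℝ) := by
    have : k + 2 ≤ p := by omega
    exact_mod_cast this
  have c1 : (0 : ℝ) ≤ (p : ℝ) - k := by linarith
  have c2 : (0 : ℝ) ≤ (p : ℝ) - k - 1 := by linarith
  apply mul_le_mul_of_nonneg_left _ (by positivity)
  have e1 : G g (k + 2) - 2 * G g (k + 1) + G g k = c (k + 1) - c k := by
    simp only [hc]
    have e : k + 1 + 1 = k + 2 := rfl
    rw [e]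
    ring
  rw [e1]
  refine hkc.trans ?_
  rw [div_div, div_le_div_iff₀ (by positivity) (by positivity)]
  have h6 : (p : ℝ) ^ 2 ≤ 6 * (((p : ℝ) - h) * h) := by
    rcases Nat.even_or_odd' p with ⟨m, hm | hm⟩
    · have hhm : h = m := by omega
      rw [hhm, hm]
      push_cast
      nlinarith [sq_nonneg (m : ℝ)]
    · have hhm : h = m := by omega
      have hm1 : (1 : ℝ) ≤ m := by
        have : 1 ≤ m := by omega
        exact_mod_cast this
      rw [hhm, hm]
      push_cast
      nlinarith [sq_nonneg (m : ℝ)]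
  nlinarith [mul_le_mul_of_nonneg_left h6 hL]

end Pool.Agent.EFX
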