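import Pool.Agent.EFX.Targets

set_option autoImplicit false

/-! # QD: change of measure -/

namespace Pool.Agent.EFX

open Finset

open scoped Classical

noncomputable section

private lemma qd_cs {T : Type} [Fintype T] (q d : T → ℝ) (hq : ∀ t, 0 ≤ q t) :
    (∑ t, (q t - 1) * d t) ^ 2 ≤
      (∑ t, (√(q t) - 1) ^ 2) * (∑ t, (2 * q t + 2) * d t ^ 2) := by
  have h1 : ∀ t, (q t - 1) * d t = (√(q t) - 1) * ((√(q t) + 1) * d t) := fun t => by
    have := Real.mul_self_sqrt (hq t)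
    linear_combination (-d t) * this
  rw [Finset.sum_congr rfl fun t _ => h1 t]
  refine (Finset.sum_mul_sq_le_sq_mul_sq _ _ _).trans ?_
  refine mul_le_mul_of_nonneg_left (Finset.sum_le_sum fun t _ => ?_)
    (Finset.sum_nonneg fun t _ => sq_nonneg _)
  have h2 := Real.mul_self_sqrt (hq t)
  have h3 : (√(q t) + 1) ^ 2 ≤ 2 * q t + 2 := by
    nlinarith [sq_nonneg (√(q t) - 1)]
  rw [mul_pow]
  exact mul_le_mul_of_nonneg_right h3 (sq_nonneg _)

private lemma qd_alg (T W U : ℝ) (hT : 0 ≤ T) (hW : 0 ≤ W) (hU : 0 ≤ U)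
    (h : (T - W) ^ 2 ≤ U * (2 * T + 2 * W)) : T + W ≤ 4 * W + 2 * U := by
  by_contra hc
  push Not at hc
  have h1 : (T + W) / 2 + U < T - W := by linarith
  have h2 : 0 ≤ (T + W) / 2 + U := by positivity
  nlinarith [sq_nonneg ((T + W) / 2 - U)]

theorem p_QD : T_QD := by
  intro T _ q b β V H hT hq hqs hb0 hb1 hbs hV hH
  have hn : (0 : ℝ) < (Fintype.card T : ℝ) := by exact_mod_cast Fintype.card_pos
  set n : ℝ := (Fintype.card T : ℝ) with hndef
  have hβ0 : 0 ≤ β := by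
    have h1 : 0 ≤ β * n := hbs ▸ Finset.sum_nonneg fun t _ => hb0 t
    exact nonneg_of_mul_nonneg_left h1 hn
  have hβ1 : β ≤ 1 := by
    have h1 : β * n ≤ n := by
      rw [← hbs]
      calc ∑ t, b t ≤ ∑ _t : T, (1 : ℝ) := Finset.sum_le_sum fun t _ => hb1 t
        _ = n := by simp [hndef]
    nlinarith
  set U : ℝ := ∑ t, (√(q t) - 1) ^ 2 with hUdef
  set W : ℝ := ∑ t, (b t - β) ^ 2 with hWdef
  set Y : ℝ := ∑ t, q t * (b t - β) ^ 2 with hYdef
  set S : ℝ := ∑ t, (q t - 1) * (b t - β) with hSdef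
  have hU0 : 0 ≤ U := Finset.sum_nonneg fun t _ => sq_nonneg _
  have hW0 : 0 ≤ W := Finset.sum_nonneg fun t _ => sq_nonneg _
  have hY0 : 0 ≤ Y := Finset.sum_nonneg fun t _ => mul_nonneg (hq t) (sq_nonneg _)
  have hd : ∀ t, (b t - β) ^ 2 ≤ 1 := fun t => by
    nlinarith [hb0 t, hb1 t]
  have hsumd : ∑ t, (2 * q t + 2) * (b t - β) ^ 2 = 2 * Y + 2 * W := by
    rw [hYdef, hWdef, Finset.mul_sum, Finset.mul_sum, ← Finset.sum_add_distrib]
    exact Finset.sum_congr rfl fun t _ => by ring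
  have hS2 : S ^ 2 ≤ U * (2 * Y + 2 * W) := by
    have := qd_cs q (fun t => b t - β) hq
    rwa [hsumd] at this
  have hYW : (Y - W) ^ 2 ≤ U * (2 * Y + 2 * W) := by
    have h1 := qd_cs q (fun t => (b t - β) ^ 2) hq
    have h2 : ∑ t, (q t - 1) * (b t - β) ^ 2 = Y - W := by
      rw [hYdef, hWdef, ← Finset.sum_sub_distrib]
      exact Finset.sum_congr rfl fun t _ => by ring
    have h3 : ∑ t, (2 * q t + 2) * ((b t - β) ^ 2) ^ 2 ≤ 2 * Y + 2 * W := by
      rw [← hsumd]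
      refine Finset.sum_le_sum fun t _ => ?_
      refine mul_le_mul_of_nonneg_left ?_ (by have := hq t; positivity)
      nlinarith [hd t, sq_nonneg (b t - β)]
    rw [h2] at h1
    exact h1.trans (mul_le_mul_of_nonneg_left h3 hU0)
  have hYle := qd_alg Y W U hY0 hW0 hU0 hYW
  have hS3 : S ^ 2 ≤ (4 * (U + W)) ^ 2 := by
    nlinarith [mul_nonneg hU0 hW0, sq_nonneg U, sq_nonneg W,
      mul_le_mul_of_nonneg_left hYle hU0]
  have hS4 : -(4 * (U + W)) ≤ S := (abs_le.mp (abs_le_of_sq_le_sq hS3 (by positivity))).1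
  have hfin : ∑ t, q t * b t = S + β * n := by
    have h1 : S = ∑ t, q t * b t - β * ∑ t, q t - ∑ t, b t + β * n := by
      have h2 : ∑ _t : T, β = β * n := by simp [hndef, mul_comm]
      rw [hSdef, Finset.mul_sum, ← h2, ← Finset.sum_sub_distrib, ← Finset.sum_sub_distrib,
        ← Finset.sum_add_distrib]
      exact Finset.sum_congr rfl fun t _ => by ring
    rw [h1, hqs, hbs]
    ring
  rw [hfin, add_div, mul_div_assoc, div_self hn.ne', mul_one]
  have h5 : -(4 * (H + V)) ≤ S / n := by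
    have h6 : -(4 * (U + W)) / n ≤ S / n := div_le_div_of_nonneg_right hS4 hn.le
    have h7 : -(4 * (U + W)) / n = -(4 * (U / n + W / n)) := by ring
    linarith
  linarith

end

end Pool.Agent.EFX
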