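import Pool.Agent.EFX.Targets

set_option autoImplicit false

/-!
# MP_64e56f_co, EFX-ROWS: sums of two rows are nearly uniform
-/

namespace Pool.Agent.EFX

open Finset

open scoped Classical

namespace ROWS_

/-- adding one coordinate -/
theorem df_ins1 (hEQ : T_EQUIV) {α P G : Type} [Fintype G] (A : Finset α) (f : α → P → G)
    (T : Finset P) (x : P) (hx : x ∉ T) :
    df A (fun w => ((fun i : {i // i ∈ T} => f w i), f w x)) = gd A f (insert x T) := by
  let φ : (({i // i ∈ T} → G) × G) → ({i // i ∈ insert x T} → G) := fun u i =>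
    if h : (i : P) = x then u.2 else u.1 ⟨i, by
      have := i.2
      rw [mem_insert] at this
      exact this.resolve_left h⟩
  have hφ : Function.Bijective φ := by
    constructor
    · intro u v huv
      refine Prod.ext ?_ ?_
      · funext i
        have h1 := congrFun huv ⟨i.1, mem_insert_of_mem i.2⟩
        have h2 : (i : P) ≠ x := fun h => hx (h ▸ i.2)
        simp only [φ, h2, dif_neg, not_false_eq_true] at h1
        exact h1
      · have h1 := congrFun huv ⟨x, mem_insert_self x T⟩
        simp only [φ, dif_pos] at h1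
        exact h1
    · intro v
      refine ⟨(fun i => v ⟨i.1, mem_insert_of_mem i.2⟩, v ⟨x, mem_insert_self x T⟩), ?_⟩
      funext i
      by_cases h : (i : P) = x
      · have : i = ⟨x, mem_insert_self x T⟩ := Subtype.ext h
        subst this
        simp [φ]
      · simp only [φ, h, dif_neg, not_false_eq_true]
  have h := (hEQ α _ _ A (fun w => ((fun i : {i // i ∈ T} => f w i), f w x)) φ hφ).2
  rw [← h]
  unfold gd
  congr 1
  funext w i
  by_cases h : (i : P) = x
  · simp only [φ, h, dif_pos]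
  · simp only [φ, h, dif_neg, not_false_eq_true]

/-- adding two coordinates -/
theorem df_ins2 (hEQ : T_EQUIV) {α P G : Type} [Fintype G] (A : Finset α) (f : α → P → G)
    (T : Finset P) (x y : P) (hx : x ∉ T) (hy : y ∉ T) (hxy : x ≠ y) :
    df A (fun w => ((fun i : {i // i ∈ T} => f w i), (f w x, f w y))) =
      gd A f (insert x (insert y T)) := by
  let φ : (({i // i ∈ T} → G) × (G × G)) → ({i // i ∈ insert x (insert y T)} → G) := fun u i =>
    if h : (i : P) = x then u.2.1 else if h' : (i : P) = y then u.2.2 else u.1 ⟨i, by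
      have := i.2
      rw [mem_insert, mem_insert] at this
      exact (this.resolve_left h).resolve_left h'⟩
  have hφ : Function.Bijective φ := by
    constructor
    · intro u v huv
      refine Prod.ext ?_ (Prod.ext ?_ ?_)
      · funext i
        have h1 := congrFun huv ⟨i.1, mem_insert_of_mem (mem_insert_of_mem i.2)⟩
        have h2 : (i : P) ≠ x := fun h => hx (h ▸ i.2)
        have h3 : (i : P) ≠ y := fun h => hy (h ▸ i.2)
        simp only [φ, h2, h3, dif_neg, not_false_eq_true] at h1
        exact h1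
      · have h1 := congrFun huv ⟨x, mem_insert_self x _⟩
        simp only [φ, dif_pos] at h1
        exact h1
      · have h1 := congrFun huv ⟨y, mem_insert_of_mem (mem_insert_self y _)⟩
        simp only [φ, dif_pos, hxy.symm, dif_neg, not_false_eq_true] at h1
        exact h1
    · intro v
      refine ⟨(fun i => v ⟨i.1, mem_insert_of_mem (mem_insert_of_mem i.2)⟩,
        (v ⟨x, mem_insert_self x _⟩, v ⟨y, mem_insert_of_mem (mem_insert_self y _)⟩)), ?_⟩
      funext i
      by_cases h : (i : P) = x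
      · have : i = ⟨x, mem_insert_self x _⟩ := Subtype.ext h
        subst this
        simp [φ]
      · by_cases h' : (i : P) = y
        · have : i = ⟨y, mem_insert_of_mem (mem_insert_self y _)⟩ := Subtype.ext h'
          subst this
          simp only [φ, hxy.symm, dif_neg, not_false_eq_true, dif_pos]
        · simp only [φ, h, h', dif_neg, not_false_eq_true]
  have h := (hEQ α _ _ A (fun w => ((fun i : {i // i ∈ T} => f w i), (f w x, f w y))) φ hφ).2
  rw [← h]
  unfold gd
  congr 1
  funext w i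
  by_cases h : (i : P) = x
  · simp only [φ, h, dif_pos]
  · by_cases h' : (i : P) = y
    · simp only [φ, h', dif_pos, hxy.symm, dif_neg, not_false_eq_true]
    · simp only [φ, h, h', dif_neg, not_false_eq_true]

/-- one coordinate -/
theorem df_single (hEQ : T_EQUIV) {α P G : Type} [Fintype G] (A : Finset α) (f : α → P → G)
    (x : P) : df A (fun w => f w x) = gd A f {x} := by
  let φ : G → ({i // i ∈ ({x} : Finset P)} → G) := fun u _ => u
  have hφ : Function.Bijective φ := by
    constructor
    · intro u v huv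
      exact congrFun huv ⟨x, mem_singleton_self x⟩
    · intro v
      refine ⟨v ⟨x, mem_singleton_self x⟩, ?_⟩
      funext i
      have : i = ⟨x, mem_singleton_self x⟩ := Subtype.ext (mem_singleton.1 i.2)
      subst this
      rfl
  have h := (hEQ α _ _ A (fun w => f w x) φ hφ).2
  rw [← h]
  unfold gd
  congr 1
  funext w i
  have : i = ⟨x, mem_singleton_self x⟩ := Subtype.ext (mem_singleton.1 i.2)
  subst this
  rfl

/-- the coordinates in `T` -/
abbrev res {α P G : Type} (f : α → P → G) (T : Finset P) : α → ({i // i ∈ T} → G) :=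
  fun w i => f w i

/-- part (a): the mean of the mutual informations -/
theorem mean_info (hEQ : T_EQUIV) (hCHD : T_CHD) {α P G : Type} [Fintype G] (A : Finset α)
    (hA : A.Nonempty) (f : α → P → G) (T : Finset P) (x y : P) (hx : x ∉ T) (hy : y ∉ T)
    (hxy : x ≠ y) :
    ∑ t : {i // i ∈ T} → G, pr A (res f T) t *
      (df (at' A (res f T) t) (fun w => (f w x, f w y)) -
        df (at' A (res f T) t) (fun w => f w x) -
        df (at' A (res f T) t) (fun w => f w y)) =
      gd A f (insert x (insert y T)) - gd A f (insert x T) - gd A f (insert y T) + gd A f T := by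
  have h0 := hCHD α (G × G) ({i // i ∈ T} → G) A (res f T) (fun w => (f w x, f w y)) hA
  have h1 := hCHD α G ({i // i ∈ T} → G) A (res f T) (fun w => f w x) hA
  have h2 := hCHD α G ({i // i ∈ T} → G) A (res f T) (fun w => f w y) hA
  have e0 := df_ins2 hEQ A f T x y hx hy hxy
  have e1 := df_ins1 hEQ A f T x hx
  have e2 := df_ins1 hEQ A f T y hy
  have e3 : df A (res f T) = gd A f T := rfl
  simp only [mul_sub, sum_sub_distrib]
  rw [← e0, ← e1, ← e2, ← e3]
  linarith

theorem mem_at {α S : Type} (A : Finset α) (Y : α → S) (t : S) (w : α) :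
    w ∈ at' A Y t ↔ w ∈ A ∧ Y w = t := by
  unfold at'
  exact mem_filter

theorem fib_le {α P G : Type} [Fintype P] (A : Finset α) (f : α → P → G) (E : ℕ)
    (hE : ∀ v : P → G, (at' A f v).card ≤ E) (T : Finset P)
    (τ : {i // i ∈ T} → G) (s : {i // i ∈ univ \ T} → G) :
    (at' (at' A (res f T) τ) (res f (univ \ T)) s).card ≤ E := by
  refine le_trans (card_le_card ?_) (hE (fun i => if h : i ∈ T then τ ⟨i, h⟩ else s ⟨i, by
    simp [h]⟩))
  intro w hw
  rw [mem_at, mem_at] at hw
  obtain ⟨⟨hwA, h1⟩, h2⟩ := hw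
  rw [mem_at]
  refine ⟨hwA, ?_⟩
  funext i
  by_cases h : i ∈ T
  · simp only [dif_pos h]
    rw [← h1]
  · simp only [dif_neg h]
    rw [← h2]

theorem card_res {P G : Type} [Fintype P] [Fintype G] (T : Finset P) :
    Fintype.card ({i // i ∈ T} → G) = Fintype.card G ^ T.card := by
  rw [Fintype.card_fun, Fintype.card_coe]

/-- the deficit of the coordinates outside `T` in a nonempty part -/
theorem gd_rest (hSUPP : T_SUPP) {α P G : Type} [Fintype P] [Fintype G] (A : Finset α)
    (f : α → P → G) (E : ℕ) (hE0 : 0 < E)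
    (hE : ∀ v : P → G, (at' A f v).card ≤ E) (T : Finset P)
    (τ : {i // i ∈ T} → G) (hne : (at' A (res f T) τ).Nonempty) :
    gd (at' A (res f T) τ) f (univ \ T) ≤
      Real.log ((Fintype.card G : ℝ) ^ (Fintype.card P - T.card) * E /
        ((at' A (res f T) τ).card : ℝ)) := by
  have h := (hSUPP α ({i // i ∈ univ \ T} → G) (at' A (res f T) τ) (res f (univ \ T)) hne).1 E
    (by exact_mod_cast hE0) (fun s => Nat.cast_le.2 (fib_le A f E hE T τ s))
  rw [card_res, card_sdiff_of_subset (subset_univ _), card_univ] at h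
  push_cast at h
  exact h

theorem sum_D (hHELB : T_HELB) (hEQ : T_EQUIV) (hSUPP : T_SUPP) (hSH : T_SH) (hINST : T_INST)
    {α P G : Type} [Fintype P] [Fintype G] (A : Finset α)
    (f : α → P → G) (E : ℕ) (hE0 : 0 < E)
    (hE : ∀ v : P → G, (at' A f v).card ≤ E) (T : Finset P)
    (τ : {i // i ∈ T} → G) (hne : (at' A (res f T) τ).Nonempty) :
    0 ≤ ∑ x ∈ univ \ T, df (at' A (res f T) τ) (fun w => f w x) ∧
    ∑ x ∈ univ \ T, df (at' A (res f T) τ) (fun w => f w x) ≤
      Real.log ((Fintype.card G : ℝ) ^ (Fintype.card P - T.card) * E /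
        ((at' A (res f T) τ).card : ℝ)) := by
  constructor
  · exact sum_nonneg fun x _ => (hHELB α G _ (fun w => f w x) hne).2.2.2.2.2.2.1
  · refine le_trans ?_ (gd_rest hSUPP A f E hE0 hE T τ hne)
    have h := hSH P P (univ \ T) (gd (at' A (res f T) τ) f) (fun _ => 1) (fun k => {k})
      (univ \ T) 1 (hINST α P G _ f hne) (fun _ _ => zero_le_one)
      (fun k hk => singleton_subset_iff.2 hk) (by
        intro i hi
        rw [sum_const, nsmul_eq_mul, mul_one]
        have : ((univ \ T).filter (fun k => i ∈ ({k} : Finset P))).card ≤ 1 := by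
          rw [card_le_one]
          intro a ha b hb
          rw [mem_filter, mem_singleton] at ha hb
          rw [← ha.2, ← hb.2]
        exact_mod_cast this)
    simp only [one_mul] at h
    refine le_trans (le_of_eq ?_) h
    exact sum_congr rfl fun x _ => df_single hEQ _ f x

theorem sum_prod_le {P : Type} (s : Finset P) (D : P → ℝ) (hD : ∀ x ∈ s, 0 ≤ D x) :
    ∑ x ∈ s, ∑ y ∈ s.erase x, D x * D y ≤ (∑ x ∈ s, D x) ^ 2 := by
  rw [sq, sum_mul_sum]
  refine sum_le_sum fun x hx => ?_
  exact sum_le_sum_of_subset_of_nonneg (erase_subset _ _)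
    fun y hy _ => mul_nonneg (hD x hx) (hD y hy)

/-- the bound for a fixed set `T` -/
theorem fixed_T (hHELB : T_HELB) (hEQ : T_EQUIV) (hCONV : T_CONV) (hCHD : T_CHD)
    (hSUPP : T_SUPP) (hSUM : T_SUMXY) (hSH : T_SH) (hINST : T_INST) (hCCE : T_CCE)
    {α P G : Type} [Fintype P] [AddCommGroup G] [Fintype G] (A : Finset α) (hA : A.Nonempty)
    (f : α → P → G) (E : ℕ) (hE0 : 0 < E)
    (hE : ∀ v : P → G, (at' A f v).card ≤ E) (T : Finset P) :
    ∑ x ∈ univ \ T, ∑ y ∈ (univ \ T).erase x, hel A (fun w => f w x + f w y) ≤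
      2 * (∑ x ∈ univ \ T, ∑ y ∈ (univ \ T).erase x,
        (gd A f (insert x (insert y T)) - gd A f (insert x T) - gd A f (insert y T) +
          gd A f T)) +
      1200 * (Real.log ((Fintype.card G : ℝ) ^ (Fintype.card P) * E / (A.card : ℝ)) + 1) ^ 2 := by
  have hpr : ∀ τ, 0 ≤ pr A (res f T) τ := (hHELB α _ A (res f T) hA).1
  have hpr0 : ∀ τ, ¬ (at' A (res f T) τ).Nonempty → pr A (res f T) τ = 0 := by
    intro τ h
    rw [not_nonempty_iff_eq_empty] at h
    unfold at' at h
    unfold pr
    rw [h]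
    simp
  -- one pair
  have h1 : ∀ x ∈ univ \ T, ∀ y ∈ (univ \ T).erase x, hel A (fun w => f w x + f w y) ≤
      2 * (gd A f (insert x (insert y T)) - gd A f (insert x T) - gd A f (insert y T) +
          gd A f T) + 1200 * ∑ τ, pr A (res f T) τ *
            (df (at' A (res f T) τ) (fun w => f w x) *
              df (at' A (res f T) τ) (fun w => f w y)) := by
    intro x hx y hy
    rw [mem_erase] at hy
    have hx' : x ∉ T := (mem_sdiff.1 hx).2
    have hy' : y ∉ T := (mem_sdiff.1 hy.2).2
    refine le_trans (hCONV α G _ A (fun w => f w x + f w y) (res f T) hA) ?_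
    rw [← mean_info hEQ hCHD A hA f T x y hx' hy' (Ne.symm hy.1), mul_sum, mul_sum,
      ← sum_add_distrib]
    refine sum_le_sum fun τ _ => ?_
    by_cases hne : (at' A (res f T) τ).Nonempty
    · have h2 := hSUM α G (at' A (res f T) τ) (fun w => f w x) (fun w => f w y) hne
      have hX := hHELB α G (at' A (res f T) τ) (fun w => f w x) hne
      have hY := hHELB α G (at' A (res f T) τ) (fun w => f w y) hne
      have h3 : hel (at' A (res f T) τ) (fun w => f w x) *
          hel (at' A (res f T) τ) (fun w => f w y) ≤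
          df (at' A (res f T) τ) (fun w => f w x) * df (at' A (res f T) τ) (fun w => f w y) :=
        mul_le_mul hX.2.2.2.2.2.2.2 hY.2.2.2.2.2.2.2 hY.2.2.2.1 hX.2.2.2.2.2.2.1
      have h4 := hpr τ
      nlinarith [mul_le_mul_of_nonneg_left h2 h4, mul_le_mul_of_nonneg_left h3 h4]
    · rw [hpr0 τ hne]
      simp
  refine le_trans (sum_le_sum fun x hx => sum_le_sum fun y hy => h1 x hx y hy) ?_
  simp only [sum_add_distrib, ← mul_sum]
  refine add_le_add le_rfl (mul_le_mul_of_nonneg_left ?_ (by norm_num))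
  -- the products
  have h5 : ∑ x ∈ univ \ T, ∑ y ∈ (univ \ T).erase x, ∑ τ, pr A (res f T) τ *
      (df (at' A (res f T) τ) (fun w => f w x) * df (at' A (res f T) τ) (fun w => f w y)) =
      ∑ τ, pr A (res f T) τ * ∑ x ∈ univ \ T, ∑ y ∈ (univ \ T).erase x,
        df (at' A (res f T) τ) (fun w => f w x) * df (at' A (res f T) τ) (fun w => f w y) := by
    simp only [mul_sum]
    rw [sum_comm]
    refine sum_congr rfl fun x _ => ?_
    rw [sum_comm]
  rw [h5]
  -- `N` and the parts
  have hT : T.card ≤ Fintype.card P := card_le_univ T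
  have hG : (0 : ℝ) < (Fintype.card G : ℝ) := by exact_mod_cast Fintype.card_pos
  have hE0' : (0 : ℝ) < (E : ℝ) := by exact_mod_cast hE0
  have hN : (0 : ℝ) < (Fintype.card G : ℝ) ^ (Fintype.card P - T.card) * E :=
    mul_pos (pow_pos hG _) hE0'
  have hND : ∀ τ, (at' A (res f T) τ).Nonempty →
      ∑ x ∈ univ \ T, ∑ y ∈ (univ \ T).erase x,
        df (at' A (res f T) τ) (fun w => f w x) * df (at' A (res f T) τ) (fun w => f w y) ≤
      (Real.log ((Fintype.card G : ℝ) ^ (Fintype.card P - T.card) * E /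
        ((at' A (res f T) τ).card : ℝ)) + 1) ^ 2 := by
    intro τ hne
    have h6 := sum_D hHELB hEQ hSUPP hSH hINST A f E hE0 hE T τ hne
    refine le_trans (sum_prod_le (univ \ T) (fun x => df (at' A (res f T) τ) (fun w => f w x))
      (fun x _ => (hHELB α G _ (fun w => f w x) hne).2.2.2.2.2.2.1)) ?_
    exact pow_le_pow_left₀ h6.1 (by linarith [h6.2]) 2
  have h7 := hCCE α ({i // i ∈ T} → G) A (res f T)
    ((Fintype.card G : ℝ) ^ (Fintype.card P - T.card) * E) 1 hA le_rfl (by
      intro τ
      by_cases hne : (at' A (res f T) τ).Nonempty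
      · have h6 := sum_D hHELB hEQ hSUPP hSH hINST A f E hE0 hE T τ hne
        have h8 : (0 : ℝ) ≤ Real.log ((Fintype.card G : ℝ) ^ (Fintype.card P - T.card) * E /
            ((at' A (res f T) τ).card : ℝ)) := le_trans h6.1 h6.2
        have hc : (0 : ℝ) < ((at' A (res f T) τ).card : ℝ) := by exact_mod_cast hne.card_pos
        have h9 := (Real.log_nonneg_iff (div_pos hN hc)).1 h8
        rwa [le_div_iff₀ hc, one_mul] at h9
      · rw [not_nonempty_iff_eq_empty] at hne
        rw [hne]
        simp only [card_empty, Nat.cast_zero]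
        exact hN.le)
  have h10 : (Fintype.card G : ℝ) ^ (Fintype.card P - T.card) * E *
      (Fintype.card ({i // i ∈ T} → G) : ℝ) = (Fintype.card G : ℝ) ^ (Fintype.card P) * E := by
    rw [card_res]
    push_cast
    rw [mul_right_comm, ← pow_add, Nat.sub_add_cancel hT]
  rw [h10] at h7
  refine le_trans ?_ h7
  refine sum_le_sum fun τ _ => ?_
  by_cases hne : (at' A (res f T) τ).Nonempty
  · exact mul_le_mul_of_nonneg_left (hND τ hne) (hpr τ)
  · rw [hpr0 τ hne]
    simp

/-- double counting -/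
theorem double_count {P : Type} [Fintype P] (F : P → P → ℝ) (k : ℕ) :
    ∑ T ∈ powersetCard k (univ : Finset P), ∑ x ∈ univ \ T, ∑ y ∈ (univ \ T).erase x, F x y =
      ((Fintype.card P - 2).choose k : ℝ) * ∑ x, ∑ y ∈ univ.erase x, F x y := by
  have h1 : ∀ T ∈ powersetCard k (univ : Finset P),
      ∑ x ∈ univ \ T, ∑ y ∈ (univ \ T).erase x, F x y =
      ∑ x, ∑ y ∈ univ.erase x, if x ∉ T ∧ y ∉ T then F x y else 0 := by
    intro T _
    rw [sdiff_eq_filter, sum_filter]
    refine sum_congr rfl fun x _ => ?_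
    by_cases hx : x ∈ T
    · simp [hx]
    · simp only [hx, not_false_eq_true, if_true, true_and]
      rw [← sum_filter]
      refine sum_congr ?_ fun _ _ => rfl
      ext y
      simp only [mem_erase, mem_filter, mem_univ, true_and, and_true]
  rw [sum_congr rfl h1, sum_comm, mul_sum]
  refine sum_congr rfl fun x _ => ?_
  rw [sum_comm, mul_sum]
  refine sum_congr rfl fun y hy => ?_
  rw [← sum_filter, sum_const, nsmul_eq_mul]
  congr 2
  have h2 : (powersetCard k (univ : Finset P)).filter (fun T => x ∉ T ∧ y ∉ T) =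
      powersetCard k (univ \ {x, y}) := by
    ext T
    simp only [mem_filter, mem_powersetCard, subset_univ, true_and]
    constructor
    · rintro ⟨h, hx, hy⟩
      refine ⟨?_, h⟩
      intro z hz
      simp only [mem_sdiff, mem_univ, mem_insert, mem_singleton, true_and, not_or]
      exact ⟨fun e => hx (e ▸ hz), fun e => hy (e ▸ hz)⟩
    · rintro ⟨h, h'⟩
      refine ⟨h', fun hx => ?_, fun hy => ?_⟩
      · have := h hx
        simp at this
      · have := h hy
        simp at this
  rw [h2, card_powersetCard, card_sdiff_of_subset (subset_univ _), card_univ,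
    card_pair (Ne.symm (mem_erase.1 hy).1)]

theorem choose_id (p k : ℕ) (hk : 2 * (k + 1) ≤ p) :
    (p.choose k : ℝ) * ((p : ℝ) - k) * ((p : ℝ) - k - 1) =
      (p : ℝ) * ((p : ℝ) - 1) * ((p - 2).choose k : ℝ) := by
  obtain ⟨q, rfl⟩ : ∃ q, p = q + 2 := ⟨p - 2, by omega⟩
  have h1 := Nat.choose_mul_succ_eq (q + 1) k
  have h2 := Nat.choose_mul_succ_eq q k
  have hq : k ≤ q := by omega
  have e1 : ((q + 1 + 1 - k : ℕ) : ℝ) = (q : ℝ) + 2 - k := by
    rw [Nat.cast_sub (by omega)]
    push_cast
    ring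
  have e2 : ((q + 1 - k : ℕ) : ℝ) = (q : ℝ) + 1 - k := by
    rw [Nat.cast_sub (by omega)]
    push_cast
    ring
  have h1' : ((q + 1).choose k : ℝ) * ((q : ℝ) + 2) =
      ((q + 2).choose k : ℝ) * ((q : ℝ) + 2 - k) := by
    have := congrArg (Nat.cast : ℕ → ℝ) h1
    rw [Nat.cast_mul, Nat.cast_mul, e1] at this
    push_cast at this
    linarith
  have h2' : (q.choose k : ℝ) * ((q : ℝ) + 1) =
      ((q + 1).choose k : ℝ) * ((q : ℝ) + 1 - k) := by
    have := congrArg (Nat.cast : ℕ → ℝ) h2
    rw [Nat.cast_mul, Nat.cast_mul, e2] at this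
    push_cast at this
    linarith
  rw [Nat.add_sub_cancel]
  push_cast
  have e3 : (q : ℝ) + 2 - k - 1 = (q : ℝ) + 1 - k := by ring
  have e4 : (q : ℝ) + 2 - 1 = (q : ℝ) + 1 := by ring
  rw [e3, e4, ← h1']
  calc ((q + 1).choose k : ℝ) * ((q : ℝ) + 2) * ((q : ℝ) + 1 - k)
      = ((q : ℝ) + 2) * (((q + 1).choose k : ℝ) * ((q : ℝ) + 1 - k)) := by ring
    _ = ((q : ℝ) + 2) * ((q.choose k : ℝ) * ((q : ℝ) + 1)) := by rw [← h2']
    _ = ((q : ℝ) + 2) * ((q : ℝ) + 1) * (q.choose k : ℝ) := by ring

end ROWS_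

open ROWS_ in
/-- ROWS: sums of two rows are nearly uniform. -/
theorem p_ROWS (hHELB : T_HELB) (hEQ : T_EQUIV) (hCONV : T_CONV) (hCHD : T_CHD)
    (hSUPP : T_SUPP) (hSUM : T_SUMXY) (hSH : T_SH) (hPIN : T_PIN) (hINST : T_INST)
    (hCCE : T_CCE) : T_ROWS := by
  intro α P G _ _ _ A f E hA hE
  have hE' : ∀ v : P → G, (at' A f v).card ≤ E := by
    intro v
    refine le_trans (card_le_card ?_) (hE v)
    intro w hw
    rw [mem_at] at hw
    simp only [mem_filter]
    exact hw
  have hE0 : 0 < E := by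
    obtain ⟨a, ha⟩ := hA
    refine lt_of_lt_of_le ?_ (hE' (f a))
    exact card_pos.2 ⟨a, (mem_at A f (f a) a).2 ⟨ha, rfl⟩⟩
  have hS := hINST α P G A f hA
  set L : ℝ := Real.log ((Fintype.card G : ℝ) ^ (Fintype.card P) * E / (A.card : ℝ)) with hL
  have hgL : gd A f univ ≤ L := by
    have h := (hSUPP α ({i // i ∈ (univ : Finset P)} → G) A (res f univ) hA).1 E
      (by exact_mod_cast hE0) (fun s => by
        refine Nat.cast_le.2 (le_trans (card_le_card ?_) (hE' (fun i => s ⟨i, mem_univ i⟩)))
        intro w hw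
        have hw' : w ∈ at' A (res f univ) s := hw
        rw [mem_at] at hw'
        rw [mem_at]
        refine ⟨hw'.1, ?_⟩
        rw [← hw'.2])
    rw [card_res, card_univ] at h
    push_cast at h
    exact h
  have hg0 : 0 ≤ gd A f univ := hS.2.1 univ
  have hL0 : 0 ≤ L := le_trans hg0 hgL
  by_cases hp : 2 ≤ Fintype.card P
  · obtain ⟨k, hk, hpin⟩ := hPIN P (gd A f) hS hp
    have h1 := sum_le_sum (s := powersetCard k (univ : Finset P)) fun T _ =>
      fixed_T hHELB hEQ hCONV hCHD hSUPP hSUM hSH hINST hCCE A hA f E hE0 hE' T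
    rw [double_count, sum_add_distrib, ← mul_sum, sum_const, card_powersetCard, card_univ,
      nsmul_eq_mul, ← hL] at h1
    set S := ∑ x : P, ∑ y ∈ univ.erase x, hel A (fun w => f w x + f w y) with hSdef
    set p : ℕ := Fintype.card P with hpdef
    have hid := choose_id p k hk
    have hp2 : (2 : ℝ) ≤ (p : ℝ) := by exact_mod_cast hp
    have hkp : 2 * ((k : ℝ) + 1) ≤ (p : ℝ) := by exact_mod_cast hk
    have hk0 : (0 : ℝ) ≤ (k : ℝ) := Nat.cast_nonneg k
    have hc2 : (0 : ℝ) < ((p - 2).choose k : ℝ) := by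
      exact_mod_cast Nat.choose_pos (by omega)
    have hc : (0 : ℝ) ≤ (p.choose k : ℝ) := Nat.cast_nonneg _
    have hc4 : (p.choose k : ℝ) ≤ 4 * ((p - 2).choose k : ℝ) := by
      have h2 : (p : ℝ) * ((p : ℝ) - 1) ≤ 4 * (((p : ℝ) - k) * ((p : ℝ) - k - 1)) := by
        nlinarith
      have h3 : (p.choose k : ℝ) * ((p : ℝ) * ((p : ℝ) - 1)) ≤
          (4 * ((p - 2).choose k : ℝ)) * ((p : ℝ) * ((p : ℝ) - 1)) := by
        calc (p.choose k : ℝ) * ((p : ℝ) * ((p : ℝ) - 1))
            ≤ (p.choose k : ℝ) * (4 * (((p : ℝ) - k) * ((p : ℝ) - k - 1))) :=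
              mul_le_mul_of_nonneg_left h2 hc
          _ = 4 * ((p.choose k : ℝ) * ((p : ℝ) - k) * ((p : ℝ) - k - 1)) := by ring
          _ = (4 * ((p - 2).choose k : ℝ)) * ((p : ℝ) * ((p : ℝ) - 1)) := by rw [hid]; ring
      exact le_of_mul_le_mul_right h3 (by nlinarith)
    have h4 : 6 * gd A f univ / (p : ℝ) ^ 2 *
        ((p.choose k : ℝ) * ((p : ℝ) - k) * ((p : ℝ) - k - 1)) ≤
        6 * L * ((p - 2).choose k : ℝ) := by
      rw [hid]
      have h5 : 6 * gd A f univ / (p : ℝ) ^ 2 * ((p : ℝ) * ((p : ℝ) - 1) *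
          ((p - 2).choose k : ℝ)) =
          6 * gd A f univ * ((p - 2).choose k : ℝ) * (((p : ℝ) - 1) / (p : ℝ)) := by
        field_simp
      rw [h5]
      have h6 : ((p : ℝ) - 1) / (p : ℝ) ≤ 1 := by
        rw [div_le_one (by linarith)]
        linarith
      have h7 : 0 ≤ 6 * gd A f univ * ((p - 2).choose k : ℝ) := by positivity
      calc 6 * gd A f univ * ((p - 2).choose k : ℝ) * (((p : ℝ) - 1) / (p : ℝ))
          ≤ 6 * gd A f univ * ((p - 2).choose k : ℝ) * 1 :=
            mul_le_mul_of_nonneg_left h6 h7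
        _ ≤ 6 * L * ((p - 2).choose k : ℝ) := by
            rw [mul_one]
            exact mul_le_mul_of_nonneg_right (by linarith) hc2.le
    have h8 : ((p - 2).choose k : ℝ) * S ≤
        ((p - 2).choose k : ℝ) * (12 * L + 4800 * (L + 1) ^ 2) := by
      have h9 : (p.choose k : ℝ) * (1200 * (L + 1) ^ 2) ≤
          4 * ((p - 2).choose k : ℝ) * (1200 * (L + 1) ^ 2) :=
        mul_le_mul_of_nonneg_right hc4 (by positivity)
      have h10 := le_trans hpin h4
      linarith
    have h11 := le_of_mul_le_mul_left h8 hc2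
    nlinarith
  · have h0 : ∀ x : P, (univ.erase x : Finset P) = ∅ := by
      intro x
      rw [← card_eq_zero, card_erase_of_mem (mem_univ x), card_univ]
      omega
    have h1 : ∑ x : P, ∑ y ∈ univ.erase x, hel A (fun w => f w x + f w y) = 0 := by
      refine sum_eq_zero fun x _ => ?_
      rw [h0 x, sum_empty]
    rw [h1]
    positivity

end Pool.Agent.EFX
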