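import Pool.Agent.EFX.Targets

set_option autoImplicit false

namespace Pool.Agent.EFX

open Finset

open scoped Classical

namespace SH_

theorem mono {ι : Type} {g : Finset ι → ℝ} (hg : Spm g) {J K : Finset ι} (h : J ⊆ K) :
    g J ≤ g K := by
  obtain ⟨h0, h1, h2⟩ := hg
  have e := h2 J (K \ J)
  rw [Finset.union_sdiff_of_subset h, Finset.inter_sdiff_self, h0] at e
  have := h1 (K \ J)
  linarith

end SH_

open SH_ in
theorem p_SH : T_SH := by
  intro ι κ I g w J D θ hg hw
  induction D using Finset.induction_on generalizing J with
  | empty =>
    intro hJ _
    have : ∀ k ∈ I, w k * g (J k) = 0 := by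
      intro k hk
      have : J k = ∅ := Finset.subset_empty.1 (hJ k hk)
      rw [this, hg.1, mul_zero]
    rw [Finset.sum_congr rfl this, Finset.sum_const_zero, hg.1, mul_zero]
  | insert i D hi ih =>
    intro hJ hθ
    have hmono : g D ≤ g (insert i D) := mono hg (Finset.subset_insert i D)
    have key : ∀ k ∈ I, w k * g (J k) ≤ w k * g ((J k).erase i) +
        (if i ∈ J k then w k else 0) * (g (insert i D) - g D) := by
      intro k hk
      by_cases hik : i ∈ J k
      · rw [if_pos hik]
        have e := hg.2.2 (J k) D
        have e1 : J k ∪ D = insert i D := by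
          ext x
          simp only [Finset.mem_union, Finset.mem_insert]
          constructor
          · rintro (h | h)
            · exact Finset.mem_insert.1 (hJ k hk h)
            · exact Or.inr h
          · rintro (h | h)
            · exact Or.inl (h ▸ hik)
            · exact Or.inr h
        have e2 : J k ∩ D = (J k).erase i := by
          ext x
          simp only [Finset.mem_inter, Finset.mem_erase]
          constructor
          · rintro ⟨h1, h2⟩
            exact ⟨fun h => hi (h ▸ h2), h1⟩
          · rintro ⟨h1, h2⟩
            refine ⟨h2, ?_⟩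
            rcases Finset.mem_insert.1 (hJ k hk h2) with h | h
            · exact absurd h h1
            · exact h
        rw [e1, e2] at e
        have := mul_le_mul_of_nonneg_left (show g (J k) ≤ g ((J k).erase i) +
          (g (insert i D) - g D) by linarith) (hw k hk)
        linarith
      · rw [if_neg hik, Finset.erase_eq_of_notMem hik, zero_mul, add_zero]
    have h1 := Finset.sum_le_sum key
    rw [Finset.sum_add_distrib, ← Finset.sum_mul] at h1
    have h2 : ∑ k ∈ I, w k * g ((J k).erase i) ≤ θ * g D := by
      apply ih (fun k => (J k).erase i)
      · intro k hk x hx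
        rw [Finset.mem_erase] at hx
        rcases Finset.mem_insert.1 (hJ k hk hx.2) with h | h
        · exact absurd h hx.1
        · exact h
      · intro i' hi'
        refine le_trans (le_of_eq ?_) (hθ i' (Finset.mem_insert_of_mem hi'))
        apply Finset.sum_congr _ (fun _ _ => rfl)
        apply Finset.filter_congr
        intro k _
        rw [Finset.mem_erase]
        exact ⟨fun h => h.2, fun h => ⟨fun h' => hi (h' ▸ hi'), h⟩⟩
    have h3 : ∑ k ∈ I, (if i ∈ J k then w k else 0) ≤ θ := by
      rw [← Finset.sum_filter]
      exact hθ i (Finset.mem_insert_self i D)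
    have h4 := mul_le_mul_of_nonneg_right h3 (sub_nonneg.2 hmono)
    calc _ ≤ _ := h1
      _ ≤ θ * g D + θ * (g (insert i D) - g D) := add_le_add h2 h4
      _ = θ * g (insert i D) := by ring

end Pool.Agent.EFX
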