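import Pool.Agent.EFX.CHD

set_option autoImplicit false

/-!
# SSA: strong subadditivity in deficit form
-/

namespace Pool.Agent.EFX

open Finset

open scoped Classical

namespace SSA_

open CONV_ CHD_

theorem avg {α S : Type} [Fintype S] (A : Finset α) (X : α → S) (F : S → ℝ) :
    ∑ s, pr A X s * F s = (∑ w ∈ A, F (X w)) / (A.card : ℝ) := by
  rw [← Finset.sum_fiberwise A X (fun w => F (X w)), Finset.sum_div]
  apply Finset.sum_congr rfl
  intro s _
  have h1 : ∑ w ∈ A with X w = s, F (X w) = ∑ w ∈ A with X w = s, F s := by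
    apply Finset.sum_congr rfl
    intro w hw
    rw [(Finset.mem_filter.mp hw).2]
  rw [h1, Finset.sum_const, nsmul_eq_mul]
  unfold pr
  ring

theorem pr_pos {α S : Type} (A : Finset α) (X : α → S) (w : α) (hw : w ∈ A) :
    0 < pr A X (X w) := by
  unfold pr
  have h1 : 0 < (A.filter (fun v => X v = X w)).card :=
    Finset.card_pos.mpr ⟨w, Finset.mem_filter.mpr ⟨hw, rfl⟩⟩
  have h2 : 0 < A.card := Finset.card_pos.mpr ⟨w, hw⟩
  positivity

theorem log_qd {α S : Type} [Fintype S] (A : Finset α) (X : α → S) (w : α) (hw : w ∈ A) :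
    Real.log (qd A X (X w)) = Real.log (Fintype.card S : ℝ) + Real.log (pr A X (X w)) := by
  unfold qd
  have h2 : 0 < Fintype.card S := Fintype.card_pos_iff.mpr ⟨X w⟩
  rw [Real.log_mul (by positivity) (ne_of_gt (pr_pos A X w hw))]

end SSA_

open CONV_ CHD_ SSA_ in
theorem p_SSA : T_SSA := by
  intro α S T R _ _ _ A X Y Z hA
  have hA0 : (0 : ℝ) < (A.card : ℝ) := Nat.cast_pos.mpr (Finset.card_pos.mpr hA)
  set V : α → S × T × R := fun w => (X w, Y w, Z w) with hV
  set XZ : α → S × R := fun w => (X w, Z w) with hXZ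
  set YZ : α → T × R := fun w => (Y w, Z w) with hYZ
  have key : ∀ w ∈ A, 1 - pr A XZ (XZ w) * pr A YZ (YZ w) / (pr A V (V w) * pr A Z (Z w)) ≤
      Real.log (qd A V (V w)) + Real.log (qd A Z (Z w)) - Real.log (qd A XZ (XZ w)) -
        Real.log (qd A YZ (YZ w)) := by
    intro w hw
    rw [log_qd A V w hw, log_qd A Z w hw, log_qd A XZ w hw, log_qd A YZ w hw]
    have p1 := pr_pos A V w hw
    have p2 := pr_pos A Z w hw
    have p3 := pr_pos A XZ w hw
    have p4 := pr_pos A YZ w hw
    have c1 : (0 : ℝ) < Fintype.card S :=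
      Nat.cast_pos.mpr (Fintype.card_pos_iff.mpr ⟨X w⟩)
    have c2 : (0 : ℝ) < Fintype.card T :=
      Nat.cast_pos.mpr (Fintype.card_pos_iff.mpr ⟨Y w⟩)
    have c3 : (0 : ℝ) < Fintype.card R :=
      Nat.cast_pos.mpr (Fintype.card_pos_iff.mpr ⟨Z w⟩)
    have e1 : Real.log (Fintype.card (S × T × R) : ℝ) = Real.log (Fintype.card S : ℝ) +
        (Real.log (Fintype.card T : ℝ) + Real.log (Fintype.card R : ℝ)) := by
      rw [Fintype.card_prod, Fintype.card_prod]
      push_cast
      rw [Real.log_mul (ne_of_gt c1) (by positivity), Real.log_mul (ne_of_gt c2) (ne_of_gt c3)]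
    have e2 : Real.log (Fintype.card (S × R) : ℝ) = Real.log (Fintype.card S : ℝ) +
        Real.log (Fintype.card R : ℝ) := by
      rw [Fintype.card_prod]
      push_cast
      rw [Real.log_mul (ne_of_gt c1) (ne_of_gt c3)]
    have e3 : Real.log (Fintype.card (T × R) : ℝ) = Real.log (Fintype.card T : ℝ) +
        Real.log (Fintype.card R : ℝ) := by
      rw [Fintype.card_prod]
      push_cast
      rw [Real.log_mul (ne_of_gt c2) (ne_of_gt c3)]
    rw [e1, e2, e3]
    have h1 : 0 < pr A V (V w) * pr A Z (Z w) / (pr A XZ (XZ w) * pr A YZ (YZ w)) := by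
      positivity
    have h2 := Real.one_sub_inv_le_log_of_pos h1
    rw [inv_div] at h2
    have h3 : Real.log (pr A V (V w) * pr A Z (Z w) / (pr A XZ (XZ w) * pr A YZ (YZ w))) =
        Real.log (pr A V (V w)) + Real.log (pr A Z (Z w)) - Real.log (pr A XZ (XZ w)) -
          Real.log (pr A YZ (YZ w)) := by
      rw [Real.log_div (by positivity) (by positivity), Real.log_mul (ne_of_gt p1) (ne_of_gt p2),
        Real.log_mul (ne_of_gt p3) (ne_of_gt p4)]
      ring
    rw [h3] at h2
    linarith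
  have hsum : (∑ w ∈ A, pr A XZ (XZ w) * pr A YZ (YZ w) / (pr A V (V w) * pr A Z (Z w))) /
      (A.card : ℝ) ≤ 1 := by
    have h1 := avg A V (fun v => pr A XZ (v.1, v.2.2) * pr A YZ (v.2.1, v.2.2) /
      (pr A V v * pr A Z v.2.2))
    have h2 : (∑ w ∈ A, pr A XZ (XZ w) * pr A YZ (YZ w) / (pr A V (V w) * pr A Z (Z w))) /
        (A.card : ℝ) = ∑ v, pr A V v * (pr A XZ (v.1, v.2.2) * pr A YZ (v.2.1, v.2.2) /
      (pr A V v * pr A Z v.2.2)) := by
      rw [h1]
    rw [h2]
    have h3 : ∀ v : S × T × R, pr A V v * (pr A XZ (v.1, v.2.2) * pr A YZ (v.2.1, v.2.2) /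
        (pr A V v * pr A Z v.2.2)) ≤
        pr A XZ (v.1, v.2.2) * pr A YZ (v.2.1, v.2.2) / pr A Z v.2.2 := by
      intro v
      by_cases h0 : pr A V v = 0
      · rw [h0, zero_mul]
        exact div_nonneg (mul_nonneg (pr_nonneg _ _ _) (pr_nonneg _ _ _)) (pr_nonneg _ _ _)
      · apply le_of_eq
        rw [mul_div_assoc', mul_div_mul_left _ _ h0]
    refine le_trans (Finset.sum_le_sum fun v _ => h3 v) ?_
    rw [Fintype.sum_prod_type]
    have h4 : ∑ x : S, ∑ yz : T × R, pr A XZ (x, yz.2) * pr A YZ (yz.1, yz.2) / pr A Z yz.2 =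
        ∑ z : R, (∑ x : S, pr A XZ (x, z)) * (∑ y : T, pr A YZ (y, z)) / pr A Z z := by
      have h5 : ∀ x : S, ∑ yz : T × R, pr A XZ (x, yz.2) * pr A YZ (yz.1, yz.2) / pr A Z yz.2 =
          ∑ z : R, pr A XZ (x, z) * (∑ y : T, pr A YZ (y, z)) / pr A Z z := by
        intro x
        rw [Fintype.sum_prod_type, Finset.sum_comm]
        apply Finset.sum_congr rfl
        intro z _
        rw [Finset.mul_sum, Finset.sum_div]
      rw [Finset.sum_congr rfl fun x _ => h5 x, Finset.sum_comm]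
      apply Finset.sum_congr rfl
      intro z _
      rw [Finset.sum_mul, Finset.sum_div]
    simp only
    rw [h4]
    have h6 : ∀ z : R, (∑ x : S, pr A XZ (x, z)) * (∑ y : T, pr A YZ (y, z)) / pr A Z z ≤
        pr A Z z := by
      intro z
      rw [hXZ, hYZ, pr_sum A X Z z, pr_sum A Y Z z]
      by_cases h0 : pr A Z z = 0
      · rw [h0]
        simp
      · rw [mul_div_assoc, div_self h0, mul_one]
    refine le_trans (Finset.sum_le_sum fun z _ => h6 z) ?_
    rw [pr_sum_one A Z hA]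
  have hdf : ∀ {Q : Type} [Fintype Q] (U : α → Q), df A U =
      (∑ w ∈ A, Real.log (qd A U (U w))) / (A.card : ℝ) := by
    intro Q _ U
    unfold df
    exact avg A U (fun s => Real.log (qd A U s))
  rw [hdf XZ, hdf YZ, hdf V, hdf Z]
  have h7 := Finset.sum_le_sum key
  rw [Finset.sum_sub_distrib, Finset.sum_sub_distrib, Finset.sum_sub_distrib,
    Finset.sum_add_distrib, Finset.sum_const, nsmul_eq_mul, mul_one] at h7
  rw [div_le_iff₀ hA0, one_mul] at hsum
  rw [← add_div, ← add_div, div_le_div_iff_of_pos_right hA0]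
  linarith

end Pool.Agent.EFX
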