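import Pool.Agent.EFX.Targets

set_option autoImplicit false

/-!
# The star bound from the inequality of Shearer
-/

namespace Pool.Agent.EFX

open Finset

open scoped Classical

noncomputable section

namespace STAR_

variable {V : Type}

theorem val_ne (G : Gr V) {x y : V} (h : x ≠ y) : val G x y = G ⟨{x, y}, card_pair h⟩ := by
  unfold val
  rw [dif_pos h]

theorem val_self (G : Gr V) (x : V) : val G x x = 0 := by
  unfold val
  rw [dif_neg (by simp)]

theorem two_mul_zero (a : ZMod 2) : a + a = 0 := CharTwo.add_self_eq_zero a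

theorem pair_eq {x y : V} (h : x ≠ y) :
    (⟨{x, y}, card_pair h⟩ : Ed V) = ⟨{y, x}, card_pair h.symm⟩ := Subtype.ext (pair_comm x y)

theorem val_symm (G : Gr V) (x y : V) : val G x y = val G y x := by
  by_cases h : x = y
  · rw [h]
  · rw [val_ne _ h, val_ne _ (Ne.symm h), pair_eq h]

/-- the transformation of graphs -/
def ta (x : V) (G : Gr V) : Gr V := fun e => if x ∈ e.1 then G e else G e + ∑ y ∈ e.1, val G x y

theorem ta_of_mem {x : V} (G : Gr V) {e : Ed V} (h : x ∈ e.1) : ta x G e = G e := by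
  unfold ta
  rw [if_pos h]

theorem ta_of_not_mem {x : V} (G : Gr V) {e : Ed V} (h : x ∉ e.1) :
    ta x G e = G e + ∑ y ∈ e.1, val G x y := by
  unfold ta
  rw [if_neg h]

theorem val_ta (x y : V) (G : Gr V) : val (ta x G) x y = val G x y := by
  by_cases h : x = y
  · subst h
    rw [val_self, val_self]
  · rw [val_ne _ h, val_ne _ h]
    exact ta_of_mem G (by simp)

theorem val_ta' {x y z : V} (hy : y ≠ x) (hz : z ≠ x) (hyz : y ≠ z) (G : Gr V) :
    val (ta x G) y z = val G y z + (val G x y + val G x z) := by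
  rw [val_ne _ hyz, ta_of_not_mem, val_ne _ hyz, sum_pair hyz]
  simp [hy.symm, hz.symm]

theorem ta_ta (x : V) (G : Gr V) : ta x (ta x G) = G := by
  funext e
  by_cases h : x ∈ e.1
  · rw [ta_of_mem _ h, ta_of_mem _ h]
  · rw [ta_of_not_mem _ h, ta_of_not_mem _ h]
    simp only [val_ta]
    rw [add_assoc, two_mul_zero, add_zero]

/-- the values outside `J` are ignored -/
def ext' (J : Finset (Ed V)) (h : {i // i ∈ J} → ZMod 2) : Gr V := fun e =>
  if he : e ∈ J then h ⟨e, he⟩ else 0

theorem ext'_of_mem {J : Finset (Ed V)} (h : {i // i ∈ J} → ZMod 2) {e : Ed V} (he : e ∈ J) :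
    ext' J h e = h ⟨e, he⟩ := by
  unfold ext'
  rw [dif_pos he]

section

variable [Fintype V]

theorem mem_ins {P : Finset V} {e : Ed V} : e ∈ ins P ↔ e.1 ⊆ P := by
  unfold ins
  rw [mem_filter]
  exact ⟨fun h => h.2, fun h => ⟨mem_univ _, h⟩⟩

theorem pair_mem_ins {P : Finset V} {x y : V} (hx : x ∈ P) (hy : y ∈ P) (h : x ≠ y) :
    (⟨{x, y}, card_pair h⟩ : Ed V) ∈ ins P := by
  rw [mem_ins]
  intro z hz
  simp only [mem_insert, mem_singleton] at hz
  rcases hz with rfl | rfl <;> assumption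

/-- `ta` on the pairs inside `P` depends only on the pairs inside `P`. -/
theorem ta_congr {P : Finset V} {x : V} (hx : x ∈ P) {G H : Gr V}
    (h : ∀ e ∈ ins P, G e = H e) : ∀ e ∈ ins P, ta x G e = ta x H e := by
  intro e he
  by_cases hxe : x ∈ e.1
  · rw [ta_of_mem _ hxe, ta_of_mem _ hxe, h e he]
  · rw [ta_of_not_mem _ hxe, ta_of_not_mem _ hxe, h e he]
    congr 1
    apply sum_congr rfl
    intro y hy
    have hxy : x ≠ y := fun h' => hxe (h' ▸ hy)
    rw [val_ne _ hxy, val_ne _ hxy]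
    exact h _ (pair_mem_ins hx (mem_ins.mp he hy) hxy)

/-- the action of `ta` on the functions on the pairs inside `P` -/
def phi1 (P : Finset V) (x : V) (h : {i // i ∈ ins P} → ZMod 2) : {i // i ∈ ins P} → ZMod 2 :=
  fun i => ta x (ext' (ins P) h) i

theorem phi1_res {P : Finset V} {x : V} (hx : x ∈ P) (G : Gr V) :
    phi1 P x (fun i => G i.1) = fun i : {i // i ∈ ins P} => ta x G i.1 := by
  funext i
  apply ta_congr hx _ i.1 i.2
  intro e he
  rw [ext'_of_mem _ he]

theorem phi1_phi1 {P : Finset V} {x : V} (hx : x ∈ P) (h : {i // i ∈ ins P} → ZMod 2) :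
    phi1 P x (phi1 P x h) = h := by
  have h1 := phi1_res hx (ta x (ext' (ins P) h))
  change phi1 P x (fun i => ta x (ext' (ins P) h) i.1) = h
  rw [h1]
  funext i
  rw [ta_ta, ext'_of_mem _ i.2]

/-- the rows -/
def row (P : Finset V) (y : V) : Finset (Ed V) := (ins P).filter (fun e => y ∈ e.1)

theorem pair_mem_row {P : Finset V} {x y z : V} (hx : x ∈ P) (hy : y ∈ P) (h : x ≠ y)
    (hz : z = x ∨ z = y) : (⟨{x, y}, card_pair h⟩ : Ed V) ∈ row P z := by
  unfold row
  rw [mem_filter]
  refine ⟨pair_mem_ins hx hy h, ?_⟩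
  simpa using hz

/-- the coset coordinates as a function of a row -/
def phi2 (P : Finset V) (x y : V) (h : {i // i ∈ row P y} → ZMod 2) :
    {z : V // z ∈ P ∧ z ≠ x} → ZMod 2 :=
  fun z => val (ext' (row P y) h) x y + val (ext' (row P y) h) y z

theorem phi2_res {P : Finset V} {x y : V} (hx : x ∈ P) (hy : y ∈ P) (hyx : y ≠ x) (G : Gr V) :
    phi2 P x y (fun i => ta x G i) = ux P x y G := by
  have h1 : val (ext' (row P y) (fun i : {i // i ∈ row P y} => ta x G i)) x y = val G x y := by
    rw [val_ne _ hyx.symm, ext'_of_mem _ (pair_mem_row hx hy hyx.symm (Or.inr rfl)),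
      ← val_ne (ta x G) hyx.symm, val_ta]
  funext z
  unfold phi2 ux
  rw [h1]
  by_cases hz : y = z
  · rw [← hz, val_self, val_self]
  · rw [val_ne _ hz, ext'_of_mem _ (pair_mem_row hy z.2.1 hz (Or.inl rfl)),
      ← val_ne (ta x G) hz, val_ta' hyx z.2.2 hz]
    have e : val G x y + (val G y z + (val G x y + val G x z)) =
        (val G x y + val G x y) + (val G x z + val G y z) := by ring
    rw [e, two_mul_zero, zero_add]

/-- every pair in the row is of the form `{y, z}` -/
theorem row_cases {P : Finset V} {y : V} {e : Ed V} (he : e ∈ row P y) :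
    ∃ z, ∃ h : y ≠ z, z ∈ P ∧ e = ⟨{y, z}, card_pair h⟩ := by
  unfold row at he
  rw [mem_filter, mem_ins] at he
  obtain ⟨heP, hy⟩ := he
  obtain ⟨a, b, hab, he⟩ := card_eq_two.mp e.2
  rw [he] at hy heP
  simp only [mem_insert, mem_singleton] at hy
  rcases hy with rfl | rfl
  · exact ⟨b, hab, heP (by simp), Subtype.ext he⟩
  · refine ⟨a, hab.symm, heP (by simp), Subtype.ext ?_⟩
    rw [he, pair_comm]

theorem phi2_inj {P : Finset V} {x y : V} (hx : x ∈ P) (hy : y ∈ P) (hyx : y ≠ x) :
    Function.Injective (phi2 P x y) := by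
  intro h h' hh
  have h1 : val (ext' (row P y) h) x y = val (ext' (row P y) h') x y := by
    have := congrFun hh ⟨y, hy, hyx⟩
    unfold phi2 at this
    simpa [val_self] using this
  have h2 : ∀ z ∈ P, y ≠ z → val (ext' (row P y) h) y z = val (ext' (row P y) h') y z := by
    intro z hz hyz
    by_cases hzx : z = x
    · subst hzx
      rw [val_symm, h1, val_symm]
    · have := congrFun hh ⟨z, hz, hzx⟩
      unfold phi2 at this
      rw [h1] at this
      exact add_left_cancel this
  funext i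
  obtain ⟨z, hyz, hz, hi⟩ := row_cases i.2
  have h3 := h2 z hz hyz
  have hm := pair_mem_row hy hz hyz (Or.inl rfl : y = y ∨ y = z)
  rw [val_ne _ hyz, val_ne _ hyz, ext'_of_mem _ hm, ext'_of_mem _ hm] at h3
  have hi' : i = ⟨⟨{y, z}, card_pair hyz⟩, hm⟩ := Subtype.ext hi
  rw [hi']
  exact h3

theorem phi2_surj {P : Finset V} {x y : V} (hx : x ∈ P) (hy : y ∈ P) (hyx : y ≠ x) :
    Function.Surjective (phi2 P x y) := by
  intro u
  set U : V → ZMod 2 := fun z => if h : z ∈ P ∧ z ≠ x then u ⟨z, h⟩ else 0 with hU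
  have hUz : ∀ z : {z : V // z ∈ P ∧ z ≠ x}, U z = u z := by
    intro z
    simp only [hU]
    rw [dif_pos z.2]
  refine ⟨fun i => if x ∈ i.1.1 then U y else U y + ∑ z ∈ i.1.1.erase y, U z, ?_⟩
  have h1 : val (ext' (row P y) (fun i : {i // i ∈ row P y} =>
      if x ∈ i.1.1 then U y else U y + ∑ z ∈ i.1.1.erase y, U z)) x y = U y := by
    rw [val_ne _ hyx.symm, ext'_of_mem _ (pair_mem_row hx hy hyx.symm (Or.inr rfl))]
    simp
  funext z
  unfold phi2
  rw [h1]
  by_cases hz : y = z
  · rw [← hz, val_self, add_zero, hz]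
    exact hUz z
  · rw [val_ne _ hz, ext'_of_mem _ (pair_mem_row hy z.2.1 hz (Or.inl rfl))]
    have hx' : x ∉ ({y, (z : V)} : Finset V) := by
      simp [hyx.symm, z.2.2.symm]
    simp only [if_neg hx']
    have he : ({y, (z : V)} : Finset V).erase y = {(z : V)} := by
      rw [erase_insert]
      simpa using hz
    rw [he, sum_singleton, ← add_assoc, two_mul_zero, zero_add]
    exact hUz z

end

end STAR_

open STAR_ in
theorem p_STAR : T_EQUIV → T_SH → T_INST → T_VAL → T_STAR := by
  intro hE hS hI _ V _ A P x hA hx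
  have hspm := hI (Gr V) (Ed V) (ZMod 2) A (fun G => ta x G) hA
  have h1 := hS (Ed V) V (P.erase x) (gd A (fun G => ta x G)) (fun _ => 1) (fun y => row P y)
    (ins P) 2 hspm (fun _ _ => zero_le_one) (fun y _ => filter_subset _ _) (by
      intro e he
      rw [sum_const, nsmul_eq_mul, mul_one]
      refine le_trans (Nat.cast_le.mpr (card_le_card (t := e.1) ?_)) ?_
      · intro y hy
        have := ((@Finset.mem_filter _ _ (_) _ _).mp hy).2
        unfold row at this
        exact (mem_filter.mp this).2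
      · rw [e.2]
        norm_num)
  have key1 : ∀ (i1 i2 : Fintype ({i // i ∈ ins P} → ZMod 2)),
      @df (Gr V) _ i1 A (fun G => fun i : {i // i ∈ ins P} => ta x G i.1) =
        @df (Gr V) _ i2 A (fun G => fun i : {i // i ∈ ins P} => G i.1) := by
    intro i1 i2
    have h3 := (@hE (Gr V) ({i // i ∈ ins P} → ZMod 2) ({i // i ∈ ins P} → ZMod 2) i2 i1 A
      (fun G => fun i => G i.1) (phi1 P x)
      (Function.bijective_iff_has_inverse.mpr ⟨phi1 P x, phi1_phi1 hx, phi1_phi1 hx⟩)).2
    exact (congrArg (@df (Gr V) _ i1 A) (funext fun G => (phi1_res hx G).symm)).trans h3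
  have h2 : gd A (fun G => ta x G) (ins P) = gd A (fun G => G) (ins P) := key1 _ _
  rw [h2] at h1
  refine le_trans (le_of_eq ?_) h1
  apply sum_congr rfl
  intro y hy
  have hyx : y ≠ x := ne_of_mem_erase hy
  have hyP : y ∈ P := mem_of_mem_erase hy
  rw [one_mul]
  have key2 : ∀ (i1 : Fintype ({z : V // z ∈ P ∧ z ≠ x} → ZMod 2))
      (i2 : Fintype ({i // i ∈ row P y} → ZMod 2)),
      @df (Gr V) _ i1 A (ux P x y) =
        @df (Gr V) _ i2 A (fun G => fun i : {i // i ∈ row P y} => ta x G i.1) := by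
    intro i1 i2
    have h3 := (@hE (Gr V) ({i // i ∈ row P y} → ZMod 2) ({z : V // z ∈ P ∧ z ≠ x} → ZMod 2)
      i2 i1 A (fun G => fun i => ta x G i.1) (phi2 P x y)
      ⟨phi2_inj hx hyP hyx, phi2_surj hx hyP hyx⟩).2
    exact (congrArg (@df (Gr V) _ i1 A) (funext fun G => (phi2_res hx hyP hyx G).symm)).trans h3
  exact key2 _ _

end

end Pool.Agent.EFX
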