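import Pool.Agent.EFX.Targets

set_option autoImplicit false

/-!
# All dominated cosets of good pairs belong to one cylinder
-/

namespace Pool.Agent.EFX

open Finset

open scoped Classical

noncomputable section

namespace STEPA_

/-- the vertex set of the piece -/
def nn {V : Type} (x y : V) (R' : Finset {z : V // z ≠ x}) : Finset V :=
  if ∃ h : y ≠ x, (⟨y, h⟩ : {z : V // z ≠ x}) ∈ R' then
    insert x (R'.map (Function.Embedding.subtype _)) else R'.map (Function.Embedding.subtype _)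

/-- the family `F` is dense in the coset-cylinder -/
def Dn {V : Type} [Fintype V] (F : Finset (Gr V)) (N : Finset V) (κ : Gr V) (x y : V) : Prop :=
  (31 / 32 : ℝ) * ((cc N κ x y (cs x y κ)).card : ℝ) ≤ ((F ∩ cc N κ x y (cs x y κ)).card : ℝ)

theorem piece (hV : T_VAL) (hP : T_PIECE) (V : Type) [Fintype V] (r : ℕ) (F : Finset (Gr V))
    (x y : V) (hxy : x ≠ y) (g : {z : V // z ≠ x} → ZMod 2) (R' : Finset {z : V // z ≠ x})
    (K' : Gr {z : V // z ≠ x}) (hR : R'.card = r) (hd : (31 / 32 : ℝ) ≤ rel r (cut x y F g) R' K') :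
    ∃ κ : Gr V, rst x κ = K' ∧ cs x y κ = g ∧ Typ r (nn x y R') x y ∧ Dn F (nn x y R') κ x y := by
  obtain ⟨κ, h1, h2⟩ := (hV V).2.2.2.2.2.2 x y hxy K' g
  obtain ⟨h3, h4⟩ := hP V r F x y g R' K' κ hxy hR hd h1 h2 (nn x y R') rfl
  exact ⟨κ, h1, h2, h3, h4⟩

theorem typ_card {V : Type} {r : ℕ} {N : Finset V} {x y : V} (h : Typ r N x y) :
    N.card ≤ r + 1 := by
  rcases h.2 with ⟨h1, _⟩ | ⟨h1, _⟩ <;> omega

end STEPA_

open STEPA_ in
theorem p_STEPA : T_VAL → T_CARD → T_CYL → T_CONF → T_PIECE → T_STEPA := by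
  intro hV _ _ hC hP V _ r F1 F2 Gd hr hX hne hgood hdom
  -- the first good pair
  obtain ⟨x0, y0, -, -, hg0⟩ := hgood ∅ (by simp)
  obtain ⟨g0, R0, K0, hD0⟩ := hdom x0 y0 hg0
  obtain ⟨κ0, -, -, ht0, hd0⟩ := piece hV hP V r F1 x0 y0 (hne _ _ hg0) g0 R0 K0 hD0.1 hD0.2.1
  set N0 := nn x0 y0 R0 with hN0
  -- the second good pair
  obtain ⟨x1, y1, hx1, hy1, hg1⟩ := hgood N0 (typ_card ht0)
  obtain ⟨g1, R1, K1, hD1⟩ := hdom x1 y1 hg1
  obtain ⟨κ1, -, -, ht1, hd1⟩ := piece hV hP V r F2 x1 y1 (hne _ _ hg1) (flip x1 y1 g1) R1 K1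
    hD1.1 hD1.2.2
  set N1 := nn x1 y1 R1 with hN1
  have hc1 := (hC V r F1 F2 N0 N1 x0 y0 x1 y1 κ0 κ1 hr hX ht0 ht1 hd0 hd1).1
  have hN1r : N1.card = r ∧ x1 ∉ N1 ∧ y1 ∉ N1 := by
    rcases ht1.2 with h | ⟨h1, h2, h3⟩
    · exact h
    · exfalso
      have h4 : N0 ∩ N1 ⊆ (N1.erase x1).erase y1 := by
        intro z hz
        rw [mem_inter] at hz
        rw [mem_erase, mem_erase]
        refine ⟨?_, ?_, hz.2⟩
        · rintro rfl
          exact hy1 hz.1
        · rintro rfl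
          exact hx1 hz.1
      have h5 := card_le_card h4
      have h6 : y1 ∈ N1.erase x1 := mem_erase.mpr ⟨(hne _ _ hg1).symm, h3⟩
      rw [card_erase_of_mem h6, card_erase_of_mem h2] at h5
      omega
  refine ⟨N1, κ1, hN1r.1, ?_⟩
  intro x y hg hx hy g R' K' hD
  obtain ⟨κ, hκ, -, ht, hd⟩ := piece hV hP V r F1 x y (hne _ _ hg) g R' K' hD.1 hD.2.1
  set N := nn x y R' with hN
  obtain ⟨hc2, hc3⟩ := hC V r F1 F2 N N1 x y x1 y1 κ κ1 hr hX ht ht1 hd hd1
  have hsub : N1 ⊆ N := by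
    have h1 : N ∩ N1 = N1 := eq_of_subset_of_card_le inter_subset_right (by omega)
    rw [← h1]
    exact inter_subset_left
  have hNr : N.card = r ∧ x ∉ N ∧ y ∉ N := by
    rcases ht.2 with h | ⟨h1, h2, h3⟩
    · exact h
    · exfalso
      have h4 : N1 ⊆ (N.erase x).erase y := by
        intro z hz
        rw [mem_erase, mem_erase]
        refine ⟨?_, ?_, hsub hz⟩
        · rintro rfl
          exact hy hz
        · rintro rfl
          exact hx hz
      have h5 := card_le_card h4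
      have h6 : y ∈ N.erase x := mem_erase.mpr ⟨(hne _ _ hg).symm, h3⟩
      rw [card_erase_of_mem h6, card_erase_of_mem h2] at h5
      omega
  have hNN : N = N1 := (eq_of_subset_of_card_le hsub (by omega)).symm
  have hAg := hc3 hNN hNr.1
  have hmap : R'.map (Function.Embedding.subtype _) = N1 := by
    rw [← hNN, hN]
    unfold nn
    rw [if_neg]
    intro h
    apply hNr.2.1
    rw [hN]
    unfold nn
    rw [if_pos h]
    exact mem_insert_self _ _
  have hRR : N1.subtype (fun z => z ≠ x) = R' := by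
    ext z
    rw [mem_subtype, ← hmap, mem_map]
    constructor
    · rintro ⟨w, hw, hwz⟩
      have h1 : w = z := Subtype.ext hwz
      rwa [← h1]
    · intro hz
      exact ⟨z, hz, rfl⟩
  have hKK : ∀ G : Gr {z : V // z ≠ x}, Ag R' G K' ↔ Ag R' G (rst x κ1) := by
    have h1 : Ag R' K' (rst x κ1) := by
      intro z hz w hw
      rw [← hκ, (hV V).2.2.2.2.1, (hV V).2.2.2.2.1]
      have h2 : ∀ v : {z : V // z ≠ x}, v ∈ R' → (v : V) ∈ N := by
        intro v hv
        rw [hNN, ← hmap, mem_map]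
        exact ⟨v, hv, rfl⟩
      exact hAg z (h2 z hz) w (h2 w hw)
    intro G
    constructor
    · intro h z hz w hw
      rw [h z hz w hw, h1 z hz w hw]
    · intro h z hz w hw
      rw [h z hz w hw, h1 z hz w hw]
  have hrel : ∀ F : Finset (Gr {z : V // z ≠ x}), rel r F R' K' =
      rel r F (N1.subtype (fun z => z ≠ x)) (rst x κ1) := by
    intro F
    rw [hRR]
    unfold rel
    congr 2
    apply filter_congr
    intro G _
    exact hKK G
  rw [← hrel, ← hrel]
  exact ⟨hD.2.1, hD.2.2⟩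

end

end Pool.Agent.EFX
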