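import Pool.Agent.EFX.Targets

/-!
# The sum of `j ^ (-4/3)`
-/

namespace Pool.Agent.EFX

open Finset

noncomputable section

namespace SUMN_

/-- one step of the telescoping sum -/
theorem step (n : ℕ) (hn : 1 ≤ n) : ((n + 1 : ℕ) : ℝ) ^ (-(4 / 3) : ℝ) ≤
    3 * ((n : ℝ) ^ (-(1 / 3) : ℝ) - ((n + 1 : ℕ) : ℝ) ^ (-(1 / 3) : ℝ)) := by
  have hn0 : (0 : ℝ) < n := by exact_mod_cast hn
  have hn1 : (0 : ℝ) < ((n + 1 : ℕ) : ℝ) := by positivity
  set a : ℝ := (n : ℝ) ^ (-(1 / 3) : ℝ) with ha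
  set b : ℝ := ((n + 1 : ℕ) : ℝ) ^ (-(1 / 3) : ℝ) with hb
  have ha0 : 0 < a := Real.rpow_pos_of_pos hn0 _
  have hb0 : 0 < b := Real.rpow_pos_of_pos hn1 _
  have ha3 : a ^ 3 = (n : ℝ)⁻¹ := by
    rw [ha, ← Real.rpow_natCast, ← Real.rpow_mul hn0.le]
    norm_num
    exact Real.rpow_neg_one _
  have hb3 : b ^ 3 = (((n + 1 : ℕ) : ℝ))⁻¹ := by
    rw [hb, ← Real.rpow_natCast, ← Real.rpow_mul hn1.le]
    norm_num
    exact Real.rpow_neg_one _
  have hb4 : ((n + 1 : ℕ) : ℝ) ^ (-(4 / 3) : ℝ) = b ^ 4 := by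
    rw [hb, ← Real.rpow_natCast, ← Real.rpow_mul hn1.le]
    norm_num
  have hab : b ≤ a := by
    rw [ha, hb]
    exact Real.rpow_le_rpow_of_nonpos hn0 (by push_cast; linarith) (by norm_num)
  have hrel : a ^ 3 - b ^ 3 = a ^ 3 * b ^ 3 := by
    rw [ha3, hb3]
    push_cast
    field_simp
    ring
  rw [hb4]
  have hpos : 0 < a ^ 2 + a * b + b ^ 2 := by positivity
  have h1 : (a - b) * (a ^ 2 + a * b + b ^ 2) = a ^ 3 * b ^ 3 := by rw [← hrel]; ring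
  have h2 : b * (a ^ 2 + a * b + b ^ 2) ≤ 3 * a ^ 3 := by
    have e1 : b * a ^ 2 ≤ a ^ 3 := by
      have := mul_le_mul_of_nonneg_right hab (sq_nonneg a)
      linarith [this]
    have e2 : b * (a * b) ≤ a ^ 3 := by
      have : b * (a * b) ≤ a * (a * a) := by gcongr
      linarith
    have e3 : b * b ^ 2 ≤ a ^ 3 := by
      have : b ^ 3 ≤ a ^ 3 := by gcongr
      linarith
    linarith
  have h3 : b ^ 4 * (a ^ 2 + a * b + b ^ 2) ≤ 3 * (a - b) * (a ^ 2 + a * b + b ^ 2) := by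
    have := mul_le_mul_of_nonneg_left h2 (pow_pos hb0 3).le
    nlinarith [this, h1]
  exact le_of_mul_le_mul_right h3 hpos

end SUMN_

/-- SUMN -/
theorem p_SUMN : T_SUMN := by
  intro m n hm hmn
  have key : ∑ j ∈ Ioc m n, (j : ℝ) ^ (-(4 / 3) : ℝ) ≤
      3 * ((m : ℝ) ^ (-(1 / 3) : ℝ) - (n : ℝ) ^ (-(1 / 3) : ℝ)) := by
    induction n, hmn using Nat.le_induction with
    | base => simp
    | succ k hk ih =>
      rw [← Finset.insert_Ioc_right_eq_Ioc_add_one hk, Finset.sum_insert (by simp)]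
      have := SUMN_.step k (le_trans hm hk)
      linarith
  have h0 : (0 : ℝ) ≤ (n : ℝ) ^ (-(1 / 3) : ℝ) := Real.rpow_nonneg (Nat.cast_nonneg _) _
  linarith

end

end Pool.Agent.EFX
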