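import Pool.Agent.EFX.Targets

set_option autoImplicit false

/-!
# MP_64e56f_co, job SUMXY: the law of a sum of two nearly independent variables
-/

namespace Pool.Agent.EFX

open Finset

open scoped Classical

noncomputable section

namespace SUMXY_

variable {α G : Type} [Fintype G]

theorem card_split (B : Finset α) (X : α → G) :
    B.card = ∑ t, (B.filter (fun w => X w = t)).card :=
  Finset.card_eq_sum_card_fiberwise (fun _ _ => by simp)

theorem pr_left (A : Finset α) (X Y : α → G) (t : G) :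
    pr A X t = ∑ u, pr A (fun w => (X w, Y w)) (t, u) := by
  unfold pr
  rw [← Finset.sum_div, card_split (A.filter (fun w => X w = t)) Y]
  push_cast
  congr 1
  refine Finset.sum_congr rfl fun u _ => ?_
  congr 1
  rw [Finset.filter_filter]
  congr 1
  refine Finset.filter_congr fun w _ => ?_
  rw [Prod.mk.injEq]

theorem pr_right (A : Finset α) (X Y : α → G) (u : G) :
    pr A Y u = ∑ t, pr A (fun w => (X w, Y w)) (t, u) := by
  unfold pr
  rw [← Finset.sum_div, card_split (A.filter (fun w => Y w = u)) X]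
  push_cast
  congr 1
  refine Finset.sum_congr rfl fun t _ => ?_
  congr 1
  rw [Finset.filter_filter]
  congr 1
  refine Finset.filter_congr fun w _ => ?_
  rw [Prod.mk.injEq, and_comm]

theorem pr_add [AddCommGroup G] (A : Finset α) (X Y : α → G) (s : G) :
    pr A (fun w => X w + Y w) s = ∑ t, pr A (fun w => (X w, Y w)) (t, s - t) := by
  unfold pr
  rw [← Finset.sum_div, card_split (A.filter (fun w => X w + Y w = s)) X]
  push_cast
  congr 1
  refine Finset.sum_congr rfl fun t _ => ?_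
  congr 1
  rw [Finset.filter_filter]
  congr 1
  refine Finset.filter_congr fun w _ => ?_
  rw [Prod.mk.injEq]
  constructor
  · rintro ⟨h1, h2⟩
    exact ⟨h2, by rw [← h1, ← h2]; abel⟩
  · rintro ⟨h1, h2⟩
    exact ⟨by rw [h1, h2]; abel, h1⟩

/-- Pointwise inequality for the divergence. -/
theorem pointwise {N P p q : ℝ} (hN : 0 < N) (hP : 0 ≤ P) (hp : 0 < P → 0 < p)
    (hq : 0 < P → 0 < q) :
    2 * P - 2 / N * (√(N * P) * √(p * q)) ≤
      P * (Real.log (N * P) - Real.log p - Real.log q) := by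
  rcases hP.eq_or_lt with h | h
  · rw [← h]; simp
  have hp' := hp h
  have hq' := hq h
  have hNP : 0 < N * P := mul_pos hN h
  have hpq : 0 < p * q := mul_pos hp' hq'
  have h1 : Real.log (N * P) - Real.log p - Real.log q = -(2 * Real.log √(p * q / (N * P))) := by
    rw [Real.log_sqrt (div_pos hpq hNP).le, Real.log_div hpq.ne' hNP.ne',
      Real.log_mul hp'.ne' hq'.ne']
    ring
  have h2 : Real.log √(p * q / (N * P)) ≤ √(p * q / (N * P)) - 1 :=
    Real.log_le_sub_one_of_pos (Real.sqrt_pos.2 (div_pos hpq hNP))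
  have h3 : √(N * P) * √(p * q) = N * P * √(p * q / (N * P)) := by
    rw [Real.sqrt_div' _ hNP.le]
    have h4 : √(N * P) ≠ 0 := (Real.sqrt_pos.2 hNP).ne'
    field_simp
    exact Real.sq_sqrt hNP.le
  rw [h1, h3]
  have h6 : 2 / N * (N * P * √(p * q / (N * P))) = 2 * P * √(p * q / (N * P)) := by
    field_simp
  rw [h6]
  nlinarith

/-- The information inequality. -/
theorem info [Nonempty G] (hel0 : T_HELB) (A : Finset α) (hA : A.Nonempty) (X Y : α → G) :
    2 - 2 / (Fintype.card G : ℝ) ^ 2 * ∑ x : G × G,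
        √(qd A (fun w => (X w, Y w)) x) * √(qd A X x.1 * qd A Y x.2) ≤
      df A (fun w => (X w, Y w)) - df A X - df A Y := by
  have hn : (0 : ℝ) < Fintype.card G := by exact_mod_cast Fintype.card_pos
  have hcard : (Fintype.card (G × G) : ℝ) = (Fintype.card G : ℝ) ^ 2 := by
    rw [Fintype.card_prod]; push_cast; ring
  obtain ⟨hJ0, hJ1, -⟩ := hel0 α (G × G) A (fun w => (X w, Y w)) hA
  have hX : df A X = ∑ x : G × G, pr A (fun w => (X w, Y w)) x * Real.log (qd A X x.1) := by
    unfold df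
    rw [Fintype.sum_prod_type]
    refine Finset.sum_congr rfl fun t _ => ?_
    rw [pr_left A X Y t, Finset.sum_mul]
  have hY : df A Y = ∑ x : G × G, pr A (fun w => (X w, Y w)) x * Real.log (qd A Y x.2) := by
    unfold df
    rw [Fintype.sum_prod_type_right]
    refine Finset.sum_congr rfl fun t _ => ?_
    rw [pr_right A X Y t, Finset.sum_mul]
  have hXY : df A (fun w => (X w, Y w)) = ∑ x : G × G, pr A (fun w => (X w, Y w)) x *
      Real.log (qd A (fun w => (X w, Y w)) x) := rfl
  rw [hX, hY, hXY, ← Finset.sum_sub_distrib, ← Finset.sum_sub_distrib]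
  have h2 : 2 - 2 / (Fintype.card G : ℝ) ^ 2 * ∑ x : G × G,
        √(qd A (fun w => (X w, Y w)) x) * √(qd A X x.1 * qd A Y x.2) =
      ∑ x : G × G, (2 * pr A (fun w => (X w, Y w)) x - 2 / (Fintype.card G : ℝ) ^ 2 *
        (√(qd A (fun w => (X w, Y w)) x) * √(qd A X x.1 * qd A Y x.2))) := by
    rw [Finset.sum_sub_distrib, ← Finset.mul_sum, ← Finset.mul_sum, hJ1, mul_one]
  rw [h2]
  refine Finset.sum_le_sum fun x _ => ?_
  have hq : qd A (fun w => (X w, Y w)) x =
      (Fintype.card G : ℝ) ^ 2 * pr A (fun w => (X w, Y w)) x := by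
    unfold qd; rw [hcard]
  have hpX : 0 < pr A (fun w => (X w, Y w)) x → 0 < qd A X x.1 := by
    intro h
    unfold qd
    refine mul_pos hn (lt_of_lt_of_le h ?_)
    rw [pr_left A X Y x.1]
    exact Finset.single_le_sum (f := fun u => pr A (fun w => (X w, Y w)) (x.1, u))
      (fun u _ => hJ0 _) (Finset.mem_univ x.2)
  have hpY : 0 < pr A (fun w => (X w, Y w)) x → 0 < qd A Y x.2 := by
    intro h
    unfold qd
    refine mul_pos hn (lt_of_lt_of_le h ?_)
    rw [pr_right A X Y x.2]
    exact Finset.single_le_sum (f := fun u => pr A (fun w => (X w, Y w)) (u, x.2))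
      (fun u _ => hJ0 _) (Finset.mem_univ x.1)
  have h3 := pointwise (N := (Fintype.card G : ℝ) ^ 2) (by positivity) (hJ0 x) hpX hpY
  rw [hq]
  linarith

theorem sq_ineq {a b : ℝ} : (a - 1) ^ 2 ≤ 2 * (a - b) ^ 2 + 2 * (b - 1) ^ 2 := by
  nlinarith [sq_nonneg ((a - b) - (b - 1))]

end SUMXY_

open SUMXY_ in
theorem p_SUMXY : T_HELB → T_CVL → T_SUMXY := by
  intro hH hC α G _ _ A X Y hA
  have hn : (0 : ℝ) < Fintype.card G := by exact_mod_cast Fintype.card_pos
  set n : ℝ := (Fintype.card G : ℝ) with hndef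
  set p := qd A X with hp
  set q := qd A Y with hq
  set J := qd A (fun w => (X w, Y w)) with hJ
  set a := qd A (fun w => X w + Y w) with ha
  set b : G → ℝ := fun s => (∑ t, p t * q (s - t)) / n with hb
  obtain ⟨hX0, -, hX1, -⟩ := hH α G A X hA
  obtain ⟨hY0, -, hY1, -⟩ := hH α G A Y hA
  obtain ⟨hJ0, -, hJ1, -⟩ := hH α (G × G) A (fun w => (X w, Y w)) hA
  obtain ⟨hS0, -, hS1, -⟩ := hH α G A (fun w => X w + Y w) hA
  have p0 : ∀ s, 0 ≤ p s := fun s => mul_nonneg hn.le (hX0 s)
  have q0 : ∀ s, 0 ≤ q s := fun s => mul_nonneg hn.le (hY0 s)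
  have J0 : ∀ s, 0 ≤ J s := fun s => mul_nonneg (Nat.cast_nonneg _) (hJ0 s)
  have a0 : ∀ s, 0 ≤ a s := fun s => mul_nonneg hn.le (hS0 s)
  have b0 : ∀ s, 0 ≤ b s := fun s =>
    div_nonneg (Finset.sum_nonneg fun t _ => mul_nonneg (p0 t) (q0 _)) hn.le
  have haJ : ∀ s, a s = (∑ t, J (t, s - t)) / n := by
    intro s
    have h1 : ∀ t, J (t, s - t) = n * n * pr A (fun w => (X w, Y w)) (t, s - t) := by
      intro t
      rw [hJ]; unfold qd
      rw [Fintype.card_prod]; push_cast; rfl
    rw [ha]; unfold qd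
    rw [pr_add A X Y s]
    simp only [h1]
    rw [← Finset.mul_sum]
    field_simp
    exact mul_comm _ _
  have hconv : ∀ F : G → G → ℝ, ∑ s, ∑ t, F t (s - t) = ∑ x : G × G, F x.1 x.2 := by
    intro F
    rw [Finset.sum_comm, Fintype.sum_prod_type]
    refine Finset.sum_congr rfl fun t _ => ?_
    exact (Equiv.subRight t).sum_comp (fun u => F t u)
  have hbsum : ∑ s, b s = n := by
    rw [hb, ← Finset.sum_div, hconv (fun t u => p t * q u), Fintype.sum_prod_type]
    simp only [← Finset.mul_sum]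
    rw [hY1, ← Finset.sum_mul, hX1]
    field_simp
    rfl
  have hCV := hC G p q p0 q0 hX1 hY1
  have hinfo := info hH A hA X Y
  have hCS : ∑ x : G × G, √(J x) * √(p x.1 * q x.2) ≤ n * ∑ s, √(a s) * √(b s) := by
    rw [← hconv (fun t u => √(J (t, u)) * √(p t * q u)), Finset.mul_sum]
    refine Finset.sum_le_sum fun s _ => ?_
    have h1 := Real.sum_mul_le_sqrt_mul_sqrt (univ : Finset G) (fun t => √(J (t, s - t)))
      (fun t => √(p t * q (s - t)))
    refine h1.trans (le_of_eq ?_)
    have h2 : ∑ t, √(J (t, s - t)) ^ 2 = n * a s := by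
      rw [haJ s]
      have : ∀ t, √(J (t, s - t)) ^ 2 = J (t, s - t) := fun t => Real.sq_sqrt (J0 _)
      simp only [this]
      field_simp
    have h3 : ∑ t, √(p t * q (s - t)) ^ 2 = n * b s := by
      rw [hb]
      have : ∀ t, √(p t * q (s - t)) ^ 2 = p t * q (s - t) :=
        fun t => Real.sq_sqrt (mul_nonneg (p0 _) (q0 _))
      simp only [this]
      field_simp
    rw [h2, h3, Real.sqrt_mul hn.le, Real.sqrt_mul hn.le]
    have h4 : √n * √n = n := Real.mul_self_sqrt hn.le
    linear_combination (√(a s) * √(b s)) * h4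
  have hD : (∑ s, (√(a s) - √(b s)) ^ 2) / n ≤
      df A (fun w => (X w, Y w)) - df A X - df A Y := by
    refine le_trans ?_ hinfo
    have h1 : ∑ s, (√(a s) - √(b s)) ^ 2 = 2 * n - 2 * ∑ s, √(a s) * √(b s) := by
      have h2 : ∀ s, (√(a s) - √(b s)) ^ 2 = a s + b s - 2 * (√(a s) * √(b s)) := by
        intro s
        rw [sub_sq, Real.sq_sqrt (a0 s), Real.sq_sqrt (b0 s)]
        ring
      simp only [h2]
      rw [Finset.sum_sub_distrib, Finset.sum_add_distrib, hS1, hbsum, ← Finset.mul_sum]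
      ring
    rw [h1, sub_div]
    have h3 : 2 * n / n = 2 := by field_simp
    rw [h3]
    have h4 : 2 / n ^ 2 * ∑ x : G × G, √(J x) * √(p x.1 * q x.2) ≤
        2 / n ^ 2 * (n * ∑ s, √(a s) * √(b s)) :=
      mul_le_mul_of_nonneg_left hCS (by positivity)
    have h5 : 2 / n ^ 2 * (n * ∑ s, √(a s) * √(b s)) = 2 * (∑ s, √(a s) * √(b s)) / n := by
      field_simp
    rw [h5] at h4
    linarith
  have hfin : hel A (fun w => X w + Y w) ≤ 2 * ((∑ s, (√(a s) - √(b s)) ^ 2) / n) +
      2 * ((∑ s, (√(b s) - 1) ^ 2) / n) := by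
    unfold hel
    rw [← mul_div_assoc, ← mul_div_assoc, ← add_div, Finset.mul_sum, Finset.mul_sum,
      ← Finset.sum_add_distrib]
    refine div_le_div_of_nonneg_right (Finset.sum_le_sum fun s _ => ?_) hn.le
    exact sq_ineq
  have hCV' : (∑ s, (√(b s) - 1) ^ 2) / n ≤ 600 * hel A X * hel A Y := hCV
  nlinarith [hfin, hD, hCV']

end

end Pool.Agent.EFX
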