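import Pool.Agent.EFX.Targets

/-!
# Deficit and multiplicities, deficit and support
-/

namespace Pool.Agent.EFX

open Finset

open scoped Classical

noncomputable section

namespace SUPP_

variable {α S : Type}

theorem pr_nonneg (A : Finset α) (X : α → S) (s : S) : 0 ≤ pr A X s := by
  unfold pr
  positivity

theorem sum_pr [Fintype S] {A : Finset α} (hA : A.Nonempty) (X : α → S) :
    ∑ s, pr A X s = 1 := by
  unfold pr
  rw [← sum_div, ← Nat.cast_sum]
  have h : ∑ s, (A.filter (fun w => X w = s)).card = A.card :=
    (card_eq_sum_card_fiberwise (fun w _ => mem_coe.2 (mem_univ (X w)))).symm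
  rw [h]
  have h0 : (A.card : ℝ) ≠ 0 := by
    exact_mod_cast hA.card_pos.ne'
  exact div_self h0

theorem pr_eq_zero {A : Finset α} {X : α → S} {s : S} (h : s ∉ A.image X) : pr A X s = 0 := by
  unfold pr
  have h1 : A.filter (fun w => X w = s) = ∅ := by
    rw [filter_eq_empty_iff]
    intro w hw he
    exact h (mem_image.2 ⟨w, hw, he⟩)
  rw [h1]
  simp

theorem pr_pos {A : Finset α} {X : α → S} {s : S} (h : s ∈ A.image X) : 0 < pr A X s := by
  obtain ⟨w, hw, he⟩ := mem_image.1 h
  unfold pr
  have h1 : 0 < (A.filter (fun w => X w = s)).card := card_pos.2 ⟨w, mem_filter.2 ⟨hw, he⟩⟩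
  have h2 : 0 < A.card := card_pos.2 ⟨w, hw⟩
  positivity

end SUPP_

open SUPP_ in
theorem p_SUPP : T_SUPP := by
  intro α S _ A X hA
  have hA0 : (0 : ℝ) < A.card := by exact_mod_cast hA.card_pos
  refine ⟨?_, ?_⟩
  · intro E hE hm
    calc df A X ≤ ∑ s, pr A X s * Real.log ((Fintype.card S : ℝ) * E / (A.card : ℝ)) := by
          unfold df
          refine sum_le_sum fun s _ => ?_
          rcases eq_or_lt_of_le (pr_nonneg A X s) with h | h
          · rw [← h, zero_mul, zero_mul]
          · have hS : (0 : ℝ) < Fintype.card S := by
              exact_mod_cast Fintype.card_pos_iff.2 ⟨s⟩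
            refine mul_le_mul_of_nonneg_left ?_ h.le
            apply Real.log_le_log
            · unfold qd
              positivity
            · unfold qd pr
              rw [mul_div_assoc]
              gcongr
              exact hm s
      _ = _ := by rw [← sum_mul, sum_pr hA, one_mul]
  · set k : ℝ := ((A.image X).card : ℝ) with hk
    have hk0 : 0 < k := by
      rw [hk]
      exact_mod_cast card_pos.2 (hA.image X)
    have key : ∀ s : S, pr A X s * (Real.log ((Fintype.card S : ℝ) / k) - Real.log (qd A X s)) ≤
        (if s ∈ A.image X then 1 / k else 0) - pr A X s := by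
      intro s
      by_cases hs : s ∈ A.image X
      · have hp := pr_pos hs
        have hS : (0 : ℝ) < Fintype.card S := by
          exact_mod_cast Fintype.card_pos_iff.2 ⟨s⟩
        rw [if_pos hs]
        have h1 : Real.log ((Fintype.card S : ℝ) / k) - Real.log (qd A X s) =
            Real.log (1 / (k * pr A X s)) := by
          unfold qd
          rw [← Real.log_div (by positivity) (by positivity)]
          congr 1
          field_simp
        have h2 : Real.log (1 / (k * pr A X s)) ≤ 1 / (k * pr A X s) - 1 :=
          Real.log_le_sub_one_of_pos (by positivity)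
        rw [h1]
        calc pr A X s * Real.log (1 / (k * pr A X s)) ≤
            pr A X s * (1 / (k * pr A X s) - 1) := by gcongr
          _ = 1 / k - pr A X s := by
            field_simp
      · rw [if_neg hs, pr_eq_zero hs]
        simp
    have h3 := sum_le_sum (s := univ) fun s _ => key s
    rw [sum_sub_distrib, sum_pr hA] at h3
    have h4 : ∑ s : S, (if s ∈ A.image X then 1 / k else 0) = 1 := by
      rw [← sum_filter, sum_const, nsmul_eq_mul]
      have h5 : (univ.filter (fun s => s ∈ A.image X)) = A.image X := by
        ext s
        simp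
      rw [h5, ← hk]
      exact mul_one_div_cancel hk0.ne'
    rw [h4] at h3
    simp only [mul_sub, sum_sub_distrib, ← sum_mul, sum_pr hA, one_mul] at h3
    unfold df
    linarith

end

end Pool.Agent.EFX
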