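import Mathlib
import Pool.Agent.EFX.Targets

set_option autoImplicit false

/-!
# Elementary facts on graphs, restriction, coset coordinates
-/

namespace Pool.Agent.EFX

open Finset

open scoped Classical

noncomputable section

namespace VAL_

variable {V : Type}

theorem val_comm (G : Gr V) (x y : V) : val G x y = val G y x := by
  unfold val
  by_cases h : x = y
  · subst h; rfl
  · have h' : y ≠ x := fun e => h e.symm
    rw [dif_pos h, dif_pos h']
    congr 1
    apply Subtype.ext
    exact Finset.pair_comm x y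

theorem val_self (G : Gr V) (x : V) : val G x x = 0 := by
  unfold val
  rw [dif_neg (by simp)]

theorem val_of_ne (G : Gr V) {x y : V} (h : x ≠ y) : val G x y = G ⟨{x, y}, card_pair h⟩ := by
  unfold val
  rw [dif_pos h]

theorem gr_ext (G H : Gr V) (h : ∀ x y, x ≠ y → val G x y = val H x y) : G = H := by
  funext e
  obtain ⟨e, he⟩ := e
  obtain ⟨x, y, hxy, rfl⟩ := Finset.card_eq_two.mp he
  have := h x y hxy
  rw [val_of_ne G hxy, val_of_ne H hxy] at this
  exact this

theorem gr_exists (f : V → V → ZMod 2) (hf : ∀ x y, f x y = f y x) :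
    ∃ G : Gr V, ∀ x y, x ≠ y → val G x y = f x y := by
  have hch : ∀ e : Ed V, ∃ p : V × V, p.1 ≠ p.2 ∧ e.1 = {p.1, p.2} := by
    rintro ⟨e, he⟩
    obtain ⟨x, y, hxy, h⟩ := Finset.card_eq_two.mp he
    exact ⟨(x, y), hxy, h⟩
  choose p hp1 hp2 using hch
  refine ⟨fun e => f (p e).1 (p e).2, ?_⟩
  intro x y hxy
  rw [val_of_ne _ hxy]
  have h2 := hp2 ⟨{x, y}, card_pair hxy⟩
  have h1 := hp1 ⟨{x, y}, card_pair hxy⟩
  set q := p ⟨{x, y}, card_pair hxy⟩ with hq
  simp only at h2
  have ha : q.1 ∈ ({x, y} : Finset V) := by rw [h2]; simp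
  have hb : q.2 ∈ ({x, y} : Finset V) := by rw [h2]; simp
  simp only [Finset.mem_insert, Finset.mem_singleton] at ha hb
  rcases ha with ha | ha <;> rcases hb with hb | hb
  · exact absurd (ha.trans hb.symm) h1
  · rw [ha, hb]
  · rw [ha, hb, hf]
  · exact absurd (ha.trans hb.symm) h1

theorem val_rst (x : V) (G : Gr V) (z w : {z : V // z ≠ x}) :
    val (rst x G) z w = val G z w := by
  by_cases h : z = w
  · subst h
    rw [val_self, val_self]
  · have h' : (z : V) ≠ w := fun e => h (Subtype.ext e)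
    rw [val_of_ne _ h, val_of_ne _ h']
    unfold rst
    congr 1
    apply Subtype.ext
    simp only [Finset.map_insert, Finset.map_singleton, Function.Embedding.coe_subtype]

theorem inj (x y : V) (hxy : x ≠ y) (G H : Gr V) (h1 : rst x G = rst x H)
    (h2 : cs x y G = cs x y H) : G = H := by
  have hA : ∀ u v : V, u ≠ x → v ≠ x → val G u v = val H u v := by
    intro u v hu hv
    have e1 := val_rst x G ⟨u, hu⟩ ⟨v, hv⟩
    have e2 := val_rst x H ⟨u, hu⟩ ⟨v, hv⟩
    rw [h1] at e1
    rw [← e1, e2]
  have hB : ∀ v : V, v ≠ x → val G x v = val H x v := by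
    intro v hv
    have e := congrFun h2 ⟨v, hv⟩
    simp only [cs] at e
    rw [hA y v (fun e => hxy e.symm) hv] at e
    exact add_right_cancel e
  apply gr_ext
  intro u v huv
  by_cases hu : u = x
  · subst hu
    exact hB v (fun e => huv e.symm)
  · by_cases hv : v = x
    · subst hv
      rw [val_comm G, val_comm H]
      exact hB u hu
    · exact hA u v hu hv

theorem surj (x y : V) (hxy : x ≠ y) (K : Gr {z : V // z ≠ x}) (g : {z : V // z ≠ x} → ZMod 2) :
    ∃ G : Gr V, rst x G = K ∧ cs x y G = g := by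
  have hyx : y ≠ x := fun e => hxy e.symm
  obtain ⟨G, hG⟩ := gr_exists (V := V) (fun u v =>
    if hu : u = x then (if hv : v = x then 0 else val K ⟨y, hyx⟩ ⟨v, hv⟩ + g ⟨v, hv⟩)
    else (if hv : v = x then val K ⟨y, hyx⟩ ⟨u, hu⟩ + g ⟨u, hu⟩ else val K ⟨u, hu⟩ ⟨v, hv⟩)) (by
      intro u v
      by_cases hu : u = x <;> by_cases hv : v = x
      · simp [hu, hv]
      · simp [hu, hv]
      · simp [hu, hv]
      · simp only [hu, hv, dite_false]
        exact val_comm K _ _)
  have hr : ∀ z w : {z : V // z ≠ x}, val G z w = val K z w := by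
    intro z w
    by_cases h : z = w
    · subst h
      rw [val_self, val_self]
    · rw [hG z w (fun e => h (Subtype.ext e))]
      simp only [z.2, w.2, dite_false, Subtype.coe_eta]
  refine ⟨G, ?_, ?_⟩
  · apply gr_ext
    intro z w hzw
    rw [val_rst]
    exact hr z w
  · funext z
    simp only [cs]
    have e1 : val G x z = val K ⟨y, hyx⟩ z + g z := by
      rw [hG x z (fun e => z.2 e.symm)]
      simp only [z.2, dite_true, dite_false, Subtype.coe_eta]
    have e2 : val G y z = val K ⟨y, hyx⟩ z := hr ⟨y, hyx⟩ z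
    rw [e1, e2]
    have : ∀ a b : ZMod 2, a + b + a = b := by decide
    exact this _ _

end VAL_

theorem p_VAL : T_VAL := by
  intro V _
  exact ⟨VAL_.val_comm, VAL_.val_self, VAL_.gr_ext, VAL_.gr_exists, VAL_.val_rst, VAL_.inj,
    VAL_.surj⟩

end

end Pool.Agent.EFX
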