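import Pool.Agent.EFX.Targets

set_option autoImplicit false

namespace Pool.Agent.EFX

open Finset

open scoped Classical

theorem p_VARI : T_VARI := by
  intro T _ q β H hT hq hβ0 hβ1 hβq hH
  have key : ∀ t, (β * q t - β) ^ 2 ≤ 4 * β * (√(q t) - 1) ^ 2 := by
    intro t
    obtain ⟨s, hs⟩ : ∃ s, s = √(q t) := ⟨_, rfl⟩
    have h1 : s ^ 2 = q t := by rw [hs]; exact Real.sq_sqrt (hq t)
    have h2 := hβq t
    rw [← hs, ← h1]
    rw [← h1] at h2
    have h3 : β * (s + 1) ^ 2 ≤ 4 := by nlinarith [mul_nonneg hβ0 (sq_nonneg (s - 1))]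
    have h4 : (β * s ^ 2 - β) ^ 2 = (β * (s + 1) ^ 2) * (β * (s - 1) ^ 2) := by ring
    rw [h4]
    have := mul_le_mul_of_nonneg_right h3 (mul_nonneg hβ0 (sq_nonneg (s - 1)))
    linarith
  have hc : (0 : ℝ) < Fintype.card T := by exact_mod_cast Fintype.card_pos
  calc (∑ t, (β * q t - β) ^ 2) / (Fintype.card T : ℝ)
      ≤ (∑ t, 4 * β * (√(q t) - 1) ^ 2) / (Fintype.card T : ℝ) := by
        gcongr with t _
        exact key t
    _ = 4 * β * ((∑ t, (√(q t) - 1) ^ 2) / (Fintype.card T : ℝ)) := by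
        rw [← Finset.mul_sum]; ring
    _ ≤ 4 * β * H := by
        gcongr

end Pool.Agent.EFX
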