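import Pool.Agent.EFX.HELB
import Pool.Agent.EFX.EQUIV
import Pool.Agent.EFX.CONV
import Pool.Agent.EFX.CHH
import Pool.Agent.EFX.CHD
import Pool.Agent.EFX.SSA
import Pool.Agent.EFX.SUPP
import Pool.Agent.EFX.CVL
import Pool.Agent.EFX.SUMXY
import Pool.Agent.EFX.SH
import Pool.Agent.EFX.PIN
import Pool.Agent.EFX.INST
import Pool.Agent.EFX.CC
import Pool.Agent.EFX.CCE
import Pool.Agent.EFX.ROWS
import Pool.Agent.EFX.VAL
import Pool.Agent.EFX.CARD
import Pool.Agent.EFX.CUT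
import Pool.Agent.EFX.CYL
import Pool.Agent.EFX.STAR
import Pool.Agent.EFX.MLP
import Pool.Agent.EFX.ML
import Pool.Agent.EFX.GP
import Pool.Agent.EFX.AVG
import Pool.Agent.EFX.QD
import Pool.Agent.EFX.VARI
import Pool.Agent.EFX.SUMN
import Pool.Agent.EFX.FAR
import Pool.Agent.EFX.LONE
import Pool.Agent.EFX.COLA
import Pool.Agent.EFX.COLB
import Pool.Agent.EFX.FIB
import Pool.Agent.EFX.CONF
import Pool.Agent.EFX.PIECE8
import Pool.Agent.EFX.COVM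
import Pool.Agent.EFX.COVB
import Pool.Agent.EFX.DIR
import Pool.Agent.EFX.BASE
import Pool.Agent.EFX.NUMX
import Pool.Agent.EFX.DL
import Pool.Agent.EFX.STEPA
import Pool.Agent.EFX.FRAC8
import Pool.Agent.EFX.BDB
import Pool.Agent.EFX.BDS
import Pool.Agent.EFX.MAIN
import Pool.Agent.EFX.FINX

set_option autoImplicit false

namespace Pool.Agent.EFX

theorem t_CONV : T_CONV := p_CONV p_HELB
theorem t_CHH : T_CHH := p_CHH p_HELB t_CONV
theorem t_SUMXY : T_SUMXY := p_SUMXY p_HELB p_CVL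
theorem t_INST : T_INST := p_INST p_HELB p_EQUIV p_SSA
theorem t_CCE : T_CCE := p_CCE p_CC
theorem t_ROWS : T_ROWS := p_ROWS p_HELB p_EQUIV t_CONV p_CHD p_SUPP t_SUMXY p_SH p_PIN t_INST t_CCE
theorem t_CARD : T_CARD := p_CARD p_VAL
theorem t_CUT : T_CUT := p_CUT p_VAL t_CARD
theorem t_CYL : T_CYL := p_CYL p_VAL
theorem t_STAR : T_STAR := p_STAR p_EQUIV p_SH t_INST p_VAL
theorem t_MLP : T_MLP := p_MLP p_HELB p_EQUIV t_CHH t_CCE t_ROWS t_STAR p_VAL t_CARD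
theorem t_ML : T_ML := p_ML p_HELB p_EQUIV p_SUPP p_SH t_INST t_CARD t_MLP
theorem t_GP : T_GP := p_GP p_HELB t_ML
theorem t_AVG : T_AVG := p_AVG p_HELB t_CUT
theorem t_FAR : T_FAR := p_FAR t_CARD
theorem t_LONE : T_LONE := p_LONE p_HELB p_SUPP p_SH t_INST p_VAL t_CARD
theorem t_FIB : T_FIB := p_FIB p_VAL
theorem t_CONF : T_CONF := p_CONF p_VAL p_COLA p_COLB t_FIB
theorem t_PIECE : T_PIECE := p_PIECE8 p_VAL t_CARD
theorem t_COVM : T_COVM := p_COVM t_CARD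
theorem t_COVB : T_COVB := p_COVB t_CARD
theorem t_DIR : T_DIR := p_DIR t_CARD
theorem t_BASE : T_BASE := p_BASE t_CARD t_COVM t_COVB t_DIR
theorem t_FRAC : T_FRAC := p_FRAC8 p_HELB t_CARD t_CUT t_CYL p_VARI
theorem t_BDB : T_BDB := p_BDB t_CARD t_BASE

end Pool.Agent.EFX
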