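import Pool.Agent.EFX.Targets

/-!
`COVM`: the maximal class is small if the covering number is large (adapted from `LargeR`).
-/

set_option autoImplicit false

namespace Pool.Agent.EFX

open Finset

open scoped Classical

namespace COVM_

variable {V : Type}

private lemma ag_iff [Fintype V] (S : Finset V) (G H : Gr V) :
    Ag S G H ↔ ∀ e ∈ ins S, G e = H e := by
  constructor
  · intro h e he
    obtain ⟨e, he2⟩ := e
    obtain ⟨x, y, hxy, rfl⟩ := Finset.card_eq_two.1 he2
    have hsub : ({x, y} : Finset V) ⊆ S := (Finset.mem_filter.1 he).2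
    have hx : x ∈ S := hsub (by simp)
    have hy : y ∈ S := hsub (by simp)
    have h1 := h x hx y hy
    unfold val at h1
    rw [dif_pos hxy, dif_pos hxy] at h1
    exact h1
  · intro h x hx y hy
    unfold val
    by_cases hxy : x ≠ y
    · rw [dif_pos hxy, dif_pos hxy]
      apply h
      unfold ins
      refine Finset.mem_filter.2 ⟨Finset.mem_univ _, ?_⟩
      intro z hz
      simp only [Finset.mem_insert, Finset.mem_singleton] at hz
      rcases hz with rfl | rfl
      · exact hx
      · exact hy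
    · rw [dif_neg hxy, dif_neg hxy]

private lemma mem_ins [Fintype V] {I : Finset V} {e : Ed V} : e ∈ ins I ↔ e.1 ⊆ I := by
  simp [ins]

private lemma ins_inter [Fintype V] (I J : Finset V) : ins I ∩ ins J = ins (I ∩ J) := by
  ext e
  simp [mem_ins, subset_inter_iff]

private lemma ag_mono {I J : Finset V} (h : I ⊆ J) {G H : Gr V} (hG : Ag J G H) : Ag I G H :=
  fun x hx y hy => hG x (h hx) y (h hy)

/-- functions agreeing with `x` on `T` -/
private noncomputable def cyl [Fintype V] (T : Finset (Ed V)) (x : Gr V) : Finset (Gr V) :=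
  univ.filter (fun f => ∀ e ∈ T, f e = x e)

private lemma mem_cyl [Fintype V] {T : Finset (Ed V)} {x f : Gr V} :
    f ∈ cyl T x ↔ ∀ e ∈ T, f e = x e := by
  simp [cyl]

private lemma card_cyl [Fintype V] (T : Finset (Ed V)) (x : Gr V) :
    (cyl T x).card = 2 ^ (Fintype.card (Ed V) - T.card) := by
  have h : cyl T x = Fintype.piFinset (fun e => if e ∈ T then ({x e} : Finset (ZMod 2))
      else univ) := by
    ext f
    rw [mem_cyl, Fintype.mem_piFinset]
    constructor
    · intro hf e
      by_cases he : e ∈ T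
      · simp [he, hf e he]
      · simp [he]
    · intro hf e he
      have := hf e
      simpa [he] using this
  rw [h, Fintype.card_piFinset]
  have h2 : ∀ e : Ed V, (if e ∈ T then ({x e} : Finset (ZMod 2)) else univ).card
      = if e ∈ T then 1 else 2 := by
    intro e
    split_ifs
    · simp
    · rw [Finset.card_univ, ZMod.card]
  simp only [h2]
  rw [prod_ite]
  simp only [prod_const_one, one_mul, prod_const]
  congr 1
  rw [filter_not, card_sdiff_of_subset (filter_subset _ _), card_univ]
  simp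

private lemma card_Gr [Fintype V] : Fintype.card (Gr V) = 2 ^ (Fintype.card (Ed V)) := by
  rw [Fintype.card_fun, ZMod.card]

private lemma den_cyl [Fintype V] (T : Finset (Ed V)) (x : Gr V) :
    den (cyl T x) = 1 / 2 ^ T.card := by
  unfold den
  rw [card_cyl, card_Gr]
  have hT : T.card ≤ Fintype.card (Ed V) := card_le_univ T
  push_cast
  rw [div_eq_div_iff (by positivity) (by positivity), ← pow_add, one_mul]
  congr 1
  omega

private lemma den_mono {β : Type} [Fintype β] {A B : Finset β} (h : A ⊆ B) : den A ≤ den B := by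
  unfold den
  exact div_le_div_of_nonneg_right (by exact_mod_cast card_le_card h) (by positivity)

private lemma den_inter_cyl_le [Fintype V] (T U : Finset (Ed V)) (x y : Gr V) :
    den (cyl T x ∩ cyl U y) ≤ 1 / 2 ^ (T ∪ U).card := by
  rcases (cyl T x ∩ cyl U y).eq_empty_or_nonempty with h | ⟨f, hf⟩
  · rw [h]
    unfold den
    simp
  · rw [mem_inter, mem_cyl, mem_cyl] at hf
    rw [← den_cyl (T ∪ U) f]
    apply den_mono
    intro g hg
    rw [mem_inter, mem_cyl, mem_cyl] at hg
    rw [mem_cyl]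
    intro e he
    rcases mem_union.1 he with he | he
    · rw [hg.1 e he, hf.1 e he]
    · rw [hg.2 e he, hf.2 e he]

private lemma phi_add (r i : ℕ) : phi r i + (r - i).choose 2 = r.choose 2 := by
  unfold phi
  have := Nat.choose_le_choose 2 (Nat.sub_le r i)
  omega

private lemma two_choose (a : ℕ) : 2 * a.choose 2 + a = a * a := by
  induction a with
  | zero => simp
  | succ a ih =>
    rw [Nat.choose_succ_succ' a 1]
    simp only [Nat.choose_one_right]
    nlinarith

/-- closed form -/
private lemma two_phi {r i : ℕ} (h : i ≤ r) : 2 * phi r i + i * i + i = 2 * r * i := by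
  have h1 := phi_add r i
  have h2 := two_choose r
  have h3 := two_choose (r - i)
  obtain ⟨d, rfl⟩ := Nat.exists_eq_add_of_le h
  have : i + d - i = d := by omega
  rw [this] at h1 h3
  nlinarith

private lemma phi_step {r i j m : ℕ} (hj : j ≤ 2 * m + 2) (hij : j ≤ i) (hi : i ≤ r)
    (hr : 6 * m + 5 ≤ r) :
    phi r j + (2 * m + 1) * (i - j) ≤ phi r i := by
  have h1 := two_phi hi
  have h2 := two_phi (hij.trans hi)
  obtain ⟨d, rfl⟩ := Nat.exists_eq_add_of_le hij
  have : j + d - j = d := by omega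
  rw [this]
  have h3 : d * (j + d + j + 1 + 2 * (2 * m + 1)) ≤ d * (2 * r) := by
    apply Nat.mul_le_mul_left
    omega
  nlinarith

/-- number of `J` with a given difference is at most `(2^(2m))^i` -/
private lemma card_J_le [Fintype V] {r m : ℕ} (I : Finset V) (hI : I.card = r)
    (hn : Fintype.card V ≤ 2 ^ m) (i : ℕ) :
    (((powersetCard r (univ : Finset V)).filter (fun J => (I \ J).card = i)).card)
      ≤ (2 ^ (2 * m)) ^ i := by
  have h1 : (((powersetCard r (univ : Finset V)).filter (fun J => (I \ J).card = i)).card)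
      ≤ ((powersetCard i (univ : Finset V)) ×ˢ (powersetCard i (univ : Finset V))).card := by
    apply card_le_card_of_injOn (fun J => (I \ J, J \ I))
    · intro J hJ
      have hJ' := mem_filter.1 (mem_coe.1 hJ)
      have hJr := (mem_powersetCard.1 hJ'.1).2
      have h3 : (J \ I).card = i := by
        have e1 := card_sdiff_add_card_inter I J
        have e2 := card_sdiff_add_card_inter J I
        rw [inter_comm] at e2
        omega
      simp only [coe_product, Set.mem_prod, mem_coe, mem_powersetCard]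
      exact ⟨⟨subset_univ _, hJ'.2⟩, ⟨subset_univ _, h3⟩⟩
    · intro J hJ K hK h
      simp only [Prod.mk.injEq] at h
      obtain ⟨ha, hb⟩ := h
      ext v
      by_cases hv : v ∈ I
      · have h1 : v ∈ I \ J ↔ v ∈ I \ K := by rw [ha]
        simp only [mem_sdiff, hv, true_and] at h1
        exact not_iff_not.1 h1
      · have h1 : v ∈ J \ I ↔ v ∈ K \ I := by rw [hb]
        simpa [mem_sdiff, hv] using h1
  refine h1.trans ?_
  rw [card_product, card_powersetCard, card_univ]
  have h2 : (Fintype.card V).choose i ≤ (2 ^ m) ^ i :=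
    (Nat.choose_le_pow _ i).trans (Nat.pow_le_pow_left hn i)
  calc (Fintype.card V).choose i * (Fintype.card V).choose i
      ≤ (2 ^ m) ^ i * (2 ^ m) ^ i := Nat.mul_le_mul h2 h2
    _ = (2 ^ (2 * m)) ^ i := by rw [← mul_pow, ← pow_add]; congr 2; ring

private lemma card_union_ins [Fintype V] (hc : ∀ P : Finset V, (ins P).card = P.card.choose 2)
    {r : ℕ} {I J : Finset V} (hI : I.card = r) (hJ : J.card = r) :
    (ins I ∪ ins J).card = r.choose 2 + phi r (I \ J).card := by
  have h1 := card_union_add_card_inter (ins I) (ins J)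
  rw [ins_inter, hc, hc, hc, hI, hJ] at h1
  have h2 := card_sdiff_add_card_inter I J
  have h3 := phi_add r (I \ J).card
  have h4 : r - (I \ J).card = (I ∩ J).card := by omega
  rw [h4] at h3
  omega

/-- tail sum -/
private lemma tail_sum [Fintype V] {r m j : ℕ} (I : Finset V) (hI : I.card = r)
    (hn : Fintype.card V ≤ 2 ^ m)
    (hj : j ≤ 2 * m + 2) (hr : 6 * m + 5 ≤ r) :
    ∑ J ∈ (powersetCard r (univ : Finset V)).filter (fun J => j ≤ (I \ J).card),
      (1 : ℝ) / 2 ^ phi r (I \ J).card ≤ 2 * (2 ^ (2 * m)) ^ j / 2 ^ phi r j := by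
  have h1 : ∑ J ∈ (powersetCard r (univ : Finset V)).filter (fun J => j ≤ (I \ J).card),
      (1 : ℝ) / 2 ^ phi r (I \ J).card
      = ∑ i ∈ Finset.Ico j (r + 1), ∑ J ∈ ((powersetCard r (univ : Finset V)).filter
          (fun J => j ≤ (I \ J).card)).filter (fun J => (I \ J).card = i),
          (1 : ℝ) / 2 ^ phi r (I \ J).card := by
    rw [sum_fiberwise_of_maps_to]
    intro J hJ
    rw [mem_filter] at hJ
    rw [Finset.mem_Ico]
    refine ⟨hJ.2, ?_⟩
    have : (I \ J).card ≤ I.card := card_le_card sdiff_subset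
    omega
  rw [h1]
  have h2 : ∀ i ∈ Finset.Ico j (r + 1), ∑ J ∈ ((powersetCard r (univ : Finset V)).filter
          (fun J => j ≤ (I \ J).card)).filter (fun J => (I \ J).card = i),
          (1 : ℝ) / 2 ^ phi r (I \ J).card ≤
          (2 ^ (2 * m)) ^ j / 2 ^ phi r j * (1 / 2) ^ (i - j) := by
    intro i hi
    rw [Finset.mem_Ico] at hi
    have e1 : ∑ J ∈ ((powersetCard r (univ : Finset V)).filter
          (fun J => j ≤ (I \ J).card)).filter (fun J => (I \ J).card = i),
          (1 : ℝ) / 2 ^ phi r (I \ J).card = ∑ J ∈ ((powersetCard r (univ : Finset V)).filter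
          (fun J => j ≤ (I \ J).card)).filter (fun J => (I \ J).card = i),
          (1 : ℝ) / 2 ^ phi r i := by
      apply sum_congr rfl
      intro J hJ
      rw [(mem_filter.1 hJ).2]
    rw [e1, sum_const, nsmul_eq_mul]
    have e2 : (((powersetCard r (univ : Finset V)).filter
          (fun J => j ≤ (I \ J).card)).filter (fun J => (I \ J).card = i)).card
          ≤ (2 ^ (2 * m)) ^ i := by
      refine le_trans (card_le_card ?_) (card_J_le I hI hn i)
      intro J hJ
      rw [mem_filter, mem_filter] at hJ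
      rw [mem_filter]
      exact ⟨hJ.1.1, hJ.2⟩
    have e3 : ((((powersetCard r (univ : Finset V)).filter
          (fun J => j ≤ (I \ J).card)).filter (fun J => (I \ J).card = i)).card : ℝ)
          ≤ (2 ^ (2 * m)) ^ i := by exact_mod_cast e2
    have e4 := phi_step hj hi.1 (by omega : i ≤ r) hr
    calc ((((powersetCard r (univ : Finset V)).filter
          (fun J => j ≤ (I \ J).card)).filter (fun J => (I \ J).card = i)).card : ℝ)
            * (1 / 2 ^ phi r i)
        ≤ (2 ^ (2 * m)) ^ i * (1 / 2 ^ (phi r j + (2 * m + 1) * (i - j))) := by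
          apply mul_le_mul e3 _ (by positivity) (by positivity)
          apply one_div_le_one_div_of_le (by positivity)
          exact pow_le_pow_right₀ (by norm_num) e4
      _ = (2 ^ (2 * m)) ^ j / 2 ^ phi r j * (1 / 2) ^ (i - j) := by
          have e5 : i = j + (i - j) := by omega
          conv_lhs => rw [e5]
          have e6 : j + (i - j) - j = i - j := by omega
          rw [e6]
          rw [pow_add (2 ^ (2 * m) : ℝ), pow_add (2 : ℝ) (phi r j), pow_mul (2 : ℝ) (2 * m + 1),
            pow_succ (2 : ℝ) (2 * m), mul_pow, one_div_pow]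
          field_simp
  refine (sum_le_sum h2).trans ?_
  rw [← mul_sum, sum_Ico_eq_sum_range]
  have h3 : ∑ k ∈ range (r + 1 - j), ((1 : ℝ) / 2) ^ (j + k - j) ≤ 2 := by
    have : ∀ k ∈ range (r + 1 - j), ((1 : ℝ) / 2) ^ (j + k - j) = (1 / 2) ^ k := by
      intro k _
      congr 1
      omega
    rw [sum_congr rfl this]
    exact sum_geometric_two_le _
  calc (2 ^ (2 * m)) ^ j / 2 ^ phi r j * ∑ k ∈ range (r + 1 - j), ((1 : ℝ) / 2) ^ (j + k - j)
      ≤ (2 ^ (2 * m)) ^ j / 2 ^ phi r j * 2 := by
        apply mul_le_mul_of_nonneg_left h3 (by positivity)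
    _ = 2 * (2 ^ (2 * m)) ^ j / 2 ^ phi r j := by ring

private lemma den_biUnion_le {β κ : Type} [Fintype β] {_ : DecidableEq β} (s : Finset κ)
    (f : κ → Finset β) : den (s.biUnion f) ≤ ∑ k ∈ s, den (f k) := by
  unfold den
  rw [← Finset.sum_div]
  apply div_le_div_of_nonneg_right _ (by positivity)
  exact_mod_cast card_biUnion_le

/-- counting lemma: few functions in the cylinder of `G0` on `I` agree with `G` on an `r`-set
which misses at least `j` elements of `I` -/
private lemma count_far [Fintype V] (hc : ∀ P : Finset V, (ins P).card = P.card.choose 2)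
    {r m j : ℕ} (I : Finset V) (hI : I.card = r) (hn : Fintype.card V ≤ 2 ^ m)
    (hj : j ≤ 2 * m + 2) (hr : 6 * m + 5 ≤ r) (G0 G : Gr V) (X : Finset (Gr V))
    (hX : ∀ f ∈ X, f ∈ cyl (ins I) G0 ∧
      ∃ J : Finset V, J.card = r ∧ j ≤ (I \ J).card ∧ f ∈ cyl (ins J) G) :
    den X ≤ 1 / 2 ^ (r.choose 2) * (2 * (2 ^ (2 * m)) ^ j / 2 ^ phi r j) := by
  have h1 : X ⊆ ((powersetCard r (univ : Finset V)).filter
      (fun J => j ≤ (I \ J).card)).biUnion (fun J => cyl (ins I) G0 ∩ cyl (ins J) G) := by
    intro f hf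
    obtain ⟨h2, J, hJ, hJ2, hJ3⟩ := hX f hf
    rw [mem_biUnion]
    exact ⟨J, mem_filter.2 ⟨mem_powersetCard.2 ⟨subset_univ _, hJ⟩, hJ2⟩, mem_inter.2 ⟨h2, hJ3⟩⟩
  have h2 : den X ≤ ∑ J ∈ (powersetCard r (univ : Finset V)).filter
      (fun J => j ≤ (I \ J).card), den (cyl (ins I) G0 ∩ cyl (ins J) G) :=
    (den_mono h1).trans (den_biUnion_le _ _)
  have h3 : ∑ J ∈ (powersetCard r (univ : Finset V)).filter
      (fun J => j ≤ (I \ J).card), den (cyl (ins I) G0 ∩ cyl (ins J) G)
      ≤ ∑ J ∈ (powersetCard r (univ : Finset V)).filter (fun J => j ≤ (I \ J).card),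
      1 / 2 ^ (r.choose 2) * ((1 : ℝ) / 2 ^ phi r (I \ J).card) := by
    apply sum_le_sum
    intro J hJ
    have hJ2 : J.card = r := (mem_powersetCard.1 (mem_filter.1 hJ).1).2
    have h4 := den_inter_cyl_le (ins I) (ins J) G0 G
    rw [card_union_ins hc hI hJ2, pow_add] at h4
    have h5 : (1 : ℝ) / (2 ^ (r.choose 2) * 2 ^ phi r (I \ J).card) =
        1 / 2 ^ (r.choose 2) * (1 / 2 ^ phi r (I \ J).card) := by
      rw [one_div_mul_one_div]
    rw [h5] at h4
    exact h4
  rw [← mul_sum] at h3
  have h6 : (0 : ℝ) ≤ 1 / 2 ^ (r.choose 2) := by positivity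
  exact h2.trans (h3.trans (mul_le_mul_of_nonneg_left (tail_sum I hI hn hj hr) h6))

end COVM_

open COVM_ in
theorem p_COVM (hcard : T_CARD) : T_COVM := by
  intro V _ l r k j F1 F2 I K hl hr hn hXA hF2 hI hCov hjk hjl
  obtain ⟨-, hc, -, -, hrel⟩ := hcard V
  have hr6 : 6 * l + 5 ≤ r := by nlinarith
  rcases Nat.eq_zero_or_pos j with hj0 | hj0
  · subst hj0
    have h1 := (hrel r F1 I K hI).2
    refine h1.trans ?_
    have h2 : phi r 0 = 0 := by
      unfold phi
      simp
    rw [h2]
    norm_num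
  have hk1 : 1 ≤ k := by omega
  obtain ⟨hkspec, hkmin⟩ := hCov
  have hkr : k ≤ r := by
    obtain ⟨G, hG⟩ := hF2
    obtain ⟨A, hA, hAk, _⟩ := hkspec G hG
    rw [← hAk, ← hI]
    exact card_le_card hA
  obtain ⟨Gw, hGwF, hGw⟩ : ∃ G ∈ F2, ¬ ∃ T ⊆ I, T.card = k - 1 ∧ Ag (I \ T) G K := by
    have := hkmin (k - 1) (by omega)
    push Not at this
    obtain ⟨G, hG, h⟩ := this
    exact ⟨G, hG, by push Not; exact h⟩
  have hGwfar : ∀ A ⊆ I, Ag (I \ A) Gw K → k ≤ A.card := by
    intro A hA hAe
    by_contra hlt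
    push Not at hlt
    apply hGw
    obtain ⟨A', hAA', hA'I, hA'c⟩ := exists_subsuperset_card_eq hA (by omega : A.card ≤ k - 1)
      (by omega : k - 1 ≤ I.card)
    exact ⟨A', hA'I, hA'c, ag_mono (sdiff_subset_sdiff Subset.rfl hAA') hAe⟩
  have hmain := count_far hc I hI hn hjl hr6 K Gw (F1.filter (fun G => Ag I G K)) (by
    intro f hf
    rw [mem_filter] at hf
    refine ⟨mem_cyl.2 ((ag_iff _ _ _).1 hf.2), ?_⟩
    obtain ⟨J, hJ, hJe⟩ := hXA f hf.1 Gw hGwF
    refine ⟨J, hJ, hjk.trans ?_, mem_cyl.2 ((ag_iff _ _ _).1 hJe)⟩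
    apply hGwfar (I \ J) sdiff_subset
    rw [sdiff_sdiff_right_self]
    intro x hx y hy
    have hx' := mem_inter.1 hx
    have hy' := mem_inter.1 hy
    rw [← hJe x hx'.2 y hy'.2]
    exact hf.2 x hx'.1 y hy'.1)
  unfold rel dl
  rw [div_le_iff₀ (by positivity)]
  refine hmain.trans (le_of_eq ?_)
  rw [← pow_mul]
  ring

end Pool.Agent.EFX
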