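import Pool.Agent.EFX.Targets

set_option autoImplicit false
set_option maxHeartbeats 4000000

namespace Pool.Agent.EFX

open Finset

open scoped Classical

noncomputable section

namespace CUT_

theorem two_zero (a b c : ZMod 2) (h : a + b = c) : b = c + a := by
  revert a b c; decide

theorem add_one_ne (a : ZMod 2) : a ≠ a + 1 := by
  revert a; decide

theorem add_one_one (a : ZMod 2) : a + 1 + 1 = a := by
  revert a; decide

theorem card_prod_eq (hV : T_VAL) {V : Type} [Fintype V] (x y : V) (hxy : x ≠ y) :
    Fintype.card (Gr V) =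
      Fintype.card (Gr {z : V // z ≠ x}) * Fintype.card ({z : V // z ≠ x} → ZMod 2) := by
  obtain ⟨-, -, -, -, -, h6, h7⟩ := hV V
  rw [← Fintype.card_prod]
  refine Fintype.card_of_bijective (f := fun G : Gr V => (rst x G, cs x y G)) ⟨?_, ?_⟩
  · intro G H h
    exact h6 x y hxy G H (congrArg Prod.fst h) (congrArg Prod.snd h)
  · rintro ⟨K, g⟩
    obtain ⟨G, h1, h2⟩ := h7 x y hxy K g
    exact ⟨G, Prod.ext h1 h2⟩

theorem mem_cut {V : Type} [Fintype V] (x y : V)
    (F : Finset (Gr V)) (g : {z : V // z ≠ x} → ZMod 2) (H : Gr {z : V // z ≠ x}) :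
    H ∈ cut x y F g ↔ ∃ G, G ∈ F ∧ cs x y G = g ∧ rst x G = H := by
  unfold cut
  simp only [Finset.mem_image, Finset.mem_filter, and_assoc]

theorem card_cut (hV : T_VAL) {V : Type} [Fintype V] (x y : V) (hxy : x ≠ y)
    (F : Finset (Gr V)) (g : {z : V // z ≠ x} → ZMod 2) :
    (cut x y F g).card = (F.filter (fun G => cs x y G = g)).card := by
  obtain ⟨-, -, -, -, -, h6, -⟩ := hV V
  have h : ∀ S : Finset (Gr V), (∀ G, G ∈ S ↔ G ∈ F ∧ cs x y G = g) →
      (cut x y F g).card = S.card := by
    intro S hS
    symm
    apply Finset.card_bij (fun G _ => rst x G)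
    · intro G hG
      rw [hS] at hG
      rw [mem_cut]
      exact ⟨G, hG.1, hG.2, rfl⟩
    · intro G hG H hH h
      rw [hS] at hG hH
      exact h6 x y hxy G H h (hG.2.trans hH.2.symm)
    · intro H hH
      rw [mem_cut] at hH
      obtain ⟨G, h1, h2, h3⟩ := hH
      exact ⟨G, (hS G).2 ⟨h1, h2⟩, h3⟩
  exact h _ (fun G => by simp only [Finset.mem_filter])

end CUT_

open CUT_

theorem p_CUT : T_VAL → T_CARD → T_CUT := by
  intro hV _ V _ x y hxy
  have hVV := hV V
  obtain ⟨hsymm, hdiag, -, -, hrst, h6, h7⟩ := hVV
  refine ⟨?_, ?_, ?_⟩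
  · intro F g
    unfold den qd pr
    rw [card_cut hV x y hxy, card_prod_eq hV x y hxy]
    rcases F.eq_empty_or_nonempty with rfl | hF
    · simp
    · have h1 : (F.card : ℝ) ≠ 0 := by
        have := hF.card_pos
        positivity
      have h2 : (Fintype.card ({z : V // z ≠ x} → ZMod 2) : ℝ) ≠ 0 := by
        have : 0 < Fintype.card ({z : V // z ≠ x} → ZMod 2) := Fintype.card_pos
        positivity
      have h3 : (Fintype.card (Gr {z : V // z ≠ x}) : ℝ) ≠ 0 := by
        have : 0 < Fintype.card (Gr {z : V // z ≠ x}) := Fintype.card_pos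
        positivity
      push_cast
      field_simp
      congr
  · intro r F1 F2 g hXA H1 hH1 H2 hH2
    obtain ⟨G, hGF, hGg, rfl⟩ := (mem_cut x y F1 g H1).mp hH1
    obtain ⟨G', hGF', hGg', rfl⟩ := (mem_cut x y F2 (flip x y g) H2).mp hH2
    obtain ⟨S, hS, hAg⟩ := hXA G hGF G' hGF'
    by_cases hx : x ∈ S
    · -- replace `x` by `y`
      have hcs : ∀ z : {z : V // z ≠ x}, val G x z + val G y z = g z := fun z => congrFun hGg z
      have hcs' : ∀ z : {z : V // z ≠ x}, val G' x z + val G' y z = flip x y g z :=
        fun z => congrFun hGg' z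
      have hyS : y ∉ S := by
        intro hy
        have h1 := hcs ⟨y, hxy.symm⟩
        have h2 := hcs' ⟨y, hxy.symm⟩
        simp only [hdiag, add_zero] at h1 h2
        have h3 := hAg x hx y hy
        rw [h3, h2] at h1
        unfold flip at h1
        simp only [if_true] at h1
        exact add_one_ne _ h1.symm
      refine ⟨(insert y (S.erase x)).subtype (fun z => z ≠ x), ?_, ?_⟩
      · rw [Finset.card_subtype]
        have : (insert y (S.erase x)).filter (fun z => z ≠ x) = insert y (S.erase x) := by
          refine Finset.filter_true_of_mem fun z hz => ?_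
          rcases Finset.mem_insert.mp hz with rfl | hz
          · exact hxy.symm
          · exact (Finset.mem_erase.mp hz).1
        rw [this, Finset.card_insert_of_notMem (fun h => hyS (Finset.mem_erase.mp h).2),
          Finset.card_erase_of_mem hx]
        have := Finset.card_pos.mpr ⟨x, hx⟩
        omega
      · have key : ∀ w : {z : V // z ≠ x}, (w : V) ∈ S → (w : V) ≠ y →
            val G y w = val G' y w := by
          intro w hw hwy
          have h1 := two_zero _ _ _ (hcs w)
          have h2 := two_zero _ _ _ (hcs' w)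
          have h3 : flip x y g w = g w := by unfold flip; rw [if_neg hwy]
          rw [h1, h2, h3, hAg x hx w hw]
        intro z hz w hw
        rw [hrst, hrst]
        have hz' := Finset.mem_subtype.mp hz
        have hw' := Finset.mem_subtype.mp hw
        rcases Finset.mem_insert.mp hz' with hzy | hzS
        · rcases Finset.mem_insert.mp hw' with hwy | hwS
          · rw [hzy, hwy, hdiag, hdiag]
          · have hwS' := (Finset.mem_erase.mp hwS).2
            have hwy : (w : V) ≠ y := fun h => hyS (h ▸ hwS')
            rw [hzy]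
            exact key w hwS' hwy
        · have hzS' := (Finset.mem_erase.mp hzS).2
          have hzy : (z : V) ≠ y := fun h => hyS (h ▸ hzS')
          rcases Finset.mem_insert.mp hw' with hwy | hwS
          · rw [hwy, hsymm G z y, hsymm G' z y]
            exact key z hzS' hzy
          · exact hAg z hzS' w (Finset.mem_erase.mp hwS).2
    · refine ⟨S.subtype (fun z => z ≠ x), ?_, ?_⟩
      · rw [Finset.card_subtype]
        have : S.filter (fun z => z ≠ x) = S :=
          Finset.filter_true_of_mem fun z hz h => hx (h ▸ hz)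
        rw [this, hS]
      · intro z hz w hw
        rw [hrst, hrst]
        exact hAg z (Finset.mem_subtype.mp hz) w (Finset.mem_subtype.mp hw)
  · intro g
    funext z
    unfold flip
    by_cases hz : (z : V) = y
    · simp only [hz, if_true]
      exact add_one_one _
    · simp only [if_neg hz]

end

end Pool.Agent.EFX
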