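import Pool.Agent.EFX.Targets

set_option autoImplicit false

/-!
# FIN: the final statement for simple graphs
-/

namespace Pool.Agent.EFX

open Finset

open scoped Classical

noncomputable section

namespace FIN_

variable {V : Type}

/-- the indicator function of a simple graph -/
def toG (G : SimpleGraph V) : Gr V :=
  fun e => if ∃ u v, e.1 = {u, v} ∧ G.Adj u v then 1 else 0

lemma toG_pair (G : SimpleGraph V) {u v : V} (h : u ≠ v) :
    toG G ⟨{u, v}, card_pair h⟩ = if G.Adj u v then 1 else 0 := by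
  unfold toG
  have key : (∃ a b, ({u, v} : Finset V) = {a, b} ∧ G.Adj a b) ↔ G.Adj u v := by
    constructor
    · rintro ⟨a, b, hab, hadj⟩
      have ha : a = u ∨ a = v := by
        have : a ∈ ({u, v} : Finset V) := by rw [hab]; simp
        simpa using this
      have hb : b = u ∨ b = v := by
        have : b ∈ ({u, v} : Finset V) := by rw [hab]; simp
        simpa using this
      have hne := hadj.ne
      rcases ha with rfl | rfl <;> rcases hb with rfl | rfl
      · exact absurd rfl hne
      · exact hadj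
      · exact hadj.symm
      · exact absurd rfl hne
    · intro hadj
      exact ⟨u, v, rfl, hadj⟩
  simp only [key]

lemma val_toG (G : SimpleGraph V) (u v : V) : val (toG G) u v = if G.Adj u v then 1 else 0 := by
  unfold val
  split_ifs with h1 h2 h2
  · rw [toG_pair G h1, if_pos h2]
  · rw [toG_pair G h1, if_neg h2]
  · exact absurd h2.ne h1
  · rfl

lemma toG_injective : Function.Injective (toG (V := V)) := by
  intro G H h
  ext u v
  have h1 := val_toG G u v
  rw [h, val_toG H u v] at h1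
  by_cases hG : G.Adj u v <;> by_cases hH : H.Adj u v <;> simp_all

/-- the graph of a function on pairs -/
def ofG (f : Gr V) : SimpleGraph V where
  Adj u v := ∃ h : u ≠ v, f ⟨{u, v}, card_pair h⟩ = 1
  symm := ⟨by
    rintro u v ⟨h, hf⟩
    refine ⟨h.symm, ?_⟩
    have e : (⟨{v, u}, card_pair h.symm⟩ : Ed V) = ⟨{u, v}, card_pair h⟩ :=
      Subtype.ext (pair_comm v u)
    rw [e]
    exact hf⟩
  loopless := ⟨fun u hu => hu.1 rfl⟩

lemma z2 (a b : ZMod 2) (h : a = 1 ↔ b = 1) : a = b := by
  revert a b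
  decide

lemma ofG_injective : Function.Injective (ofG (V := V)) := by
  intro f g h
  funext e
  obtain ⟨e, he⟩ := e
  obtain ⟨u, v, huv, rfl⟩ := card_eq_two.1 he
  have h1 : (ofG f).Adj u v ↔ (ofG g).Adj u v := by rw [h]
  refine z2 _ _ ⟨fun hf => (h1.1 ⟨huv, hf⟩).2, fun hg => (h1.2 ⟨huv, hg⟩).2⟩

lemma dl_pos (r : ℕ) : 0 < dl r := by unfold dl; positivity

/-- families which cross-agree with themselves -/
lemma xa_image [Fintype V] {r : ℕ} (hrn : r ≤ Fintype.card V) (F : Finset (SimpleGraph V))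
    (hF : ∀ G ∈ F, ∀ H ∈ F, G ≠ H → ∃ s : Finset V, (symmDiff G H).IsNIndepSet r s) :
    XA r (F.image toG) (F.image toG) := by
  intro f hf g hg
  rw [mem_image] at hf hg
  obtain ⟨G, hG, rfl⟩ := hf
  obtain ⟨H, hH, rfl⟩ := hg
  by_cases hne : G = H
  · subst hne
    obtain ⟨S, _, hS⟩ := exists_subset_card_eq (s := (univ : Finset V)) (n := r)
      (by rw [card_univ]; exact hrn)
    exact ⟨S, hS, fun _ _ _ _ => rfl⟩
  · obtain ⟨s, hs⟩ := hF G hG H hH hne
    rw [SimpleGraph.isNIndepSet_iff] at hs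
    refine ⟨s, hs.2, fun u hu v hv => ?_⟩
    rw [val_toG, val_toG]
    by_cases huv : u = v
    · subst huv
      simp
    · have h1 := hs.1 (mem_coe.2 hu) (mem_coe.2 hv) huv
      have h2 : G.Adj u v ↔ H.Adj u v := by
        simp only [symmDiff, SimpleGraph.sup_adj, SimpleGraph.sdiff_adj, not_or, not_and,
          not_not] at h1
        exact ⟨h1.1, h1.2⟩
      simp only [h2]

/-- the density bound -/
lemma bound [Fintype V] (hC : ∀ (R : Finset V) (K : Gr V),
    den (univ.filter (fun G => Ag R G K)) = dl R.card)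
    {l r : ℕ} (F : Finset (Gr V))
    (hM : 2 ^ l ≤ Fintype.card V → den F * den F ≤ dl r ^ 2)
    (hB : Fintype.card V ≤ 2 ^ l → dl r ^ 2 / 2 ≤ den F * den F →
      ∃ (R : Finset V) (K : Gr V), R.card = r ∧ (∀ G ∈ F, Ag R G K)) : den F ≤ dl r := by
  have hd := dl_pos r
  have hd0 : 0 ≤ den F := by unfold den; positivity
  rcases le_total (2 ^ l) (Fintype.card V) with h | h
  · have h1 := hM h
    nlinarith
  · by_contra hlt
    push Not at hlt
    obtain ⟨R, K, hR, h1⟩ := hB h (by nlinarith)
    have h2 := hC R K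
    rw [hR] at h2
    have h3 : F ⊆ univ.filter (fun G => Ag R G K) := fun G hG =>
      mem_filter.2 ⟨mem_univ _, h1 G hG⟩
    have h4 : den F ≤ den (univ.filter (fun G => Ag R G K)) := by
      unfold den
      exact div_le_div_of_nonneg_right (by exact_mod_cast card_le_card h3) (by positivity)
    rw [h2] at h4
    exact absurd h4 (not_le.2 hlt)

lemma pow_split {a b : ℕ} (h : b ≤ a) : 2 ^ a = 2 ^ (a - b) * 2 ^ b := by
  rw [← pow_add, Nat.sub_add_cancel h]

/-- the upper bound -/
lemma upper (hC : T_CARD) (hB : T_BASE) (hM : T_MAIN) [Fintype V] {l r : ℕ} (hN : Num l r)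
    (hrn : r ≤ Fintype.card V) (F : Finset (SimpleGraph V))
    (hF : ∀ G ∈ F, ∀ H ∈ F, G ≠ H → ∃ s : Finset V, (symmDiff G H).IsNIndepSet r s) :
    F.card ≤ 2 ^ ((Fintype.card V).choose 2 - r.choose 2) := by
  have hx := xa_image hrn F hF
  have hl : 1 ≤ l := le_trans (by norm_num) hN.1
  have h1 : den (F.image toG) ≤ dl r := by
    refine bound (hC V).2.2.2.1 (l := l) _ (fun h => hM V l r _ _ hN h hx) (fun h h' => ?_)
    obtain ⟨R, K, hR, h2, _⟩ := hB V l r _ _ hl hN.2.1 h hx h'
    exact ⟨R, K, hR, h2⟩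
  unfold den dl at h1
  rw [card_image_of_injective F toG_injective, (hC V).1,
    div_le_div_iff₀ (by positivity) (by positivity), one_mul] at h1
  push_cast at h1
  have h2 : F.card * 2 ^ r.choose 2 ≤ 2 ^ (Fintype.card V).choose 2 := by exact_mod_cast h1
  rw [pow_split (Nat.choose_le_choose 2 hrn)] at h2
  exact Nat.le_of_mul_le_mul_right h2 (by positivity)

/-- the construction -/
lemma lower (hC : T_CARD) [Fintype V] {r : ℕ} (hrn : r ≤ Fintype.card V) :
    ∃ F : Finset (SimpleGraph V),
    (∀ G ∈ F, ∀ H ∈ F, G ≠ H → ∃ s : Finset V, (symmDiff G H).IsNIndepSet r s) ∧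
    F.card = 2 ^ ((Fintype.card V).choose 2 - r.choose 2) := by
  obtain ⟨S, _, hS⟩ := exists_subset_card_eq (s := (univ : Finset V)) (n := r)
    (by rw [card_univ]; exact hrn)
  refine ⟨(univ.filter (fun G : Gr V => Ag S G (fun _ => 0))).image ofG, ?_, ?_⟩
  · intro G hG H hH _
    rw [mem_image] at hG hH
    obtain ⟨f, hf, rfl⟩ := hG
    obtain ⟨g, hg, rfl⟩ := hH
    refine ⟨S, ?_⟩
    rw [SimpleGraph.isNIndepSet_iff]
    refine ⟨?_, hS⟩
    intro u hu v hv huv
    have key : ∀ f : Gr V, Ag S f (fun _ => 0) → ¬ (ofG f).Adj u v := by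
      rintro f hf ⟨h, hf2⟩
      have h3 := hf u (mem_coe.1 hu) v (mem_coe.1 hv)
      unfold val at h3
      rw [dif_pos huv, dif_pos huv, hf2] at h3
      exact one_ne_zero h3
    have h1 := key f (mem_filter.1 hf).2
    have h2 := key g (mem_filter.1 hg).2
    simp only [symmDiff, SimpleGraph.sup_adj, SimpleGraph.sdiff_adj, h1, h2, false_and,
      or_self, not_false_eq_true]
  · rw [card_image_of_injective _ ofG_injective]
    have h1 := (hC V).2.2.2.1 S (fun _ => 0)
    unfold den dl at h1
    rw [(hC V).1, hS, div_eq_div_iff (by positivity) (by positivity), one_mul] at h1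
    push_cast at h1
    have h2 : (univ.filter (fun G : Gr V => Ag S G (fun _ => 0))).card * 2 ^ r.choose 2 =
        2 ^ (Fintype.card V).choose 2 := by exact_mod_cast h1
    rw [pow_split (Nat.choose_le_choose 2 hrn)] at h2
    exact Nat.eq_of_mul_eq_mul_right (by positivity) h2

end FIN_

open FIN_ in
theorem p_FIN : T_CARD → T_VAL → T_BASE → T_NUM → T_MAIN → T_FIN := by
  intro hC _ hB hNum hM
  obtain ⟨r0, hr0⟩ := hNum
  refine ⟨r0, fun r n hr hrn => ⟨?_, ?_⟩⟩
  · intro F hF
    obtain ⟨l, hl⟩ := hr0 r hr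
    have h := upper hC hB hM hl (V := Fin n) (by rw [Fintype.card_fin]; exact hrn) F hF
    rwa [Fintype.card_fin] at h
  · have h := lower hC (V := Fin n) (r := r) (by rw [Fintype.card_fin]; exact hrn)
    rwa [Fintype.card_fin] at h

end

end Pool.Agent.EFX
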