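import Pool.Agent.EFX.Targets

set_option autoImplicit false

namespace Pool.Agent.EFX

open Finset

open scoped Classical

noncomputable section

private theorem dl_pos (r : ℕ) : 0 < dl r := by unfold dl; positivity

private theorem den_inst {β : Type} (i1 i2 : Fintype β) (A : Finset β) :
    @den β i1 A = @den β i2 A := by
  rw [Subsingleton.elim i1 i2]

private theorem rel_eq {V : Type} [Fintype V] (r : ℕ) (F : Finset (Gr V)) (R : Finset V)
    (K : Gr V) : rel r F R K = den (F.filter (fun G => Ag R G K)) / dl r := rfl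

set_option maxHeartbeats 400000 in
private theorem hb_aux (hCUT : T_CUT) (hCYL : T_CYL) (V : Type) [Fintype V] (r : ℕ)
    (F : Finset (Gr V)) (R : Finset V)
    (K : Gr V) (x y : V) (hxy : x ≠ y) (hxR : x ∉ R) (hyR : y ∉ R)
    (F' : Finset (Gr V)) (hF' : F' = F.filter (fun G => Ag R G K))
    (g : {z : V // z ≠ x} → ZMod 2) :
    rel r (cut x y F g) (R.subtype (fun z => z ≠ x)) (rst x K) =
      rel r F R K * qd F' (cs x y) g := by
  obtain ⟨hcR, hcA, hcF⟩ := hCYL V x y R hxy hxR hyR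
  obtain ⟨hden, -, -⟩ := hCUT V x y hxy
  have h1 := hcF F K g
  rw [← hF'] at h1
  have h2 := hden F' g
  rw [rel_eq, h1]
  rw [rel_eq r F R K, ← hF']
  rw [den_inst _ _ (cut x y F' g), h2]
  ring

private theorem cheb {T : Type} [Fintype T] (p : T → Prop) (b : T → ℝ) (f c : ℝ)
    (h : ∀ g, p g → 1 / 32 ≤ b g - f) (hv : ∑ g, (b g - f) ^ 2 ≤ c) :
    ((univ.filter p).card : ℝ) ≤ 1024 * c := by
  have h1 : ((univ.filter p).card : ℝ) * (1 / 1024) ≤ ∑ g ∈ univ.filter p, (b g - f) ^ 2 := by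
    rw [← nsmul_eq_mul]
    refine card_nsmul_le_sum (univ.filter p) _ _ ?_
    intro g hg
    have hg' := h g (mem_filter.mp hg).2
    nlinarith
  have h2 : ∑ g ∈ univ.filter p, (b g - f) ^ 2 ≤ ∑ g, (b g - f) ^ 2 :=
    sum_le_sum_of_subset_of_nonneg (subset_univ _) (fun _ _ _ => sq_nonneg _)
  linarith

set_option maxHeartbeats 400000 in
/-- FRAC: few cosets are dense in the cylinder. -/
theorem p_FRAC : T_HELB → T_CARD → T_CUT → T_CYL → T_VARI → T_FRAC := by
  intro hHELB hCARD hCUT hCYL hVARI V _ r F R K x y H hxy hxR hyR hR hne hlt hH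
  obtain ⟨F', hF'⟩ : ∃ F', F' = F.filter (fun G => Ag R G K) := ⟨_, rfl⟩
  rw [← hF'] at hne hH
  have hb := hb_aux hCUT hCYL V r F R K x y hxy hxR hyR F' hF'
  obtain ⟨-, -, -, -, hrel⟩ := hCARD V
  obtain ⟨hf0, hf1⟩ := hrel r F R K hR
  obtain ⟨hcR, -, -⟩ := hCYL V x y R hxy hxR hyR
  obtain ⟨-, -, -, -, hrel'⟩ := hCARD {z : V // z ≠ x}
  generalize rel r F R K = f at *
  have hb1 : ∀ g : {z : V // z ≠ x} → ZMod 2, f * qd F' (cs x y) g ≤ 1 := by
    intro g
    rw [← hb g]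
    exact (hrel' r (cut x y F g) (R.subtype (fun z => z ≠ x)) (rst x K) (hcR.trans hR)).2
  have hq0 : ∀ g : {z : V // z ≠ x} → ZMod 2, 0 ≤ qd F' (cs x y) g := by
    intro g
    unfold qd pr
    positivity
  have hv := hVARI ({z : V // z ≠ x} → ZMod 2) (fun g => qd F' (cs x y) g) f H ⟨fun _ => 0⟩
    hq0 hf0 hf1 hb1 hH
  have hcard : (0 : ℝ) < (Fintype.card ({z : V // z ≠ x} → ZMod 2) : ℝ) := by
    exact_mod_cast Fintype.card_pos
  rw [div_le_iff₀ hcard] at hv
  generalize (Fintype.card ({z : V // z ≠ x} → ZMod 2) : ℝ) = N at *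
  have h3 := cheb (fun g : {z : V // z ≠ x} → ZMod 2 =>
    31 / 32 ≤ rel r (cut x y F g) (R.subtype (fun z => z ≠ x)) (rst x K))
    (fun g => f * qd F' (cs x y) g) f _ (by
      intro g hg
      rw [hb g] at hg
      linarith) hv
  refine le_trans h3 (le_of_eq ?_)
  ring

end

end Pool.Agent.EFX
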