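import Pool.Agent.EFX.Targets

set_option autoImplicit false

/-! # HELB: basic facts on the Hellinger distance and the entropy deficit -/

namespace Pool.Agent.EFX

open Finset

open scoped Classical

noncomputable section

private lemma helb_point (q : ℝ) (hq : 0 ≤ q) : 2 * q - 2 * √q ≤ q * Real.log q := by
  rcases hq.eq_or_lt with h | h
  · subst h; simp
  · have hs : 0 < √q := Real.sqrt_pos.mpr h
    have h1 : 1 - (√q)⁻¹ ≤ Real.log (√q) := Real.one_sub_inv_le_log_of_pos hs
    have h2 : Real.log q = 2 * Real.log (√q) := by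
      rw [Real.log_sqrt hq]; ring
    have h3 : q * (√q)⁻¹ = √q := by
      rw [← div_eq_mul_inv, Real.div_sqrt]
    have h4 : q * (1 - (√q)⁻¹) ≤ q * Real.log (√q) := mul_le_mul_of_nonneg_left h1 hq
    rw [h2]
    nlinarith [h3, h4]

theorem p_HELB : T_HELB := by
  intro α S _ A X hA
  have hAc : (0 : ℝ) < (A.card : ℝ) := by exact_mod_cast hA.card_pos
  obtain ⟨a, ha⟩ := hA
  have hS : Nonempty S := ⟨X a⟩
  have hn : (0 : ℝ) < (Fintype.card S : ℝ) := by exact_mod_cast Fintype.card_pos
  have hpr : ∀ s, 0 ≤ pr A X s := fun s => by unfold pr; positivity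
  have hsum : ∑ s, pr A X s = 1 := by
    unfold pr
    rw [← Finset.sum_div, div_eq_one_iff_eq hAc.ne']
    have h := Finset.card_eq_sum_card_fiberwise (f := X) (s := A) (t := (univ : Finset S))
      (fun x _ => by simp)
    rw [h]
    push_cast
    rfl
  have hqsum : ∑ s, qd A X s = (Fintype.card S : ℝ) := by
    unfold qd
    rw [← Finset.mul_sum, hsum, mul_one]
  have hq0 : ∀ s, 0 ≤ qd A X s := fun s => by
    unfold qd; exact mul_nonneg hn.le (hpr s)
  have hel0 : 0 ≤ hel A X := by
    unfold hel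
    exact div_nonneg (Finset.sum_nonneg fun s _ => sq_nonneg _) hn.le
  have helf : hel A X = 2 - 2 * (∑ s, √(qd A X s)) / (Fintype.card S : ℝ) := by
    unfold hel
    have h1 : ∑ s, (√(qd A X s) - 1) ^ 2 =
        (Fintype.card S : ℝ) - 2 * (∑ s, √(qd A X s)) + (Fintype.card S : ℝ) := by
      have h2 : ∀ s, (√(qd A X s) - 1) ^ 2 = qd A X s - 2 * √(qd A X s) + 1 := fun s => by
        have := Real.sq_sqrt (hq0 s)
        nlinarith [this]
      rw [Finset.sum_congr rfl fun s _ => h2 s, Finset.sum_add_distrib, Finset.sum_sub_distrib,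
        hqsum, ← Finset.mul_sum]
      simp
    rw [h1]
    field_simp
    ring
  have hsq0 : 0 ≤ (∑ s, √(qd A X s)) / (Fintype.card S : ℝ) :=
    div_nonneg (Finset.sum_nonneg fun s _ => Real.sqrt_nonneg _) hn.le
  have hdf : hel A X ≤ df A X := by
    have h1 : df A X = (∑ s, qd A X s * Real.log (qd A X s)) / (Fintype.card S : ℝ) := by
      unfold df
      rw [eq_div_iff hn.ne', Finset.sum_mul]
      refine Finset.sum_congr rfl fun s _ => ?_
      unfold qd
      ring
    have h2 : ∑ s, (2 * qd A X s - 2 * √(qd A X s)) ≤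
        ∑ s, qd A X s * Real.log (qd A X s) :=
      Finset.sum_le_sum fun s _ => helb_point _ (hq0 s)
    have h3 : hel A X = (∑ s, (2 * qd A X s - 2 * √(qd A X s))) / (Fintype.card S : ℝ) := by
      rw [helf, Finset.sum_sub_distrib, ← Finset.mul_sum, ← Finset.mul_sum, hqsum]
      field_simp
    rw [h3, h1]
    exact div_le_div_of_nonneg_right h2 hn.le
  refine ⟨hpr, hsum, hqsum, hel0, helf, ?_, le_trans hel0 hdf, hdf⟩
  rw [helf, mul_div_assoc]
  linarith

end

end Pool.Agent.EFX
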