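import Pool.Agent.EFX.Targets

set_option autoImplicit false

/-!
# LL: the local lemma, by induction on the number of vertices
-/

namespace Pool.Agent.EFX

open Finset

open scoped Classical

noncomputable section

private theorem LL_den_le_one {β : Type} [Fintype β] (A : Finset β) : den A ≤ 1 := by
  unfold den
  apply div_le_one_of_le₀
  · exact_mod_cast Finset.card_le_univ A
  · positivity

private theorem LL_den_nonneg {β : Type} [Fintype β] (A : Finset β) : 0 ≤ den A := by
  unfold den; positivity

private theorem LL_den_pos {β : Type} [Fintype β] (A : Finset β) (h : A.Nonempty) :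
    0 < den A := by
  unfold den
  have h1 : 0 < A.card := h.card_pos
  have h2 : A.card ≤ Fintype.card β := Finset.card_le_univ A
  have h3 : 0 < Fintype.card β := lt_of_lt_of_le h1 h2
  have h4 : (0:ℝ) < A.card := by exact_mod_cast h1
  have h5 : (0:ℝ) < Fintype.card β := by exact_mod_cast h3
  positivity

private theorem LL_nonempty_of_den_pos {β : Type} [Fintype β] (A : Finset β) (h : 0 < den A) :
    A.Nonempty := by
  rcases A.eq_empty_or_nonempty with h0 | h0
  · subst h0
    simp [den] at h
  · exact h0

private theorem LL_ld_nonneg {β : Type} [Fintype β] (A : Finset β) : 0 ≤ ld A := by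
  unfold ld
  have := Real.log_nonpos (LL_den_nonneg A) (LL_den_le_one A)
  linarith

/-- density without a chosen enumeration -/
private def LL_dn {β : Type} (A : Finset β) : ℝ := (A.card : ℝ) / (Nat.card β : ℝ)

private theorem LL_den_eq {β : Type} {_ : Fintype β} (A : Finset β) : den A = LL_dn A := by
  unfold den LL_dn
  rw [Nat.card_eq_fintype_card]

private theorem LL_ld_eq {β : Type} {_ : Fintype β} (A : Finset β) :
    ld A = -Real.log (LL_dn A) := by
  unfold ld
  rw [LL_den_eq]

private theorem LL_rel_eq {V : Type} [Fintype V] (r : ℕ) (F : Finset (Gr V)) (R : Finset V)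
    (K : Gr V) : rel r F R K = LL_dn (F.filter (fun G => Ag R G K)) / dl r := by
  unfold rel
  rw [LL_den_eq]

private theorem LL_fin (a b c w : ℝ) (h3 : a * w ≤ c * w) (h4 : b * w ≤ c * w) :
    4 * (400000 * a * w + 4 * 400000 * b * w) ≤ 8000000 * c * w := by
  linarith

private theorem LL_exp_bound (u c : ℝ) (hu : 0 ≤ u) (hc : 2 ≤ c) :
    Real.exp (-u) * (u + c) ^ 2 ≤ c ^ 2 := by
  have h1 : u / 2 + 1 ≤ Real.exp (u / 2) := Real.add_one_le_exp (u / 2)
  have h2 : u + c ≤ c * (u / 2 + 1) := by nlinarith
  have h3 : u + c ≤ c * Real.exp (u / 2) := by nlinarith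
  have h4 : (u + c) ^ 2 ≤ (c * Real.exp (u / 2)) ^ 2 := by
    apply pow_le_pow_left₀ (by linarith) h3
  have h5 : (c * Real.exp (u / 2)) ^ 2 = c ^ 2 * Real.exp u := by
    rw [mul_pow, ← Real.exp_nat_mul]
    congr 2
    push_cast
    ring
  have h6 : Real.exp (-u) * Real.exp u = 1 := by
    rw [← Real.exp_add]; simp
  calc Real.exp (-u) * (u + c) ^ 2 ≤ Real.exp (-u) * (c ^ 2 * Real.exp u) := by
        apply mul_le_mul_of_nonneg_left _ (Real.exp_pos _).le
        rw [← h5]; exact h4
    _ = c ^ 2 := by
        rw [mul_comm (c ^ 2), ← mul_assoc, h6, one_mul]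

private theorem LL_beta_bound (r : ℕ) (hr : 6 ≤ r) (β d : ℝ) (hβ : 0 < β) (hβ1 : β ≤ 1)
    (hd : β = d / dl r) : β * (-Real.log d + 1) ^ 2 ≤ ((r : ℝ) ^ 2 + 1) ^ 2 := by
  have hdl : 0 < dl r := by unfold dl; positivity
  have hd' : d = β * dl r := by rw [hd]; field_simp
  have hlog : Real.log d = Real.log β - (r.choose 2 : ℝ) * Real.log 2 := by
    rw [hd', Real.log_mul hβ.ne' hdl.ne']
    unfold dl
    rw [one_div, Real.log_inv, Real.log_pow]
    ring
  set u := -Real.log β with hu
  have hu0 : 0 ≤ u := by
    have := Real.log_nonpos hβ.le hβ1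
    linarith
  set c := (r.choose 2 : ℝ) * Real.log 2 + 1 with hc
  have hlog2 : (0.6931471803 : ℝ) < Real.log 2 := Real.log_two_gt_d9
  have hlog2' : Real.log 2 < (0.6931471808 : ℝ) := Real.log_two_lt_d9
  have hch : (15 : ℝ) ≤ (r.choose 2 : ℝ) := by
    have h1 : Nat.choose 6 2 ≤ r.choose 2 := Nat.choose_le_choose 2 hr
    have h2 : Nat.choose 6 2 = 15 := by decide
    rw [h2] at h1
    exact_mod_cast h1
  have hc2 : 2 ≤ c := by rw [hc]; nlinarith
  have hchle : (r.choose 2 : ℝ) ≤ (r : ℝ) ^ 2 := by
    have h1 : r.choose 2 ≤ r ^ 2 := Nat.choose_le_pow r 2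
    exact_mod_cast h1
  have hc3 : c ≤ (r : ℝ) ^ 2 + 1 := by
    rw [hc]; nlinarith
  have hb : β = Real.exp (-u) := by
    rw [hu, neg_neg, Real.exp_log hβ]
  have e1 : -Real.log d + 1 = u + c := by
    rw [hlog, hu, hc]; ring
  rw [e1]
  calc β * (u + c) ^ 2 = Real.exp (-u) * (u + c) ^ 2 := by rw [← hb]
    _ ≤ c ^ 2 := LL_exp_bound u c hu0 hc2
    _ ≤ ((r : ℝ) ^ 2 + 1) ^ 2 := by
        apply pow_le_pow_left₀ (by linarith) hc3

/-- the local lemma -/
theorem p_LL (hHELB : T_HELB) (hCARD : T_CARD) (hCUT : T_CUT) (hCYL : T_CYL) (hGP : T_GP)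
    (hQD : T_QD) (hVARI : T_VARI) (hCC : T_CC) (hFAR : T_FAR) : T_LL := by
  have main : ∀ (l r : ℕ), 6 * l + 6 ≤ r → 2 * r + 10 ≤ 2 ^ l → ∀ n : ℕ, 2 ^ l ≤ n →
      ∀ (V : Type) [Fintype V] (A B : Finset (Gr V)) (R : Finset V) (K : Gr V),
      Fintype.card V = n → R.card = r → XA r A B → A.Nonempty → (∀ G ∈ A, ¬ Ag R G K) →
      rel r B R K ≤ 4 * 2 ^ (2 * l) / 2 ^ r + 8000000 * (ld A + (r : ℝ) ^ 2 + 1) ^ 2 *
        ∑ j ∈ Ioc (2 ^ l) n, (j : ℝ) ^ (-(4 / 3) : ℝ) := by
    intro l r hlr hrl n hn
    induction n, hn using Nat.le_induction with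
    | base =>
      intro V _ A B R K hcard hR hXA hA hout
      have h := hFAR V l r A B R K (le_of_eq hcard) hlr hR hXA hA hout
      simpa using h
    | succ m hm ih =>
      intro V _ A B R K hcard hR hXA hA hout
      have hn0 : (0:ℝ) < ((m + 1 : ℕ) : ℝ) := by positivity
      set w : ℝ := ((m + 1 : ℕ) : ℝ) ^ (-(4 / 3) : ℝ) with hw
      have hw0 : 0 < w := Real.rpow_pos_of_pos hn0 _
      rw [Finset.sum_Ioc_succ_top hm]
      set S' : ℝ := ∑ j ∈ Ioc (2 ^ l) m, (j : ℝ) ^ (-(4 / 3) : ℝ) with hS'
      have hS'0 : 0 ≤ S' := by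
        apply Finset.sum_nonneg
        intro j _
        apply Real.rpow_nonneg
        positivity
      set L : ℝ := ld A + (r : ℝ) ^ 2 + 1 with hL
      have hldA : 0 ≤ ld A := LL_ld_nonneg A
      have hL1 : 1 ≤ L := by rw [hL]; nlinarith [sq_nonneg (r : ℝ)]
      set p0 : ℝ := 4 * 2 ^ (2 * l) / 2 ^ r with hp0
      have hp00 : 0 ≤ p0 := by rw [hp0]; positivity
      have hdl : 0 < dl r := by unfold dl; positivity
      set B' : Finset (Gr V) := B.filter (fun G => Ag R G K) with hB'
      have hβdef : rel r B R K = den B' / dl r := rfl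
      rcases B'.eq_empty_or_nonempty with hBe | hBne
      · rw [hβdef, hBe]
        have : den (∅ : Finset (Gr V)) = 0 := by simp [den]
        rw [this]
        simp only [zero_div]
        have : 0 ≤ 8000000 * L ^ 2 * (S' + w) := by positivity
        linarith
      · -- the good pair
        have h10 : 10 ≤ Fintype.card V := by omega
        have h2R : 2 * R.card ≤ Fintype.card V := by omega
        obtain ⟨x, y, hxy, hxR, hyR, hhel⟩ := hGP V ![A, B', A] R
          (by intro i; fin_cases i <;> simp [hA, hBne]) h10 h2R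
        have hhA := hhel 0
        have hhB := hhel 1
        simp only [Matrix.cons_val_zero, Matrix.cons_val_one, hcard] at hhA hhB
        rw [← hw] at hhA hhB
        obtain ⟨cR, cAg, cfil⟩ := hCYL V x y R hxy hxR hyR
        obtain ⟨cden, cXA, cflip⟩ := hCUT V x y hxy
        have cdn : ∀ (F : Finset (Gr V)) (g : {z : V // z ≠ x} → ZMod 2),
            LL_dn (cut x y F g) = qd F (cs x y) g * LL_dn F := by
          intro F g
          have h := cden F g
          simp only [LL_den_eq] at h
          exact h
        set R' : Finset {z : V // z ≠ x} := R.subtype (fun z => z ≠ x) with hR'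
        set K' : Gr {z : V // z ≠ x} := rst x K with hK'
        have hR'c : R'.card = r := by rw [cR, hR]
        set β : ℝ := rel r B R K with hβ
        have hβ1 : β ≤ 1 := (((hCARD V).2.2.2.2) r B R K hR).2
        have hβpos : 0 < β := by
          rw [hβdef]
          exact div_pos (LL_den_pos B' hBne) hdl
        have hcardV' : Fintype.card {z : V // z ≠ x} = m := by
          have := Fintype.card_subtype_compl (fun z : V => z = x)
          have h1 : Fintype.card {z : V // z = x} = 1 := by simp
          have h2 : Fintype.card {z : V // ¬ z = x} = Fintype.card V - 1 := by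
            rw [this, h1]
          have h3 : Fintype.card {z : V // z ≠ x} = Fintype.card V - 1 := by
            convert h2
          rw [h3, hcard]
          simp
        -- the densities
        set q : ({z : V // z ≠ x} → ZMod 2) → ℝ := fun g => qd A (cs x y) g with hq
        set q' : ({z : V // z ≠ x} → ZMod 2) → ℝ := fun g => qd B' (cs x y) (flip x y g) with hq'
        set b : ({z : V // z ≠ x} → ZMod 2) → ℝ :=
          fun g => rel r (cut x y B (flip x y g)) R' K' with hb
        have hbij : Function.Bijective (flip x y) := by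
          constructor
          · intro g h hgh
            rw [← cflip g, ← cflip h, hgh]
          · intro g
            exact ⟨flip x y g, cflip g⟩
        have hbq : ∀ g, b g = β * q' g := by
          intro g
          have e2 := cfil B K (flip x y g)
          have e3 := cdn B' (flip x y g)
          simp only [hb, hq', hβdef]
          rw [LL_rel_eq, e2, ← hB', e3, LL_den_eq]
          ring
        have hqA := hHELB (Gr V) ({z : V // z ≠ x} → ZMod 2) A (cs x y) hA
        have hqB := hHELB (Gr V) ({z : V // z ≠ x} → ZMod 2) B' (cs x y) hBne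
        have hq0 : ∀ g, 0 ≤ q g := by
          intro g
          simp only [hq, qd]
          exact mul_nonneg (Nat.cast_nonneg _) (hqA.1 g)
        have hq'0 : ∀ g, 0 ≤ q' g := by
          intro g
          simp only [hq', qd]
          exact mul_nonneg (Nat.cast_nonneg _) (hqB.1 _)
        have hqsum : ∑ g, q g = (Fintype.card ({z : V // z ≠ x} → ZMod 2) : ℝ) := hqA.2.2.1
        have hq'sum : ∑ g, q' g = (Fintype.card ({z : V // z ≠ x} → ZMod 2) : ℝ) := by
          rw [← hqB.2.2.1]
          exact hbij.sum_comp (fun g => qd B' (cs x y) g)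
        have hb0 : ∀ g, 0 ≤ b g := fun g => (((hCARD _).2.2.2.2) r _ R' K' hR'c).1
        have hb1 : ∀ g, b g ≤ 1 := fun g => (((hCARD _).2.2.2.2) r _ R' K' hR'c).2
        have hbsum : ∑ g, b g = β * (Fintype.card ({z : V // z ≠ x} → ZMod 2) : ℝ) := by
          rw [← hq'sum, Finset.mul_sum]
          exact Finset.sum_congr rfl (fun g _ => hbq g)
        have hne : Nonempty ({z : V // z ≠ x} → ZMod 2) := ⟨0⟩
        have hcardpos : (0:ℝ) < (Fintype.card ({z : V // z ≠ x} → ZMod 2) : ℝ) := by
          exact_mod_cast Fintype.card_pos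
        -- variance
        have hhelB' : (∑ g, (√(q' g) - 1) ^ 2) /
            (Fintype.card ({z : V // z ≠ x} → ZMod 2) : ℝ) ≤
            400000 * (ld B' + 1) ^ 2 * w := by
          have e1 : ∑ g, (√(q' g) - 1) ^ 2 = ∑ g, (√(qd B' (cs x y) g) - 1) ^ 2 :=
            hbij.sum_comp (fun g => (√(qd B' (cs x y) g) - 1) ^ 2)
          rw [e1]
          exact hhB
        have hvar0 := hVARI ({z : V // z ≠ x} → ZMod 2) q' β (400000 * (ld B' + 1) ^ 2 * w) hne
          hq'0 hβpos.le hβ1 (fun g => by rw [← hbq g]; exact hb1 g) hhelB'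
        have hbb : β * (ld B' + 1) ^ 2 ≤ ((r : ℝ) ^ 2 + 1) ^ 2 := by
          have := LL_beta_bound r (by omega) β (den B') hβpos hβ1 hβdef
          exact this
        set Vr : ℝ := 4 * 400000 * ((r : ℝ) ^ 2 + 1) ^ 2 * w with hVr
        have hvar : (∑ g, (b g - β) ^ 2) /
            (Fintype.card ({z : V // z ≠ x} → ZMod 2) : ℝ) ≤ Vr := by
          have e1 : ∑ g, (b g - β) ^ 2 = ∑ g, (β * q' g - β) ^ 2 :=
            Finset.sum_congr rfl (fun g _ => by rw [hbq g])
          rw [e1]
          refine le_trans hvar0 ?_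
          rw [hVr]
          have : 4 * β * (400000 * (ld B' + 1) ^ 2 * w) =
            4 * 400000 * (β * (ld B' + 1) ^ 2) * w := by ring
          rw [this]
          apply mul_le_mul_of_nonneg_right _ hw0.le
          linarith [mul_le_mul_of_nonneg_left hbb (by norm_num : (0:ℝ) ≤ 4 * 400000)]
        set Hh : ℝ := 400000 * (ld A + 1) ^ 2 * w with hHh
        have hhelA : (∑ g, (√(q g) - 1) ^ 2) /
            (Fintype.card ({z : V // z ≠ x} → ZMod 2) : ℝ) ≤ Hh := hhA
        have hqd := hQD ({z : V // z ≠ x} → ZMod 2) q b β Vr Hh hne hq0 hqsum hb0 hb1 hbsum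
          hvar hhelA
        -- the induction hypothesis
        have hdenA : 0 < den A := LL_den_pos A hA
        have hqle : ∀ g, q g * den A ≤ 1 := by
          intro g
          have := cden A g
          simp only [hq]
          rw [← this]
          exact LL_den_le_one _
        have hind : ∀ g, q g * b g ≤ q g * p0 + 8000000 * S' * (q g * (L - Real.log (q g)) ^ 2) := by
          intro g
          rcases eq_or_lt_of_le (hq0 g) with h0 | h0
          · rw [← h0]; simp
          · have hcutne : (cut x y A g).Nonempty := by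
              apply LL_nonempty_of_den_pos
              rw [cden]
              exact mul_pos h0 hdenA
            have hout' : ∀ H ∈ cut x y A g, ¬ Ag R' H K' := by
              intro H hH hAg
              have h1 : H ∈ (cut x y A g).filter (fun H => Ag R' H K') := by
                rw [Finset.mem_filter]; exact ⟨hH, hAg⟩
              rw [cfil] at h1
              have h2 : A.filter (fun G => Ag R G K) = ∅ := by
                apply Finset.filter_eq_empty_iff.2
                intro G hG
                exact hout G hG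
              rw [h2] at h1
              simp [cut] at h1
            have hih := ih {z : V // z ≠ x} (cut x y A g) (cut x y B (flip x y g)) R' K'
              hcardV' hR'c (cXA r A B g hXA) hcutne hout'
            have hldc : -Real.log (LL_dn (cut x y A g)) = ld A - Real.log (q g) := by
              rw [cdn, LL_ld_eq]
              rw [LL_den_eq] at hdenA
              rw [Real.log_mul h0.ne' hdenA.ne']
              ring
            rw [LL_ld_eq, hldc] at hih
            have e2 : ld A - Real.log (q g) + (r : ℝ) ^ 2 + 1 = L - Real.log (q g) := by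
              rw [hL]; ring
            rw [e2] at hih
            have h3 := mul_le_mul_of_nonneg_left hih h0.le
            calc q g * b g ≤ q g * (p0 + 8000000 * (L - Real.log (q g)) ^ 2 * S') := h3
              _ = q g * p0 + 8000000 * S' * (q g * (L - Real.log (q g)) ^ 2) := by ring
        have hcc := hCC ({z : V // z ≠ x} → ZMod 2) q L hL1 hq0 (by
          intro g
          have h1 : q g ≤ 1 / den A := by
            rw [le_div_iff₀ hdenA]; exact hqle g
          have h2 : 1 / den A = Real.exp (ld A) := by
            unfold ld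
            rw [Real.exp_neg, Real.exp_log hdenA, one_div]
          rw [h2] at h1
          refine le_trans h1 ?_
          apply Real.exp_le_exp.2
          rw [hL]; nlinarith [sq_nonneg (r : ℝ)]) hqsum
        have hsum : (∑ g, q g * b g) / (Fintype.card ({z : V // z ≠ x} → ZMod 2) : ℝ) ≤
            p0 + 8000000 * S' * L ^ 2 := by
          rw [div_le_iff₀ hcardpos]
          calc ∑ g, q g * b g ≤
              ∑ g, (q g * p0 + 8000000 * S' * (q g * (L - Real.log (q g)) ^ 2)) :=
                Finset.sum_le_sum (fun g _ => hind g)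
            _ = (∑ g, q g) * p0 + 8000000 * S' * ∑ g, (q g * (L - Real.log (q g)) ^ 2) := by
                rw [Finset.sum_add_distrib, ← Finset.sum_mul, ← Finset.mul_sum]
            _ ≤ (Fintype.card ({z : V // z ≠ x} → ZMod 2) : ℝ) * p0 + 8000000 * S' *
                ((Fintype.card ({z : V // z ≠ x} → ZMod 2) : ℝ) * L ^ 2) := by
                rw [hqsum]
                have : 0 ≤ 8000000 * S' := by positivity
                linarith [mul_le_mul_of_nonneg_left hcc this]
            _ = (p0 + 8000000 * S' * L ^ 2) *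
                (Fintype.card ({z : V // z ≠ x} → ZMod 2) : ℝ) := by ring
        have hfin : 4 * (Hh + Vr) ≤ 8000000 * L ^ 2 * w := by
          rw [hHh, hVr]
          have h1 : (ld A + 1) ^ 2 ≤ L ^ 2 := by
            apply pow_le_pow_left₀ (by linarith)
            rw [hL]; nlinarith [sq_nonneg (r : ℝ)]
          have h2 : ((r : ℝ) ^ 2 + 1) ^ 2 ≤ L ^ 2 := by
            apply pow_le_pow_left₀ (by positivity)
            rw [hL]; linarith
          exact LL_fin _ _ _ _ (mul_le_mul_of_nonneg_right h1 hw0.le)
            (mul_le_mul_of_nonneg_right h2 hw0.le)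
        have : β ≤ p0 + 8000000 * S' * L ^ 2 + 8000000 * L ^ 2 * w := by linarith
        calc β ≤ p0 + 8000000 * S' * L ^ 2 + 8000000 * L ^ 2 * w := this
          _ = p0 + 8000000 * L ^ 2 * (S' + w) := by ring
  intro V _ l r A B R K h1 h2 h3 h4 h5 h6 h7
  exact main l r h1 h2 (Fintype.card V) h3 V A B R K rfl h4 h5 h6 h7

end

end Pool.Agent.EFX
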