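import Pool.Agent.EFX.Targets

set_option autoImplicit false

/-! # NUM: the numerical condition holds for all large `r` -/

namespace Pool.Agent.EFX

open Finset

open scoped Classical

noncomputable section

private lemma num_pow (m : ℕ) (hm : 30 ≤ m) : 16000 * (m + 1) ^ 2 ≤ 2 ^ m := by
  induction m, hm using Nat.le_induction with
  | base => norm_num
  | succ k hk ih =>
    have h1 : (k + 1 + 1) ^ 2 ≤ 2 * (k + 1) ^ 2 := by nlinarith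
    calc 16000 * (k + 1 + 1) ^ 2 ≤ 16000 * (2 * (k + 1) ^ 2) := Nat.mul_le_mul_left _ h1
      _ = 2 * (16000 * (k + 1) ^ 2) := by ring
      _ ≤ 2 * 2 ^ k := Nat.mul_le_mul_left _ ih
      _ = 2 ^ (k + 1) := by ring

private lemma num_real (x y : ℝ) (hy : 0 < y) (h : y ^ 3 ≤ x) :
    y * x ^ (-(1 / 3) : ℝ) ≤ 1 := by
  have h1 : x ^ (-(1 / 3) : ℝ) ≤ (y ^ 3) ^ (-(1 / 3) : ℝ) :=
    Real.rpow_le_rpow_of_nonpos (by positivity) h (by norm_num)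
  have h2 : (y ^ 3) ^ (-(1 / 3) : ℝ) = y⁻¹ := by
    rw [← Real.rpow_natCast, ← Real.rpow_mul hy.le]
    norm_num
    rw [Real.rpow_neg_one]
  rw [h2] at h1
  calc y * x ^ (-(1 / 3) : ℝ) ≤ y * y⁻¹ := mul_le_mul_of_nonneg_left h1 hy.le
    _ = 1 := mul_inv_cancel₀ hy.ne'

theorem p_NUM : T_NUM := by
  refine ⟨2 ^ 30, fun r hr => ?_⟩
  have hr0 : r ≠ 0 := by
    rintro rfl
    norm_num at hr
  set m := Nat.log 2 r with hm
  have hm30 : 30 ≤ m := by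
    have := Nat.log_mono_right (b := 2) hr
    rwa [Nat.log_pow (by norm_num)] at this
  have hrm : 2 ^ m ≤ r := Nat.pow_log_le_self 2 hr0
  have hrm' : r < 2 ^ (m + 1) := Nat.lt_pow_succ_log_self (by norm_num) r
  have hl : r ^ 20 ≤ 2 ^ (20 * (m + 1)) := by
    have h1 : 2 ^ (20 * (m + 1)) = (2 ^ (m + 1)) ^ 20 := by
      rw [← pow_mul]; congr 1; ring
    rw [h1]
    exact Nat.pow_le_pow_left hrm'.le 20
  have hbig : 10 ^ 42 * (r ^ 2 + 1) ^ 6 ≤ r ^ 20 := by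
    have hr9 : 10 ^ 9 ≤ r := le_trans (by norm_num) hr
    have h1 : r ^ 2 + 1 ≤ 2 * r ^ 2 := by nlinarith
    have h2 : (r ^ 2 + 1) ^ 6 ≤ (2 * r ^ 2) ^ 6 := Nat.pow_le_pow_left h1 6
    have h3 : (10 ^ 9) ^ 8 ≤ r ^ 8 := Nat.pow_le_pow_left hr9 8
    calc 10 ^ 42 * (r ^ 2 + 1) ^ 6 ≤ 10 ^ 42 * (2 * r ^ 2) ^ 6 := Nat.mul_le_mul_left _ h2
      _ = (10 ^ 42 * 64) * r ^ 12 := by ring
      _ ≤ (10 ^ 9) ^ 8 * r ^ 12 := Nat.mul_le_mul_right _ (by norm_num)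
      _ ≤ r ^ 8 * r ^ 12 := Nat.mul_le_mul_right _ h3
      _ = r ^ 20 := by ring
  refine ⟨20 * (m + 1), by omega, ?_, ?_, ?_⟩
  · calc 40 * (20 * (m + 1)) ^ 2 = 16000 * (m + 1) ^ 2 := by ring
      _ ≤ 2 ^ m := num_pow m hm30
      _ ≤ r := hrm
  · refine le_trans ?_ hl
    have h1 : 2 * r + 10 ≤ r ^ 2 := by nlinarith [le_trans (by norm_num : 10 ≤ 2 ^ 30) hr]
    exact h1.trans (Nat.pow_le_pow_right (Nat.pos_of_ne_zero hr0) (by norm_num))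
  · refine num_real _ _ (by positivity) ?_
    have h1 := hbig.trans hl
    have h2 : ((10 ^ 42 * (r ^ 2 + 1) ^ 6 : ℕ) : ℝ) ≤ ((2 ^ (20 * (m + 1)) : ℕ) : ℝ) := by
      exact_mod_cast h1
    push_cast at h2
    refine le_trans (le_of_eq ?_) h2
    ring

end

end Pool.Agent.EFX
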