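import Pool.Agent.EFX.Targets

set_option autoImplicit false

/-!
# PIECE: dense pieces of coset-cylinders
-/

namespace Pool.Agent.EFX

open Finset

open scoped Classical

namespace PIECE_

/-- the set `N` -/
noncomputable def NN {V : Type} (x y : V) (R' : Finset {z : V // z ≠ x}) : Finset V :=
  if ∃ h : y ≠ x, (⟨y, h⟩ : {z : V // z ≠ x}) ∈ R' then
    insert x (R'.map (Function.Embedding.subtype _)) else R'.map (Function.Embedding.subtype _)

lemma mem_mp {V : Type} {x : V} {R' : Finset {z : V // z ≠ x}} {a : V} :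
    a ∈ R'.map (Function.Embedding.subtype _) ↔ ∃ h : a ≠ x, (⟨a, h⟩ : {z : V // z ≠ x}) ∈ R' := by
  rw [mem_map]
  constructor
  · rintro ⟨z, hz, rfl⟩
    exact ⟨z.2, hz⟩
  · rintro ⟨h, hz⟩
    exact ⟨⟨a, h⟩, hz, rfl⟩

lemma mp_sub {V : Type} {x y : V} {R' : Finset {z : V // z ≠ x}} {z : {z : V // z ≠ x}}
    (hz : z ∈ R') : (z : V) ∈ NN x y R' := by
  have h1 : (z : V) ∈ R'.map (Function.Embedding.subtype _) := mem_mp.2 ⟨z.2, hz⟩
  unfold NN
  split_ifs
  · exact mem_insert_of_mem h1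
  · exact h1

lemma typ {V : Type} {x y : V} (hxy : x ≠ y) {r : ℕ} {R' : Finset {z : V // z ≠ x}}
    (hR : R'.card = r) : Typ r (NN x y R') x y := by
  refine ⟨hxy, ?_⟩
  have hx : x ∉ R'.map (Function.Embedding.subtype _) := by
    intro h
    obtain ⟨h1, _⟩ := mem_mp.1 h
    exact h1 rfl
  unfold NN
  split_ifs with h
  · right
    refine ⟨?_, mem_insert_self _ _, mem_insert_of_mem (mem_mp.2 h)⟩
    rw [card_insert_of_notMem hx, card_map, hR]
  · left
    refine ⟨by rw [card_map, hR], hx, fun hy => h (mem_mp.1 hy)⟩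

lemma ag_iff (hV : T_VAL) {V : Type} [Fintype V] {x y : V} (R' : Finset {z : V // z ≠ x})
    (κ G : Gr V) (hG : cs x y G = cs x y κ) :
    Ag (NN x y R') G κ ↔ Ag R' (rst x G) (rst x κ) := by
  obtain ⟨v1, v2, _, _, v5, _, _⟩ := hV V
  constructor
  · intro h z hz w hw
    rw [v5, v5]
    exact h z (mp_sub hz) w (mp_sub hw)
  · intro h
    have key : ∀ a b : V, (∃ h : a ≠ x, (⟨a, h⟩ : {z : V // z ≠ x}) ∈ R') →
        (∃ h : b ≠ x, (⟨b, h⟩ : {z : V // z ≠ x}) ∈ R') → val G a b = val κ a b := by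
      rintro a b ⟨ha, ha'⟩ ⟨hb, hb'⟩
      have h1 := h _ ha' _ hb'
      rw [v5, v5] at h1
      exact h1
    intro a ha b hb
    unfold NN at ha hb
    split_ifs at ha hb with hy
    · have kx : ∀ b : V, (∃ h : b ≠ x, (⟨b, h⟩ : {z : V // z ≠ x}) ∈ R') →
          val G x b = val κ x b := by
        rintro b ⟨hb, hb'⟩
        have h1 := congrFun hG ⟨b, hb⟩
        unfold cs at h1
        have h2 := key y b hy ⟨hb, hb'⟩
        simp only at h1
        rw [h2] at h1
        exact add_right_cancel h1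
      rcases mem_insert.1 ha with rfl | ha
      · rcases mem_insert.1 hb with rfl | hb
        · rw [v2, v2]
        · exact kx b (mem_mp.1 hb)
      · rcases mem_insert.1 hb with rfl | hb
        · rw [v1 G, v1 κ]
          exact kx a (mem_mp.1 ha)
        · exact key a b (mem_mp.1 ha) (mem_mp.1 hb)
    · exact key a b (mem_mp.1 ha) (mem_mp.1 hb)

lemma gen (hC : T_CARD) {W : Type} [Fintype W] (r : ℕ) (C : Finset (Gr W)) (R' : Finset W)
    (K' : Gr W) (hR : R'.card = r) (hrel : (31 / 32 : ℝ) ≤ rel r C R' K') :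
    ∃ U D : Finset (Gr W), (∀ H, H ∈ U ↔ Ag R' H K') ∧ (∀ H, H ∈ D ↔ H ∈ C ∧ Ag R' H K') ∧
      (31 / 32 : ℝ) * (U.card : ℝ) ≤ (D.card : ℝ) := by
  have hcyl : den (univ.filter (fun H => Ag R' H K')) = dl r := by
    have := (hC W).2.2.2.1 R' K'
    rw [hR] at this
    exact this
  refine ⟨univ.filter (fun H => Ag R' H K'), C.filter (fun H => Ag R' H K'), ?_, ?_, ?_⟩
  · intro H; rw [mem_filter]; simp
  · intro H; rw [mem_filter]
  · unfold rel at hrel
    rw [← hcyl] at hrel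
    unfold den at hrel
    have hT : (0 : ℝ) < (Fintype.card (Gr W) : ℝ) := by
      have : 0 < Fintype.card (Gr W) := Fintype.card_pos
      exact_mod_cast this
    have hne : (0 : ℝ) < ((univ.filter (fun H : Gr W => Ag R' H K')).card : ℝ) := by
      have : (univ.filter (fun H : Gr W => Ag R' H K')).Nonempty :=
        ⟨K', mem_filter.2 ⟨mem_univ _, fun _ _ _ _ => rfl⟩⟩
      exact_mod_cast this.card_pos
    rw [div_div_div_cancel_right₀ hT.ne', le_div_iff₀ hne] at hrel
    exact hrel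

lemma mem_cut' {V : Type} {x y : V} {F : Finset (Gr V)} {g : {z : V // z ≠ x} → ZMod 2}
    {H : Gr {z : V // z ≠ x}} :
    H ∈ cut x y F g ↔ ∃ G, (G ∈ F ∧ cs x y G = g) ∧ rst x G = H := by
  unfold cut
  constructor
  · intro h
    obtain ⟨G, hG, h1⟩ := (@Finset.mem_image _ _ _ _ _ _).1 h
    exact ⟨G, (@Finset.mem_filter _ _ _ _ _).1 hG, h1⟩
  · rintro ⟨G, hG, h1⟩
    exact (@Finset.mem_image _ _ _ _ _ _).2 ⟨G, (@Finset.mem_filter _ _ _ _ _).2 hG, h1⟩

end PIECE_

open PIECE_ in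
theorem p_PIECE : T_VAL → T_CARD → T_PIECE := by
  intro hV hC V _ r F x y g R' K' κ hxy hR hrel hκ hg N hN
  have hN' : N = NN x y R' := hN
  subst hN'
  refine ⟨typ hxy hR, ?_⟩
  obtain ⟨v1, v2, _, _, v5, v6, v7⟩ := hV V
  subst hκ
  subst hg
  obtain ⟨U, D, hU, hD, hUD⟩ := gen hC r _ R' (rst x κ) hR hrel
  have c1 : (cc (NN x y R') κ x y (cs x y κ)).card = U.card := by
    apply card_bij (fun G _ => rst x G)
    · intro G hG
      unfold cc at hG
      rw [mem_filter] at hG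
      rw [hU]
      exact (ag_iff hV R' κ G hG.2.2).1 hG.2.1
    · intro G hG H hH hGH
      unfold cc at hG hH
      rw [mem_filter] at hG hH
      exact v6 x y hxy G H hGH (hG.2.2.trans hH.2.2.symm)
    · intro H hH
      rw [hU] at hH
      obtain ⟨G, hG1, hG2⟩ := v7 x y hxy H (cs x y κ)
      refine ⟨G, ?_, hG1⟩
      unfold cc
      rw [mem_filter]
      refine ⟨mem_univ _, (ag_iff hV R' κ G hG2).2 ?_, hG2⟩
      rw [hG1]
      exact hH
  have c2 : (F ∩ cc (NN x y R') κ x y (cs x y κ)).card = D.card := by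
    apply card_bij (fun G _ => rst x G)
    · intro G hG
      unfold cc at hG
      rw [mem_inter, mem_filter] at hG
      rw [hD]
      refine ⟨?_, (ag_iff hV R' κ G hG.2.2.2).1 hG.2.2.1⟩
      exact mem_cut'.2 ⟨G, ⟨hG.1, hG.2.2.2⟩, rfl⟩
    · intro G hG H hH hGH
      unfold cc at hG hH
      rw [mem_inter, mem_filter] at hG hH
      exact v6 x y hxy G H hGH (hG.2.2.2.trans hH.2.2.2.symm)
    · intro H hH
      rw [hD] at hH
      obtain ⟨hH1, hH2⟩ := hH
      obtain ⟨G, hG, rfl⟩ := mem_cut'.1 hH1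
      refine ⟨G, ?_, rfl⟩
      unfold cc
      rw [mem_inter, mem_filter]
      exact ⟨hG.1, mem_univ _, (ag_iff hV R' κ G hG.2).2 hH2, hG.2⟩
  rw [c1, c2]
  exact hUD

end Pool.Agent.EFX
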